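import Mathlib

-- part Pool.Agent.Lib.MP_5d78b4_mp.AbsTree
section

set_option autoImplicit false
open Filter Topology

namespace Pool.Agent.Lib.MP_5d78b4_mp.Abs

/-- Nodes of a tree along a digit sequence. -/
noncomputable def node {Z : Type*} {b : ℕ} (Good : ℕ → Z → Prop)
    (ch : ∀ k z, Good k z → Fin b → Z) (hch : ∀ k z h j, Good (k + 1) (ch k z h j))
    (z0 : Z) (h0 : Good 0 z0) (a : ℕ → Fin b) : (k : ℕ) → {z // Good k z}
  | 0 => ⟨z0, h0⟩
  | k + 1 => ⟨ch k (node Good ch hch z0 h0 a k).1 (node Good ch hch z0 h0 a k).2 (a k),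
      hch _ _ _ _⟩

theorem node_congr {Z : Type*} {b : ℕ} (Good : ℕ → Z → Prop)
    (ch : ∀ k z, Good k z → Fin b → Z) (hch : ∀ k z h j, Good (k + 1) (ch k z h j))
    (z0 : Z) (h0 : Good 0 z0) (a a' : ℕ → Fin b) :
    ∀ k : ℕ, (∀ i < k, a i = a' i) → node Good ch hch z0 h0 a k = node Good ch hch z0 h0 a' k
  | 0, _ => rfl
  | k + 1, h => by
    have h1 := node_congr Good ch hch z0 h0 a a' k (fun i hi => h i (by omega))
    apply Subtype.ext
    show ch k _ _ (a k) = ch k _ _ (a' k)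
    rw [h k (by omega)]
    congr 1
    rw [h1]

/-- A uniformly branching separated tree gives a lower bound for the Hausdorff dimension. -/
theorem tree {Z : Type*} (g : Z → ℝ) (Good : ℕ → Z → Prop) (S : Set ℝ) (hS : IsClosed S)
    (hg : ∀ z, g z ∈ S) (A B β σ : ℝ) (b : ℕ) (hA : 0 ≤ A) (hB : 0 < B) (hβ : 0 < β)
    (hβ2 : β ≤ 1 / 2) (hσ : 0 < σ) (hb : 1 ≤ (b : ℝ) * β ^ σ) (z0 : Z) (h0 : Good 0 z0)
    (step : ∀ k z, Good k z → ∃ T : Finset Z, b ≤ T.card ∧
      (∀ c ∈ T, Good (k + 1) c ∧ |g c - g z| ≤ A * β ^ k) ∧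
      ∀ c ∈ T, ∀ c' ∈ T, c ≠ c' → (4 * A + B) * β ^ (k + 1) ≤ |g c - g c'|) :
    ENNReal.ofReal σ ≤ dimH S := by
  classical
  have hβσ : β ^ σ < 1 := Real.rpow_lt_one hβ.le (by linarith) hσ
  have hβσ0 : 0 < β ^ σ := Real.rpow_pos_of_pos hβ σ
  have hb1 : 1 < b := by
    by_contra hh
    have : (b : ℝ) ≤ 1 := by exact_mod_cast (not_lt.1 hh)
    nlinarith
  have step' : ∀ k z, Good k z → ∃ c : Fin b → Z,
      (∀ j, Good (k + 1) (c j) ∧ |g (c j) - g z| ≤ A * β ^ k) ∧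
      ∀ j j', j ≠ j' → (4 * A + B) * β ^ (k + 1) ≤ |g (c j) - g (c j')| := by
    intro k z hz
    obtain ⟨T, h1, h2, h3⟩ := step k z hz
    obtain ⟨T', hT', hc⟩ := Finset.exists_subset_card_eq h1
    let e : T' ≃ Fin b := T'.equivFinOfCardEq hc
    refine ⟨fun j => (e.symm j : Z), fun j => h2 _ (hT' (e.symm j).2), fun j j' hj => ?_⟩
    refine h3 _ (hT' (e.symm j).2) _ (hT' (e.symm j').2) fun hh => hj ?_
    exact e.symm.injective (Subtype.ext hh)
  choose ch hch hsep using step'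
  let nd := node Good ch (fun k z h j => (hch k z h j).1) z0 h0
  have hd : ∀ a k, dist (g (nd a k).1) (g (nd a (k + 1)).1) ≤ A * β ^ k := by
    intro a k
    rw [dist_comm, Real.dist_eq]
    exact (hch k _ (nd a k).2 (a k)).2
  have hβ1 : β < 1 := by linarith
  have hex : ∀ a : ℕ → Fin b, ∃ x, Tendsto (fun k => g (nd a k).1) atTop (𝓝 x) := fun a =>
    cauchySeq_tendsto_of_complete (cauchySeq_of_le_geometric β A hβ1 (hd a))
  choose p hp using hex
  have hpS : ∀ a, p a ∈ S := fun a => hS.mem_of_tendsto (hp a) (Eventually.of_forall fun k => hg _)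
  have hpd : ∀ a k, |g (nd a k).1 - p a| ≤ 2 * A * β ^ k := by
    intro a k
    have h := dist_le_of_le_geometric_of_tendsto β A hβ1 (hd a) (hp a) k
    rw [Real.dist_eq] at h
    refine h.trans ?_
    rw [div_le_iff₀ (by linarith)]
    have : 0 ≤ A * β ^ k := by positivity
    nlinarith
  have key : ∀ a a' : ℕ → Fin b, a ≠ a' → ∃ k, (∀ i < k, a i = a' i) ∧
      B * β ^ (k + 1) ≤ |p a - p a'| := by
    intro a a' hne
    have hex : ∃ k, a k ≠ a' k := Function.ne_iff.1 hne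
    have h1 : ∀ i < Nat.find hex, a i = a' i := fun i hi => by
      by_contra hh; exact Nat.find_min hex hi hh
    refine ⟨Nat.find hex, h1, ?_⟩
    set k := Nat.find hex
    have h2 : nd a k = nd a' k := node_congr Good ch _ z0 h0 a a' k h1
    have h3 := hsep k _ (nd a k).2 (a k) (a' k) (Nat.find_spec hex)
    have h4 := hpd a (k + 1)
    have h5 := hpd a' (k + 1)
    have e1 : (nd a (k + 1)).1 = ch k _ (nd a k).2 (a k) := rfl
    have e2 : (nd a' (k + 1)).1 = ch k _ (nd a k).2 (a' k) := by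
      show ch k _ (nd a' k).2 (a' k) = _
      congr 1
      rw [h2]
    rw [e1] at h4
    rw [e2] at h5
    rw [abs_le] at h4 h5
    rcases le_abs.1 h3 with h | h <;> rw [le_abs]
    · left; linarith [h4.2, h5.1]
    · right; linarith [h4.1, h5.2]
  have hinj : Function.Injective p := by
    intro a a' h
    by_contra hne
    obtain ⟨k, -, hk⟩ := key a a' hne
    rw [h, sub_self, abs_zero] at hk
    have : 0 < B * β ^ (k + 1) := by positivity
    linarith
  have : Nonempty (Fin b) := ⟨⟨0, by omega⟩⟩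
  let h : ℝ → ℝ := fun x => Real.ofDigits (Function.invFun p x)
  have hh : ∀ a, h (p a) = Real.ofDigits a := fun a => by
    simp only [h, Function.leftInverse_invFun hinj a]
  let K : ℝ := ((B * β) ^ σ)⁻¹
  have hK : 0 ≤ K := by positivity
  have hH : HolderOnWith K.toNNReal σ.toNNReal h (Set.range p) := by
    rintro _ ⟨a, rfl⟩ _ ⟨a', rfl⟩
    rw [hh, hh]
    by_cases hne : a = a'
    · subst hne; simp
    obtain ⟨k, hk1, hk2⟩ := key a a' hne
    have h1 := Real.abs_ofDigits_sub_ofDigits_le hk1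
    have h2 : ((b : ℝ) ^ k)⁻¹ ≤ K * |p a - p a'| ^ σ := by
      have h3 : (B * β ^ (k + 1)) ^ σ ≤ |p a - p a'| ^ σ :=
        Real.rpow_le_rpow (by positivity) hk2 hσ.le
      have h4 : (B * β ^ (k + 1)) ^ σ = (B * β) ^ σ * (β ^ σ) ^ k := by
        rw [show B * β ^ (k + 1) = (B * β) * β ^ k by ring,
          Real.mul_rpow (by positivity) (by positivity), ← Real.rpow_natCast β k,
          ← Real.rpow_mul hβ.le, mul_comm (k : ℝ) σ, Real.rpow_mul hβ.le, Real.rpow_natCast]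
      have h5 : ((b : ℝ) ^ k)⁻¹ ≤ (β ^ σ) ^ k := by
        rw [← inv_pow]
        refine pow_le_pow_left₀ (by positivity) ?_ k
        rw [inv_le_iff_one_le_mul₀' (by positivity)]
        exact hb
      have h6 : 0 < (B * β) ^ σ := by positivity
      refine h5.trans ?_
      rw [h4] at h3
      calc (β ^ σ) ^ k = K * ((B * β) ^ σ * (β ^ σ) ^ k) := by
            simp only [K]; field_simp
        _ ≤ _ := mul_le_mul_of_nonneg_left h3 hK
    rw [edist_dist, edist_dist, Real.dist_eq, Real.dist_eq, Real.coe_toNNReal _ hσ.le,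
      ENNReal.ofReal_rpow_of_nonneg (abs_nonneg _) hσ.le]
    change _ ≤ ENNReal.ofReal K * _
    rw [← ENNReal.ofReal_mul hK]
    exact ENNReal.ofReal_le_ofReal (h1.trans h2)
  have hσ' : 0 < σ.toNNReal := Real.toNNReal_pos.2 hσ
  have h1 := hH.dimH_image_le hσ'
  have h2 : Set.Icc (0 : ℝ) 1 ⊆ h '' Set.range p := by
    intro x hx
    obtain ⟨a, -, ha⟩ := Real.ofDigits_SurjOn hb1 hx
    exact ⟨p a, ⟨a, rfl⟩, by rw [hh, ha]⟩
  have h3 : dimH (Set.Icc (0 : ℝ) 1) = 1 := by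
    rw [Real.dimH_of_nonempty_interior (by rw [interior_Icc]; exact ⟨1 / 2, by norm_num⟩)]
    simp
  have h4 : (1 : ENNReal) ≤ dimH S / σ.toNNReal := by
    calc (1 : ENNReal) = dimH (Set.Icc (0 : ℝ) 1) := h3.symm
      _ ≤ dimH (h '' Set.range p) := dimH_mono h2
      _ ≤ dimH (Set.range p) / σ.toNNReal := h1
      _ ≤ _ := ENNReal.div_le_div_right (dimH_mono (by rintro _ ⟨a, rfl⟩; exact hpS a)) _
  rw [ENNReal.le_div_iff_mul_le (Or.inl (by exact_mod_cast hσ'.ne')) (Or.inl ENNReal.coe_ne_top),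
    one_mul] at h4
  exact h4

end Pool.Agent.Lib.MP_5d78b4_mp.Abs
end

-- part Pool.Agent.Lib.MP_5d78b4_mp.SutoMat
section

/-!
Transfer matrices of discrete Schroedinger equations.
-/

set_option autoImplicit false

namespace Pool.Agent.Lib.MP_5d78b4_mp.Suto

open Matrix

/-- One step transfer matrix. -/
def T (c : ℤ → ℂ) (n : ℤ) : Matrix (Fin 2) (Fin 2) ℂ := !![c n, -1; 1, 0]

/-- Transfer matrix over the sites `a, ..., a + m - 1`. -/
def P (c : ℤ → ℂ) (a : ℤ) : ℕ → Matrix (Fin 2) (Fin 2) ℂ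
  | 0 => 1
  | m + 1 => T c (a + m) * P c a m

/-- The residual of the difference equation at the site `n`. -/
def res (c u : ℤ → ℂ) (n : ℤ) : ℂ := u (n + 1) + u (n - 1) - c n * u n

lemma P_add (c : ℤ → ℂ) (a : ℤ) (m n : ℕ) : P c a (m + n) = P c (a + m) n * P c a m := by
  induction n with
  | zero => simp [P]
  | succ n ih =>
    rw [← add_assoc, P, ih, P, Matrix.mul_assoc]
    congr 2
    push_cast
    ring

lemma P_congr (c : ℤ → ℂ) (a a' : ℤ) (m : ℕ)
    (h : ∀ i : ℕ, i < m → c (a + i) = c (a' + i)) : P c a m = P c a' m := by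
  induction m with
  | zero => rfl
  | succ m ih =>
    rw [P, P, ih fun i hi => h i (by omega)]
    unfold T
    rw [h m (by omega)]

lemma det_P (c : ℤ → ℂ) (a : ℤ) (m : ℕ) : (P c a m).det = 1 := by
  induction m with
  | zero => simp [P]
  | succ m ih => rw [P, det_mul, ih]; simp [T, det_fin_two]

lemma trace_shift (c : ℤ → ℂ) (a : ℤ) (m : ℕ) (h : c (a + m) = c a) :
    (P c (a + 1) m).trace = (P c a m).trace := by
  cases m with
  | zero => rfl
  | succ m =>
    have e1 : P c a (m + 1) = P c (a + 1) m * T c a := by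
      rw [add_comm m 1, P_add]
      simp [P]
    have e2 : T c (a + 1 + m) = T c a := by
      unfold T
      rw [← h, show a + 1 + (m : ℤ) = a + ((m + 1 : ℕ) : ℤ) by push_cast; ring]
    rw [e1, P, e2, trace_mul_comm]

lemma trace_rec (A B : Matrix (Fin 2) (Fin 2) ℂ) (h : B.det = 1) :
    (B * (A * B)).trace = (A * B).trace * B.trace - A.trace := by
  rw [det_fin_two] at h
  simp only [trace_fin_two, mul_apply, Fin.sum_univ_two]
  linear_combination (-(A 0 0 + A 1 1)) * h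

lemma P_succ_apply (c : ℤ → ℂ) (a : ℤ) (m : ℕ) (j : Fin 2) :
    P c a (m + 1) 0 j = c (a + m) * P c a m 0 j - P c a m 1 j ∧
      P c a (m + 1) 1 j = P c a m 0 j := by
  constructor
  · simp [P, T, mul_apply, Fin.sum_univ_two]
    ring
  · simp [P, T, mul_apply, Fin.sum_univ_two]

lemma err_bound (K : ℝ) (hK : 0 ≤ K) (m : ℕ) : ∃ C : ℝ, 1 ≤ C ∧ ∀ c : ℤ → ℂ, (∀ n, ‖c n‖ ≤ K) →
    ∀ a : ℤ, (∀ j, ‖P c a m 0 j‖ ≤ C ∧ ‖P c a m 1 j‖ ≤ C) ∧ ∀ (u : ℤ → ℂ) (g : ℝ), 0 ≤ g →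
      (∀ i : ℕ, i < m → ‖res c u (a + i)‖ ≤ g) →
      ‖u (a + m) - (P c a m 0 0 * u a + P c a m 0 1 * u (a - 1))‖ ≤ C * g ∧
      ‖u (a + m - 1) - (P c a m 1 0 * u a + P c a m 1 1 * u (a - 1))‖ ≤ C * g := by
  induction m with
  | zero =>
    refine ⟨1, le_rfl, fun c _ a => ⟨fun j => ?_, fun u g hg _ => ?_⟩⟩
    · fin_cases j <;> simp [P, Matrix.one_apply]
    · simp [P, hg]
  | succ m ih =>
    obtain ⟨C, hC, H⟩ := ih
    have hC' : C ≤ (K + 2) * C := by nlinarith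
    refine ⟨(K + 2) * C, by linarith, fun c hc a => ⟨fun j => ?_, fun u g hg hr => ?_⟩⟩
    · obtain ⟨h1, h2⟩ := (H c hc a).1 j
      obtain ⟨e1, e2⟩ := P_succ_apply c a m j
      rw [e1, e2]
      refine ⟨?_, by linarith⟩
      calc _ ≤ ‖c (a + m) * P c a m 0 j‖ + ‖P c a m 1 j‖ := norm_sub_le _ _
        _ ≤ K * C + C := by
          rw [norm_mul]
          gcongr
          exact hc _
        _ ≤ _ := by nlinarith
    · obtain ⟨h1, h2⟩ := (H c hc a).2 u g hg fun i hi => hr i (by omega)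
      have h3 := hr m (by omega)
      obtain ⟨e1, e2⟩ := P_succ_apply c a m 0
      obtain ⟨e3, e4⟩ := P_succ_apply c a m 1
      rw [e1, e2, e3, e4]
      have i1 : a + ((m + 1 : ℕ) : ℤ) = a + m + 1 := by push_cast; ring
      rw [i1, add_sub_cancel_right]
      have hg' : C * g ≤ (K + 2) * C * g := by gcongr
      refine ⟨?_, h1.trans hg'⟩
      have e : u (a + m + 1) - ((c (a + m) * P c a m 0 0 - P c a m 1 0) * u a +
          (c (a + m) * P c a m 0 1 - P c a m 1 1) * u (a - 1)) =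
          c (a + m) * (u (a + m) - (P c a m 0 0 * u a + P c a m 0 1 * u (a - 1))) -
          (u (a + m - 1) - (P c a m 1 0 * u a + P c a m 1 1 * u (a - 1))) + res c u (a + m) := by
        unfold res
        ring
      rw [e]
      calc _ ≤ ‖c (a + m) * (u (a + m) - (P c a m 0 0 * u a + P c a m 0 1 * u (a - 1)))‖ +
            ‖u (a + m - 1) - (P c a m 1 0 * u a + P c a m 1 1 * u (a - 1))‖ +
            ‖res c u (a + m)‖ :=
            (norm_add_le _ _).trans (by gcongr; exact norm_sub_le _ _)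
        _ ≤ K * (C * g) + C * g + g := by
          rw [norm_mul]
          gcongr
          exact hc _
        _ ≤ _ := by nlinarith [mul_le_mul_of_nonneg_right hC hg]

/-- Local form of the identity `M + M⁻¹ = tr M`. -/
lemma local_id (K : ℝ) (hK : 0 ≤ K) (m : ℕ) : ∃ C : ℝ, 0 ≤ C ∧ ∀ c : ℤ → ℂ, (∀ n, ‖c n‖ ≤ K) →
    ∀ (n : ℤ), (∀ i : ℕ, i < m → c (n + 1 + i) = c (n - m + i)) →
      ∀ (u : ℤ → ℂ) (g : ℝ), (∀ i : ℤ, n - m ≤ i → i ≤ n + m → ‖res c u i‖ ≤ g) →
      ‖u (n + (m + 1)) + u (n - (m + 1)) - (P c (n - m) (m + 1)).trace * u n‖ ≤ C * g := by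
  obtain ⟨C, hC, H⟩ := err_bound K hK m
  refine ⟨2 * C + 2 * C ^ 2, by positivity, fun c hc n hp u g hr => ?_⟩
  have h0 := hr n (by omega) (by omega)
  have hg : 0 ≤ g := (norm_nonneg _).trans h0
  have eA : P c (n + 1) m = P c (n - m) m := P_congr c _ _ m hp
  obtain ⟨b, H1⟩ := H c hc (n - m)
  obtain ⟨x1, x2⟩ := H1 u g hg fun i hi => hr _ (by omega) (by omega)
  obtain ⟨x3, -⟩ := (H c hc (n + 1)).2 u g hg fun i hi => hr _ (by omega) (by omega)
  rw [eA] at x3
  have d := det_P c (n - m) m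
  rw [det_fin_two] at d
  have t : (P c (n - m) (m + 1)).trace =
      c n * P c (n - m) m 0 0 - P c (n - m) m 1 0 + P c (n - m) m 0 1 := by
    rw [trace_fin_two, (P_succ_apply c (n - m) m 0).1, (P_succ_apply c (n - m) m 1).2,
      sub_add_cancel]
  rw [t]
  rw [sub_add_cancel] at x1 x2
  rw [add_sub_cancel_right, show n + 1 + m = n + (m + 1) by ring] at x3
  rw [show n - m - 1 = n - (m + 1) by ring] at x1 x2
  obtain ⟨b1, b2⟩ := b 0
  generalize P c (n - m) m = A at *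
  have e : u (n + (m + 1)) + u (n - (m + 1)) - (c n * A 0 0 - A 1 0 + A 0 1) * u n =
      (u (n + (m + 1)) - (A 0 0 * u (n + 1) + A 0 1 * u n)) + A 0 0 * res c u n -
        A 0 0 * (u (n - 1) - (A 1 0 * u (n - m) + A 1 1 * u (n - (m + 1)))) +
        A 1 0 * (u n - (A 0 0 * u (n - m) + A 0 1 * u (n - (m + 1)))) := by
    unfold res
    linear_combination (-(u (n - (m + 1)))) * d
  rw [e]
  calc _ ≤ ‖u (n + (m + 1)) - (A 0 0 * u (n + 1) + A 0 1 * u n)‖ + ‖A 0 0 * res c u n‖ +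
        ‖A 0 0 * (u (n - 1) - (A 1 0 * u (n - m) + A 1 1 * u (n - (m + 1))))‖ +
        ‖A 1 0 * (u n - (A 0 0 * u (n - m) + A 0 1 * u (n - (m + 1))))‖ := by
        refine (norm_add_le _ _).trans ?_
        gcongr
        refine (norm_sub_le _ _).trans ?_
        gcongr
        exact norm_add_le _ _
    _ ≤ C * g + C * g + C * (C * g) + C * (C * g) := by
        simp only [norm_mul]
        gcongr
    _ = _ := by ring

/-- Gordon type estimate from the Cayley-Hamilton theorem. -/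
lemma gordon (K : ℝ) (hK : 0 ≤ K) (c : ℤ → ℂ) (hc : ∀ n, ‖c n‖ ≤ K) (q : ℕ)
    (hp : ∀ i : ℕ, i < q → c (1 + q + i) = c (1 + i)) (ht : ‖(P c 1 q).trace‖ ≤ 2)
    (u : ℤ → ℂ) (hu : ∀ n, 1 ≤ n → res c u n = 0) :
    ‖u 1‖ ≤ 2 * ‖u (q + 1)‖ + ‖u (q + q + 1)‖ ∧ ‖u 0‖ ≤ 2 * ‖u q‖ + ‖u (q + q)‖ := by
  obtain ⟨C, -, H⟩ := err_bound K hK q
  obtain ⟨x1, x2⟩ := (H c hc 1).2 u 0 le_rfl fun i _ => by rw [hu _ (by omega), norm_zero]
  obtain ⟨x3, x4⟩ := (H c hc (1 + q)).2 u 0 le_rfl fun i _ => by rw [hu _ (by omega), norm_zero]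
  rw [P_congr c _ _ q hp] at x3 x4
  rw [mul_zero, norm_le_zero_iff, sub_eq_zero] at x1 x2 x3 x4
  have d := det_P c 1 q
  rw [det_fin_two] at d
  rw [trace_fin_two] at ht
  generalize P c 1 q = A at *
  rw [show (1 : ℤ) + q - 1 = q by ring] at x2 x3 x4
  rw [show (1 : ℤ) + q + q - 1 = q + q by ring] at x4
  rw [show (1 : ℤ) + q + q = q + q + 1 by ring] at x3
  rw [show (1 : ℤ) + q = q + 1 by ring] at x1 x3 x4
  rw [show (1 : ℤ) - 1 = 0 by ring] at x1 x2
  have e1 : u 1 = (A 0 0 + A 1 1) * u (q + 1) - u (q + q + 1) := by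
    rw [x3, x1, x2]
    linear_combination (-(u 1)) * d
  have e2 : u 0 = (A 0 0 + A 1 1) * u q - u (q + q) := by
    rw [x4, x1, x2]
    linear_combination (-(u 0)) * d
  constructor
  · rw [e1]
    refine (norm_sub_le _ _).trans ?_
    rw [norm_mul]
    gcongr
  · rw [e2]
    refine (norm_sub_le _ _).trans ?_
    rw [norm_mul]
    gcongr

end Pool.Agent.Lib.MP_5d78b4_mp.Suto
end

-- part Pool.Agent.Lib.MP_5d78b4_mp.SutoOp
section

/-!
Discrete Schroedinger operators on square summable sequences.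
-/

set_option autoImplicit false

open Filter Topology

namespace Pool.Agent.Lib.MP_5d78b4_mp.Suto

/-- Square summable complex sequences. -/
abbrev H2 : Type := lp (fun _ : ℤ => ℂ) 2

lemma hasSum_sq (u : H2) (d : ℤ) : HasSum (fun n : ℤ => ‖u (n + d)‖ ^ 2) (‖u‖ ^ 2) := by
  have h := lp.hasSum_norm (p := 2) (by norm_num) u
  simp only [ENNReal.toReal_ofNat, Real.rpow_ofNat] at h
  exact (Equiv.addRight d).hasSum_iff.2 h

lemma hasSum_sq0 (u : H2) : HasSum (fun n : ℤ => ‖u n‖ ^ 2) (‖u‖ ^ 2) := by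
  simpa using hasSum_sq u 0

lemma small (u : H2) (ε : ℝ) (hε : 0 < ε) : ∃ N : ℤ, ∀ n : ℤ, N ≤ |n| → ‖u n‖ ≤ ε := by
  have h := (hasSum_sq0 u).summable.tendsto_cofinite_zero
  have h2 := h.eventually (gt_mem_nhds (show (0 : ℝ) < ε ^ 2 by positivity))
  rw [eventually_cofinite] at h2
  obtain ⟨N, hN⟩ := (h2.image fun n => |n|).bddAbove
  refine ⟨N + 1, fun n hn => ?_⟩
  by_contra q
  have : |n| ≤ N := hN ⟨n, by
    simp only [Set.mem_ofPred_eq, not_lt]
    nlinarith [not_le.1 q], rfl⟩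
  omega

lemma sq3 (a b c : ℝ) : (a + b + c) ^ 2 ≤ 3 * (a ^ 2 + b ^ 2 + c ^ 2) := by
  nlinarith [sq_nonneg (a - b), sq_nonneg (a - c), sq_nonneg (b - c)]

/-- The operator exists for a bounded potential. -/
lemma exists_op (V : ℤ → ℂ) (K : ℝ) (hV : ∀ n, ‖V n‖ ≤ K) :
    ∃ T : H2 →L[ℂ] H2, ∀ (u : H2) (n : ℤ), T u n = u (n + 1) + u (n - 1) + V n * u n := by
  have hK : 0 ≤ K := (norm_nonneg _).trans (hV 0)
  have hb : ∀ (u : H2) (n : ℤ), ‖u (n + 1) + u (n - 1) + V n * u n‖ ^ 2 ≤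
      3 * (‖u (n + 1)‖ ^ 2 + ‖u (n + -1)‖ ^ 2 + K ^ 2 * ‖u n‖ ^ 2) := by
    intro u n
    have h1 : ‖u (n + 1) + u (n - 1) + V n * u n‖ ≤ ‖u (n + 1)‖ + ‖u (n + -1)‖ + K * ‖u n‖ := by
      refine (norm_add_le _ _).trans ?_
      rw [norm_mul, sub_eq_add_neg]
      gcongr
      · exact norm_add_le _ _
      · exact hV n
    rw [← mul_pow]
    exact (pow_le_pow_left₀ (norm_nonneg _) h1 2).trans (sq3 _ _ _)
  have hs : ∀ u : H2, HasSum (fun n : ℤ =>
      3 * (‖u (n + 1)‖ ^ 2 + ‖u (n + -1)‖ ^ 2 + K ^ 2 * ‖u n‖ ^ 2))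
      (3 * (‖u‖ ^ 2 + ‖u‖ ^ 2 + K ^ 2 * ‖u‖ ^ 2)) := fun u =>
    (((hasSum_sq u 1).add (hasSum_sq u (-1))).add ((hasSum_sq0 u).mul_left _)).mul_left _
  have hm : ∀ u : H2, Memℓp (fun n : ℤ => u (n + 1) + u (n - 1) + V n * u n) 2 := by
    intro u
    apply memℓp_gen
    simp only [ENNReal.toReal_ofNat, Real.rpow_ofNat]
    exact Summable.of_nonneg_of_le (fun n => by positivity) (hb u) (hs u).summable
  let L : H2 →ₗ[ℂ] H2 :=
    { toFun := fun u => ⟨fun n => u (n + 1) + u (n - 1) + V n * u n, hm u⟩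
      map_add' := fun x y => by
        ext n
        simp only [lp.coeFn_add, Pi.add_apply]
        ring
      map_smul' := fun a x => by
        ext n
        simp only [lp.coeFn_smul, Pi.smul_apply, smul_eq_mul, RingHom.id_apply]
        ring }
  refine ⟨L.mkContinuous (3 + 2 * K) fun u => ?_, fun u n => rfl⟩
  have h1 : ‖L u‖ ^ 2 ≤ 3 * (‖u‖ ^ 2 + ‖u‖ ^ 2 + K ^ 2 * ‖u‖ ^ 2) :=
    hasSum_le (hb u) (hasSum_sq0 (L u)) (hs u)
  refine (pow_le_pow_iff_left₀ (norm_nonneg _) (by positivity) two_ne_zero).1 (h1.trans ?_)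
  have : 0 ≤ ‖u‖ ^ 2 := by positivity
  have h2 : 0 ≤ K * ‖u‖ ^ 2 := by positivity
  have h3 : 0 ≤ K ^ 2 * ‖u‖ ^ 2 := by positivity
  nlinarith

/-- A bounded below operator with real coefficients is invertible. -/
lemma isUnit_of_bound (c : ℤ → ℝ) (A : H2 →L[ℂ] H2)
    (hA : ∀ (u : H2) (n : ℤ), A u n = -res (fun n => (c n : ℂ)) u n) (C : ℝ) (hC : 0 ≤ C)
    (h : ∀ u : H2, ‖u‖ ≤ C * ‖A u‖) : IsUnit A := by
  rw [ContinuousLinearMap.isUnit_iff_bijective,
    ContinuousLinearMap.bijective_iff_dense_range_and_antilipschitz]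
  refine ⟨?_, ⟨C, hC⟩, A.antilipschitz_of_bound h⟩
  rw [Submodule.topologicalClosure_eq_top_iff, Submodule.eq_bot_iff]
  intro w hw
  have h0 : A w = 0 := by
    ext n
    have e : A (lp.single 2 n 1) = lp.single 2 n (c n : ℂ) - lp.single 2 (n + 1) 1 -
        lp.single 2 (n - 1) 1 := by
      ext m
      rw [hA]
      simp only [res, lp.coeFn_sub, Pi.sub_apply, lp.single_apply, Pi.single_apply]
      split_ifs <;> first | omega | (subst_vars; simp)
    have h1 : inner ℂ (A (lp.single 2 n 1)) w = 0 := hw _ ⟨_, rfl⟩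
    rw [e, inner_sub_left, inner_sub_left, lp.inner_single_left, lp.inner_single_left,
      lp.inner_single_left] at h1
    simp only [RCLike.inner_apply, Complex.conj_ofReal, map_one, mul_one] at h1
    rw [hA]
    simp only [res, lp.coeFn_zero, Pi.zero_apply]
    linear_combination h1
  have := h w
  rw [h0, norm_zero, mul_zero] at this
  exact norm_le_zero_iff.1 this

/-- From the local estimates to a lower bound for the operator. -/
lemma bound_of_local (u f : H2) (q1 q2 : ℤ) (Q : ℕ) (C : ℝ)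
    (h : ∀ (n : ℤ) (g : ℝ), (∀ i : ℤ, n - Q ≤ i → i ≤ n + Q → ‖f i‖ ≤ g) →
      ∃ (q : ℤ) (τ : ℂ), (q = q1 ∨ q = q2) ∧ 4 ≤ ‖τ‖ ∧
        ‖u (n + q) + u (n - q) - τ * u n‖ ≤ C * g) :
    ‖u‖ ≤ (|C| * (2 * Q + 1)) * ‖f‖ := by
  have hp : ∀ n : ℤ, 16 * ‖u n‖ ^ 2 ≤ 3 * (‖u (n + q1)‖ ^ 2 + ‖u (n + -q1)‖ ^ 2 +
      ‖u (n + q2)‖ ^ 2 + ‖u (n + -q2)‖ ^ 2 +
      C ^ 2 * ∑ j ∈ Finset.range (2 * Q + 1), ‖f (n + (j - Q))‖ ^ 2) := by
    intro n
    set S := ∑ j ∈ Finset.range (2 * Q + 1), ‖f (n + (j - Q))‖ ^ 2 with hS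
    have hS0 : 0 ≤ S := Finset.sum_nonneg fun _ _ => by positivity
    obtain ⟨q, τ, hq, hτ, h1⟩ := h n (Real.sqrt S) fun i a b => by
      apply Real.le_sqrt_of_sq_le
      have e : i = n + (((i - n + Q).toNat : ℤ) - Q) := by omega
      have := Finset.single_le_sum (f := fun j : ℕ => ‖f (n + (j - Q))‖ ^ 2)
        (s := Finset.range (2 * Q + 1)) (fun _ _ => by positivity)
        (a := (i - n + Q).toNat) (Finset.mem_range.2 (by omega))
      simp only [← e] at this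
      exact this
    have h2 : 4 * ‖u n‖ ≤ ‖u (n + q)‖ + ‖u (n + -q)‖ + C * Real.sqrt S := by
      have e : τ * u n = u (n + q) + u (n - q) - (u (n + q) + u (n - q) - τ * u n) := by ring
      calc _ ≤ ‖τ * u n‖ := by rw [norm_mul]; gcongr
        _ ≤ ‖u (n + q) + u (n - q)‖ + ‖u (n + q) + u (n - q) - τ * u n‖ := by
          conv_lhs => rw [e]
          exact norm_sub_le _ _
        _ ≤ _ := by
          rw [← sub_eq_add_neg]
          gcongr
          exact norm_add_le _ _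
    have h3 := (pow_le_pow_left₀ (by positivity) h2 2).trans (sq3 _ _ _)
    rw [mul_pow C, Real.sq_sqrt hS0] at h3
    rcases hq with rfl | rfl
    · nlinarith [sq_nonneg ‖u (n + q2)‖, sq_nonneg ‖u (n + -q2)‖]
    · nlinarith [sq_nonneg ‖u (n + q1)‖, sq_nonneg ‖u (n + -q1)‖]
  have hs := hasSum_le hp ((hasSum_sq0 u).mul_left 16)
    ((((((hasSum_sq u q1).add (hasSum_sq u (-q1))).add (hasSum_sq u q2)).add
      (hasSum_sq u (-q2))).add ((hasSum_sum fun (j : ℕ) (_ : j ∈ Finset.range (2 * Q + 1)) =>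
        hasSum_sq f (j - Q)).mul_left (C ^ 2))).mul_left 3)
  rw [Finset.sum_const, Finset.card_range, nsmul_eq_mul] at hs
  refine (pow_le_pow_iff_left₀ (norm_nonneg _) (by positivity) two_ne_zero).1 ?_
  rw [mul_pow, mul_pow, sq_abs]
  push_cast at hs
  have a1 : 0 ≤ C ^ 2 * ‖f‖ ^ 2 := by positivity
  have a2 : (0 : ℝ) ≤ Q := Nat.cast_nonneg _
  have a3 : 0 ≤ (Q : ℝ) * (C ^ 2 * ‖f‖ ^ 2) := by positivity
  have a4 : 0 ≤ (Q : ℝ) ^ 2 * (C ^ 2 * ‖f‖ ^ 2) := by positivity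
  nlinarith

/-- Two square summable sequences cannot have Wronskian one on a left half-line. -/
lemma wronski (c : ℤ → ℂ) (u w : H2) (hu : ∀ n, n ≤ -2 → res c u n = 0)
    (hw : ∀ n, n ≤ -2 → res c w n = 0) : u (-1) * w (-2) - u (-2) * w (-1) = 0 := by
  have h1 : ∀ k : ℕ, u (-1) * w (-2) - u (-2) * w (-1) =
      u (-1 - k) * w (-2 - k) - u (-2 - k) * w (-1 - k) := by
    intro k
    induction k with
    | zero => simp
    | succ k ih =>
      have a := hu (-2 - k) (by omega)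
      have b := hw (-2 - k) (by omega)
      unfold res at a b
      rw [show (-2 - k : ℤ) + 1 = -1 - k by ring] at a b
      rw [ih, show (-1 - ((k + 1 : ℕ) : ℤ)) = -2 - k by push_cast; ring,
        show (-2 - ((k + 1 : ℕ) : ℤ)) = -2 - k - 1 by push_cast; ring]
      linear_combination w (-2 - k) * a - u (-2 - k) * b
  apply norm_le_zero_iff.1
  refine le_of_forall_pos_le_add fun ε hε => ?_
  obtain ⟨N, hN⟩ := small u (ε / (2 * (‖w‖ + 1))) (by positivity)
  rw [h1 N.natAbs, zero_add]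
  have a1 := hN (-1 - N.natAbs) (by rw [abs_of_neg (by omega)]; omega)
  have a2 := hN (-2 - N.natAbs) (by rw [abs_of_neg (by omega)]; omega)
  have b1 : ∀ n, ‖w n‖ ≤ ‖w‖ + 1 := fun n =>
    (lp.norm_apply_le_norm (by norm_num) w n).trans (by linarith)
  calc _ ≤ ‖u (-1 - N.natAbs) * w (-2 - N.natAbs)‖ + ‖u (-2 - N.natAbs) * w (-1 - N.natAbs)‖ :=
        norm_sub_le _ _
    _ ≤ ε / (2 * (‖w‖ + 1)) * (‖w‖ + 1) + ε / (2 * (‖w‖ + 1)) * (‖w‖ + 1) := by
        simp only [norm_mul]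
        gcongr <;> exact b1 _
    _ = ε := by field_simp; ring

end Pool.Agent.Lib.MP_5d78b4_mp.Suto
end

-- part Pool.Agent.Lib.MP_5d78b4_mp.SutoComb
section

/-!
Arithmetic of the golden rotation: best approximation, singular positions, local periodicity.
-/

set_option autoImplicit false

namespace Pool.Agent.Lib.MP_5d78b4_mp.Suto

/-- The inverse golden mean. -/
noncomputable def al : ℝ := (Real.sqrt 5 - 1) / 2

lemma al_sq : al ^ 2 = 1 - al := by
  have h : Real.sqrt 5 ^ 2 = 5 := Real.sq_sqrt (by norm_num)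
  unfold al
  nlinarith

lemma al_gt : 1 / 2 < al := by
  have h : (2 : ℝ) < Real.sqrt 5 := Real.lt_sqrt_of_sq_lt (by norm_num)
  unfold al
  linarith

lemma al_lt : al < 1 := by
  have h : Real.sqrt 5 < 3 := (Real.sqrt_lt' (by norm_num)).2 (by norm_num)
  unfold al
  linarith

lemma al_pos : 0 < al := by linarith [al_gt]

/-- The integer part of `n * al`. -/
noncomputable def fl (n : ℤ) : ℤ := ⌊(n : ℝ) * al⌋

/-- The Fibonacci sequence of zeros and ones. -/
noncomputable def v (n : ℤ) : ℤ := fl (n + 1) - fl n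

/-- Fibonacci numbers as integers. -/
def F (j : ℕ) : ℤ := (Nat.fib j : ℤ)

lemma F_add (j : ℕ) : F (j + 2) = F j + F (j + 1) := by
  simp [F, Nat.fib_add_two]

lemma F_nonneg (j : ℕ) : 0 ≤ F j := Int.natCast_nonneg _

lemma F_pos (j : ℕ) : 1 ≤ F (j + 1) := by
  have := Nat.fib_pos.2 (Nat.succ_pos j)
  unfold F
  exact_mod_cast this

lemma F_two_le (j : ℕ) : 2 ≤ F (j + 3) := by
  have h1 := F_add (j + 1)
  have h2 := F_pos j
  have h3 := F_pos (j + 1)
  simp only [add_assoc] at h1 h3 ⊢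
  norm_num at h1 h3 ⊢
  omega

/-- The approximation error at level `j`. -/
noncomputable def dl (j : ℕ) : ℝ := (F (j + 1) : ℝ) * al - F j

lemma dl_zero : dl 0 = al := by simp [dl, F]

lemma dl_succ (j : ℕ) : dl (j + 1) = -al * dl j := by
  unfold dl
  rw [show j + 1 + 1 = j + 2 from rfl, F_add]
  push_cast
  linear_combination (F (j + 1) : ℝ) * al_sq

lemma dl_ne (j : ℕ) : dl j ≠ 0 := by
  induction j with
  | zero => rw [dl_zero]; exact al_pos.ne'
  | succ j ih => rw [dl_succ]; exact mul_ne_zero (neg_ne_zero.2 al_pos.ne') ih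

lemma dl_two (j i : ℕ) : dl (j + 2 * i) = dl j * (al ^ 2) ^ i := by
  induction i with
  | zero => simp
  | succ i ih =>
    rw [show j + 2 * (i + 1) = j + 2 * i + 1 + 1 by ring, dl_succ, dl_succ, ih]
    ring

lemma lat0 (j : ℕ) (d N : ℤ) :
    ∃ x y : ℤ, d = x * F (j + 1) + y * F (j + 2) ∧ N = x * F j + y * F (j + 1) := by
  induction j with
  | zero => exact ⟨d - N, N, by simp [F], by simp [F]⟩
  | succ j ih =>
    obtain ⟨x, y, h1, h2⟩ := ih
    refine ⟨y - x, x, ?_, ?_⟩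
    · rw [show j + 1 + 2 = (j + 1) + 2 from rfl, F_add (j + 1), h1]
      ring
    · rw [h2, show j + 1 + 1 = j + 2 from rfl, F_add j]
      ring

lemma lat (j : ℕ) (d N : ℤ) (t : ℝ) (h : (d : ℝ) * al - N = dl j * t) :
    ∃ x y : ℤ, d = x * F (j + 1) + y * F (j + 2) ∧ t = x - al * y := by
  obtain ⟨x, y, h1, h2⟩ := lat0 j d N
  refine ⟨x, y, h1, ?_⟩
  apply mul_left_cancel₀ (dl_ne j)
  have e := dl_succ j
  rw [← h, h1, h2]
  have e1 : dl j = (F (j + 1) : ℝ) * al - F j := rfl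
  have e2 : dl (j + 1) = (F (j + 2) : ℝ) * al - F (j + 1) := rfl
  push_cast
  linear_combination (-(x : ℝ)) * e1 - (y : ℝ) * e2 + (y : ℝ) * e

/-- Signed best approximation. -/
lemma best (j : ℕ) (i N : ℤ) (t : ℝ) (h : (i : ℝ) * al - N = dl j * t) (h1 : 1 ≤ i)
    (h2 : i < F (j + 2)) (h3 : -1 ≤ t) (h4 : t < 1) : False := by
  obtain ⟨x, y, e, rfl⟩ := lat j i N t h
  have p1 := F_pos j
  have p2 := F_pos (j + 1)
  have a := al_pos
  rcases lt_trichotomy y 0 with hy | hy | hy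
  · have hy' : (y : ℝ) ≤ -1 := by exact_mod_cast (show y ≤ -1 by omega)
    have hx : (x : ℝ) < 1 := by nlinarith
    have hx' : x ≤ 0 := by
      have : x < 1 := by exact_mod_cast hx
      omega
    nlinarith
  · subst hy
    have hx : (x : ℝ) < 1 := by simpa using h4
    have hx' : x ≤ 0 := by
      have : x < 1 := by exact_mod_cast hx
      omega
    nlinarith
  · have hy' : (1 : ℝ) ≤ y := by exact_mod_cast hy
    have hx : (-1 : ℝ) < x := by nlinarith
    have hx' : 0 ≤ x := by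
      have : -1 < x := by exact_mod_cast hx
      omega
    nlinarith

/-- `m * al` lies in the exceptional interval of level `j`. -/
def Near (j : ℕ) (m : ℤ) : Prop :=
  ∃ (N : ℤ) (t : ℝ), (m : ℝ) * al - N = dl j * t ∧ -1 ≤ t ∧ t ≤ 0 ∧ (0 < dl j → t < 0) ∧
    (dl j < 0 → -1 < t)

/-- The position `m` is regular at level `j`. -/
def Reg (j : ℕ) (m : ℤ) : Prop := fl (m + F (j + 1)) = fl m + F j

lemma floor_between (x t : ℝ) (h : ⌊x + t⌋ ≠ ⌊x⌋) :
    ∃ N : ℤ, (x < N ∧ N ≤ x + t) ∨ (x + t < N ∧ N ≤ x) := by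
  rcases lt_or_gt_of_ne h with h | h
  · exact ⟨⌊x⌋, Or.inr ⟨Int.floor_lt.1 h, Int.floor_le x⟩⟩
  · exact ⟨⌊x + t⌋, Or.inl ⟨Int.floor_lt.1 h, Int.floor_le _⟩⟩

lemma near_of_not_reg (j : ℕ) (m : ℤ) (h : ¬ Reg j m) : Near j m := by
  have e : fl (m + F (j + 1)) = ⌊(m : ℝ) * al + dl j⌋ + F j := by
    unfold fl dl
    rw [← Int.floor_add_intCast]
    congr 1
    push_cast
    ring
  have h' : ⌊(m : ℝ) * al + dl j⌋ ≠ ⌊(m : ℝ) * al⌋ := by
    intro q
    apply h
    unfold Reg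
    rw [e, q]
    rfl
  obtain ⟨N, hN⟩ := floor_between _ _ h'
  have hd := dl_ne j
  refine ⟨N, ((m : ℝ) * al - N) / dl j, by field_simp, ?_⟩
  rcases hN with ⟨a, b⟩ | ⟨a, b⟩
  · have p : 0 < dl j := by linarith
    refine ⟨?_, ?_, fun _ => ?_, fun q => absurd q p.le.not_gt⟩
    · rw [le_div_iff₀ p]; linarith
    · exact div_nonpos_of_nonpos_of_nonneg (by linarith) p.le
    · exact div_neg_of_neg_of_pos (by linarith) p
  · have p : dl j < 0 := by linarith
    refine ⟨?_, ?_, fun q => absurd q p.le.not_gt, fun _ => ?_⟩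
    · rw [le_div_iff_of_neg p]; linarith
    · exact div_nonpos_of_nonneg_of_nonpos (by linarith) p.le
    · rw [lt_div_iff_of_neg p]; linarith

lemma reg_of_lt (j : ℕ) (n : ℤ) (h1 : 1 ≤ n) (h2 : n < F (j + 2)) : Reg j n := by
  by_contra h
  obtain ⟨N, t, e, a, b, -, -⟩ := near_of_not_reg j n h
  exact best j n N t e h1 h2 a (by linarith)

lemma v_per {j : ℕ} {m : ℤ} (h1 : Reg j m) (h2 : Reg j (m + 1)) : v (m + F (j + 1)) = v m := by
  unfold v
  unfold Reg at h1 h2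
  rw [show m + F (j + 1) + 1 = m + 1 + F (j + 1) by ring, h1, h2]
  ring

/-- Exceptional positions of two consecutive levels are far apart. -/
lemma apart (j : ℕ) (m m' : ℤ) (h : Near j m) (h' : Near (j + 1) m') :
    F (j + 1) ≤ m' - m ∨ m' - m ≤ -F (j + 2) := by
  obtain ⟨N, t, e, a, b, c, d⟩ := h
  obtain ⟨N', t', e', a', b', c', d'⟩ := h'
  have p := al_pos
  have hs := dl_succ j
  have e2 : ((m' - m : ℤ) : ℝ) * al - ((N' - N : ℤ) : ℝ) = dl j * (-al * t' - t) := by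
    push_cast
    rw [hs] at e'
    linear_combination e' - e
  have hb : 0 < -al * t' - t ∧ -al * t' - t < 1 + al := by
    rcases lt_or_gt_of_ne (dl_ne j) with q | q
    · have q' : 0 < dl (j + 1) := by rw [hs]; nlinarith
      have := c' q'
      have := d q
      constructor <;> nlinarith
    · have q' : dl (j + 1) < 0 := by rw [hs]; nlinarith
      have := c q
      have := d' q'
      constructor <;> nlinarith
  obtain ⟨x, y, e3, e4⟩ := lat j _ _ _ e2
  rw [e4] at hb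
  have p1 := F_pos j
  have p2 := F_pos (j + 1)
  rcases le_or_gt 0 y with hy | hy
  · left
    have hy' : (0 : ℝ) ≤ y := by exact_mod_cast hy
    have hx : (0 : ℝ) < x := by nlinarith [hb.1]
    have hx' : 1 ≤ x := by
      have : 0 < x := by exact_mod_cast hx
      omega
    nlinarith
  · right
    have hy' : (y : ℝ) ≤ -1 := by exact_mod_cast (show y ≤ -1 by omega)
    have hx : (x : ℝ) < 1 := by nlinarith [hb.2]
    have hx' : x ≤ 0 := by
      have : x < 1 := by exact_mod_cast hx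
      omega
    nlinarith

/-- After an exceptional position one sees the beginning of the right half-line. -/
lemma fl_after (j : ℕ) (b : ℤ) (h : Near j b) :
    ∃ N : ℤ, ∀ i : ℤ, 1 ≤ i → i < F (j + 2) → fl (b + i) = N + fl i := by
  obtain ⟨N, t, e, a, b', c, d⟩ := h
  refine ⟨N, fun i h1 h2 => ?_⟩
  have e1 : fl (b + i) = N + ⌊(i : ℝ) * al + dl j * t⌋ := by
    unfold fl
    rw [← Int.floor_intCast_add]
    congr 1
    push_cast
    linear_combination e
  rw [e1]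
  congr 1
  by_contra h'
  obtain ⟨M, hM⟩ := floor_between _ _ h'
  have hd := dl_ne j
  have e2 : (i : ℝ) * al - M = dl j * (((i : ℝ) * al - M) / dl j) := by field_simp
  generalize ((i : ℝ) * al - M) / dl j = s at e2
  rcases hM with ⟨x, y⟩ | ⟨x, y⟩
  · have p : dl j < 0 := by
      by_contra q
      have : 0 ≤ dl j := not_lt.1 q
      nlinarith
    have := d p
    refine best j i M s e2 h1 h2 ?_ ?_ <;> nlinarith
  · have p : 0 < dl j := by
      by_contra q
      have : dl j ≤ 0 := not_lt.1 q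
      nlinarith
    refine best j i M s e2 h1 h2 ?_ ?_ <;> nlinarith

lemma v_after (j : ℕ) (b : ℤ) (h : Near j b) (i : ℤ) (h1 : 1 ≤ i) (h2 : i + 1 < F (j + 2)) :
    v (b + i) = v i := by
  obtain ⟨N, hN⟩ := fl_after j b h
  unfold v
  rw [add_assoc, hN _ (by omega) h2, hN _ h1 (by omega)]
  ring

lemma exists_near_lt (j : ℕ) (a : ℤ) : ∃ b : ℤ, b < a ∧ Near j b := by
  have p := al_pos
  have p' := al_lt
  set i : ℕ := a.natAbs + 3 with hi
  refine ⟨-F (j + 2 * i + 1), ?_, -F (j + 2 * i), -(al ^ 2) ^ i, ?_, ?_, ?_, fun _ => ?_,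
    fun _ => ?_⟩
  · have h1 : j + 2 * i + 1 ≤ Nat.fib (j + 2 * i + 1) := Nat.le_fib_self (by omega)
    unfold F
    omega
  · have := dl_two j i
    unfold dl at this ⊢
    push_cast
    linear_combination -this
  · have : (al ^ 2) ^ i ≤ 1 := pow_le_one₀ (by positivity) (by nlinarith)
    linarith
  · have : 0 ≤ (al ^ 2) ^ i := by positivity
    linarith
  · have : 0 < (al ^ 2) ^ i := by positivity
    linarith
  · have : (al ^ 2) ^ i < 1 := pow_lt_one₀ (by positivity) (by nlinarith) (by omega)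
    linarith

/-- Every site is preceded by a full regular block at one of two consecutive levels. -/
lemma good_level (j : ℕ) (n : ℤ) :
    (∀ m : ℤ, n - F (j + 1) < m → m ≤ n → Reg j m) ∨
      (∀ m : ℤ, n - F (j + 2) < m → m ≤ n → Reg (j + 1) m) := by
  by_contra h
  push Not at h
  obtain ⟨⟨m, a, b, c⟩, ⟨m', a', b', c'⟩⟩ := h
  rcases apart j m m' (near_of_not_reg _ _ c) (near_of_not_reg _ _ c') with q | q <;> omega

lemma fl_one : fl 1 = 0 := by
  unfold fl
  rw [Int.floor_eq_iff]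
  constructor <;> simp <;> linarith [al_pos, al_lt]

lemma fl_two : fl 2 = 1 := by
  unfold fl
  rw [Int.floor_eq_iff]
  constructor <;> push_cast <;> linarith [al_gt, al_lt]

lemma fl_three : fl 3 = 1 := by
  unfold fl
  rw [Int.floor_eq_iff]
  have := al_sq
  constructor <;> push_cast <;> nlinarith [al_gt, al_lt]

lemma v_one : v 1 = 1 := by
  unfold v
  rw [show (1 : ℤ) + 1 = 2 from rfl, fl_two, fl_one]
  rfl

lemma v_two : v 2 = 0 := by
  unfold v
  rw [show (2 : ℤ) + 1 = 3 from rfl, fl_two, fl_three]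
  rfl

lemma v_abs (n : ℤ) : |(v n : ℝ)| ≤ 2 := by
  unfold v fl
  have a1 := Int.floor_le (((n + 1 : ℤ) : ℝ) * al)
  have a2 := Int.lt_floor_add_one (((n + 1 : ℤ) : ℝ) * al)
  have a3 := Int.floor_le ((n : ℝ) * al)
  have a4 := Int.lt_floor_add_one ((n : ℝ) * al)
  have := al_pos
  have := al_lt
  push_cast at a1 a2 ⊢
  rw [abs_le]
  constructor <;> nlinarith

end Pool.Agent.Lib.MP_5d78b4_mp.Suto
end
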