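import Pool.Agent.Lib.MP_5d78b4_mp.AbsCnt
import Pool.Agent.Lib.MP_5d78b4_mp.SutoComb

-- part Pool.Agent.Lib.MP_5d78b4_mp.AbsInner
section

set_option autoImplicit false
open Finset

namespace Pool.Agent.Lib.MP_5d78b4_mp.Abs

/-- Weighted Caro-Wei selection. -/
theorem caro_wei {ι : Type*} [DecidableEq ι] (rel : ι → ι → Prop) [DecidableRel rel]
    (hs : ∀ a b, rel a b → rel b a) (hr : ∀ a, rel a a) (w : ι → ℝ) (A : Finset ι) (hw : ∀ a, 0 ≤ w a) :
    ∃ S ⊆ A, (∀ a ∈ S, ∀ b ∈ S, a ≠ b → ¬ rel a b) ∧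
      ∑ a ∈ A, w a / ((A.filter (rel a)).card : ℝ) ≤ ∑ a ∈ S, w a := by
  induction A using Finset.strongInduction with
  | H A ih =>
    rcases A.eq_empty_or_nonempty with rfl | hA
    · exact ⟨∅, Subset.refl _, by simp, by simp⟩
    obtain ⟨v, hv, hmax⟩ := A.exists_max_image (fun a => w a / ((A.filter (rel a)).card : ℝ)) hA
    have hss : A.filter (fun a => ¬ rel v a) ⊂ A :=
      ⟨filter_subset _ _, fun h => by simpa [hr v] using h hv⟩
    obtain ⟨S, hS, h1, h2⟩ := ih _ hss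
    have hvS : v ∉ S := fun h => by simpa [hr v] using hS h
    refine ⟨insert v S, insert_subset hv (hS.trans (filter_subset _ _)), ?_, ?_⟩
    · intro a ha b hb hab
      rcases mem_insert.1 ha with ea | ha <;> rcases mem_insert.1 hb with eb | hb
      · exact absurd (ea.trans eb.symm) hab
      · rw [ea]; exact (mem_filter.1 (hS hb)).2
      · rw [eb]; exact fun h => (mem_filter.1 (hS ha)).2 (hs _ _ h)
      · exact h1 a ha b hb hab
    · rw [sum_insert hvS, ← sum_filter_add_sum_filter_not A (rel v)]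
      refine add_le_add ?_ (le_trans (sum_le_sum fun a ha => ?_) h2)
      · have hc : (0 : ℝ) < (A.filter (rel v)).card := by
          exact_mod_cast card_pos.2 ⟨v, mem_filter.2 ⟨hv, hr v⟩⟩
        calc _ ≤ ∑ _a ∈ A.filter (rel v), w v / ((A.filter (rel v)).card : ℝ) :=
              sum_le_sum fun a ha => hmax a (mem_filter.1 ha).1
          _ = w v := by rw [sum_const, nsmul_eq_mul]; field_simp
      · have hc : (0 : ℝ) < ((A.filter (fun a => ¬ rel v a)).filter (rel a)).card := by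
          exact_mod_cast card_pos.2 ⟨a, mem_filter.2 ⟨ha, hr a⟩⟩
        refine div_le_div_of_nonneg_left (hw a) hc ?_
        exact_mod_cast card_le_card (filter_subset_filter _ (filter_subset _ _))

theorem log_ge {ι : Type*} [Fintype ι] [Nonempty ι] (w n : ι → ℝ) (hw : ∀ j, 0 < w j)
    (hn : ∀ j, 0 < n j) (η : ℝ) (hη : 0 < η) (X : ℝ) (hX : ∑ j, w j / n j ≤ X) :
    (∑ j, Real.log (w j)) / Fintype.card ι - Real.log η + 1 -
      (∑ j, n j) / ((Fintype.card ι : ℝ) ^ 2 * η) ≤ Real.log X := by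
  set B : ℝ := (Fintype.card ι : ℝ) with hBdef
  have hB : 0 < B := by rw [hBdef]; exact_mod_cast Fintype.card_pos
  have hX0 : 0 < X :=
    lt_of_lt_of_le (sum_pos (fun j _ => div_pos (hw j) (hn j)) univ_nonempty) hX
  have h1 : ∀ j, Real.log (w j) - Real.log η + 1 - n j / (B * η) - Real.log X ≤
      B * (w j / n j) / X - 1 := by
    intro j
    have hwj := hw j
    have hnj := hn j
    have a := Real.log_le_sub_one_of_pos (show 0 < n j / (B * η) by positivity)
    have b := Real.log_le_sub_one_of_pos (show 0 < B * (w j / n j) / X by positivity)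
    rw [Real.log_div hnj.ne' (by positivity), Real.log_mul hB.ne' hη.ne'] at a
    rw [Real.log_div (by positivity) hX0.ne', Real.log_mul hB.ne' (by positivity),
      Real.log_div hwj.ne' hnj.ne'] at b
    linarith
  have h2 := sum_le_sum fun j (_ : j ∈ (univ : Finset ι)) => h1 j
  simp only [sum_sub_distrib, sum_add_distrib, sum_const, card_univ, nsmul_eq_mul, ← hBdef,
    ← sum_div, ← mul_sum] at h2
  have h3 : B * (∑ j, w j / n j) / X ≤ B := by
    rw [div_le_iff₀ hX0]; exact mul_le_mul_of_nonneg_left hX hB.le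
  have h4 : (∑ j, Real.log (w j)) / B - Real.log η + 1 - (∑ j, n j) / (B ^ 2 * η) - Real.log X =
      ((∑ j, Real.log (w j)) - B * Real.log η + B * 1 - (∑ j, n j) / (B * η) - B * Real.log X) / B := by
    field_simp
  have h5 : ((∑ j, Real.log (w j)) - B * Real.log η + B * 1 - (∑ j, n j) / (B * η) -
      B * Real.log X) / B ≤ 0 := div_nonpos_of_nonpos_of_nonneg (by linarith) hB.le
  linarith

/-- Truncated Riesz kernel. -/
noncomputable def phi (γ δ x : ℝ) : ℝ := (δ / max δ |x|) ^ γ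

/-- Grid of directions. -/
noncomputable def tv {d J : ℕ} (t : Fin d → Fin J) (i : Fin d) : ℝ := 1 + ((t i : ℕ) : ℝ) / J

theorem one_le_tv {d J : ℕ} (t : Fin d → Fin J) (i : Fin d) : 1 ≤ tv t i := by
  unfold tv
  have : (0 : ℝ) ≤ ((t i : ℕ) : ℝ) / J := by positivity
  linarith

theorem tv_le_two {d J : ℕ} (t : Fin d → Fin J) (i : Fin d) : tv t i ≤ 2 := by
  unfold tv
  have : ((t i : ℕ) : ℝ) / J ≤ 1 :=
    div_le_one_of_le₀ (by exact_mod_cast (t i).2.le) (by positivity)
  linarith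

theorem card_le_of_diam {J : ℕ} (s : Finset (Fin J)) (L : ℝ) (hL : 0 ≤ L)
    (h : ∀ a ∈ s, ∀ b ∈ s, ((a : ℕ) : ℝ) - ((b : ℕ) : ℝ) ≤ L) : (s.card : ℝ) ≤ L + 1 := by
  rcases s.eq_empty_or_nonempty with rfl | hs
  · simp; linarith
  refine le_trans ?_ (card_Icc_le ((s.min' hs : ℕ) : ℝ) L hL)
  have : s.card ≤ (Finset.Icc ⌈((s.min' hs : ℕ) : ℝ)⌉ ⌊((s.min' hs : ℕ) : ℝ) + L⌋).card := by
    refine card_le_card_of_injOn (fun j => ((j : ℕ) : ℤ)) (fun j hj => ?_) (fun a _ b _ hab => ?_)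
    · have hj' : j ∈ s := hj
      simp only [coe_Icc, Set.mem_Icc]
      refine ⟨Int.ceil_le.2 ?_, Int.le_floor.2 ?_⟩
      · have : s.min' hs ≤ j := min'_le s j hj'
        exact_mod_cast this
      · have := h j hj' _ (min'_mem s hs)
        push_cast
        linarith
    · apply Fin.ext
      simpa using hab
  exact_mod_cast this

theorem fibre_count {d J : ℕ} (i : Fin d) (p : (Fin d → Fin J) → Prop) [DecidablePred p] (L : ℝ)
    (h : ∀ t, ((univ.filter fun j => p (Function.update t i j)).card : ℝ) ≤ L) :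
    (J : ℝ) * (univ.filter p).card ≤ (J : ℝ) ^ d * L := by
  have hinv : Function.Involutive
      (fun x : (Fin d → Fin J) × Fin J => (Function.update x.1 i x.2, x.1 i)) := by
    rintro ⟨t, j⟩
    simp
  have h1 := Equiv.sum_comp hinv.toPerm
    (fun x : (Fin d → Fin J) × Fin J => if p x.1 then (1 : ℝ) else 0)
  have h2 : ∑ x : (Fin d → Fin J) × Fin J, (if p x.1 then (1 : ℝ) else 0) =
      (J : ℝ) * (univ.filter p).card := by
    rw [Fintype.sum_prod_type_right, ← sum_boole]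
    refine (sum_const (∑ t : Fin d → Fin J, if p t then (1 : ℝ) else 0)).trans ?_
    rw [card_univ, Fintype.card_fin, nsmul_eq_mul]
  rw [← h2, ← h1, Fintype.sum_prod_type]
  calc _ ≤ ∑ _t : Fin d → Fin J, L := sum_le_sum fun t _ => by
        refine le_trans (le_of_eq ?_) (h t)
        rw [← sum_boole]
        rfl
    _ = _ := by simp

theorem marstrand {d J : ℕ} (hJ : 0 < J) (γ δ : ℝ) (hγ : 0 ≤ γ) (hdγ : d * γ ≤ 1) (hδ : 0 < δ)
    (Δ : Fin d → ℝ) (hΔ : ∀ i, |Δ i| ≤ J * δ) :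
    ((univ.filter fun t : Fin d → Fin J => |∑ i, tv t i * Δ i| ≤ δ).card : ℝ) ≤
      (J : ℝ) ^ d * ∏ i, phi γ (3 * δ) (Δ i) := by
  set N : ℝ := ((univ.filter fun t : Fin d → Fin J => |∑ i, tv t i * Δ i| ≤ δ).card : ℝ)
    with hN
  have hJ' : (0 : ℝ) < J := by exact_mod_cast hJ
  have hJd : (0 : ℝ) < (J : ℝ) ^ d := by positivity
  have hN0 : 0 ≤ N / (J : ℝ) ^ d := by positivity
  have hN1 : N / (J : ℝ) ^ d ≤ 1 := by
    rw [div_le_one hJd, hN]
    have := card_filter_le (univ : Finset (Fin d → Fin J)) fun t => |∑ i, tv t i * Δ i| ≤ δ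
    simp only [card_univ, Fintype.card_fun, Fintype.card_fin] at this
    exact_mod_cast this
  have h1 : ∀ i, N / (J : ℝ) ^ d ≤ 3 * δ / max (3 * δ) |Δ i| := by
    intro i
    rcases le_or_gt |Δ i| (3 * δ) with h | h
    · rw [max_eq_left h, div_self (by positivity)]; exact hN1
    rw [max_eq_right h.le]
    have hD : 0 < |Δ i| := by linarith
    have h2 := fibre_count i (fun t : Fin d → Fin J => |∑ i, tv t i * Δ i| ≤ δ)
      (2 * δ * J / |Δ i| + 1) fun t => by
        refine card_le_of_diam _ _ (by positivity) fun a ha b hb => ?_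
        have ha' := (mem_filter.1 ha).2
        have hb' := (mem_filter.1 hb).2
        have e : ∑ k, tv (Function.update t i a) k * Δ k - ∑ k, tv (Function.update t i b) k * Δ k
            = (((a : ℕ) : ℝ) - (b : ℕ)) / J * Δ i := by
          rw [← sum_sub_distrib, sum_eq_single i]
          · simp only [tv, Function.update_self]; ring
          · intro k _ hk; simp only [tv, Function.update_of_ne hk]; ring
          · simp
        have h3 : |(((a : ℕ) : ℝ) - (b : ℕ)) / J * Δ i| ≤ 2 * δ := by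
          rw [← e]; exact (abs_sub _ _).trans (by linarith)
        rw [abs_mul, abs_div, abs_of_pos hJ', div_mul_eq_mul_div, div_le_iff₀ hJ'] at h3
        rw [le_div_iff₀ hD]
        exact (mul_le_mul_of_nonneg_right (le_abs_self _) hD.le).trans h3
    have h3 : 1 ≤ δ * J / |Δ i| := by rw [le_div_iff₀ hD]; linarith [hΔ i]
    have h4 : 2 * δ * J / |Δ i| + 1 ≤ J * (3 * δ / |Δ i|) := by
      have : J * (3 * δ / |Δ i|) = 2 * δ * J / |Δ i| + δ * J / |Δ i| := by ring
      linarith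
    rw [div_le_iff₀ hJd]
    have h5 : (J : ℝ) * N ≤ J * (3 * δ / |Δ i| * (J : ℝ) ^ d) :=
      h2.trans ((mul_le_mul_of_nonneg_left h4 hJd.le).trans (le_of_eq (by ring)))
    exact le_of_mul_le_mul_left h5 hJ'
  rw [← div_le_iff₀' hJd]
  calc N / (J : ℝ) ^ d = (N / (J : ℝ) ^ d) ^ (1 : ℝ) := (Real.rpow_one _).symm
    _ ≤ (N / (J : ℝ) ^ d) ^ ((d : ℝ) * γ) :=
        Real.rpow_le_rpow_of_exponent_ge' hN0 hN1 (by positivity) hdγ
    _ = ∏ _i : Fin d, (N / (J : ℝ) ^ d) ^ γ := by
        rw [prod_const, card_univ, Fintype.card_fin, mul_comm, Real.rpow_mul hN0,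
          Real.rpow_natCast]
    _ ≤ _ := prod_le_prod (fun i _ => by positivity) fun i _ => Real.rpow_le_rpow hN0 (h1 i) hγ

theorem phi_nonneg {γ δ : ℝ} (hδ : 0 < δ) (x : ℝ) : 0 ≤ phi γ δ x :=
  Real.rpow_nonneg (div_nonneg hδ.le (hδ.le.trans (le_max_left _ _))) _

/-- Average collision count over the grid of directions. -/
theorem collisions {d J : ℕ} (hJ : 0 < J) (γ δ θ : ℝ) (hγ : 0 ≤ γ) (hdγ : d * γ ≤ 1) (hδ : 0 < δ)
    {I : Type} [Fintype I] (z : Fin d → I → ℝ) (hz : ∀ i x x', |z i x - z i x'| ≤ J * δ)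
    (hE : ∀ i x, ∑ x', phi γ (3 * δ) (z i x - z i x') ≤ θ * Fintype.card I) :
    ∑ t : Fin d → Fin J, ∑ j : Fin d → I, ((univ.filter fun j' : Fin d → I =>
      |∑ i, tv t i * (z i (j i) - z i (j' i))| ≤ δ).card : ℝ) ≤
      (J : ℝ) ^ d * ((Fintype.card (Fin d → I) : ℝ) ^ 2 * θ ^ d) := by
  classical
  simp only [← sum_boole]
  rw [sum_comm]
  have h1 : ∀ j : Fin d → I, ∑ t : Fin d → Fin J, ∑ j' : Fin d → I,
      (if |∑ i, tv t i * (z i (j i) - z i (j' i))| ≤ δ then (1 : ℝ) else 0) ≤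
      (J : ℝ) ^ d * (Fintype.card (Fin d → I) * θ ^ d) := by
    intro j
    rw [sum_comm]
    calc _ ≤ ∑ j' : Fin d → I, (J : ℝ) ^ d * ∏ i, phi γ (3 * δ) (z i (j i) - z i (j' i)) :=
          sum_le_sum fun j' _ => by
            rw [sum_boole]
            exact marstrand hJ γ δ hγ hdγ hδ _ fun i => hz i _ _
      _ = (J : ℝ) ^ d * ∏ i, ∑ x', phi γ (3 * δ) (z i (j i) - z i x') := by
          rw [← mul_sum, prod_univ_sum, Fintype.piFinset_univ]
      _ ≤ (J : ℝ) ^ d * ∏ _i : Fin d, (θ * Fintype.card I) := by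
          refine mul_le_mul_of_nonneg_left (prod_le_prod (fun i _ => ?_) fun i _ => hE i _)
            (by positivity)
          exact sum_nonneg fun x' _ => phi_nonneg (by linarith) _
      _ = _ := by
          rw [prod_const, card_univ, Fintype.card_fin, Fintype.card_fun, Fintype.card_fin]
          push_cast
          ring
  calc _ ≤ ∑ _j : Fin d → I, (J : ℝ) ^ d * (Fintype.card (Fin d → I) * θ ^ d) :=
        sum_le_sum fun j _ => h1 j
    _ = _ := by rw [sum_const, card_univ, nsmul_eq_mul]; ring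

/-- Multi-scale selection of separated descendants for a good direction. -/
theorem inner {P I : Type} [Fintype I] [Nonempty I] (y : P → ℝ) (Good : ℝ → P → Prop)
    {d J : ℕ} (hJ : 0 < J) (C K K2 ρ γ θ ε : ℝ) (hC : 0 ≤ C) (hK : 0 < K)
    (hK2 : K2 = K + 8 * d * C + 1) (hρ : 0 < ρ) (hρ2 : ρ ≤ 1 / 2) (hγ : 0 ≤ γ) (hdγ : d * γ ≤ 1)
    (hθ : 0 < θ) (hε : 0 ≤ ε) (hερ : ε * (4 * d * C) ≤ ρ) (hJρ : 2 * C ≤ J * ρ)
    (step : ∀ r, 0 < r → ∀ p, Good r p → ∃ c : I → P,
      (∀ x, Good (ρ * r) (c x) ∧ |y (c x) - y p| ≤ C * r) ∧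
      ∀ x, ∑ x', phi γ (3 * (K2 * (ρ * r))) (y (c x) - y (c x')) ≤ θ * Fintype.card I) (n : ℕ) :
    ∀ r, 0 < r → ∀ x : Fin d → P, (∀ i, Good r (x i)) →
    ∃ S : (Fin d → Fin J) → Finset (Fin d → P), (∀ t, (S t).Nonempty) ∧
      -(n * (J : ℝ) ^ d * Real.log (θ ^ d)) ≤ ∑ t, Real.log (S t).card ∧
      ∀ t, (∀ q ∈ S t, ∀ i, Good (ρ ^ n * r) (q i) ∧ |y (q i) - y (x i)| ≤ 2 * C * r) ∧
        ∀ q ∈ S t, ∀ q' ∈ S t, q ≠ q' → K * (ρ ^ n * r) + ε * ∑ i, |y (q i) - y (q' i)| ≤
          |∑ i, tv t i * (y (q i) - y (q' i))| := by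
  classical
  induction n with
  | zero =>
    intro r hr x hx
    refine ⟨fun _ => {x}, fun _ => singleton_nonempty x, by simp, fun t => ⟨?_, ?_⟩⟩
    · intro q hq i
      rw [mem_singleton.1 hq]
      refine ⟨by simpa using hx i, ?_⟩
      rw [sub_self, abs_zero]
      positivity
    · intro q hq q' hq' hne
      exact absurd ((mem_singleton.1 hq).trans (mem_singleton.1 hq').symm) hne
  | succ n ih =>
    intro r hr x hx
    choose c hc hE using fun i => step r hr (x i) (hx i)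
    have hρr : 0 < ρ * r := mul_pos hρ hr
    choose S hS0 hS1 hS2 using fun j : Fin d → I =>
      ih (ρ * r) hρr (fun i => c i (j i)) fun i => (hc i (j i)).1
    have hdC : 0 ≤ (d : ℝ) * C := by positivity
    have hK21 : 1 ≤ K2 := by rw [hK2]; linarith
    have hδ : 0 < K2 * (ρ * r) := by positivity
    let rel : (Fin d → Fin J) → (Fin d → I) → (Fin d → I) → Prop := fun t j j' =>
      |∑ i, tv t i * (y (c i (j i)) - y (c i (j' i)))| ≤ K2 * (ρ * r)
    have hsym : ∀ t a b, rel t a b → rel t b a := by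
      intro t a b h
      simp only [rel] at h ⊢
      rw [← abs_neg, ← sum_neg_distrib]
      refine le_of_eq_of_le (congrArg _ (sum_congr rfl fun i _ => by ring)) h
    have hrefl : ∀ t a, rel t a a := fun t a => by simp [rel, hδ.le]
    choose T _hT hT1 hT2 using fun t => caro_wei (rel t) (hsym t) (hrefl t)
      (fun j => ((S j t).card : ℝ)) univ (fun j => by positivity)
    have hnear : ∀ t j, ∀ q ∈ S j t, ∀ i, |y (q i) - y (x i)| ≤ 2 * C * r := by
      intro t j q hq i
      have h1 := ((hS2 j t).1 q hq i).2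
      have h2 := (hc i (j i)).2
      have h3 : 2 * C * (ρ * r) ≤ C * r := by
        have : 0 ≤ C * r := by positivity
        nlinarith
      exact (abs_sub_le _ _ _).trans (by linarith)
    have hsep : ∀ t, ∀ j ∈ T t, ∀ j' ∈ T t, j ≠ j' → ∀ q ∈ S j t, ∀ q' ∈ S j' t,
        K * (ρ ^ (n + 1) * r) + ε * ∑ i, |y (q i) - y (q' i)| ≤
          |∑ i, tv t i * (y (q i) - y (q' i))| := by
      intro t j hj j' hj' hne q hq q' hq'
      have h1 := not_le.1 (hT1 t j hj j' hj' hne)
      have h2 : ∑ i, |y (q i) - y (q' i)| ≤ 4 * d * C * r := by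
        calc _ ≤ ∑ _i : Fin d, 4 * C * r := sum_le_sum fun i _ => by
              have a := hnear t j q hq i
              have b := hnear t j' q' hq' i
              rw [abs_sub_comm] at b
              exact (abs_sub_le _ _ _).trans (by linarith)
          _ = _ := by rw [sum_const, card_univ, Fintype.card_fin, nsmul_eq_mul]; ring
      have h3 : |∑ i, tv t i * (y (c i (j i)) - y (c i (j' i))) -
          ∑ i, tv t i * (y (q i) - y (q' i))| ≤ 8 * d * C * (ρ * r) := by
        rw [← sum_sub_distrib]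
        refine (abs_sum_le_sum_abs _ _).trans ?_
        calc _ ≤ ∑ _i : Fin d, 8 * C * (ρ * r) := sum_le_sum fun i _ => by
              have a := ((hS2 j t).1 q hq i).2
              have b := ((hS2 j' t).1 q' hq' i).2
              rw [← mul_sub, abs_mul, abs_of_nonneg (zero_le_one.trans (one_le_tv t i))]
              have e : |y (c i (j i)) - y (c i (j' i)) - (y (q i) - y (q' i))| ≤
                  4 * C * (ρ * r) := by
                rw [abs_le] at a b ⊢
                constructor <;> linarith [a.1, a.2, b.1, b.2]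
              calc _ ≤ 2 * (4 * C * (ρ * r)) :=
                    mul_le_mul (tv_le_two t i) e (abs_nonneg _) (by norm_num)
                _ = _ := by ring
          _ = _ := by rw [sum_const, card_univ, Fintype.card_fin, nsmul_eq_mul]; ring
      have h4 := abs_sub_abs_le_abs_sub (∑ i, tv t i * (y (c i (j i)) - y (c i (j' i))))
        (∑ i, tv t i * (y (q i) - y (q' i)))
      have h5 : ε * ∑ i, |y (q i) - y (q' i)| ≤ ρ * r := by
        calc _ ≤ ε * (4 * d * C * r) := mul_le_mul_of_nonneg_left h2 hε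
          _ = ε * (4 * d * C) * r := by ring
          _ ≤ _ := mul_le_mul_of_nonneg_right hερ hr.le
      have h6 : ρ ^ (n + 1) * r ≤ ρ * r := by
        have : ρ ^ n ≤ 1 := pow_le_one₀ hρ.le (by linarith)
        rw [pow_succ, mul_assoc]
        exact mul_le_of_le_one_left hρr.le this
      have h7 : K * (ρ ^ (n + 1) * r) ≤ K * (ρ * r) := mul_le_mul_of_nonneg_left h6 hK.le
      rw [hK2] at h1
      linarith
    have hcard : ∀ t, (((T t).biUnion fun j => S j t).card : ℝ) = ∑ j ∈ T t, ((S j t).card : ℝ) := by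
      intro t
      rw [card_biUnion, Nat.cast_sum]
      intro j hj j' hj' hne
      refine disjoint_left.2 fun q hq hq' => ?_
      have := hsep t j hj j' hj' hne q hq q hq'
      simp only [sub_self, abs_zero, sum_const_zero, mul_zero, add_zero] at this
      have h2 : 0 < K * (ρ ^ (n + 1) * r) := by positivity
      linarith
    have hw : ∀ t j, (0 : ℝ) < (S j t).card := fun t j => by exact_mod_cast card_pos.2 (hS0 j t)
    have hn : ∀ t j, (0 : ℝ) < (univ.filter (rel t j)).card := fun t j => by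
      exact_mod_cast card_pos.2 ⟨j, mem_filter.2 ⟨mem_univ _, hrefl t j⟩⟩
    refine ⟨fun t => (T t).biUnion fun j => S j t, fun t => ?_, ?_, fun t => ⟨?_, ?_⟩⟩
    · have : (0 : ℝ) < ((T t).biUnion fun j => S j t).card := by
        rw [hcard]
        exact lt_of_lt_of_le (sum_pos (fun j _ => div_pos (hw t j) (hn t j)) univ_nonempty) (hT2 t)
      exact card_pos.1 (by exact_mod_cast this)
    · have hη : 0 < θ ^ d := by positivity
      have h1 := fun t => log_ge (fun j => ((S j t).card : ℝ))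
        (fun j => ((univ.filter (rel t j)).card : ℝ)) (hw t) (hn t) (θ ^ d) hη _
        ((hT2 t).trans (hcard t).ge)
      have h2 := sum_le_sum fun t (_ : t ∈ (univ : Finset (Fin d → Fin J))) => h1 t
      refine le_trans ?_ h2
      have h3 := collisions hJ γ (K2 * (ρ * r)) θ hγ hdγ hδ (fun i a => y (c i a)) (fun i a a' => by
        have a1 := (hc i a).2
        have a2 := (hc i a').2
        rw [abs_sub_comm] at a2
        have a3 : 2 * C * r ≤ J * ρ * r := mul_le_mul_of_nonneg_right hJρ hr.le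
        have a4 : J * ρ * r ≤ J * (K2 * (ρ * r)) := by
          rw [mul_assoc]
          exact mul_le_mul_of_nonneg_left (le_mul_of_one_le_left hρr.le hK21) (by positivity)
        exact (abs_sub_le _ _ _).trans (by linarith)) hE
      set B : ℝ := (Fintype.card (Fin d → I) : ℝ) with hBdef
      have hB : 0 < B := by rw [hBdef]; exact_mod_cast Fintype.card_pos
      simp only [sum_sub_distrib, sum_add_distrib, sum_const, card_univ, nsmul_eq_mul,
        ← sum_div, Fintype.card_fun, Fintype.card_fin, Nat.cast_pow]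
      have h4 : -(n * (J : ℝ) ^ d * Real.log (θ ^ d)) ≤
          (∑ t, ∑ j, Real.log (S j t).card) / B := by
        rw [le_div_iff₀ hB, sum_comm]
        calc _ = ∑ _j : Fin d → I, -(n * (J : ℝ) ^ d * Real.log (θ ^ d)) := by
              rw [sum_const, card_univ, nsmul_eq_mul, mul_comm]
          _ ≤ _ := sum_le_sum fun j _ => hS1 j
      have h5 : (∑ t : Fin d → Fin J, ∑ j, ((univ.filter (rel t j)).card : ℝ)) /
          (B ^ 2 * θ ^ d) ≤ (J : ℝ) ^ d := by
        rw [div_le_iff₀ (by positivity)]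
        exact h3
      push_cast
      linarith
    · intro q hq i
      obtain ⟨j, -, hj⟩ := mem_biUnion.1 hq
      refine ⟨?_, hnear t j q hj i⟩
      have := ((hS2 j t).1 q hj i).1
      rwa [← mul_assoc, ← pow_succ] at this
    · intro q hq q' hq' hne
      obtain ⟨j, hj, hjq⟩ := mem_biUnion.1 hq
      obtain ⟨j', hj', hjq'⟩ := mem_biUnion.1 hq'
      by_cases h : j = j'
      · subst h
        have := (hS2 j t).2 q hjq q' hjq' hne
        rwa [← mul_assoc (ρ ^ n), ← pow_succ] at this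
      · exact hsep t j hj j' hj' h q hjq q' hjq'

end Pool.Agent.Lib.MP_5d78b4_mp.Abs
end

-- part Pool.Agent.Lib.MP_5d78b4_mp.AbsModel
section

set_option autoImplicit false
open Finset Filter

namespace Pool.Agent.Lib.MP_5d78b4_mp.Abs

variable {α : Type} {π : Stream' α → ℝ} {ω0 ω1 : Stream' α} {a0 : α} {C : ℝ}

/-- The cylinder of `w` has scale comparable to `R`. -/
def At (π : Stream' α → ℝ) (ω0 ω1 : Stream' α) (C : ℝ) (w : List α) (R : ℝ) : Prop :=
  R / C ≤ scl π ω0 ω1 w ∧ scl π ω0 ω1 w ≤ R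

theorem adjust (hπ : Coding π ω0 ω1 a0 C) (w : List α) (ω : Stream' α) (r : ℝ) (hr : 0 < r)
    (h : r ≤ scl π ω0 ω1 w) : ∃ n, At π ω0 ω1 C (w ++ ω.take n) r := by
  classical
  have hC := hπ.one_le
  have hex : ∃ n, scl π ω0 ω1 (w ++ ω.take n) ≤ r := by
    obtain ⟨n, hn⟩ := hπ.small r hr
    exact ⟨n, hn _ (by simp)⟩
  refine ⟨Nat.find hex, ?_, Nat.find_spec hex⟩
  rcases h0 : Nat.find hex with _ | n
  · simp only [Stream'.take_zero, List.append_nil]
    exact (div_le_self hr.le hC).trans h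
  · have h1 := not_le.1 (Nat.find_min hex (show n < Nat.find hex by omega))
    rw [Stream'.take_succ', ← List.append_assoc, div_le_iff₀' (by linarith)]
    exact h1.le.trans (hπ.child _ _)

theorem scl_transfer (hπ : Coding π ω0 ω1 a0 C) (w w' p : List α) :
    scl π ω0 ω1 (w ++ p) * scl π ω0 ω1 w' ≤ C * scl π ω0 ω1 (w' ++ p) * scl π ω0 ω1 w := by
  have h := hπ.transfer w w' (p ++ₛ ω0) (p ++ₛ ω1)
  have h1 := hπ.pos (w ++ p)
  have h2 := hπ.pos (w' ++ p)
  simp only [← Stream'.append_append_stream] at h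
  rw [scl] at h1 h2
  rwa [abs_of_pos h1, abs_of_pos h2] at h

theorem range_bdd (hπ : Coding π ω0 ω1 a0 C) (ω : Stream' α) :
    |π ω - π ω0| ≤ C * scl π ω0 ω1 [] := hπ.diam [] ω ω0

theorem exists_sep (hπ : Coding π ω0 ω1 a0 C) (π' : Stream' α → ℝ)
    (hLip : ∀ ω ω', |π' ω - π' ω'| ≤ C * |π ω - π ω'|) (S1 : Set ℝ)
    (hcov : S1 ⊆ closure (Set.range π ∪ Set.range π')) (m : ℕ) :
    ∃ (T : Finset ℤ) (rep : ℤ → Stream' α),
      (cnt S1 m : ℝ) ≤ 2 * (2 * C + 4) * (4 * C + 5) * T.card ∧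
      ∀ a ∈ T, ∀ b ∈ T, a ≠ b → 2 * C + 1 ≤ 2 ^ m * |π (rep a) - π (rep b)| := by
  classical
  have hC := hπ.one_le
  have h2m : (0 : ℝ) < 2 ^ m := by positivity
  have hs := hπ.pos []
  have hf : (cset (Set.range π) m).Finite :=
    (bdd_cover _ (|π ω0| + C * scl π ω0 ω1 []) (by positivity) (by
      rintro _ ⟨ω, rfl⟩
      have := range_bdd hπ ω
      have := abs_sub_abs_le_abs_sub (π ω) (π ω0)
      linarith) m).1
  have hrep : ∀ k : ℤ, ∃ ω, k ∈ hf.toFinset → (k : ℝ) ≤ 2 ^ m * π ω ∧ 2 ^ m * π ω ≤ k + 1 := by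
    intro k
    by_cases hk : k ∈ hf.toFinset
    · obtain ⟨_, ⟨ω, rfl⟩, h⟩ := (Set.Finite.mem_toFinset _).1 hk
      exact ⟨ω, fun _ => h⟩
    · exact ⟨ω0, fun h => absurd h hk⟩
  choose rep hrep using hrep
  have h1 := (cover S1 m (hf.toFinset ×ˢ (univ : Finset Bool))
    (fun p => if p.2 then 2 ^ m * π (rep p.1) else 2 ^ m * π' (rep p.1)) (C + 1) (by linarith) (by
      intro x hx
      obtain ⟨z, hz, hd⟩ := Metric.mem_closure_iff.1 (hcov hx) (2 ^ m)⁻¹ (by positivity)
      rw [Real.dist_eq] at hd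
      have hd' : |2 ^ m * x - 2 ^ m * z| ≤ 1 := by
        rw [← mul_sub, abs_mul, abs_of_pos h2m, ← le_div_iff₀' h2m, one_div]
        exact hd.le
      have key : ∀ ω, ⌊2 ^ m * π ω⌋ ∈ hf.toFinset ∧
          |2 ^ m * π ω - 2 ^ m * π (rep ⌊2 ^ m * π ω⌋)| ≤ 1 := by
        intro ω
        have hk := (Set.Finite.mem_toFinset hf).2 (floor_mem_cset (Set.mem_range_self ω) m)
        refine ⟨hk, ?_⟩
        have := hrep _ hk
        rw [abs_le]
        constructor <;>
          linarith [this.1, this.2, Int.floor_le (2 ^ m * π ω), Int.lt_floor_add_one (2 ^ m * π ω)]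
      rcases hz with ⟨ω, rfl⟩ | ⟨ω, rfl⟩
      · refine ⟨(⌊2 ^ m * π ω⌋, true), mem_product.2 ⟨(key ω).1, mem_univ _⟩, ?_⟩
        simp only [if_true]
        exact (abs_sub_le _ _ _).trans (by linarith [(key ω).2])
      · refine ⟨(⌊2 ^ m * π ω⌋, false), mem_product.2 ⟨(key ω).1, mem_univ _⟩, ?_⟩
        simp only [Bool.false_eq_true, if_false]
        have h2 := (key ω).2
        have h3 := hLip ω (rep ⌊2 ^ m * π ω⌋)
        rw [← mul_sub, abs_mul, abs_of_pos h2m] at h2
        have h4 : |2 ^ m * π' ω - 2 ^ m * π' (rep ⌊2 ^ m * π ω⌋)| ≤ C := by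
          rw [← mul_sub, abs_mul, abs_of_pos h2m]
          calc _ ≤ 2 ^ m * (C * |π ω - π (rep ⌊2 ^ m * π ω⌋)|) :=
                mul_le_mul_of_nonneg_left h3 h2m.le
            _ = C * (2 ^ m * |π ω - π (rep ⌊2 ^ m * π ω⌋)|) := by ring
            _ ≤ C * 1 := mul_le_mul_of_nonneg_left h2 (by linarith)
            _ = C := mul_one C
        exact (abs_sub_le _ _ _).trans (by linarith))).2
  obtain ⟨T, hT, hT1, hT2⟩ := caro_wei (fun a b : ℤ => |(a : ℝ) - b| ≤ 2 * C + 2)
    (fun a b h => by rwa [abs_sub_comm]) (fun a => by simp; linarith) (fun _ => 1) hf.toFinset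
    (fun _ => zero_le_one)
  refine ⟨T, rep, ?_, fun a ha b hb hab => ?_⟩
  · have h2 : ∑ _a ∈ hf.toFinset, 1 / (4 * C + 5) ≤ (T.card : ℝ) := by
      refine le_trans (sum_le_sum fun a ha => ?_) (hT2.trans (by simp))
      refine one_div_le_one_div_of_le ?_ ?_
      · exact_mod_cast card_pos.2 ⟨a, mem_filter.2 ⟨ha, by simp; linarith⟩⟩
      · refine le_trans ?_ ((card_Icc_le ((a : ℝ) - (2 * C + 2)) (4 * C + 4) (by linarith)).trans
          (by linarith))
        refine Nat.cast_le.2 (card_le_card fun b hb => ?_)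
        have := abs_le.1 (mem_filter.1 hb).2
        exact mem_Icc.2 ⟨Int.ceil_le.2 (by linarith [this.2]), Int.le_floor.2 (by linarith [this.1])⟩
    rw [sum_const, nsmul_eq_mul, mul_one_div, div_le_iff₀ (by linarith)] at h2
    rw [card_product, card_univ, Fintype.card_bool] at h1
    push_cast at h1
    calc (cnt S1 m : ℝ) ≤ _ := h1
      _ = 2 * (2 * C + 4) * hf.toFinset.card := by ring
      _ ≤ 2 * (2 * C + 4) * (T.card * (4 * C + 5)) := mul_le_mul_of_nonneg_left h2 (by linarith)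
      _ = _ := by ring
  · have h2 := not_le.1 (hT1 a ha b hb hab)
    have h3 := hrep a (hT ha)
    have h4 := hrep b (hT hb)
    rw [← abs_of_pos h2m, ← abs_mul, mul_sub, le_abs]
    rcases lt_abs.1 h2 with h | h
    · left; linarith [h3.1, h4.2]
    · right; linarith [h3.2, h4.1]

/-- One step of a separated uniformly branching family of cylinders. -/
def Step (π : Stream' α → ℝ) (ω0 ω1 : Stream' α) (C τ : ℝ) (I : Type) : Prop :=
  ∀ w R, 0 < R → At π ω0 ω1 C w R → ∃ c : I → List α, (∀ x, At π ω0 ω1 C (w ++ c x) (τ * R)) ∧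
    ∀ x x', x ≠ x' → ∀ ω ω', τ * R ≤ |π ((w ++ c x) ++ₛ ω) - π ((w ++ c x') ++ₛ ω')|

theorem model_step (hπ : Coding π ω0 ω1 a0 C) (π' : Stream' α → ℝ)
    (hLip : ∀ ω ω', |π' ω - π' ω'| ≤ C * |π ω - π ω'|) (S1 : Set ℝ)
    (hcov : S1 ⊆ closure (Set.range π ∪ Set.range π')) (γ : ℝ) (hbig : Big S1 γ) :
    ∃ (τ : ℝ) (I : Type) (_ : Fintype I), 0 < τ ∧ τ ≤ 1 / 2 ∧ 2 ≤ Fintype.card I * τ ^ γ ∧
      Step π ω0 ω1 C τ I := by
  have hC := hπ.one_le
  have hC0 : 0 < C := by linarith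
  set s0 := scl π ω0 ω1 [] with hs0
  have hs : 0 < s0 := hπ.pos []
  obtain ⟨m, hm1, hm2⟩ := ((hbig (2 * (2 * C + 4) * (4 * C + 5) * (2 * (C ^ 3 * s0) ^ γ))).and_eventually
    ((tendsto_pow_atTop_atTop_of_one_lt (one_lt_two (α := ℝ))).eventually_ge_atTop (2 / s0))).exists
  obtain ⟨T, rep, hT1, hT2⟩ := exists_sep hπ π' hLip S1 hcov m
  have h2m : (0 : ℝ) < 2 ^ m := by positivity
  set r : ℝ := (2 ^ m)⁻¹ with hr
  have hr0 : 0 < r := by positivity
  have hr1 : r ≤ s0 / 2 := by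
    rw [hr, inv_le_comm₀ h2m (by positivity), inv_div]; exact hm2
  have hC3 : 1 ≤ C ^ 3 := one_le_pow₀ hC
  refine ⟨r / (C ^ 3 * s0), T, inferInstance, by positivity, ?_, ?_, ?_⟩
  · rw [div_le_iff₀ (by positivity)]; nlinarith
  · rw [Fintype.card_coe, Real.div_rpow hr0.le (by positivity), hr, Real.inv_rpow h2m.le,
      ← mul_div_assoc, le_div_iff₀ (by positivity), ← div_eq_mul_inv, le_div_iff₀ (by positivity)]
    refine le_of_mul_le_mul_left (a := 2 * (2 * C + 4) * (4 * C + 5)) ?_ (by positivity)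
    linarith
  · intro w R hR hw
    choose n hn using fun x : T => adjust hπ [] (rep x) r hr0 (by linarith)
    simp only [List.nil_append] at hn
    have hsw : R / C ≤ scl π ω0 ω1 w := hw.1
    have h1 : ∀ x : T, r / (C ^ 3 * s0) * R ≤ scl π ω0 ω1 (w ++ (rep x).take (n x)) := by
      intro x
      have h := scl_transfer hπ [] w ((rep x).take (n x))
      rw [List.nil_append] at h
      have h2 : r / C * (R / C) ≤ scl π ω0 ω1 ((rep x).take (n x)) * scl π ω0 ω1 w :=
        mul_le_mul (hn x).1 hsw (by positivity) (hπ.pos _).le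
      refine le_of_mul_le_mul_left (a := C * s0) ?_ (by positivity)
      calc _ = r / C * (R / C) := by field_simp
        _ ≤ _ := h2.trans h
        _ = _ := by ring
    choose k hk using fun x : T => adjust hπ _ ω0 _ (by positivity) (h1 x)
    refine ⟨fun x => (rep x).take (n x) ++ ω0.take (k x), fun x => ?_, fun x x' hne ω ω' => ?_⟩
    · rw [← List.append_assoc]; exact hk x
    · simp only [Stream'.append_append_stream]
      set u := ω0.take (k x) ++ₛ ω
      set u' := ω0.take (k x') ++ₛ ω'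
      have h := hπ.transfer [] w ((rep x).take (n x) ++ₛ u) ((rep x').take (n x') ++ₛ u')
      simp only [Stream'.nil_append_stream] at h
      have hd : ∀ (x : T) (u : Stream' α), |π ((rep x).take (n x) ++ₛ u) - π (rep x)| ≤ C * r := by
        intro x u
        have := hπ.diam ((rep x).take (n x)) u ((rep x).drop (n x))
        rw [Stream'.append_take_drop] at this
        exact this.trans (mul_le_mul_of_nonneg_left (hn x).2 hC0.le)
      have h2 := hT2 x x.2 x' x'.2 (fun hh => hne (Subtype.ext hh))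
      rw [← div_le_iff₀' h2m, div_eq_mul_inv, ← hr] at h2
      have h3 : r ≤ |π ((rep x).take (n x) ++ₛ u) - π ((rep x').take (n x') ++ₛ u')| := by
        have a := abs_le.1 (hd x u)
        have b := abs_le.1 (hd x' u')
        rw [le_abs]
        rcases le_abs.1 h2 with h | h
        · left; linarith [a.1, b.2]
        · right; linarith [a.2, b.1]
      have h4 : r * (R / C) ≤ _ := (mul_le_mul h3 hsw (by positivity) (abs_nonneg _)).trans h
      refine le_of_mul_le_mul_left (a := C * s0) ?_ (by positivity)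
      calc _ = r * (R / C) / C := by field_simp
        _ ≤ r * (R / C) := div_le_self (by positivity) hC
        _ ≤ _ := h4
        _ = _ := by ring

theorem phi_le_one {γ δ : ℝ} (hγ : 0 ≤ γ) (hδ : 0 < δ) (x : ℝ) : phi γ δ x ≤ 1 :=
  Real.rpow_le_one (div_nonneg hδ.le (hδ.le.trans (le_max_left _ _)))
    (div_le_one_of_le₀ (le_max_left _ _) (hδ.le.trans (le_max_left _ _))) hγ

theorem phi_le {γ δ D x : ℝ} (hγ : 0 ≤ γ) (hδ : 0 < δ) (hD : 0 < D) (h : D ≤ |x|) :
    phi γ δ x ≤ (δ / D) ^ γ :=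
  Real.rpow_le_rpow (div_nonneg hδ.le (hδ.le.trans (le_max_left _ _)))
    (div_le_div_of_nonneg_left hδ.le hD (h.trans (le_max_right _ _))) hγ

theorem energy {τ γ A : ℝ} {I : Type} [Fintype I] (hτ : 0 < τ) (hγ : 0 ≤ γ) (hA : 0 < A)
    (hI : 2 ≤ Fintype.card I * τ ^ γ) (hstep : Step π ω0 ω1 C τ I) (n : ℕ) :
    ∃ (I' : Type) (_ : Fintype I'), Nonempty I' ∧ ∀ w R, 0 < R → At π ω0 ω1 C w R →
      ∃ c : I' → List α, (∀ x, At π ω0 ω1 C (w ++ c x) (τ ^ n * R)) ∧
        ∀ x, ∑ x', phi γ (A * (τ ^ n * R)) (π ((w ++ c x) ++ₛ ω0) - π ((w ++ c x') ++ₛ ω0)) ≤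
          (1 + 2 * (A / τ) ^ γ) * (τ ^ n) ^ γ * Fintype.card I' := by
  classical
  have hAτ : 0 < (A / τ) ^ γ := by positivity
  have hτγ : 0 < τ ^ γ := by positivity
  induction n with
  | zero =>
    refine ⟨Unit, inferInstance, inferInstance, fun w R hR hw => ⟨fun _ => [], by simpa using hw,
      fun x => ?_⟩⟩
    simp only [univ_unique, sum_singleton, pow_zero, Real.one_rpow, Fintype.card_unique]
    refine (phi_le_one hγ (by positivity) _).trans ?_
    push_cast
    linarith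
  | succ n ih =>
    obtain ⟨I', _, hne, ih⟩ := ih
    have hI0 : 0 < Fintype.card I := by
      rcases Nat.eq_zero_or_pos (Fintype.card I) with h | h
      · rw [h] at hI; norm_num at hI
      · exact h
    have := Fintype.card_pos_iff.1 hI0
    refine ⟨I × I', inferInstance, inferInstance, fun w R hR hw => ?_⟩
    obtain ⟨c0, h1, h2⟩ := hstep w R hR hw
    choose c hc hE using fun j => ih (w ++ c0 j) (τ * R) (by positivity) (h1 j)
    have e : τ ^ n * (τ * R) = τ ^ (n + 1) * R := by ring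
    refine ⟨fun x => c0 x.1 ++ c x.1 x.2, fun x => ?_, ?_⟩
    · rw [← List.append_assoc, ← e]; exact hc _ _
    rintro ⟨j, x⟩
    simp only [← List.append_assoc, ← e]
    rw [Fintype.sum_prod_type, ← add_sum_erase univ _ (mem_univ j), Fintype.card_prod]
    set u := (τ ^ n) ^ γ with hu
    have hu0 : 0 < u := by positivity
    set N : ℝ := (Fintype.card I' : ℝ) with hN
    have hN0 : 0 ≤ N := by positivity
    have h3 : ∑ j' ∈ univ.erase j, ∑ x', phi γ (A * (τ ^ n * (τ * R)))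
        (π ((w ++ c0 j ++ c j x) ++ₛ ω0) - π ((w ++ c0 j' ++ c j' x') ++ₛ ω0)) ≤
        Fintype.card I * (N * ((A / τ) ^ γ * τ ^ γ * u)) := by
      calc _ ≤ ∑ _j' ∈ univ.erase j, N * ((A / τ) ^ γ * τ ^ γ * u) := by
            refine sum_le_sum fun j' hj' => ?_
            calc _ ≤ ∑ _x' : I', (A / τ) ^ γ * τ ^ γ * u := by
                  refine sum_le_sum fun x' _ => ?_
                  have h4 := h2 j j' (ne_of_mem_erase hj').symm (c j x ++ₛ ω0) (c j' x' ++ₛ ω0)
                  simp only [← Stream'.append_append_stream] at h4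
                  refine (phi_le hγ (by positivity) (by positivity) h4).trans (le_of_eq ?_)
                  rw [hu, ← Real.mul_rpow (by positivity) (by positivity),
                    ← Real.mul_rpow (by positivity) (by positivity)]
                  congr 1
                  field_simp
              _ = _ := by rw [sum_const, card_univ, nsmul_eq_mul]
        _ ≤ ∑ _j' : I, N * ((A / τ) ^ γ * τ ^ γ * u) :=
            sum_le_sum_of_subset_of_nonneg (erase_subset _ _) fun _ _ _ => by positivity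
        _ = _ := by rw [sum_const, card_univ, nsmul_eq_mul]
    have h4 := hE j x
    have e2 : (τ ^ (n + 1)) ^ γ = u * τ ^ γ := by
      rw [pow_succ, Real.mul_rpow (by positivity) hτ.le]
    rw [e2]
    push_cast
    have h5 : (1 + 2 * (A / τ) ^ γ) * u * N * 2 ≤
        (1 + 2 * (A / τ) ^ γ) * u * N * (Fintype.card I * τ ^ γ) :=
      mul_le_mul_of_nonneg_left hI (by positivity)
    have h6 : 0 ≤ u * N * (Fintype.card I * τ ^ γ) := by positivity
    refine (add_le_add h4 h3).trans ?_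
    nlinarith

end Pool.Agent.Lib.MP_5d78b4_mp.Abs
end

-- part Pool.Agent.Lib.MP_5d78b4_mp.Abs
section

set_option autoImplicit false
open Finset Filter Topology

namespace Pool.Agent.Lib.MP_5d78b4_mp.Abs

variable {α : Type} {π : Stream' α → ℝ} {ω0 ω1 : Stream' α} {a0 : α} {C : ℝ}

theorem approx {s a D y R0 e : ℝ} (ha : 0 < a) (hs : 0 < s) (hR : 0 < R0) (he : e ≤ 1 / 4)
    (h1 : |Real.log s - Real.log a| ≤ e) (h2 : |D / s - y / R0| ≤ e * (|y| / R0)) :
    a / 2 ≤ s ∧ s ≤ 2 * a ∧ |D - a * (y / R0)| ≤ 4 * e * a * (|y| / R0) := by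
  have he0 : 0 ≤ e := (abs_nonneg _).trans h1
  have h3 := Real.abs_exp_sub_one_le (x := Real.log s - Real.log a) (h1.trans (by linarith))
  rw [Real.exp_sub, Real.exp_log hs, Real.exp_log ha] at h3
  have h4 : |s - a| ≤ 2 * e * a := by
    have : s - a = (s / a - 1) * a := by field_simp
    rw [this, abs_mul, abs_of_pos ha]
    exact mul_le_mul_of_nonneg_right (h3.trans (by linarith)) ha.le
  have h5 := abs_le.1 h4
  have h6 : 2 * e * a ≤ a / 2 := by nlinarith
  refine ⟨by linarith [h5.1], by linarith [h5.2], ?_⟩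
  have e1 : D - a * (y / R0) = s * (D / s - y / R0) + (s - a) * (y / R0) := by field_simp; ring
  have hy : 0 ≤ |y| / R0 := by positivity
  rw [e1]
  refine (abs_add_le _ _).trans ?_
  rw [abs_mul, abs_mul, abs_of_pos hs, abs_div y R0, abs_of_pos hR]
  have h7 : s * |D / s - y / R0| ≤ 2 * a * (e * (|y| / R0)) :=
    mul_le_mul (by linarith [h5.2]) h2 (abs_nonneg _) (by positivity)
  have h8 : |s - a| * (|y| / R0) ≤ 2 * e * a * (|y| / R0) := mul_le_mul_of_nonneg_right h4 hy
  linarith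

theorem sumSet_closed {S1 : Set ℝ} (h : IsCompact S1) (d : ℕ) : IsClosed (sumSet S1 d) := by
  have e : sumSet S1 d = (fun E : Fin d → ℝ => ∑ i, E i) '' Set.pi Set.univ fun _ => S1 := by
    ext x
    simp only [sumSet, Set.mem_ofPred_eq, Set.mem_image, Set.mem_pi, Set.mem_univ, true_imp_iff]
    exact exists_congr fun E => and_congr_right fun _ => eq_comm
  rw [e]
  exact ((isCompact_univ_pi fun _ => h).image (by fun_prop)).isClosed

/-- A good direction together with a large family of separated model words. -/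
theorem good_family (hπ : Coding π ω0 ω1 a0 C) {τ γ σ K : ℝ} {I : Type} [Fintype I] {d : ℕ}
    (hτ : 0 < τ) (hτ2 : τ ≤ 1 / 2) (hI : 2 ≤ Fintype.card I * τ ^ γ) (hstep : Step π ω0 ω1 C τ I)
    (hK : 0 < K) (hσ : 0 < σ) (hσγ : σ < d * γ) (hdγ : d * γ ≤ 1) :
    ∃ ρ ε : ℝ, 0 < ρ ∧ ρ ≤ 1 / 2 ∧ 0 < ε ∧ ε ≤ 1 ∧ ∀ (W : List α) (N : ℕ),
      ∃ (t : Fin d → ℝ) (S : Finset (Fin d → List α)), (∀ i, 1 ≤ t i ∧ t i ≤ 2) ∧
        (2 : ℝ) ^ N ≤ S.card * (ρ ^ N) ^ σ ∧
        (∀ q ∈ S, ∀ i, At π ω0 ω1 C (W ++ q i) (ρ ^ N * scl π ω0 ω1 W)) ∧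
        ∀ q ∈ S, ∀ q' ∈ S, q ≠ q' → K * (ρ ^ N * scl π ω0 ω1 W) +
          ε * ∑ i, |π ((W ++ q i) ++ₛ ω0) - π ((W ++ q' i) ++ₛ ω0)| ≤
          |∑ i, t i * (π ((W ++ q i) ++ₛ ω0) - π ((W ++ q' i) ++ₛ ω0))| := by
  have hC := hπ.one_le
  have hd : 1 ≤ d := by
    rcases Nat.eq_zero_or_pos d with h | h
    · rw [h] at hσγ; simp at hσγ; linarith
    · exact h
  have hd' : (1 : ℝ) ≤ d := by exact_mod_cast hd
  have hγ : 0 < γ := by
    by_contra hh
    nlinarith [not_lt.1 hh]
  set K2 := K + 8 * d * C + 1 with hK2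
  have hK20 : 0 < K2 := by positivity
  set c1 := 1 + 2 * (3 * K2 / τ) ^ γ with hc1
  have hc10 : 0 < c1 := by positivity
  obtain ⟨n, hn1, hn2⟩ : ∃ n : ℕ, 1 ≤ n ∧ (τ ^ (d * γ - σ)) ^ n < 1 / (2 * c1 ^ d) := by
    have h1 : τ ^ (d * γ - σ) < 1 := Real.rpow_lt_one hτ.le (by linarith) (by linarith)
    exact ((eventually_ge_atTop 1).and ((tendsto_pow_atTop_nhds_zero_of_lt_one (by positivity)
      h1).eventually (gt_mem_nhds (by positivity)))).exists
  obtain ⟨I', _, hne, hE⟩ := energy (A := 3 * K2) hτ hγ.le (by positivity) hI hstep n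
  set ρ := τ ^ n with hρ
  have hρ0 : 0 < ρ := by positivity
  have hρ2 : ρ ≤ 1 / 2 :=
    (pow_le_of_le_one hτ.le (by linarith) (by omega)).trans hτ2
  have hdC : 1 ≤ (d : ℝ) * C := by nlinarith
  have hη : (c1 * ρ ^ γ) ^ d ≤ ρ ^ σ / 2 := by
    have e1 : (τ ^ (d * γ - σ)) ^ n = ρ ^ (d * γ - σ) := by
      rw [hρ, ← Real.rpow_natCast, ← Real.rpow_mul hτ.le, mul_comm _ (n : ℝ),
        Real.rpow_mul hτ.le, Real.rpow_natCast]
    have e2 : (ρ ^ γ) ^ d = ρ ^ (d * γ - σ) * ρ ^ σ := by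
      rw [← Real.rpow_add hρ0, sub_add_cancel, mul_comm, Real.rpow_mul hρ0.le, Real.rpow_natCast]
    rw [e1, lt_div_iff₀ (by positivity)] at hn2
    rw [mul_pow, e2]
    have : 0 < ρ ^ σ := by positivity
    nlinarith
  refine ⟨ρ, ρ / (4 * d * C), hρ0, hρ2, by positivity, ?_, fun W N => ?_⟩
  · rw [div_le_one (by positivity)]; linarith
  have hJ : 0 < ⌈2 * C / ρ⌉₊ := Nat.ceil_pos.2 (by positivity)
  have hW := hπ.pos W
  obtain ⟨S, hS0, hS1, hS2⟩ := inner (I := I') (fun p => π ((W ++ p) ++ₛ ω0))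
    (fun r p => At π ω0 ω1 C (W ++ p) r) (d := d) hJ C K K2 ρ γ (c1 * ρ ^ γ) (ρ / (4 * d * C))
    (by linarith) hK hK2 hρ0 hρ2 hγ.le hdγ (by positivity) (by positivity)
    (le_of_eq (by field_simp)) (by
      rw [← div_le_iff₀ hρ0]; exact Nat.le_ceil _) (by
      intro r hr p hp
      obtain ⟨c, h1, h2⟩ := hE (W ++ p) r hr hp
      refine ⟨fun x => p ++ c x, fun x => ⟨?_, ?_⟩, fun x => ?_⟩
      · rw [← List.append_assoc]; exact h1 x
      · rw [← List.append_assoc, Stream'.append_append_stream (W ++ p)]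
        exact (hπ.diam _ _ _).trans (mul_le_mul_of_nonneg_left hp.2 (by linarith))
      · simp only [← List.append_assoc, ← mul_assoc 3 K2]
        exact h2 x) N (scl π ω0 ω1 W) hW (fun _ => []) (fun _ => by
      rw [List.append_nil]; exact ⟨div_le_self hW.le hC, le_rfl⟩)
  have : Nonempty (Fin ⌈2 * C / ρ⌉₊) := ⟨⟨0, hJ⟩⟩
  obtain ⟨t, -, ht⟩ := exists_le_of_sum_le (s := univ)
    (f := fun _ : Fin d → Fin ⌈2 * C / ρ⌉₊ => -(N * Real.log ((c1 * ρ ^ γ) ^ d)))
    (g := fun t => Real.log (S t).card) univ_nonempty (by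
      refine le_trans (le_of_eq ?_) hS1
      rw [sum_const, card_univ, Fintype.card_fun, Fintype.card_fin, Fintype.card_fin, nsmul_eq_mul]
      push_cast
      ring)
  refine ⟨tv t, S t, fun i => ⟨one_le_tv t i, tv_le_two t i⟩, ?_,
    fun q hq i => ((hS2 t).1 q hq i).1, (hS2 t).2⟩
  have h1 : (0 : ℝ) < (S t).card := by exact_mod_cast card_pos.2 (hS0 t)
  have h2 : 0 < (c1 * ρ ^ γ) ^ d := by positivity
  rw [← Real.log_pow, ← Real.log_inv, Real.log_le_log_iff (by positivity) h1,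
    inv_le_iff_one_le_mul₀' (by positivity)] at ht
  have h3 : ((c1 * ρ ^ γ) ^ d) ^ N ≤ (ρ ^ σ / 2) ^ N := pow_le_pow_left₀ h2.le hη N
  have e3 : (ρ ^ N) ^ σ = (ρ ^ σ) ^ N := by
    rw [← Real.rpow_natCast, ← Real.rpow_mul hρ0.le, mul_comm, Real.rpow_mul hρ0.le,
      Real.rpow_natCast]
  have h4 := ht.trans (mul_le_mul_of_nonneg_right h3 h1.le)
  rw [div_pow, div_mul_eq_mul_div, le_div_iff₀ (by positivity), one_mul] at h4
  rw [e3, mul_comm]
  exact h4

theorem main_lower (hπ : Coding π ω0 ω1 a0 C) (S1 : Set ℝ) (hK : IsCompact S1)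
    (hsub : Set.range π ⊆ S1) {τ γ σ : ℝ} {I : Type} [Fintype I] {d : ℕ}
    (hτ : 0 < τ) (hτ2 : τ ≤ 1 / 2) (hI : 2 ≤ Fintype.card I * τ ^ γ) (hstep : Step π ω0 ω1 C τ I)
    (hσ : 0 < σ) (hσγ : σ < d * γ) (hdγ : d * γ ≤ 1) :
    ENNReal.ofReal σ ≤ dimH (sumSet S1 d) := by
  classical
  have hC := hπ.one_le
  have hC0 : 0 < C := by linarith
  set C6 := 4 * C ^ 2 with hC6
  have hC2 : 1 ≤ C ^ 2 := one_le_pow₀ hC
  have hC61 : 1 ≤ C6 := by linarith
  obtain ⟨ρ, ε, hρ, hρ2, hε, hε1, hfam⟩ := good_family hπ (K := 4 * (d * C * C6) + 1) hτ hτ2 hI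
    hstep (by positivity) hσ hσγ hdγ
  obtain ⟨m, hm⟩ := hπ.close (ε / 8) (by positivity)
  obtain ⟨T0, hT0⟩ := hπ.steer (ε / 8) (by positivity) m
  set W := List.replicate m a0 with hW
  set R0 := scl π ω0 ω1 W with hR0
  have hR00 : 0 < R0 := hπ.pos W
  set lam := Real.exp (-|T0|) / (2 * C6) with hlam
  have hlam0 : 0 < lam := by positivity
  have hlam2 : lam ≤ 1 / 2 := by
    have : Real.exp (-|T0|) ≤ 1 := Real.exp_le_one_iff.2 (by linarith [abs_nonneg T0])
    rw [hlam, div_le_iff₀ (by positivity)]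
    linarith
  obtain ⟨N, hN⟩ := ((tendsto_pow_atTop_atTop_of_one_lt (one_lt_two (α := ℝ))).eventually_ge_atTop
    (lam ^ σ)⁻¹).exists
  obtain ⟨t, S, ht, hcard, hAt, hsep⟩ := hfam W N
  set s0 := scl π ω0 ω1 [] with hs0
  have hs : 0 < s0 := hπ.pos []
  have hρN : ρ ^ N ≤ 1 := pow_le_one₀ hρ.le (by linarith)
  have hρN0 : 0 < ρ ^ N := by positivity
  refine tree (fun z : Fin d → List α => ∑ i, π (z i ++ₛ ω0))
    (fun k z => ∀ i, s0 * (lam * ρ ^ N) ^ k / C6 ≤ scl π ω0 ω1 (z i) ∧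
      scl π ω0 ω1 (z i) ≤ C6 * (s0 * (lam * ρ ^ N) ^ k)) _ (sumSet_closed hK d)
    (fun z => ⟨fun i => π (z i ++ₛ ω0), fun i => hsub ⟨_, rfl⟩, rfl⟩) (d * C * C6 * s0) s0
    (lam * ρ ^ N) σ S.card (by positivity) hs (by positivity) (by nlinarith) hσ ?_ (fun _ => [])
    (fun _ => ?_) ?_
  · rw [Real.mul_rpow hlam0.le hρN0.le]
    have h1 : 0 < lam ^ σ := by positivity
    rw [inv_le_iff_one_le_mul₀' h1] at hN
    calc (1 : ℝ) ≤ lam ^ σ * 2 ^ N := hN
      _ ≤ lam ^ σ * (S.card * (ρ ^ N) ^ σ) := mul_le_mul_of_nonneg_left hcard h1.le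
      _ = _ := by ring
  · rw [pow_zero, mul_one]
    exact ⟨div_le_self hs.le hC61, le_mul_of_one_le_left hs.le hC61⟩
  intro k z hz
  set R := s0 * (lam * ρ ^ N) ^ k with hR
  have hRp : 0 < R := by positivity
  have ha : ∀ i, 0 < lam * R * t i := fun i => mul_pos (by positivity) (by linarith [(ht i).1])
  have hv : ∀ i, ∃ v : List α,
      |Real.log (scl π ω0 ω1 (z i ++ v ++ W)) - Real.log (lam * R * t i)| ≤ ε / 8 := by
    intro i
    obtain ⟨v, hv⟩ := hT0 (z i) (Real.log (scl π ω0 ω1 (z i)) - Real.log (lam * R * t i)) (by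
      refine (le_abs_self T0).trans ?_
      rw [← Real.log_div (hπ.pos _).ne' (ha i).ne', Real.le_log_iff_exp_le
        (div_pos (hπ.pos _) (ha i)), le_div_iff₀ (ha i)]
      refine le_trans ?_ (hz i).1
      calc _ ≤ Real.exp |T0| * (lam * R * 2) :=
            mul_le_mul_of_nonneg_left (mul_le_mul_of_nonneg_left (ht i).2 (by positivity))
              (by positivity)
        _ = _ := by rw [hlam, Real.exp_neg]; field_simp)
    refine ⟨v, ?_⟩
    rw [abs_sub_comm]
    refine le_of_eq_of_le (congrArg _ (by ring)) hv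
  choose v hv using hv
  have hap := fun i (ω ω' : Stream' α) => approx (ha i) (hπ.pos _) hR00 (by linarith) (hv i)
    (hm (z i ++ v i) ω ω')
  have hinj : Function.Injective fun (q : Fin d → List α) (i : Fin d) => z i ++ v i ++ W ++ q i :=
    fun q q' h => funext fun i => List.append_cancel_left (congrFun h i)
  have eR : s0 * (lam * ρ ^ N) ^ (k + 1) = lam * R * ρ ^ N := by rw [hR]; ring
  refine ⟨S.image fun q i => z i ++ v i ++ W ++ q i, (card_image_of_injective S hinj).ge, ?_, ?_⟩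
  · intro c hc
    obtain ⟨q, hq, rfl⟩ := mem_image.1 hc
    refine ⟨fun i => ?_, ?_⟩
    · rw [eR]
      obtain ⟨h1, h2, -⟩ := hap i ω0 ω0
      have h3 := scl_transfer hπ W (z i ++ v i ++ W) (q i)
      have h4 := scl_transfer hπ (z i ++ v i ++ W) W (q i)
      obtain ⟨h5, h6⟩ := hAt q hq i
      have h7 : lam * R / 2 ≤ scl π ω0 ω1 (z i ++ v i ++ W) := by
        refine le_trans ?_ h1
        have := mul_le_mul_of_nonneg_left (ht i).1 (show 0 ≤ lam * R by positivity)
        linarith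
      have h8 : scl π ω0 ω1 (z i ++ v i ++ W) ≤ 4 * (lam * R) := by
        refine h2.trans ?_
        have := mul_le_mul_of_nonneg_left (ht i).2 (show 0 ≤ lam * R by positivity)
        linarith
      constructor
      · have h9 := (mul_le_mul h5 h7 (by positivity) (hπ.pos _).le).trans h3
        refine le_of_mul_le_mul_left (a := C * R0) ?_ (by positivity)
        calc _ = ρ ^ N * R0 / C * (lam * R / 2) / 2 := by rw [hC6]; field_simp; norm_num
          _ ≤ ρ ^ N * R0 / C * (lam * R / 2) := half_le_self (by positivity)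
          _ ≤ _ := h9
          _ = _ := by ring
      · have h9 := h4.trans (mul_le_mul (mul_le_mul_of_nonneg_left h6 hC0.le) h8 (hπ.pos _).le
          (by positivity))
        refine le_of_mul_le_mul_right (a := R0) ?_ hR00
        calc _ ≤ _ := h9
          _ = 4 * C * (lam * R * ρ ^ N * R0) := by ring
          _ ≤ 4 * C ^ 2 * (lam * R * ρ ^ N * R0) :=
              mul_le_mul_of_nonneg_right (by nlinarith) (by positivity)
          _ = _ := by rw [hC6]; ring
    · rw [← sum_sub_distrib]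
      refine (abs_sum_le_sum_abs _ _).trans ?_
      calc _ ≤ ∑ _i : Fin d, C * (C6 * R) := sum_le_sum fun i _ => by
            simp only [Stream'.append_append_stream]
            exact (hπ.diam _ _ _).trans (mul_le_mul_of_nonneg_left (hz i).2 hC0.le)
        _ = _ := by rw [sum_const, card_univ, Fintype.card_fin, nsmul_eq_mul, hR]; ring
  · intro c hc c' hc' hne
    obtain ⟨q, hq, rfl⟩ := mem_image.1 hc
    obtain ⟨q', hq', rfl⟩ := mem_image.1 hc'
    have h1 := hsep q hq q' hq' fun h => hne (by rw [h])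
    rw [← sum_sub_distrib]
    set y : Fin d → ℝ := fun i => π ((W ++ q i) ++ₛ ω0) - π ((W ++ q' i) ++ₛ ω0) with hy
    set D : Fin d → ℝ := fun i => π ((z i ++ v i ++ W ++ q i) ++ₛ ω0) -
      π ((z i ++ v i ++ W ++ q' i) ++ₛ ω0) with hD
    have hμ : 0 < lam * R / R0 := by positivity
    have h2 : ∀ i, |D i - lam * R / R0 * (t i * y i)| ≤ lam * R / R0 * (ε * |y i|) := by
      intro i
      have h3 := (hap i (q i ++ₛ ω0) (q' i ++ₛ ω0)).2.2
      simp only [← Stream'.append_append_stream] at h3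
      change |D i - lam * R * t i * (y i / R0)| ≤ 4 * (ε / 8) * (lam * R * t i) * (|y i| / R0) at h3
      calc _ = |D i - lam * R * t i * (y i / R0)| := by congr 1; ring
        _ ≤ _ := h3
        _ = lam * R / R0 * (ε * |y i|) * (t i / 2) := by ring
        _ ≤ _ := mul_le_of_le_one_right (by positivity) (by linarith [(ht i).2])
    have h3 : |lam * R / R0 * ∑ i, t i * y i - ∑ i, D i| ≤ lam * R / R0 * (ε * ∑ i, |y i|) := by
      rw [abs_sub_comm, mul_sum, ← sum_sub_distrib, mul_sum, mul_sum]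
      exact (abs_sum_le_sum_abs _ _).trans (sum_le_sum fun i _ => h2 i)
    have h4 := abs_sub_abs_le_abs_sub (lam * R / R0 * ∑ i, t i * y i) (∑ i, D i)
    rw [abs_mul, abs_of_pos hμ] at h4
    have h5 := mul_le_mul_of_nonneg_left h1 hμ.le
    have e1 : (4 * (d * C * C6 * s0) + s0) * (lam * ρ ^ N) ^ (k + 1) =
        lam * R / R0 * ((4 * (d * C * C6) + 1) * (ρ ^ N * R0)) := by
      rw [hR]; field_simp; ring
    rw [e1]
    rw [mul_add] at h5
    linarith

end Pool.Agent.Lib.MP_5d78b4_mp.Abs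

namespace Pool.Agent.Lib.MP_5d78b4_mp

/-- Abstract dimension formula for arithmetic sums. -/
theorem abs_main {α : Type} (π : Stream' α → ℝ) (ω0 ω1 : Stream' α) (a0 : α) (C : ℝ)
    (hπ : Coding π ω0 ω1 a0 C) (π' : Stream' α → ℝ)
    (hLip : ∀ ω ω', |π' ω - π' ω'| ≤ C * |π ω - π ω'|)
    (S1 : Set ℝ) (hclosed : IsClosed S1) (hsub : Set.range π ⊆ S1)
    (hcov : S1 ⊆ closure (Set.range π ∪ Set.range π')) (d : ℕ) (hd : 1 ≤ d) :
    DimFormula S1 (sumSet S1 d) d := by
  have hC := hπ.one_le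
  have hs := hπ.pos []
  set R := |π ω0| + |π' ω0| + C * (C * scl π ω0 ω1 []) with hR
  have hb : ∀ x ∈ S1, |x| ≤ R := by
    intro x hx
    refine closure_minimal (t := {x | |x| ≤ R}) ?_ (isClosed_le continuous_abs continuous_const)
      (hcov hx)
    have h0 : C * scl π ω0 ω1 [] ≤ C * (C * scl π ω0 ω1 []) :=
      le_mul_of_one_le_left (by positivity) hC
    rintro _ (⟨ω, rfl⟩ | ⟨ω, rfl⟩)
    · have h1 := Abs.range_bdd hπ ω
      have h2 := abs_sub_abs_le_abs_sub (π ω) (π ω0)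
      show |π ω| ≤ R
      linarith [abs_nonneg (π' ω0)]
    · have h1 := (hLip ω ω0).trans
        (mul_le_mul_of_nonneg_left (Abs.range_bdd hπ ω) (by linarith))
      have h2 := abs_sub_abs_le_abs_sub (π' ω) (π' ω0)
      show |π' ω| ≤ R
      linarith [abs_nonneg (π ω0)]
  have hK : IsCompact S1 := (isCompact_Icc (a := -R) (b := R)).of_isClosed_subset hclosed
    fun x hx => abs_le.1 (hb x hx)
  refine Abs.squeeze S1 R (by positivity) hb ⟨π ω0, hsub ⟨ω0, rfl⟩⟩ ?_ d hd
  intro d γ σ h1 h2 h3 hbig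
  obtain ⟨τ, I, _, h4, h5, h6, h7⟩ := Abs.model_step hπ π' hLip S1 hcov γ hbig
  exact Abs.main_lower hπ S1 hK hsub h4 h5 h6 h7 h1 h2 h3

end Pool.Agent.Lib.MP_5d78b4_mp
end
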