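import Mathlib

-- part Pool.Agent.Lib.MP_5d78b4_mp.Defs
section

set_option autoImplicit false
open Filter Topology

namespace Pool.Agent.Lib.MP_5d78b4_mp

/-- Half traces of the Fibonacci transfer matrices: `xs lam E k` is the usual `x_{k-1}(E)`. -/
noncomputable def xs (lam E : ℝ) : ℕ → ℝ
  | 0 => 1
  | 1 => E / 2
  | 2 => (E - lam) / 2
  | (k + 3) => 2 * xs lam E (k + 2) * xs lam E (k + 1) - xs lam E k

/-- The real spectrum of the one-dimensional Fibonacci Hamiltonian (as in the frozen statement). -/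
def spec1 (lam : ℝ) : Set ℝ :=
  {E : ℝ | ∃ T : lp (fun _ : ℤ => ℂ) 2 →L[ℂ] lp (fun _ : ℤ => ℂ) 2,
              (∀ (u : lp (fun _ : ℤ => ℂ) 2) (n : ℤ),
                (T u) n = u (n + 1) + u (n - 1)
                  + ((lam * ((⌊((n : ℝ) + 1) * ((Real.sqrt 5 - 1) / 2)⌋
                      - ⌊(n : ℝ) * ((Real.sqrt 5 - 1) / 2)⌋ : ℤ) : ℝ) : ℝ) : ℂ) * u n)
              ∧ (E : ℂ) ∈ spectrum ℂ T}

/-- The real spectrum of the `d`-dimensional Fibonacci Hamiltonian (as in the frozen statement). -/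
def specd (lam : ℝ) (d : ℕ) : Set ℝ :=
  {E : ℝ | ∃ T : lp (fun _ : (Fin d → ℤ) => ℂ) 2 →L[ℂ] lp (fun _ : (Fin d → ℤ) => ℂ) 2,
              (∀ (u : lp (fun _ : (Fin d → ℤ) => ℂ) 2) (n : Fin d → ℤ),
                (T u) n = ∑ i : Fin d,
                  (u (n + (Pi.single i (1 : ℤ) : Fin d → ℤ))
                    + u (n - (Pi.single i (1 : ℤ) : Fin d → ℤ))
                    + ((lam * ((⌊((n i : ℝ) + 1) * ((Real.sqrt 5 - 1) / 2)⌋
                        - ⌊(n i : ℝ) * ((Real.sqrt 5 - 1) / 2)⌋ : ℤ) : ℝ) : ℝ) : ℂ) * u n))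
              ∧ (E : ℂ) ∈ spectrum ℂ T}

/-- The `d`-fold Minkowski sum. -/
def sumSet (A : Set ℝ) (d : ℕ) : Set ℝ :=
  {x : ℝ | ∃ E : Fin d → ℝ, (∀ i, E i ∈ A) ∧ x = ∑ i, E i}

/-- Number of closed dyadic intervals of generation `m` meeting `A`. -/
noncomputable def cnt (A : Set ℝ) (m : ℕ) : ℕ :=
  {k : ℤ | ∃ x ∈ A, (k : ℝ) ≤ 2 ^ m * x ∧ 2 ^ m * x ≤ (k : ℝ) + 1}.ncard

/-- The conclusion of the frozen statement for a pair of sets. -/
def DimFormula (S1 S : Set ℝ) (d : ℕ) : Prop :=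
  ∃ D : ℝ,
    Tendsto (fun m : ℕ => Real.log ((cnt S1 m : ℕ) : ℝ) / ((m : ℝ) * Real.log 2)) atTop (𝓝 D)
    ∧ dimH S = ENNReal.ofReal (min 1 ((d : ℝ) * D))
    ∧ Tendsto (fun m : ℕ => Real.log ((cnt S m : ℕ) : ℝ) / ((m : ℝ) * Real.log 2)) atTop
        (𝓝 (min 1 ((d : ℝ) * D)))

/-- Signed scale of the cylinder of the word `w`. -/
noncomputable def scl {α : Type} (π : Stream' α → ℝ) (ω0 ω1 : Stream' α) (w : List α) : ℝ :=
  π (w ++ₛ ω0) - π (w ++ₛ ω1)

/-- Abstract geometric hypotheses on a coding map `π`. -/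
structure Coding {α : Type} (π : Stream' α → ℝ) (ω0 ω1 : Stream' α) (a0 : α) (C : ℝ) : Prop where
  one_le : 1 ≤ C
  pos : ∀ w, 0 < scl π ω0 ω1 w
  diam : ∀ (w : List α) (ω ω' : Stream' α), |π (w ++ₛ ω) - π (w ++ₛ ω')| ≤ C * scl π ω0 ω1 w
  child : ∀ (w : List α) (a : α), scl π ω0 ω1 w ≤ C * scl π ω0 ω1 (w ++ [a])
  small : ∀ ε : ℝ, 0 < ε → ∃ n : ℕ, ∀ w : List α, n ≤ w.length → scl π ω0 ω1 w ≤ ε
  transfer : ∀ (w w' : List α) (ω ω' : Stream' α),
    |π (w ++ₛ ω) - π (w ++ₛ ω')| * scl π ω0 ω1 w' ≤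
      C * |π (w' ++ₛ ω) - π (w' ++ₛ ω')| * scl π ω0 ω1 w
  close : ∀ ε : ℝ, 0 < ε → ∃ m : ℕ, ∀ (w : List α) (ω ω' : Stream' α),
    |(π ((w ++ List.replicate m a0) ++ₛ ω) - π ((w ++ List.replicate m a0) ++ₛ ω'))
          / scl π ω0 ω1 (w ++ List.replicate m a0)
        - (π (List.replicate m a0 ++ₛ ω) - π (List.replicate m a0 ++ₛ ω'))
          / scl π ω0 ω1 (List.replicate m a0)|
      ≤ ε * (|π (List.replicate m a0 ++ₛ ω) - π (List.replicate m a0 ++ₛ ω')|
          / scl π ω0 ω1 (List.replicate m a0))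
  steer : ∀ ε : ℝ, 0 < ε → ∀ m : ℕ, ∃ T0 : ℝ, ∀ (w : List α) (t : ℝ), T0 ≤ t → ∃ v : List α,
    |Real.log (scl π ω0 ω1 w) - Real.log (scl π ω0 ω1 (w ++ v ++ List.replicate m a0)) - t| ≤ ε

end Pool.Agent.Lib.MP_5d78b4_mp
end

-- part Pool.Agent.Lib.MP_5d78b4_mp.Alg
section

set_option autoImplicit false
open Filter Topology Real

namespace Pool.Agent.Lib.MP_5d78b4_mp

inductive Edge : Type
  | one | two | ba | ab
  deriving DecidableEq

instance : Fintype Edge := ⟨{.one, .two, .ba, .ab}, fun e => by cases e <;> simp⟩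

noncomputable def ww (V a b : ℝ) : ℝ := √(V + (1 - a ^ 2) * (1 - b ^ 2))
noncomputable def f1 (V a b : ℝ) : ℝ := a * b - ww V a b
noncomputable def g1 (V a b : ℝ) : ℝ := (1 - a ^ 2) * b + a * ww V a b
noncomputable def f2 (V a b : ℝ) : ℝ := a * f1 V a b - g1 V a b
noncomputable def g2 (V a b : ℝ) : ℝ := (1 - a ^ 2) * f1 V a b + a * g1 V a b
noncomputable def f3 (V a b : ℝ) : ℝ := a * f2 V a b - g2 V a b
noncomputable def g3 (V a b : ℝ) : ℝ := (1 - a ^ 2) * f2 V a b + a * g2 V a b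

/-- The algebraic form of the edge equations. -/
def Mv (V : ℝ) : Edge → ℝ → ℝ → ℝ → Prop
  | .one, a, b, c => f3 V a b = -c ∧ g3 V a b = -ww V a c ∧ -1 / 2 < a
  | .two, a, b, c => f3 V a b = c ∧ g3 V a b = ww V a c ∧ a < 1 / 2
  | .ba, a, b, c => f2 V a b = -c ∧ g2 V a b = -ww V a c
  | .ab, a, b, c => f2 V a b = -c ∧ g2 V a b = -ww V a c

variable {V a b c : ℝ}

theorem ww_sq (hV : 0 < V) (ha : a ^ 2 ≤ 1) (hb : b ^ 2 ≤ 1) :
    ww V a b ^ 2 = V + (1 - a ^ 2) * (1 - b ^ 2) :=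
  Real.sq_sqrt (by nlinarith [mul_nonneg (sub_nonneg.2 ha) (sub_nonneg.2 hb)])

theorem sqrt_le_ww (ha : a ^ 2 ≤ 1) (hb : b ^ 2 ≤ 1) : √V ≤ ww V a b :=
  Real.sqrt_le_sqrt (by nlinarith [mul_nonneg (sub_nonneg.2 ha) (sub_nonneg.2 hb)])

theorem ww_pos (hV : 0 < V) (ha : a ^ 2 ≤ 1) (hb : b ^ 2 ≤ 1) : 0 < ww V a b :=
  (Real.sqrt_pos.2 hV).trans_le (sqrt_le_ww ha hb)

theorem ww_comm : ww V a b = ww V b a := by unfold ww; rw [mul_comm]

theorem ww_neg : ww V a (-b) = ww V a b := by unfold ww; rw [neg_sq]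

theorem g1_sq (hV : 0 < V) (ha : a ^ 2 ≤ 1) (hb : b ^ 2 ≤ 1) :
    g1 V a b ^ 2 = V + (1 - a ^ 2) * (1 - f1 V a b ^ 2) := by
  have := ww_sq hV ha hb
  unfold g1 f1; linear_combination this

theorem g2_sq (hV : 0 < V) (ha : a ^ 2 ≤ 1) (hb : b ^ 2 ≤ 1) :
    g2 V a b ^ 2 = V + (1 - a ^ 2) * (1 - f2 V a b ^ 2) := by
  have := g1_sq hV ha hb
  unfold g2 f2; linear_combination this

theorem triple (hV : 0 < V) {f g : ℝ} (ha : a ^ 2 ≤ 1) (hf : f ^ 2 ≤ 1) (hf' : (a * f - g) ^ 2 ≤ 1)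
    (h : g ^ 2 = V + (1 - a ^ 2) * (1 - f ^ 2)) :
    0 < (a - f * (a * f - g)) * g * ((1 - a ^ 2) * f + a * g) := by
  by_contra hc
  push Not at hc
  set z := a * f - g with hz
  have hg : g = a * f - z := by rw [hz]; ring
  have hI : a ^ 2 + f ^ 2 + z ^ 2 - 2 * a * f * z - 1 = V := by rw [hz]; linear_combination h
  have e1 : (a - f * z) * g * ((1 - a ^ 2) * f + a * g) = g ^ 2 * (1 - z ^ 2) - V * (z * g) := by
    rw [hg, ← hI]; ring
  have e2 : (a - f * z) * g * ((1 - a ^ 2) * f + a * g) =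
      (a - f * z) ^ 2 * (1 - a ^ 2) + V * (a * (a - f * z)) := by
    rw [hg, ← hI]; ring
  have h1 : 0 ≤ z * g := by
    by_contra h1; push Not at h1
    nlinarith [mul_nonneg (sq_nonneg g) (sub_nonneg.2 hf')]
  have h2 : a * (a - f * z) ≤ 0 := by
    by_contra h2; push Not at h2
    nlinarith [mul_nonneg (sq_nonneg (a - f * z)) (sub_nonneg.2 ha)]
  rw [hg] at h1
  nlinarith [mul_nonneg (sq_nonneg z) (sub_nonneg.2 hf)]

/-- Two interlaced states. -/
structure Cf (V σ a b a' b' : ℝ) : Prop where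
  hσ : σ = 1 ∨ σ = -1
  ha : a ^ 2 ≤ 1
  hb : b ^ 2 ≤ 1
  ha' : a' ^ 2 ≤ 1
  hb' : b' ^ 2 ≤ 1
  e1 : a' = f2 V a b
  e2 : b' = σ * f1 V a b
  e3 : f1 V a' b' = σ * a
  e4 : 0 < g2 V a b

theorem Cf.g1_neg (hV : 0 < V) {σ a' b' : ℝ} (h : Cf V σ a b a' b') : σ * g1 V a b < 0 := by
  have hs : σ ^ 2 = 1 := by rcases h.hσ with rfl | rfl <;> norm_num
  have h1 : f1 V a b ^ 2 ≤ 1 := by have := h.hb'; rw [h.e2, mul_pow, hs] at this; linarith
  have h2 := triple hV h.ha h1 (by have := h.ha'; rw [h.e1] at this; exact this) (g1_sq hV h.ha h.hb)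
  have h3 := ww_pos hV h.ha' h.hb'
  have h4 : σ * (a - f1 V a b * f2 V a b) = - ww V a' b' := by
    have := h.e3
    unfold f1 at this
    rw [← h.e1]
    have e2 := h.e2
    linear_combination -this + a' * e2
  change 0 < (a - f1 V a b * f2 V a b) * g1 V a b * g2 V a b at h2
  have h5 : 0 < (a - f1 V a b * f2 V a b) * g1 V a b := (mul_pos_iff_of_pos_right h.e4).1 h2
  have h6 : (a - f1 V a b * f2 V a b) * g1 V a b = -ww V a' b' * (σ * g1 V a b) := by
    rw [← h4]; linear_combination (-(a - f1 V a b * f2 V a b) * g1 V a b) * hs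
  by_contra hc
  push Not at hc
  nlinarith

theorem Cf.step (hV : 0 < V) {σ a' b' : ℝ} (h : Cf V σ a b a' b') (hc : c ^ 2 ≤ 1)
    (e1 : c = σ * f3 V a b) (e2 : ww V a c = σ * g3 V a b) :
    Cf V (-σ) a' b' c (-a) ∧ -σ * a + √V ≤ σ * a' := by
  have hs : σ ^ 2 = 1 := by rcases h.hσ with rfl | rfl <;> norm_num
  have hw := ww_pos hV h.ha hc
  have hf3 : f3 V a b ^ 2 ≤ 1 := by rw [e1, mul_pow, hs] at hc; linarith
  have y1 : g1 V a' b' = σ * g2 V a b := by
    have := h.e3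
    have e : g1 V a' b' = b' - a' * f1 V a' b' := by unfold g1 f1; ring
    rw [e, this, h.e1, h.e2]; unfold g2 f2; ring
  have y2 : f2 V a' b' = c := by
    unfold f2; rw [h.e3, y1, e1, h.e1]; unfold f3; ring
  have y3 : g2 V a' b' = σ * (a - f2 V a b * f3 V a b) := by
    unfold g2; rw [h.e3, y1, h.e1]; unfold f3; ring
  have t := triple hV h.ha (by have := h.ha'; rw [h.e1] at this; exact this) hf3 (g2_sq hV h.ha h.hb)
  change 0 < (a - f2 V a b * f3 V a b) * g2 V a b * g3 V a b at t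
  have y4 : 0 < g2 V a' b' := by
    have : (a - f2 V a b * f3 V a b) * g2 V a b * g3 V a b = g2 V a' b' * (g2 V a b * ww V a c) := by
      rw [y3, e2]; linear_combination (-(a - f2 V a b * f3 V a b) * g2 V a b * g3 V a b) * hs
    rw [this] at t
    exact (mul_pos_iff_of_pos_right (mul_pos h.e4 hw)).1 t
  refine ⟨⟨?_, h.ha', h.hb', hc, by simpa using h.ha, y2.symm, ?_, ?_, y4⟩, ?_⟩
  · rcases h.hσ with rfl | rfl <;> simp
  · rw [h.e3]; linear_combination a * hs
  · unfold f1; rw [ww_neg, ww_comm, e2, e1, h.e1]; unfold g3 f3; ring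
  · have z1 := sqrt_le_ww (V := V) h.ha hc
    have z2 : √V ≤ g2 V a' b' := by
      refine Real.sqrt_le_iff.2 ⟨y4.le, ?_⟩
      rw [g2_sq hV h.ha' h.hb', y2]
      nlinarith [mul_nonneg (sub_nonneg.2 h.ha') (sub_nonneg.2 hc)]
    have z3 : (1 - f3 V a b) * (σ * (a' + a)) = ww V a c + g2 V a' b' := by
      rw [y3, e2, h.e1]; unfold g3 f3; ring
    have z4 : -1 ≤ f3 V a b ∧ f3 V a b ≤ 1 := abs_le.1 ((sq_le_one_iff_abs_le_one _).1 hf3)
    have z5 := Real.sqrt_pos.2 hV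
    by_contra hc'
    push Not at hc'
    have z6 : σ * (a' + a) < √V := by linarith
    generalize σ * (a' + a) = u at z3 z6
    rcases le_total u 0 with z7 | z7 <;> nlinarith [z4.1, z4.2]

theorem Cf.move (hV : 0 < V) {σ a' b' : ℝ} (h : Cf V σ a b a' b') (hc : c ^ 2 ≤ 1) {e : Edge}
    (hm : Mv V e a b c) :
    (e = .one ∨ e = .two) ∧ Cf V (-σ) a' b' c (-a) ∧ -σ * a + √V ≤ σ * a' := by
  have hw := ww_pos hV h.ha hc
  have hw0 := ww_pos hV h.ha h.hb
  have h1 := h.g1_neg hV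
  have h2 := h.e4
  have r2 : g2 V a b = 2 * a * g1 V a b - ww V a b := by unfold g2 g1 f1; ring
  have r3 : g3 V a b = 2 * a * g2 V a b - g1 V a b := by unfold g3 g2 f2; ring
  cases e with
  | one =>
    obtain ⟨m1, m2, m3⟩ := hm
    rcases h.hσ with rfl | rfl
    · exfalso
      have : a < 0 := by nlinarith
      nlinarith
    · exact ⟨Or.inl rfl, h.step hV hc (by linarith) (by linarith)⟩
  | two =>
    obtain ⟨m1, m2, m3⟩ := hm
    rcases h.hσ with rfl | rfl
    · exact ⟨Or.inr rfl, h.step hV hc (by linarith) (by linarith)⟩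
    · exfalso
      have : 0 < a := by nlinarith
      nlinarith
  | ba => exfalso; linarith [hm.2]
  | ab => exfalso; linarith [hm.2]

/-- No interlaced pair exists inside a family of states that can always move. -/
theorem no_cf (hV : 0 < V) (Z : ℕ → ℝ → ℝ → Prop)
    (hZ : ∀ k a b a' b', Z k a b → Z (k + 1) a' b' →
      ∃ e c, c ^ 2 ≤ 1 ∧ Mv V e a b c ∧ ((e = .one ∨ e = .two) → Z (k + 2) c (-a)))
    {k : ℕ} {σ a' b' : ℝ} (h1 : Z k a b) (h2 : Z (k + 1) a' b') : ¬ Cf V σ a b a' b' := by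
  have key : ∀ m : ℕ, ∀ k σ a b a' b', Z k a b → Z (k + 1) a' b' → Cf V σ a b a' b' →
      -σ * a ≤ 1 - m * √V := by
    intro m
    induction m with
    | zero =>
      intro k σ a b a' b' _ _ h
      have := abs_le.1 ((sq_le_one_iff_abs_le_one _).1 h.ha)
      rcases h.hσ with rfl | rfl <;> simp <;> linarith [this.1, this.2]
    | succ m ih =>
      intro k σ a b a' b' z1 z2 h
      obtain ⟨e, c, hc, hm, hz⟩ := hZ k a b a' b' z1 z2
      obtain ⟨he, h', hp⟩ := h.move hV hc hm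
      have := ih (k + 1) _ _ _ _ _ z2 (hz he) h'
      push_cast; linarith
  intro h
  have hs := Real.sqrt_pos.2 hV
  obtain ⟨m, hm⟩ := exists_nat_gt (2 / √V)
  have := key m k σ a b a' b' h1 h2 h
  have h3 := abs_le.1 ((sq_le_one_iff_abs_le_one _).1 h.ha)
  rw [div_lt_iff₀ hs] at hm
  rcases h.hσ with rfl | rfl <;> linarith [h3.1, h3.2]

theorem not_one_two (hV : 0 < V) {c' : ℝ} (ha : a ^ 2 ≤ 1) (hc : c ^ 2 ≤ 1) (hc' : c' ^ 2 ≤ 1)
    (h1 : Mv V .one a b c) (h2 : Mv V .two a b c') : False := by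
  have := ww_pos hV ha hc
  have := ww_pos hV ha hc'
  linarith [h1.2.1, h2.2.1]

theorem f1_after_ab (h : Mv V .ab a b c) : f1 V c (-a) = f1 V a b := by
  have e : f1 V c (-a) = -(a * c) - ww V a c := by unfold f1; rw [ww_neg, ww_comm]; ring
  have h1 := h.1
  have h2 := h.2
  rw [e]
  have : f1 V a b = a * f2 V a b + g2 V a b := by unfold f2 g2; ring
  rw [this, h1, h2]; ring

theorem f1_after_ba (h : Mv V .ba a b c) : f1 V c a = -f3 V a b := by
  have e : f1 V c a = a * c - ww V a c := by unfold f1; rw [ww_comm]; ring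
  have h1 := h.1
  have h2 := h.2
  rw [e]; unfold f3; rw [h1, h2]; ring

theorem f1_after (σ : ℝ) (e1 : c = σ * f3 V a b) (e2 : ww V a c = σ * g3 V a b) :
    f1 V c (-a) = -σ * f2 V a b := by
  unfold f1; rw [ww_neg, ww_comm, e2, e1]; unfold g3 f3; ring

theorem f2_eq : f2 V a b = 2 * a * f1 V a b - b := by unfold f2 g1 f1; ring

theorem f3_eq : f3 V a b = 2 * a * f2 V a b - f1 V a b := by unfold f3 g2 f2; ring

theorem cf_init (hV : 0 < V) {σ c1 c2 : ℝ} (hσ : σ = 1 ∨ σ = -1) (ha : a ^ 2 ≤ 1) (hb : b ^ 2 ≤ 1)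
    (hc : c ^ 2 ≤ 1) (hc1 : c1 ^ 2 ≤ 1) (hc2 : c2 ^ 2 ≤ 1)
    (e1 : c = σ * f3 V a b) (e2 : ww V a c = σ * g3 V a b) (h1 : Mv V .ba a b c1)
    (h2 : Mv V .ab c1 a c2) : Cf V (-σ) c (-a) c2 (-c1) := by
  have hs : σ ^ 2 = 1 := by rcases hσ with rfl | rfl <;> norm_num
  have x1 := f1_after σ e1 e2
  have y1 := f1_after_ba h1
  have y2 := f1_after_ab h2
  have hf3 : f3 V a b ^ 2 ≤ 1 := by rw [e1, mul_pow, hs] at hc; linarith
  have hf2 : f2 V a b = -c1 := h1.1
  have x2 : c2 = f2 V c (-a) := by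
    have := h2.1
    rw [f2_eq, y1] at this
    rw [f2_eq, x1, hf2, e1]
    linear_combination this - 2 * f3 V a b * c1 * hs
  refine ⟨?_, hc, by simpa using ha, hc2, by simpa using hc1, x2, ?_, ?_, ?_⟩
  · rcases hσ with rfl | rfl <;> simp
  · rw [x1, hf2]; linear_combination c1 * hs
  · rw [y2, y1, e1]; linear_combination f3 V a b * hs
  have t1 := triple hV ha (by rw [hf2]; simpa using hc1) hf3 (g2_sq hV ha hb)
  change 0 < (a - f2 V a b * f3 V a b) * g2 V a b * g3 V a b at t1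
  have t2 := triple hV hc1 (f := f1 V c1 a) (by rw [y1]; simpa using hf3)
    (by have := h2.1; unfold f2 at this; rw [this]; simpa using hc2) (g1_sq hV hc1 ha)
  change 0 < (c1 - f1 V c1 a * f2 V c1 a) * g1 V c1 a * g2 V c1 a at t2
  have u1 : g1 V c1 a = a - f2 V a b * f3 V a b := by
    have : g1 V c1 a = a - c1 * f1 V c1 a := by unfold g1 f1; ring
    rw [this, y1, hf2]; ring
  have u2 : g2 V c (-a) = σ * (c1 - f1 V c1 a * f2 V c1 a) := by
    have : g2 V c (-a) = f1 V c (-a) - c * f2 V c (-a) := by unfold g2 f2; ring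
    rw [this, ← x2, x1, y1, h2.1, hf2, e1]; ring
  have w1 := ww_pos hV ha hc
  have w2 := ww_pos hV ha hc1
  have w3 := ww_pos hV hc1 hc2
  rw [h1.2] at t1
  rw [h2.2, u1] at t2
  set A := a - f2 V a b * f3 V a b
  set B := c1 - f1 V c1 a * f2 V c1 a
  have v1 : σ * A < 0 := by
    have : A * -ww V a c1 * g3 V a b = -(σ * A) * (ww V a c1 * ww V a c) := by
      rw [e2]; linear_combination (A * ww V a c1 * g3 V a b) * hs
    rw [this] at t1
    have := (mul_pos_iff_of_pos_right (mul_pos w2 w1)).1 t1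
    linarith
  have v2 : B * A < 0 := by nlinarith
  rw [u2]
  have : (σ * B) * (σ * A) = B * A := by linear_combination B * A * hs
  by_contra hc'
  push Not at hc'
  nlinarith

theorem ww_one {s : ℝ} (hs : 0 < s) : ww (s ^ 2) a 1 = s := by
  unfold ww; simp [Real.sqrt_sq hs.le]

theorem cf_root {s : ℝ} (hs : 0 < s) (ha : a ^ 2 ≤ 1) (ha' : (a + s) ^ 2 ≤ 1) (hc : c ^ 2 ≤ 1)
    (h : Mv (s ^ 2) .ab (a + s) 1 c) : Cf (s ^ 2) 1 a (-1) c (-(a + s)) := by
  have hV : 0 < s ^ 2 := by positivity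
  have x1 : f1 (s ^ 2) a (-1) = -(a + s) := by unfold f1; rw [ww_neg, ww_one hs]; ring
  have y1 : f1 (s ^ 2) (a + s) 1 = a := by unfold f1; rw [ww_one hs]; ring
  have x2 : c = f2 (s ^ 2) a (-1) := by
    have := h.1
    rw [f2_eq, y1] at this
    rw [f2_eq, x1]; linear_combination this
  refine ⟨Or.inl rfl, ha, by norm_num, hc, by rw [neg_sq]; exact ha', x2, by rw [x1]; ring, ?_, ?_⟩
  · rw [f1_after_ab h, y1]; ring
  have t2 := triple hV ha' (f := f1 (s ^ 2) (a + s) 1) (by rw [y1]; exact ha)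
    (by have := h.1; unfold f2 at this; rw [this]; simpa using hc) (g1_sq hV ha' (by norm_num))
  change 0 < (a + s - f1 _ (a + s) 1 * f2 _ (a + s) 1) * g1 _ (a + s) 1 * g2 _ (a + s) 1 at t2
  have u1 : g1 (s ^ 2) (a + s) 1 = 1 - (a + s) * a := by unfold g1; rw [ww_one hs]; ring
  have u2 : g2 (s ^ 2) a (-1) = -(a + s + a * c) := by
    have : g2 (s ^ 2) a (-1) = f1 (s ^ 2) a (-1) - a * f2 (s ^ 2) a (-1) := by unfold g2 f2; ring
    rw [this, ← x2, x1]; ring
  have w3 := ww_pos hV ha' hc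
  rw [h.2, h.1, u1, y1] at t2
  have u3 : 0 ≤ 1 - (a + s) * a := by nlinarith
  rw [u2]
  by_contra hc'
  push Not at hc'
  have : 0 ≤ (a + s - a * -c) * (1 - (a + s) * a) := mul_nonneg (by linarith) u3
  nlinarith

end Pool.Agent.Lib.MP_5d78b4_mp
end

-- part Pool.Agent.Lib.MP_5d78b4_mp.Run
section

set_option autoImplicit false
open Filter Topology Real

namespace Pool.Agent.Lib.MP_5d78b4_mp

def src : Edge → Bool
  | .ab => false
  | _ => true

def tgt : Edge → Bool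
  | .ba => false
  | _ => true

def inc : Edge → ℕ
  | .ba => 1
  | _ => 2

def bb : Bool → ℝ → ℝ
  | true, y => -y
  | false, y => y

def lev : List Edge → ℕ
  | [] => 0
  | e :: u => inc e + lev u

def Run (V : ℝ) : List Edge → Bool → ℝ → ℝ → ℝ → Prop
  | [], _, a, b, z => a ^ 2 ≤ 1 ∧ b ^ 2 ≤ 1 ∧ z = a
  | e :: u, t, a, b, z => a ^ 2 ≤ 1 ∧ b ^ 2 ≤ 1 ∧ src e = t ∧
      ∃ c, Mv V e a b c ∧ Run V u (tgt e) c (bb (tgt e) a) z

variable {V a b c : ℝ}

theorem Run.bd {u : List Edge} {t : Bool} {z : ℝ} (h : Run V u t a b z) : a ^ 2 ≤ 1 ∧ b ^ 2 ≤ 1 := by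
  cases u <;> exact ⟨h.1, h.2.1⟩

theorem Mv.unique {e : Edge} {c' : ℝ} (h : Mv V e a b c) (h' : Mv V e a b c') : c = c' := by
  cases e <;> linarith [h.1, h'.1]

theorem length_le_lev (u : List Edge) : u.length ≤ lev u ∧ lev u ≤ 2 * u.length := by
  induction u with
  | nil => simp [lev]
  | cons e u ih => cases e <;> simp only [lev, inc, List.length_cons] <;> omega

theorem cf_of_dig (hV : 0 < V) {e : Edge} {c1 c2 : ℝ} (he : e = .one ∨ e = .two) (ha : a ^ 2 ≤ 1)
    (hb : b ^ 2 ≤ 1) (hc : c ^ 2 ≤ 1) (hc1 : c1 ^ 2 ≤ 1) (hc2 : c2 ^ 2 ≤ 1) (h : Mv V e a b c)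
    (h1 : Mv V .ba a b c1) (h2 : Mv V .ab c1 a c2) : ∃ σ, Cf V σ c (-a) c2 (-c1) := by
  rcases he with rfl | rfl
  · exact ⟨_, cf_init hV (σ := -1) (Or.inr rfl) ha hb hc hc1 hc2 (by linarith [h.1])
      (by linarith [h.2.1]) h1 h2⟩
  · exact ⟨_, cf_init hV (σ := 1) (Or.inl rfl) ha hb hc hc1 hc2 (by linarith [h.1])
      (by linarith [h.2.1]) h1 h2⟩

theorem no_cf_fin (hV : 0 < V) {u u' : List Edge} {σ a' b' z z' : ℝ} (h1 : Run V u true a b z)
    (h2 : Run V u' true a' b' z') (hl : lev u = lev u' + 1) : ¬ Cf V σ a b a' b' := by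
  refine no_cf hV (fun k a b => ∃ v z, Run V v true a b z ∧ k + lev v = lev u) ?_ (k := 0)
    ⟨u, z, h1, by simp⟩ ⟨u', z', h2, by omega⟩
  rintro k a b a' b' ⟨v, z, r1, l1⟩ ⟨v', z', r2, l2⟩
  cases v with
  | nil => simp only [lev] at l1; omega
  | cons e v =>
    obtain ⟨-, -, -, c, hm, r⟩ := r1
    refine ⟨e, c, r.bd.1, hm, ?_⟩
    rintro (rfl | rfl) <;> exact ⟨v, z, r, by simp only [lev, inc] at l1; omega⟩

theorem not_dig_ba (hV : 0 < V) {e : Edge} {u u' : List Edge} {t : Bool} {z z' : ℝ}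
    (he : e = .one ∨ e = .two) (h1 : Run V (e :: u) t a b z) (h2 : Run V (.ba :: u') t a b z')
    (hl : lev (e :: u) = lev (.ba :: u')) : False := by
  obtain ⟨ha, hb, -, c, hm, r⟩ := h1
  obtain ⟨-, -, -, c1, hm1, r1⟩ := h2
  have hi : inc e = 2 := by rcases he with rfl | rfl <;> rfl
  have ht : tgt e = true := by rcases he with rfl | rfl <;> rfl
  rw [ht] at r
  cases u' with
  | nil => simp only [lev, hi] at hl; simp [inc] at hl; omega
  | cons e' u' =>
    obtain ⟨hc1, -, hs, c2, hm2, r2⟩ := r1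
    obtain rfl : e' = .ab := by cases e' <;> simp_all [src, tgt]
    obtain ⟨σ, hσ⟩ := cf_of_dig hV he ha hb r.bd.1 hc1 r2.bd.1 hm hm1 hm2
    refine no_cf_fin hV r r2 ?_ hσ
    simp only [lev, hi] at hl; simp only [inc] at hl; omega

theorem run_inj (hV : 0 < V) {u : List Edge} : ∀ {u' : List Edge} {t : Bool} {a b z z' : ℝ},
    Run V u t a b z → Run V u' t a b z' → lev u = lev u' → u = u' := by
  induction u with
  | nil =>
    intro u' t a b z z' _ _ hl
    have := (length_le_lev u').1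
    rw [← hl] at this
    exact (List.length_eq_zero_iff.1 (Nat.le_zero.1 this)).symm
  | cons e u ih =>
    intro u' t a b z z' h1 h2 hl
    cases u' with
    | nil => have := (length_le_lev (e :: u)).1; rw [hl] at this; simp [lev] at this
    | cons e' u' =>
      have hee : e = e' := by
        have s1 := h1.2.2.1
        have s2 := h2.2.2.1
        obtain ⟨c, hm, r⟩ := h1.2.2.2
        obtain ⟨c', hm', r'⟩ := h2.2.2.2
        cases e <;> cases e' <;> first
          | rfl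
          | exact (not_one_two hV h1.1 r.bd.1 r'.bd.1 hm hm').elim
          | exact (not_one_two hV h1.1 r'.bd.1 r.bd.1 hm' hm).elim
          | (rw [← s2] at s1; exact absurd s1 (by decide))
          | exact (not_dig_ba hV (by decide) h1 h2 hl).elim
          | exact (not_dig_ba hV (by decide) h2 h1 hl.symm).elim
      subst hee
      obtain ⟨c, hm, r⟩ := h1.2.2.2
      obtain ⟨c', hm', r'⟩ := h2.2.2.2
      obtain rfl := hm.unique hm'
      rw [ih r r' (by simp only [lev] at hl; omega)]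

theorem run_root {s : ℝ} (hs : 0 < s) {u u' : List Edge} {z z' : ℝ}
    (h1 : Run (s ^ 2) u false (a + s) 1 z) (h2 : Run (s ^ 2) u' true a (-1) z')
    (hl : lev u = lev u' + 1) : False := by
  cases u with
  | nil => simp [lev] at hl
  | cons e u =>
    obtain ⟨ha, -, hs', c, hm, r⟩ := h1
    obtain rfl : e = .ab := by cases e <;> simp_all [src]
    refine no_cf_fin (by positivity) h2 r ?_ (cf_root hs h2.bd.1 ha r.bd.1 hm)
    simp only [lev, inc] at hl; omega

/-! Infinite runs. -/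

def RunS (V : ℝ) (η : Stream' Edge) (t : Bool) (a b : ℝ) : Prop := ∀ n, ∃ z, Run V (η.take n) t a b z

theorem RunS.dest {η : Stream' Edge} {t : Bool} (h : RunS V η t a b) :
    a ^ 2 ≤ 1 ∧ b ^ 2 ≤ 1 ∧ src η.head = t ∧ ∃ c, c ^ 2 ≤ 1 ∧ Mv V η.head a b c ∧
      RunS V η.tail (tgt η.head) c (bb (tgt η.head) a) := by
  obtain ⟨z, h1, h2, h3, c, hm, r⟩ := h 1
  refine ⟨h1, h2, h3, c, r.bd.1, hm, fun n => ?_⟩
  obtain ⟨z, -, -, -, c', hm', r'⟩ := h (n + 1)
  obtain rfl := hm.unique hm'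
  exact ⟨z, r'⟩

theorem no_cf_inf (hV : 0 < V) {η η' : Stream' Edge} {σ a' b' : ℝ} (h1 : RunS V η true a b)
    (h2 : RunS V η' true a' b') : ¬ Cf V σ a b a' b' := by
  refine no_cf hV (fun _ a b => ∃ η, RunS V η true a b) ?_ (k := 0) ⟨η, h1⟩ ⟨η', h2⟩
  rintro k a b a' b' ⟨v, r1⟩ -
  obtain ⟨-, -, -, c, hc, hm, r⟩ := r1.dest
  refine ⟨_, c, hc, hm, ?_⟩
  rintro (h | h) <;> rw [h] at r <;> exact ⟨_, r⟩

theorem not_dig_ba_inf (hV : 0 < V) {η η' : Stream' Edge} {t : Bool}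
    (he : η.head = .one ∨ η.head = .two) (he' : η'.head = .ba) (h1 : RunS V η t a b)
    (h2 : RunS V η' t a b) : False := by
  obtain ⟨ha, hb, -, c, hc, hm, r⟩ := h1.dest
  obtain ⟨-, -, -, c1, hc1, hm1, r1⟩ := h2.dest
  have ht : tgt η.head = true := by rcases he with h | h <;> rw [h] <;> rfl
  rw [ht] at r
  rw [he'] at r1 hm1
  obtain ⟨-, -, hs, c2, hc2, hm2, r2⟩ := r1.dest
  have : η'.tail.head = .ab := by
    generalize η'.tail.head = e at hs
    cases e <;> simp_all [src, tgt]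
  rw [this] at hm2 r2
  obtain ⟨σ, hσ⟩ := cf_of_dig hV he ha hb hc hc1 hc2 hm hm1 hm2
  exact no_cf_inf hV r r2 hσ

theorem runS_head (hV : 0 < V) {η η' : Stream' Edge} {t : Bool} (h1 : RunS V η t a b)
    (h2 : RunS V η' t a b) : η.head = η'.head := by
  obtain ⟨ha, -, s1, c, hc, hm, -⟩ := h1.dest
  obtain ⟨-, -, s2, c', hc', hm', -⟩ := h2.dest
  cases e1 : η.head <;> cases e2 : η'.head <;> rw [e1] at hm s1 <;> rw [e2] at hm' s2 <;> first
    | rfl
    | exact (not_one_two hV ha hc hc' hm hm').elim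
    | exact (not_one_two hV ha hc' hc hm' hm).elim
    | (rw [← s2] at s1; exact absurd s1 (by decide))
    | exact (not_dig_ba_inf hV (by simp [e1]) e2 h1 h2).elim
    | exact (not_dig_ba_inf hV (by simp [e2]) e1 h2 h1).elim

/-! Traces along a run. -/

def sg : List Edge → ℝ → ℝ → ℝ
  | [], ε, _ => ε
  | .one :: u, ε, ε' => sg u (-ε') (ε * ε')
  | .two :: u, ε, ε' => sg u ε' (-(ε * ε'))
  | .ba :: u, ε, ε' => sg u (-(ε * ε')) ε
  | .ab :: u, ε, ε' => sg u (-ε') (ε * ε')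

theorem sg_sq (u : List Edge) : ∀ {ε ε' : ℝ}, ε ^ 2 = 1 → ε' ^ 2 = 1 → sg u ε ε' ^ 2 = 1 := by
  induction u with
  | nil => intro ε ε' h _; exact h
  | cons e u ih =>
    intro ε ε' h h'
    cases e <;> exact ih (by simp [mul_pow, h, h']) (by simp [mul_pow, h, h'])

def St (V : ℝ) (x : ℕ → ℝ) : Bool → ℕ → ℝ → ℝ → ℝ → ℝ → Prop
  | true, m, ε, ε', a, b => x (m + 2) = ε * a ∧ x (m + 1) = ε' * f1 V a b ∧ x m = ε * ε' * b
  | false, m, ε, ε', a, b => x (m + 2) = ε * ε' * f1 V a b ∧ x (m + 1) = ε * a ∧ x m = ε' * b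

def pos : Bool → ℕ
  | true => 2
  | false => 1

theorem run_trace {x : ℕ → ℝ} (hx : ∀ k, x (k + 3) = 2 * x (k + 2) * x (k + 1) - x k)
    {u : List Edge} : ∀ {t : Bool} {m : ℕ} {ε ε' a b z : ℝ}, ε ^ 2 = 1 → ε' ^ 2 = 1 →
      St V x t m ε ε' a b → Run V u t a b z → x (m + pos t + lev u) = sg u ε ε' * z := by
  induction u with
  | nil =>
    intro t m ε ε' a b z _ _ hs hr
    rw [hr.2.2]
    cases t
    · exact hs.2.1
    · exact hs.1
  | cons e u ih =>
    intro t m ε ε' a b z h h' hs hr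
    obtain ⟨-, -, rfl, c, hm, r⟩ := hr
    have r2 := f2_eq (V := V) (a := a) (b := b)
    have r3 := f3_eq (V := V) (a := a) (b := b)
    have x3 := hx m
    have x4 := hx (m + 1)
    cases e with
    | one =>
      obtain ⟨s1, s2, s3⟩ := hs
      have y3 : x (m + 3) = ε * ε' * f2 V a b := by rw [x3, s1, s2, s3, r2]; ring
      have y4 : x (m + 4) = ε' * f3 V a b := by
        rw [x4, y3, s1, s2, r3]; linear_combination (2 * a * ε' * f2 V a b) * h
      have f := f1_after (V := V) (a := a) (b := b) (c := c) (-1) (by linarith [hm.1])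
        (by linarith [hm.2.1])
      have := ih (t := true) (a := c) (b := -a) (m := m + 2) (ε := -ε') (ε' := ε * ε')
        (by simp [h']) (by simp [mul_pow, h, h'])
        ⟨by rw [y4, hm.1]; ring, by rw [y3]; rw [f]; ring,
          by rw [s1]; linear_combination (-ε * a) * h'⟩ r
      rw [sg, ← this]; congr 1; simp only [lev, inc, src, tgt, pos]; ring
    | two =>
      obtain ⟨s1, s2, s3⟩ := hs
      have y3 : x (m + 3) = ε * ε' * f2 V a b := by rw [x3, s1, s2, s3, r2]; ring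
      have y4 : x (m + 4) = ε' * f3 V a b := by
        rw [x4, y3, s1, s2, r3]; linear_combination (2 * a * ε' * f2 V a b) * h
      have f := f1_after (V := V) (a := a) (b := b) (c := c) 1 (by linarith [hm.1])
        (by linarith [hm.2.1])
      have := ih (t := true) (a := c) (b := -a) (m := m + 2) (ε := ε') (ε' := -(ε * ε'))
        h' (by simp [mul_pow, h, h'])
        ⟨by rw [y4, hm.1], by rw [y3]; rw [f]; ring,
          by rw [s1]; linear_combination (-ε * a) * h'⟩ r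
      rw [sg, ← this]; congr 1; simp only [lev, inc, src, tgt, pos]; ring
    | ba =>
      obtain ⟨s1, s2, s3⟩ := hs
      have y3 : x (m + 3) = ε * ε' * f2 V a b := by rw [x3, s1, s2, s3, r2]; ring
      have y4 : x (m + 4) = ε' * f3 V a b := by
        rw [x4, y3, s1, s2, r3]; linear_combination (2 * a * ε' * f2 V a b) * h
      have f := f1_after_ba hm
      have := ih (t := false) (a := c) (b := a) (m := m + 2) (ε := -(ε * ε')) (ε' := ε)
        (by simp [mul_pow, h, h']) h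
        ⟨by rw [y4]; rw [f]; linear_combination (-ε' * f3 V a b) * h,
          by rw [y3, hm.1]; ring, s1⟩ r
      rw [sg, ← this]; congr 1; simp only [lev, inc, src, tgt, pos]; ring
    | ab =>
      obtain ⟨s1, s2, s3⟩ := hs
      have y3 : x (m + 3) = ε' * f2 V a b := by
        rw [x3, s1, s2, s3, r2]; linear_combination (2 * a * ε' * f1 V a b) * h
      have f := f1_after_ab hm
      have := ih (t := true) (a := c) (b := -a) (m := m + 1) (ε := -ε') (ε' := ε * ε')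
        (by simp [h']) (by simp [mul_pow, h, h'])
        ⟨by rw [y3, hm.1]; ring, by rw [s1]; rw [f],
          by rw [s2]; linear_combination (-ε * a) * h'⟩ r
      rw [sg, ← this]; congr 1; simp only [lev, inc, src, tgt, pos]; ring

/-! Counting admissible paths. -/

def Val : List Edge → Bool → Prop
  | [], _ => True
  | e :: u, t => src e = t ∧ Val u (tgt e)

theorem exists_pathsB (n : ℕ) : ∃ s : Finset (List Edge), s.card = Nat.fib (n + 1) ∧
    ∀ u ∈ s, Val u true ∧ lev u = n := by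
  induction n using Nat.strong_induction_on with
  | _ n ih =>
    match n with
    | 0 => exact ⟨{[]}, by simp, by simp [Val, lev]⟩
    | 1 => exact ⟨{[.ba]}, by simp, by simp [Val, lev, src, inc]⟩
    | 2 => exact ⟨{[.one], [.two]}, by decide, by simp [Val, lev, src, inc]⟩
    | n + 3 =>
      obtain ⟨s, hs, hv⟩ := ih (n + 1) (by omega)
      obtain ⟨s', hs', hv'⟩ := ih n (by omega)
      refine ⟨s.image (List.cons .one) ∪ s.image (List.cons .two) ∪
        s'.image (fun u => .ba :: .ab :: u), ?_, ?_⟩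
      · rw [Finset.card_union_of_disjoint, Finset.card_union_of_disjoint,
          Finset.card_image_of_injective _ List.cons_injective,
          Finset.card_image_of_injective _ List.cons_injective,
          Finset.card_image_of_injective _ (fun u v h => by simpa using h), hs, hs']
        · simp only [Nat.fib_add_two]; omega
        · simp [Finset.disjoint_left]
        · simp only [Finset.disjoint_left, Finset.mem_union, Finset.mem_image]
          rintro u (⟨v, -, rfl⟩ | ⟨v, -, rfl⟩) ⟨w, -, h⟩ <;> simp at h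
      · simp only [Finset.mem_union, Finset.mem_image]
        rintro u ((⟨v, h, rfl⟩ | ⟨v, h, rfl⟩) | ⟨v, h, rfl⟩)
        · exact ⟨⟨rfl, (hv v h).1⟩, by simp only [lev, inc, (hv v h).2]; omega⟩
        · exact ⟨⟨rfl, (hv v h).1⟩, by simp only [lev, inc, (hv v h).2]; omega⟩
        · exact ⟨⟨rfl, rfl, (hv' v h).1⟩, by simp only [lev, inc, (hv' v h).2]; omega⟩

open Polynomial in
noncomputable def xp (lam : ℝ) : ℕ → ℝ[X]
  | 0 => 1
  | 1 => C (1 / 2) * X
  | 2 => C (1 / 2) * (X - C lam)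
  | (k + 3) => C 2 * xp lam (k + 2) * xp lam (k + 1) - xp lam k

theorem xp_eval (lam E : ℝ) (k : ℕ) : (xp lam k).eval E = xs lam E k := by
  induction k using Nat.strong_induction_on with
  | _ k ih =>
    match k with
    | 0 => simp [xp, xs]
    | 1 => simp [xp, xs]; ring
    | 2 => simp [xp, xs]; ring
    | k + 3 => simp [xp, xs, ih (k + 2) (by omega), ih (k + 1) (by omega), ih k (by omega)]

theorem xp_deg (lam : ℝ) (k : ℕ) : (xp lam k).natDegree = Nat.fib k := by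
  induction k using Nat.strong_induction_on with
  | _ k ih =>
    match k with
    | 0 => simp [xp]
    | 1 => rw [xp, Polynomial.natDegree_C_mul (by norm_num)]; simp
    | 2 => rw [xp, Polynomial.natDegree_C_mul (by norm_num)]; simp
    | k + 3 =>
      have h2 := ih (k + 2) (by omega)
      have h1 := ih (k + 1) (by omega)
      have p1 : 0 < Nat.fib (k + 1) := Nat.fib_pos.2 (by omega)
      have p2 : 0 < Nat.fib (k + 2) := Nat.fib_pos.2 (by omega)
      have n1 : xp lam (k + 1) ≠ 0 := fun h => by rw [h] at h1; simp at h1; omega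
      have n2 : xp lam (k + 2) ≠ 0 := fun h => by rw [h] at h2; simp at h2; omega
      have h3 : (Polynomial.C 2 * xp lam (k + 2) * xp lam (k + 1)).natDegree = Nat.fib (k + 3) := by
        rw [mul_assoc, Polynomial.natDegree_C_mul (by norm_num), Polynomial.natDegree_mul n2 n1,
          h1, h2, Nat.fib_add_two (n := k + 1), add_comm]
      rw [xp, Polynomial.natDegree_sub_eq_left_of_natDegree_lt, h3]
      rw [h3, ih k (by omega), Nat.fib_add_two (n := k + 1), Nat.fib_add_two (n := k)]; omega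

theorem mem_of_roots {lam c E : ℝ} {k : ℕ} {s : Finset ℝ} (hs : s.card = Nat.fib (k + 1))
    (h : ∀ y ∈ s, xs lam y (k + 1) = c) (hE : xs lam E (k + 1) = c) : E ∈ s := by
  have p1 : 0 < Nat.fib (k + 1) := Nat.fib_pos.2 (by omega)
  have h1 : (xp lam (k + 1) - Polynomial.C c).natDegree = Nat.fib (k + 1) := by
    rw [Polynomial.natDegree_sub_C, xp_deg]
  have h2 : xp lam (k + 1) - Polynomial.C c ≠ 0 := fun h => by rw [h] at h1; simp at h1; omega
  have h3 := Polynomial.roots_eq_of_natDegree_le_card_of_ne_zero (S := s)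
    (fun y hy => by simp [xp_eval, h y hy]) (by rw [h1, hs]) h2
  have : E ∈ (xp lam (k + 1) - Polynomial.C c).roots := by
    rw [Polynomial.mem_roots h2]; simp [xp_eval, hE]
  rw [h3] at this
  exact this

end Pool.Agent.Lib.MP_5d78b4_mp
end

-- part Pool.Agent.Lib.MP_5d78b4_mp.Lam
section

set_option autoImplicit false
open Filter Topology Real

namespace Pool.Agent.Lib.MP_5d78b4_mp

/-! Bounded Lipschitz functions on the plane. -/

def BL (f : ℝ → ℝ → ℝ) : Prop :=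
  (∃ M, ∀ x y, |f x y| ≤ M) ∧
    ∃ L, 0 ≤ L ∧ ∀ x y x' y', |f x y - f x' y'| ≤ L * (|x - x'| + |y - y'|)

theorem BL.const (c : ℝ) : BL (fun _ _ => c) :=
  ⟨⟨|c|, fun _ _ => le_rfl⟩, 0, le_rfl, fun _ _ _ _ => by simp⟩

theorem BL.add {f g : ℝ → ℝ → ℝ} (hf : BL f) (hg : BL g) : BL (fun x y => f x y + g x y) := by
  obtain ⟨⟨M, hM⟩, L, hL0, hL⟩ := hf
  obtain ⟨⟨M', hM'⟩, L', hL0', hL'⟩ := hg
  refine ⟨⟨M + M', fun x y => (abs_add_le _ _).trans (add_le_add (hM x y) (hM' x y))⟩,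
    L + L', by positivity, fun x y x' y' => ?_⟩
  have h1 := hL x y x' y'
  have h2 := hL' x y x' y'
  have : f x y + g x y - (f x' y' + g x' y') = (f x y - f x' y') + (g x y - g x' y') := by ring
  rw [this]
  refine (abs_add_le _ _).trans ?_
  linarith

theorem BL.mul {f g : ℝ → ℝ → ℝ} (hf : BL f) (hg : BL g) : BL (fun x y => f x y * g x y) := by
  obtain ⟨⟨M, hM⟩, L, hL0, hL⟩ := hf
  obtain ⟨⟨M', hM'⟩, L', hL0', hL'⟩ := hg
  have hM0 : 0 ≤ M := (abs_nonneg _).trans (hM 0 0)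
  have hM0' : 0 ≤ M' := (abs_nonneg _).trans (hM' 0 0)
  refine ⟨⟨M * M', fun x y => ?_⟩, M * L' + L * M', by positivity, fun x y x' y' => ?_⟩
  · rw [abs_mul]; exact mul_le_mul (hM x y) (hM' x y) (abs_nonneg _) hM0
  have h1 := hL x y x' y'
  have h2 := hL' x y x' y'
  have : f x y * g x y - f x' y' * g x' y' =
    f x y * (g x y - g x' y') + (f x y - f x' y') * g x' y' := by ring
  rw [this]
  refine (abs_add_le _ _).trans ?_
  rw [abs_mul, abs_mul]
  have h3 := mul_le_mul (hM x y) h2 (abs_nonneg _) hM0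
  have h4 := mul_le_mul h1 (hM' x' y') (abs_nonneg _) (by positivity)
  linarith

theorem BL.neg {f : ℝ → ℝ → ℝ} (hf : BL f) : BL (fun x y => - f x y) := by
  have := (BL.const (-1)).mul hf
  simpa using this

theorem BL.inv {f : ℝ → ℝ → ℝ} (hf : BL f) {c : ℝ} (hc : 0 < c) (h : ∀ x y, c ≤ f x y) :
    BL (fun x y => (f x y)⁻¹) := by
  obtain ⟨-, L, hL0, hL⟩ := hf
  refine ⟨⟨c⁻¹, fun x y => ?_⟩, L / c ^ 2, by positivity, fun x y x' y' => ?_⟩
  · have := h x y
    rw [abs_of_pos (inv_pos.2 (by linarith))]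
    exact inv_anti₀ hc this
  have h1 := h x y
  have h2 := h x' y'
  have p1 : 0 < f x y := by linarith
  have p2 : 0 < f x' y' := by linarith
  have : (f x y)⁻¹ - (f x' y')⁻¹ = - (f x y - f x' y') / (f x y * f x' y') := by
    field_simp; ring
  rw [this, abs_div, abs_neg, abs_of_pos (mul_pos p1 p2), div_mul_eq_mul_div]
  exact div_le_div₀ (by positivity) (hL x y x' y') (by positivity) (by nlinarith)

theorem BL.comp {f : ℝ → ℝ → ℝ} (hf : BL f) {g : ℝ → ℝ} (hg : ∀ a b, |g a - g b| ≤ |a - b|)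
    (hb : ∃ M, ∀ a, |g a| ≤ M) : BL (fun x y => g (f x y)) := by
  obtain ⟨-, L, hL0, hL⟩ := hf
  obtain ⟨M, hM⟩ := hb
  exact ⟨⟨M, fun x y => hM _⟩, L, hL0, fun x y x' y' => (hg _ _).trans (hL x y x' y')⟩

theorem BL.sin {f : ℝ → ℝ → ℝ} (hf : BL f) : BL (fun x y => Real.sin (f x y)) :=
  hf.comp Real.abs_sin_sub_sin_le ⟨1, Real.abs_sin_le_one⟩

theorem BL.cos {f : ℝ → ℝ → ℝ} (hf : BL f) : BL (fun x y => Real.cos (f x y)) :=
  hf.comp Real.abs_cos_sub_cos_le ⟨1, Real.abs_cos_le_one⟩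

theorem BL.sin_fst : BL (fun x _ => Real.sin x) :=
  ⟨⟨1, fun x _ => Real.abs_sin_le_one x⟩, 1, zero_le_one, fun x y x' y' => by
    have := Real.abs_sin_sub_sin_le x x'
    have := abs_nonneg (y - y'); linarith⟩

theorem BL.cos_fst : BL (fun x _ => Real.cos x) :=
  ⟨⟨1, fun x _ => Real.abs_cos_le_one x⟩, 1, zero_le_one, fun x y x' y' => by
    have := Real.abs_cos_sub_cos_le x x'
    have := abs_nonneg (y - y'); linarith⟩

theorem BL.swap {f : ℝ → ℝ → ℝ} (hf : BL f) : BL (fun x y => f y x) := by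
  obtain ⟨⟨M, hM⟩, L, hL0, hL⟩ := hf
  exact ⟨⟨M, fun x y => hM y x⟩, L, hL0, fun x y x' y' => by rw [add_comm]; exact hL y x y' x'⟩

theorem BL.sqrt {f : ℝ → ℝ → ℝ} (hf : BL f) {c : ℝ} (hc : 0 < c) (h : ∀ x y, c ≤ f x y) :
    BL (fun x y => √(f x y)) := by
  obtain ⟨⟨M, hM⟩, L, hL0, hL⟩ := hf
  have hs : 0 < √c := Real.sqrt_pos.2 hc
  refine ⟨⟨√M, fun x y => ?_⟩, L / √c, by positivity, fun x y x' y' => ?_⟩
  · rw [abs_of_nonneg (Real.sqrt_nonneg _)]
    exact Real.sqrt_le_sqrt ((le_abs_self _).trans (hM x y))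
  have h1 := h x y
  have h2 := h x' y'
  have q1 : √c ≤ √(f x y) := Real.sqrt_le_sqrt h1
  have q2 : 0 ≤ √(f x' y') := Real.sqrt_nonneg _
  have e1 := Real.sq_sqrt (show 0 ≤ f x y by linarith)
  have e2 := Real.sq_sqrt (show 0 ≤ f x' y' by linarith)
  have : √(f x y) - √(f x' y') = (f x y - f x' y') / (√(f x y) + √(f x' y')) := by
    rw [eq_div_iff (by linarith)]; linarith
  rw [this, abs_div, abs_of_pos (show 0 < √(f x y) + √(f x' y') by linarith), div_mul_eq_mul_div]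
  exact div_le_div₀ (by positivity) (hL x y x' y') hs (by linarith)

/-! Implicit differentiation. -/

theorem implicit_deriv {G : ℝ × ℝ → ℝ} {θ : ℝ → ℝ} {x₀ a b K : ℝ}
    (hG : DifferentiableAt ℝ G (θ x₀, x₀))
    (ha : HasDerivAt (fun t => G (t, x₀)) a (θ x₀)) (hb : HasDerivAt (fun x => G (θ x₀, x)) b x₀)
    (ha0 : a ≠ 0) (hθ : ∀ x, |θ x - θ x₀| ≤ K * |x - x₀|) (h0 : ∀ x, G (θ x, x) = 0) :
    HasDerivAt θ (-b / a) x₀ := by
  have hF := hG.hasFDerivAt
  set G' := fderiv ℝ G (θ x₀, x₀)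
  have e1 : G' (1, 0) = a := by
    have h1 : HasDerivAt (fun t : ℝ => ((t, x₀) : ℝ × ℝ)) (1, 0) (θ x₀) :=
      (hasDerivAt_id _).prodMk (hasDerivAt_const _ _)
    exact (hF.comp_hasDerivAt (θ x₀) h1).unique ha
  have e2 : G' (0, 1) = b := by
    have h1 : HasDerivAt (fun t : ℝ => ((θ x₀, t) : ℝ × ℝ)) (0, 1) x₀ :=
      (hasDerivAt_const _ _).prodMk (hasDerivAt_id _)
    exact (hF.comp_hasDerivAt x₀ h1).unique hb
  have e3 : ∀ u v : ℝ, G' (u, v) = u * a + v * b := by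
    intro u v
    have : ((u, v) : ℝ × ℝ) = u • ((1, 0) : ℝ × ℝ) + v • ((0, 1) : ℝ × ℝ) := by simp
    rw [this, map_add, map_smul, map_smul, e1, e2]; simp
  have hO : (fun x => θ x - θ x₀) =O[𝓝 x₀] (fun x => x - x₀) :=
    Asymptotics.IsBigO.of_bound K (Eventually.of_forall fun x => by simpa using hθ x)
  have hc : Tendsto θ (𝓝 x₀) (𝓝 (θ x₀)) := by
    have h1 : Tendsto (fun x : ℝ => x - x₀) (𝓝 x₀) (𝓝 0) := by
      have : Continuous (fun x : ℝ => x - x₀) := by fun_prop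
      simpa using this.tendsto x₀
    have := (hO.trans_tendsto h1).add_const (θ x₀)
    simpa using this
  have ht : Tendsto (fun x => (θ x, x)) (𝓝 x₀) (𝓝 (θ x₀, x₀)) := hc.prodMk_nhds tendsto_id
  have h1 := hF.isLittleO.comp_tendsto ht
  have h2 : ((fun p : ℝ × ℝ => p - (θ x₀, x₀)) ∘ fun x => (θ x, x)) =O[𝓝 x₀] (fun x => x - x₀) :=
    Asymptotics.IsBigO.prod_left hO (Asymptotics.isBigO_refl _ _)
  have h3 := (h1.trans_isBigO h2).const_mul_left (-a⁻¹)
  rw [hasDerivAt_iff_isLittleO]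
  refine h3.congr_left fun x => ?_
  simp only [Function.comp, h0, Prod.mk_sub_mk, e3, smul_eq_mul]
  field_simp
  ring

/-! The function Lambda. -/

noncomputable def W (V t x : ℝ) : ℝ := √(V + (sin t * sin x) ^ 2)

noncomputable def Lam (V t x : ℝ) : ℝ := arctan (sin t * cos x / W V t x)

noncomputable def LamX (V t x : ℝ) : ℝ := -(sin t * sin x) / W V t x

noncomputable def LamT (V t x : ℝ) : ℝ := V * cos t / (V + sin t ^ 2) * (cos x / W V t x)

noncomputable def kap (V : ℝ) : ℝ := 1 / √(V + 1)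

variable {V : ℝ}

theorem W_sq (hV : 0 < V) (t x : ℝ) : W V t x ^ 2 = V + (sin t * sin x) ^ 2 :=
  Real.sq_sqrt (by positivity)

theorem W_pos (hV : 0 < V) (t x : ℝ) : 0 < W V t x := Real.sqrt_pos.2 (by positivity)

theorem sqrt_le_W (t x : ℝ) : √V ≤ W V t x := Real.sqrt_le_sqrt (by nlinarith [sq_nonneg (sin t * sin x)])

theorem W_le (t x : ℝ) : W V t x ≤ √(V + 1) := by
  refine Real.sqrt_le_sqrt ?_
  have h1 := Real.sin_sq_le_one t
  have h2 := Real.sin_sq_le_one x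
  have : (sin t * sin x) ^ 2 ≤ 1 := by rw [mul_pow]; nlinarith [sq_nonneg (sin t), sq_nonneg (sin x)]
  linarith

theorem kap_pos (hV : 0 < V) : 0 < kap V := by unfold kap; positivity

theorem kap_lt_one (hV : 0 < V) : kap V < 1 := by
  unfold kap
  rw [div_lt_one (by positivity)]
  exact Real.lt_sqrt_of_sq_lt (by linarith)

theorem hasDerivAt_W_x (hV : 0 < V) (t x : ℝ) :
    HasDerivAt (fun x => W V t x) (sin t ^ 2 * sin x * cos x / W V t x) x := by
  have h1 : HasDerivAt (fun x => V + (sin t * sin x) ^ 2) (2 * (sin t ^ 2 * sin x * cos x)) x := by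
    have := (((hasDerivAt_sin x).const_mul (sin t)).pow 2).const_add V
    refine this.congr_deriv ?_
    simp; ring
  have := h1.sqrt (by positivity)
  refine this.congr_deriv ?_
  unfold W
  have := W_pos hV t x
  unfold W at this
  field_simp

theorem hasDerivAt_W_t (hV : 0 < V) (t x : ℝ) :
    HasDerivAt (fun t => W V t x) (sin x ^ 2 * sin t * cos t / W V t x) t := by
  have := hasDerivAt_W_x hV x t
  simpa only [W, mul_comm] using this

theorem hasDerivAt_Lam_x (hV : 0 < V) (t x : ℝ) :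
    HasDerivAt (fun x => Lam V t x) (LamX V t x) x := by
  have hw := W_pos hV t x
  have h1 := (((hasDerivAt_cos x).const_mul (sin t)).div (hasDerivAt_W_x hV t x) hw.ne').arctan
  refine h1.congr_deriv ?_
  have h2 := W_sq hV t x
  have h3 := Real.sin_sq_add_cos_sq x
  simp only [LamX, Pi.div_apply]
  field_simp
  ring

theorem hasDerivAt_Lam_t (hV : 0 < V) (t x : ℝ) :
    HasDerivAt (fun t => Lam V t x) (LamT V t x) t := by
  have hw := W_pos hV t x
  have h1 := (((hasDerivAt_sin t).mul_const (cos x)).div (hasDerivAt_W_t hV t x) hw.ne').arctan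
  refine h1.congr_deriv ?_
  have h2 := W_sq hV t x
  have h3 := Real.sin_sq_add_cos_sq x
  simp only [LamT, Pi.div_apply]
  have h4 : W V t x ^ 2 + sin t ^ 2 * cos x ^ 2 = V + sin t ^ 2 := by
    rw [h2]; linear_combination (sin t ^ 2) * h3
  have h5 : 0 < V + sin t ^ 2 := by positivity
  field_simp
  rw [h4, h2]
  ring

theorem differentiable_Lam (hV : 0 < V) : Differentiable ℝ (fun p : ℝ × ℝ => Lam V p.1 p.2) := by
  unfold Lam
  refine Differentiable.arctan ?_
  have h1 : Differentiable ℝ (fun p : ℝ × ℝ => W V p.1 p.2) := by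
    unfold W
    exact Differentiable.sqrt (by fun_prop) (fun p => by positivity)
  have h2 : Differentiable ℝ (fun p : ℝ × ℝ => sin p.1 * cos p.2) := by fun_prop
  simp only [div_eq_mul_inv]
  exact h2.mul (h1.inv (fun p => (W_pos hV _ _).ne'))

theorem abs_LamX_le (hV : 0 < V) (t x : ℝ) : |LamX V t x| ≤ kap V := by
  have hw := W_pos hV t x
  have h2 := W_sq hV t x
  have hs : 0 < √(V + 1) := by positivity
  have h3 := Real.sq_sqrt (show 0 ≤ V + 1 by positivity)
  unfold LamX kap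
  rw [abs_div, abs_neg, abs_of_pos hw, div_le_div_iff₀ hw hs, one_mul]
  refine abs_le_of_sq_le_sq' ?_ hw.le |>.2
  rw [mul_pow, sq_abs, h2, h3]
  have h1 := Real.sin_sq_le_one t
  have h4 := Real.sin_sq_le_one x
  have : (sin t * sin x) ^ 2 ≤ 1 := by rw [mul_pow]; nlinarith [sq_nonneg (sin t), sq_nonneg (sin x)]
  nlinarith

theorem Lam_lip (hV : 0 < V) (t x x' : ℝ) : |Lam V t x - Lam V t x'| ≤ kap V * |x - x'| := by
  have := Convex.norm_image_sub_le_of_norm_hasDerivWithin_le (f := fun x => Lam V t x)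
    (f' := fun x => LamX V t x) (C := kap V) (s := Set.univ) (x := x') (y := x)
    (fun z _ => (hasDerivAt_Lam_x hV t z).hasDerivWithinAt) (fun z _ => abs_LamX_le hV t z)
    convex_univ trivial trivial
  simpa using this

theorem cosW_mono (hV : 0 < V) (t : ℝ) {x y : ℝ} (h : cos y ≤ cos x) :
    cos y / W V t y ≤ cos x / W V t x := by
  have hx := W_pos hV t x
  have hy := W_pos hV t y
  have key : ∀ u v : ℝ, cos u ^ 2 ≤ cos v ^ 2 → W V t v ≤ W V t u := by
    intro u v huv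
    refine Real.sqrt_le_sqrt ?_
    rw [mul_pow, mul_pow, Real.sin_sq u, Real.sin_sq v]
    nlinarith [sq_nonneg (sin t)]
  rcases le_total 0 (cos y) with h1 | h1
  · exact div_le_div₀ (by linarith) h hx (key _ _ (by nlinarith))
  rcases le_total 0 (cos x) with h2 | h2
  · exact (div_nonpos_of_nonpos_of_nonneg h1 hy.le).trans (by positivity)
  have := div_le_div₀ (a := -cos x) (b := W V t x) (c := -cos y) (d := W V t y) (by linarith)
    (by linarith) hy (key _ _ (by nlinarith))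
  rw [neg_div, neg_div] at this
  linarith

theorem abs_cosW_le (hV : 0 < V) (t x : ℝ) : |cos x / W V t x| ≤ 1 / √V := by
  rw [abs_div, abs_of_pos (W_pos hV t x)]
  exact div_le_div₀ zero_le_one (Real.abs_cos_le_one x) (Real.sqrt_pos.2 hV) (sqrt_le_W t x)

theorem Lam_mono (hV : 0 < V) {t : ℝ} (ht : 0 ≤ sin t) {x y : ℝ} (h : cos y ≤ cos x) :
    Lam V t y ≤ Lam V t x := by
  unfold Lam
  refine Real.arctan_strictMono.monotone ?_
  rw [mul_div_assoc, mul_div_assoc]
  exact mul_le_mul_of_nonneg_left (cosW_mono hV t h) ht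

theorem abs_Lam_le (hV : 0 < V) (t x : ℝ) : |Lam V t x| ≤ arctan (1 / √V) := by
  have h : |sin t * cos x / W V t x| ≤ 1 / √V := by
    rw [mul_div_assoc, abs_mul]
    exact (mul_le_of_le_one_left (abs_nonneg _) (Real.abs_sin_le_one t)).trans (abs_cosW_le hV t x)
  rw [abs_le] at h ⊢
  unfold Lam
  rw [← Real.arctan_neg]
  exact ⟨Real.arctan_strictMono.monotone h.1, Real.arctan_strictMono.monotone h.2⟩

theorem Lam_pi_sub (t x : ℝ) : Lam V t (π - x) = - Lam V t x := by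
  simp [Lam, W, neg_div]

theorem sin_Lam (hV : 0 < V) (t x : ℝ) :
    √(V + sin t ^ 2) * sin (Lam V t x) = sin t * cos x ∧
      √(V + sin t ^ 2) * cos (Lam V t x) = W V t x := by
  have hw := W_pos hV t x
  have h2 := W_sq hV t x
  have h3 := Real.sin_sq_add_cos_sq x
  have hs : 0 < √(V + sin t ^ 2) := by positivity
  have h4 : √(1 + (sin t * cos x / W V t x) ^ 2) = √(V + sin t ^ 2) / W V t x := by
    rw [Real.sqrt_eq_iff_mul_self_eq (by positivity) (by positivity)]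
    have h5 := Real.sq_sqrt (show 0 ≤ V + sin t ^ 2 by positivity)
    field_simp
    rw [h5, h2]
    linear_combination (sin t ^ 2) * h3
  unfold Lam
  rw [Real.sin_arctan, Real.cos_arctan, h4]
  constructor <;> field_simp

end Pool.Agent.Lib.MP_5d78b4_mp
end

-- part Pool.Agent.Lib.MP_5d78b4_mp.AbsCnt
section

set_option autoImplicit false
open Filter Topology

namespace Pool.Agent.Lib.MP_5d78b4_mp.Abs

/-- The set counted by `cnt`. -/
def cset (A : Set ℝ) (m : ℕ) : Set ℤ :=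
  {k : ℤ | ∃ x ∈ A, (k : ℝ) ≤ 2 ^ m * x ∧ 2 ^ m * x ≤ (k : ℝ) + 1}

theorem cnt_eq (A : Set ℝ) (m : ℕ) : cnt A m = (cset A m).ncard := rfl

theorem card_Icc_le (x L : ℝ) (hL : 0 ≤ L) :
    ((Finset.Icc ⌈x⌉ ⌊x + L⌋).card : ℝ) ≤ L + 1 := by
  rw [Int.card_Icc]
  rcases le_or_gt 0 (⌊x + L⌋ + 1 - ⌈x⌉) with h | h
  · have : (((⌊x + L⌋ + 1 - ⌈x⌉).toNat : ℤ) : ℝ) = ((⌊x + L⌋ + 1 - ⌈x⌉ : ℤ) : ℝ) := by
      rw [Int.toNat_of_nonneg h]
    rw [Int.cast_natCast] at this
    rw [this]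
    push_cast
    linarith [Int.floor_le (x + L), Int.le_ceil x]
  · rw [Int.toNat_eq_zero.2 h.le]
    simp
    linarith

theorem cover {ι : Type*} (A : Set ℝ) (m : ℕ) (P : Finset ι) (f : ι → ℝ) (M : ℝ) (hM : 0 ≤ M)
    (h : ∀ x ∈ A, ∃ p ∈ P, |2 ^ m * x - f p| ≤ M) :
    (cset A m).Finite ∧ (cnt A m : ℝ) ≤ P.card * (2 * M + 2) := by
  classical
  let T : Finset ℤ := P.biUnion fun p => Finset.Icc ⌈f p - M - 1⌉ ⌊f p - M - 1 + (2 * M + 1)⌋
  have hsub : cset A m ⊆ ↑T := by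
    rintro k ⟨x, hx, h1, h2⟩
    obtain ⟨p, hp, h3⟩ := h x hx
    rw [abs_le] at h3
    simp only [T, Finset.coe_biUnion, Set.mem_iUnion, Finset.mem_coe, Finset.mem_Icc]
    refine ⟨p, hp, Int.ceil_le.2 (by linarith [h3.1]), Int.le_floor.2 (by linarith [h3.2])⟩
  refine ⟨T.finite_toSet.subset hsub, ?_⟩
  have h1 : cnt A m ≤ T.card := by
    rw [cnt_eq, ← Set.ncard_coe_finset]
    exact Set.ncard_le_ncard hsub T.finite_toSet
  have h2 : (T.card : ℝ) ≤ ∑ p ∈ P,
      ((Finset.Icc ⌈f p - M - 1⌉ ⌊f p - M - 1 + (2 * M + 1)⌋).card : ℝ) := by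
    exact_mod_cast Finset.card_biUnion_le
  calc (cnt A m : ℝ) ≤ T.card := by exact_mod_cast h1
    _ ≤ _ := h2
    _ ≤ ∑ _p ∈ P, (2 * M + 2) :=
        Finset.sum_le_sum fun p _ => (card_Icc_le _ _ (by linarith)).trans (by linarith)
    _ = _ := by rw [Finset.sum_const, nsmul_eq_mul]

theorem bdd_cover (A : Set ℝ) (R : ℝ) (hR : 0 ≤ R) (hA : ∀ x ∈ A, |x| ≤ R) (m : ℕ) :
    (cset A m).Finite ∧ (cnt A m : ℝ) ≤ (2 * R + 2) * 2 ^ m := by
  obtain ⟨h1, h2⟩ := cover A m ({()} : Finset Unit) (fun _ => 0) (2 ^ m * R) (by positivity)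
    (fun x hx => ⟨(), by simp, by
      rw [sub_zero, abs_mul, abs_of_pos (by positivity : (0 : ℝ) < 2 ^ m)]
      exact mul_le_mul_of_nonneg_left (hA x hx) (by positivity)⟩)
  refine ⟨h1, h2.trans ?_⟩
  have : (1 : ℝ) ≤ 2 ^ m := one_le_pow₀ (by norm_num)
  simp only [Finset.card_singleton, Nat.cast_one]
  nlinarith

theorem floor_mem_cset {A : Set ℝ} {x : ℝ} (hx : x ∈ A) (m : ℕ) : ⌊2 ^ m * x⌋ ∈ cset A m :=
  ⟨x, hx, Int.floor_le _, (Int.lt_floor_add_one _).le⟩

theorem one_le_cnt {A : Set ℝ} {m : ℕ} (hA : A.Nonempty) (hf : (cset A m).Finite) :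
    1 ≤ cnt A m := by
  obtain ⟨x, hx⟩ := hA
  exact (Set.ncard_pos hf).2 ⟨_, floor_mem_cset hx m⟩

theorem cnt_sum_le (A : Set ℝ) (d m : ℕ) (hf : (cset A m).Finite) :
    (cnt (sumSet A d) m : ℝ) ≤ (2 * d + 2) * (cnt A m : ℝ) ^ d := by
  classical
  obtain ⟨-, h⟩ := cover (sumSet A d) m (Fintype.piFinset fun _ : Fin d => hf.toFinset)
    (fun k => ∑ i, (k i : ℝ)) d (by positivity) (by
      rintro x ⟨E, hE, rfl⟩
      refine ⟨fun i => ⌊2 ^ m * E i⌋, ?_, ?_⟩
      · simp only [Fintype.mem_piFinset, Set.Finite.mem_toFinset]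
        exact fun i => floor_mem_cset (hE i) m
      · rw [Finset.mul_sum, ← Finset.sum_sub_distrib]
        refine (Finset.abs_sum_le_sum_abs _ _).trans ?_
        calc _ ≤ ∑ _i : Fin d, (1 : ℝ) := Finset.sum_le_sum fun i _ => by
              rw [abs_le]
              constructor <;>
                linarith [Int.floor_le (2 ^ m * E i), Int.lt_floor_add_one (2 ^ m * E i)]
          _ = d := by simp)
  rw [Fintype.card_piFinset, Finset.prod_const, Finset.card_univ, Fintype.card_fin,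
    ← Set.ncard_eq_toFinset_card _ hf, ← cnt_eq] at h
  push_cast at h
  linarith

theorem dimH_le_of_freq (A : Set ℝ) (hf : ∀ m, (cset A m).Finite) (γ : ℝ) (hγ : 0 ≤ γ)
    (h : ∃ᶠ m in atTop, (cnt A m : ℝ) ≤ (2 ^ m) ^ γ) : dimH A ≤ ENNReal.ofReal γ := by
  have h1 := MeasureTheory.Measure.hausdorffMeasure_le_liminf_sum (ι := fun m => (hf m).toFinset)
    γ A (l := atTop) (fun m => ENNReal.ofReal ((1 / 2) ^ m)) (by
      rw [← ENNReal.ofReal_zero]
      exact ENNReal.tendsto_ofReal (tendsto_pow_atTop_nhds_zero_of_lt_one (by norm_num) (by norm_num)))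
    (fun m k => Set.Icc (((k : ℤ) : ℝ) / 2 ^ m) ((((k : ℤ) : ℝ) + 1) / 2 ^ m))
    (Eventually.of_forall fun m k => by
      rw [Real.ediam_Icc]
      apply le_of_eq
      congr 1
      rw [one_div, inv_pow]
      field_simp
      ring)
    (Eventually.of_forall fun m x hx => by
      simp only [Set.mem_iUnion]
      refine ⟨⟨⌊2 ^ m * x⌋, (Set.Finite.mem_toFinset _).2 (floor_mem_cset hx m)⟩, ?_, ?_⟩
      · rw [div_le_iff₀ (by positivity), mul_comm x]; exact Int.floor_le _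
      · rw [le_div_iff₀ (by positivity), mul_comm x]; exact (Int.lt_floor_add_one _).le)
  have h2 : MeasureTheory.Measure.hausdorffMeasure γ A ≤ 1 := by
    refine h1.trans (liminf_le_of_frequently_le (h.mono fun m hm => ?_))
    have e : ∀ k : (hf m).toFinset,
        Metric.ediam (Set.Icc (((k : ℤ) : ℝ) / 2 ^ m) ((((k : ℤ) : ℝ) + 1) / 2 ^ m)) ^ γ =
          ENNReal.ofReal (((2 ^ m) ^ γ)⁻¹) := by
      intro k
      rw [Real.ediam_Icc, ENNReal.ofReal_rpow_of_nonneg (by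
        rw [← sub_div]; simp) hγ, ← Real.inv_rpow (by positivity)]
      congr 2
      field_simp
      ring
    simp only [e, Finset.sum_const, Finset.card_univ, Fintype.card_coe, nsmul_eq_mul]
    rw [← Set.ncard_eq_toFinset_card _ (hf m), ← cnt_eq, ← ENNReal.ofReal_natCast,
      ← ENNReal.ofReal_mul (by positivity), ← ENNReal.ofReal_one]
    apply ENNReal.ofReal_le_ofReal
    rw [← div_eq_mul_inv, div_le_one (by positivity)]
    exact hm
  have h3 : dimH A ≤ γ.toNNReal := by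
    apply dimH_le_of_hausdorffMeasure_ne_top
    rw [Real.coe_toNNReal _ hγ]
    exact (h2.trans_lt ENNReal.one_lt_top).ne
  exact h3

/-- The normalised logarithm of the count. -/
noncomputable def rate (A : Set ℝ) (m : ℕ) : ℝ :=
  Real.log ((cnt A m : ℕ) : ℝ) / ((m : ℝ) * Real.log 2)

theorem rate_nonneg (A : Set ℝ) (m : ℕ) : 0 ≤ rate A m :=
  div_nonneg (Real.log_natCast_nonneg _) (mul_nonneg (by positivity) (Real.log_nonneg one_le_two))

theorem rate_le_iff {A : Set ℝ} {m : ℕ} (hm : 1 ≤ m) (h1 : 1 ≤ cnt A m) (γ : ℝ) :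
    rate A m ≤ γ ↔ (cnt A m : ℝ) ≤ (2 ^ m) ^ γ := by
  have h2 : 0 < (m : ℝ) * Real.log 2 :=
    mul_pos (by exact_mod_cast hm) (Real.log_pos one_lt_two)
  have h3 : (0 : ℝ) < cnt A m := by exact_mod_cast h1
  rw [rate, div_le_iff₀ h2, ← Real.log_le_log_iff h3 (by positivity),
    Real.log_rpow (by positivity), Real.log_pow]

theorem ev_const (K ε : ℝ) (hε : 0 < ε) : ∀ᶠ m : ℕ in atTop, K ≤ ((2 : ℝ) ^ m) ^ ε :=
  ((tendsto_rpow_atTop hε).comp (tendsto_pow_atTop_atTop_of_one_lt one_lt_two)).eventually_ge_atTop K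

theorem formula (A : Set ℝ) (hf : ∀ m, (cset A m).Finite) (hA : A.Nonempty) (E : ℝ) (hE : 0 ≤ E)
    (hlow : ∀ σ, 0 < σ → σ < E → ENNReal.ofReal σ ≤ dimH A)
    (hup : ∀ γ, E < γ → ∀ᶠ m in atTop, rate A m ≤ γ) :
    Tendsto (rate A) atTop (𝓝 E) ∧ dimH A = ENNReal.ofReal E := by
  have key : ∀ γ, 0 ≤ γ → (∃ᶠ m in atTop, rate A m ≤ γ) → dimH A ≤ ENNReal.ofReal γ := by
    intro γ hγ h
    refine dimH_le_of_freq A hf γ hγ ((h.and_eventually (eventually_ge_atTop 1)).mono ?_)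
    exact fun m hm => (rate_le_iff hm.2 (one_le_cnt hA (hf m)) γ).1 hm.1
  constructor
  · rw [tendsto_order]
    constructor
    · intro σ hσ
      rcases lt_or_ge σ 0 with h0 | h0
      · exact Eventually.of_forall fun m => h0.trans_le (rate_nonneg A m)
      by_contra hh
      rw [not_eventually] at hh
      have h1 := key σ h0 (hh.mono fun m hm => not_lt.1 hm)
      have h2 := (hlow ((σ + E) / 2) (by linarith) (by linarith)).trans h1
      rw [ENNReal.ofReal_le_ofReal_iff h0] at h2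
      linarith
    · intro γ hγ
      exact (hup ((γ + E) / 2) (by linarith)).mono fun m hm => by linarith
  · apply le_antisymm
    · refine ENNReal.le_of_forall_pos_le_add fun ε hε _ => ?_
      have hε' : (0 : ℝ) < ε := hε
      have := key (E + ε) (by linarith) (hup (E + ε) (by linarith)).frequently
      rwa [ENNReal.ofReal_add hE hε'.le, ENNReal.ofReal_coe_nnreal] at this
    · refine ENNReal.le_of_forall_nnreal_lt fun r hr => ?_
      rcases eq_or_lt_of_le r.2 with h0 | h0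
      · have : r = 0 := NNReal.eq h0.symm
        simp [this]
      · rw [← ENNReal.ofReal_coe_nnreal] at hr ⊢
        exact hlow r h0 ((ENNReal.ofReal_lt_ofReal_iff_of_nonneg r.2).1 hr)

/-- The upper box dimension exceeds `γ` in a strong quantitative form. -/
def Big (A : Set ℝ) (γ : ℝ) : Prop :=
  ∀ K : ℝ, ∃ᶠ m : ℕ in atTop, K * ((2 : ℝ) ^ m) ^ γ ≤ cnt A m

theorem rate_le_of_mul {A : Set ℝ} (hf : ∀ m, (cset A m).Finite) (hA : A.Nonempty) (c E γ : ℝ)
    (_hc : 0 ≤ c) (hγ : E < γ) (h : ∀ᶠ m : ℕ in atTop, (cnt A m : ℝ) ≤ c * ((2 : ℝ) ^ m) ^ E) :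
    ∀ᶠ m in atTop, rate A m ≤ γ := by
  filter_upwards [h, ev_const c (γ - E) (by linarith), eventually_ge_atTop 1] with m h1 h2 h3
  rw [rate_le_iff h3 (one_le_cnt hA (hf m))]
  refine h1.trans ?_
  rw [show γ = (γ - E) + E by ring, Real.rpow_add (by positivity)]
  exact mul_le_mul_of_nonneg_right h2 (by positivity)

theorem squeeze (S1 : Set ℝ) (R : ℝ) (hR : 0 ≤ R) (hb : ∀ x ∈ S1, |x| ≤ R) (hne : S1.Nonempty)
    (main : ∀ (d : ℕ) (γ σ : ℝ), 0 < σ → σ < d * γ → d * γ ≤ 1 → Big S1 γ →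
      ENNReal.ofReal σ ≤ dimH (sumSet S1 d)) (d : ℕ) (hd : 1 ≤ d) :
    DimFormula S1 (sumSet S1 d) d := by
  have hf : ∀ m, (cset S1 m).Finite := fun m => (bdd_cover S1 R hR hb m).1
  have h1 : ∀ γ, 1 < γ → ∀ᶠ m in atTop, rate S1 m ≤ γ := fun γ hγ =>
    rate_le_of_mul hf hne (2 * R + 2) 1 γ (by positivity) hγ (Eventually.of_forall fun m => by
      rw [Real.rpow_one]; exact (bdd_cover S1 R hR hb m).2)
  have hbd : IsBoundedUnder (· ≤ ·) atTop (rate S1) := ⟨2, h1 2 (by norm_num)⟩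
  have hbd' : IsBoundedUnder (· ≥ ·) atTop (rate S1) :=
    isBoundedUnder_of ⟨0, fun m => rate_nonneg S1 m⟩
  have hco : IsCoboundedUnder (· ≤ ·) atTop (rate S1) := hbd'.isCoboundedUnder_le
  set D := limsup (rate S1) atTop with hD
  have hD0 : 0 ≤ D := le_limsup_of_frequently_le (Frequently.of_forall (rate_nonneg S1)) hbd
  have hD1 : D ≤ 1 := le_of_forall_gt_imp_ge_of_dense fun γ hγ => limsup_le_of_le hco (h1 γ hγ)
  have hup : ∀ γ, D < γ → ∀ᶠ m in atTop, rate S1 m ≤ γ := fun γ hγ =>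
    (eventually_lt_of_limsup_lt hγ hbd).mono fun m hm => hm.le
  have hbig : ∀ γ, γ < D → Big S1 γ := by
    intro γ hγ K
    have h2 : ∃ᶠ m in atTop, (γ + D) / 2 < rate S1 m :=
      frequently_lt_of_lt_limsup hco (by linarith)
    refine (h2.and_eventually ((ev_const K ((D - γ) / 2) (by linarith)).and
      (eventually_ge_atTop 1))).mono fun m hm => ?_
    have h3 := (rate_le_iff hm.2.2 (one_le_cnt hne (hf m)) ((γ + D) / 2)).not.1 (not_le.2 hm.1)
    rw [show (γ + D) / 2 = (D - γ) / 2 + γ by ring, Real.rpow_add (by positivity)] at h3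
    exact (mul_le_mul_of_nonneg_right hm.2.1 (by positivity)).trans (not_le.1 h3).le
  have hlow : ∀ d : ℕ, 1 ≤ d → ∀ σ, 0 < σ → σ < min 1 (d * D) →
      ENNReal.ofReal σ ≤ dimH (sumSet S1 d) := by
    intro d hd σ h0 h2
    have hd' : (0 : ℝ) < d := by exact_mod_cast hd
    have e : (d : ℝ) * ((σ + min 1 (d * D)) / 2 / d) = (σ + min 1 (d * D)) / 2 := by field_simp
    refine main d ((σ + min 1 (d * D)) / 2 / d) σ h0 (by rw [e]; linarith)
      (by rw [e]; linarith [min_le_left 1 (d * D)]) (hbig _ ?_)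
    rw [div_lt_iff₀ hd']
    linarith [min_le_right 1 (d * D)]
  have e1 : sumSet S1 1 = S1 := by
    ext x
    constructor
    · rintro ⟨E, hE, rfl⟩; simpa using hE 0
    · intro hx; exact ⟨fun _ => x, fun _ => hx, by simp⟩
  have hT := (formula S1 hf hne D hD0 (fun σ h0 h2 => by
    have := hlow 1 le_rfl σ h0 (by simpa using ⟨by linarith, h2⟩)
    rwa [e1] at this) hup).1
  have hbS : ∀ x ∈ sumSet S1 d, |x| ≤ d * R := by
    rintro x ⟨E, hE, rfl⟩
    refine (Finset.abs_sum_le_sum_abs _ _).trans ?_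
    calc _ ≤ ∑ _i : Fin d, R := Finset.sum_le_sum fun i _ => hb _ (hE i)
      _ = d * R := by simp
  have hfS : ∀ m, (cset (sumSet S1 d) m).Finite := fun m =>
    (bdd_cover _ (d * R) (by positivity) hbS m).1
  have hneS : (sumSet S1 d).Nonempty := by
    obtain ⟨x, hx⟩ := hne
    exact ⟨_, fun _ => x, fun _ => hx, rfl⟩
  have hF := formula (sumSet S1 d) hfS hneS (min 1 (d * D)) (le_min zero_le_one (by positivity))
    (hlow d hd) (by
      intro γ hγ
      rcases min_lt_iff.1 hγ with h | h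
      · exact rate_le_of_mul hfS hneS (2 * (d * R) + 2) 1 γ (by positivity) h
          (Eventually.of_forall fun m => by
            rw [Real.rpow_one]; exact (bdd_cover _ (d * R) (by positivity) hbS m).2)
      · have hd' : (0 : ℝ) < d := by exact_mod_cast hd
        have e : (d : ℝ) * ((γ + d * D) / 2 / d) = (γ + d * D) / 2 := by field_simp
        refine rate_le_of_mul hfS hneS (2 * d + 2) ((γ + d * D) / 2) γ (by positivity)
          (by linarith) ?_
        filter_upwards [hup ((γ + d * D) / 2 / d) (by rw [lt_div_iff₀ hd']; linarith),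
          eventually_ge_atTop 1] with m h2 h3
        rw [rate_le_iff h3 (one_le_cnt hne (hf m))] at h2
        refine (cnt_sum_le S1 d m (hf m)).trans (mul_le_mul_of_nonneg_left ?_ (by positivity))
        refine (pow_le_pow_left₀ (by positivity) h2 d).trans (le_of_eq ?_)
        rw [← Real.rpow_natCast, ← Real.rpow_mul (by positivity), mul_comm _ (d : ℝ), e])
  exact ⟨D, hT, hF.2, hF.1⟩

end Pool.Agent.Lib.MP_5d78b4_mp.Abs
end
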