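import Mathlib

-- part Pool.Agent.Lib.MP_5d78b4_mp.Chain
section

set_option autoImplicit false
open Filter Topology Real

namespace Pool.Agent.Lib.MP_5d78b4_mp

theorem exists_fp (g : ℤ → ℝ → ℝ → ℝ) {k1 k2 M : ℝ} (h1 : 0 ≤ k1) (h2 : 0 ≤ k2) (h : k1 + k2 < 1)
    (hM : ∀ i x y, |g i x y| ≤ M)
    (hg : ∀ i x y x' y', |g i x y - g i x' y'| ≤ k1 * |x - x'| + k2 * |y - y'|) :
    ∃ x : ℤ → ℝ, ∀ i, x i = g i (x (i - 1)) (x (i + 1)) := by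
  let T : BoundedContinuousFunction ℤ ℝ → BoundedContinuousFunction ℤ ℝ := fun x =>
    BoundedContinuousFunction.ofNormedAddCommGroupDiscrete
      (fun i => g i (x (i - 1)) (x (i + 1))) M (fun i => hM _ _ _)
  have hT : ContractingWith ⟨k1 + k2, by positivity⟩ T := by
    refine ⟨h, LipschitzWith.of_dist_le_mul fun x y => ?_⟩
    refine (BoundedContinuousFunction.dist_le
      (mul_nonneg (NNReal.coe_nonneg _) dist_nonneg)).2 fun i => ?_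
    have a1 := BoundedContinuousFunction.dist_coe_le_dist (f := x) (g := y) (i - 1)
    have a2 := BoundedContinuousFunction.dist_coe_le_dist (f := x) (g := y) (i + 1)
    rw [Real.dist_eq] at a1 a2 ⊢
    refine (hg i _ _ _ _).trans ?_
    change _ ≤ (k1 + k2) * _
    nlinarith
  refine ⟨(hT.fixedPoint T : BoundedContinuousFunction ℤ ℝ), fun i => ?_⟩
  have := hT.fixedPoint_isFixedPt
  exact (congrArg (fun x : BoundedContinuousFunction ℤ ℝ => x i) this).symm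

/-- Divided difference of a primitive of `g`. -/
noncomputable def dd (g : ℝ → ℝ) (x x' : ℝ) : ℝ := ∫ t in (0 : ℝ)..1, g (x' + t * (x - x'))

theorem dd_self (g : ℝ → ℝ) (x : ℝ) : dd g x x = g x := by simp [dd]

theorem dd_int {g : ℝ → ℝ} (hg : Continuous g) (x x' : ℝ) :
    IntervalIntegrable (fun t : ℝ => g (x' + t * (x - x'))) MeasureTheory.volume 0 1 :=
  (hg.comp (by fun_prop)).intervalIntegrable _ _

theorem dd_mul {f g : ℝ → ℝ} (hf : ∀ z, HasDerivAt f (g z) z) (hg : Continuous g) (x x' : ℝ) :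
    f x - f x' = dd g x x' * (x - x') := by
  have h1 : ∀ t ∈ Set.uIcc (0 : ℝ) 1, HasDerivAt (fun t => f (x' + t * (x - x')))
      (g (x' + t * (x - x')) * (x - x')) t := fun t _ => by
    have := (hf (x' + t * (x - x'))).comp t (((hasDerivAt_id t).mul_const (x - x')).const_add x')
    exact this.congr_deriv (by simp)
  have := intervalIntegral.integral_eq_sub_of_hasDerivAt h1 ((dd_int hg x x').mul_const _)
  rw [intervalIntegral.integral_mul_const] at this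
  unfold dd
  rw [this]; simp

theorem dd_sub_le {g g' : ℝ → ℝ} (hg : Continuous g) (hg' : Continuous g') {x x' y y' δ : ℝ}
    (h : ∀ t ∈ Set.Icc (0 : ℝ) 1, |g (x' + t * (x - x')) - g' (y' + t * (y - y'))| ≤ δ) :
    |dd g x x' - dd g' y y'| ≤ δ := by
  unfold dd
  rw [← intervalIntegral.integral_sub (dd_int hg x x') (dd_int hg' y y')]
  have := intervalIntegral.norm_integral_le_of_norm_le_const (a := 0) (b := 1) (C := δ)
    (f := fun t => g (x' + t * (x - x')) - g' (y' + t * (y - y')))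
    (fun t ht => h t (by rw [Set.uIoc_of_le zero_le_one] at ht; exact ⟨ht.1.le, ht.2⟩))
  simpa using this

theorem abs_dd_le {g : ℝ → ℝ} (hg : Continuous g) {δ : ℝ} (h : ∀ z, |g z| ≤ δ) (x x' : ℝ) :
    |dd g x x'| ≤ δ := by
  have := dd_sub_le (g' := fun _ => 0) hg continuous_const (x := x) (x' := x') (y := 0) (y' := 0)
    (δ := δ) (fun t _ => by simpa using h _)
  simpa [dd] using this

theorem le_dd {g : ℝ → ℝ} (hg : Continuous g) {δ a b x x' : ℝ} (h : ∀ z ∈ Set.Icc a b, δ ≤ g z)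
    (hx : x ∈ Set.Icc a b) (hx' : x' ∈ Set.Icc a b) : δ ≤ dd g x x' := by
  have := intervalIntegral.integral_mono_on (f := fun _ => δ) (μ := MeasureTheory.volume) zero_le_one
    (by simp) (dd_int hg x x')
    (fun t ht => h _ ⟨by nlinarith [ht.1, ht.2, hx.1, hx'.1], by nlinarith [ht.1, ht.2, hx.2, hx'.2]⟩)
  simpa [dd] using this

theorem seg_le {x x' y y' t δ : ℝ} (ht : t ∈ Set.Icc (0 : ℝ) 1) (h1 : |x - y| ≤ δ) (h2 : |x' - y'| ≤ δ) :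
    |x' + t * (x - x') - (y' + t * (y - y'))| ≤ δ := by
  rw [abs_le] at *
  constructor <;> nlinarith [ht.1, ht.2, h1.1, h1.2, h2.1, h2.2]

/-- A family of contracting nearest-neighbour relations. -/
structure Sys (σ : Type) where
  f : σ → ℝ → ℝ → ℝ
  p : σ → ℝ → ℝ → ℝ
  q : σ → ℝ → ℝ → ℝ
  κ : ℝ
  L : ℝ
  good : σ → Prop
  a : ℝ
  c : ℝ
  κ_pos : 0 < κ
  κ_lt : κ < 1
  L_nn : 0 ≤ L
  c_pos : 0 < c
  mem : ∀ s x y, f s x y ∈ Set.Icc 0 π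
  dx : ∀ s x y, HasDerivAt (fun x => f s x y) (p s x y) x
  dy : ∀ s x y, HasDerivAt (fun y => f s x y) (q s x y) y
  p_le : ∀ s x y, |p s x y| ≤ κ / 2
  q_le : ∀ s x y, |q s x y| ≤ κ / 2
  p_lip : ∀ s x y x' y', |p s x y - p s x' y'| ≤ L * (|x - x'| + |y - y'|)
  q_lip : ∀ s x y x' y', |q s x y - q s x' y'| ≤ L * (|x - x'| + |y - y'|)
  good_mem : ∀ s x y, good s → f s x y ∈ Set.Icc a (π - a)
  good_q : ∀ s x y, good s → y ∈ Set.Icc a (π - a) → 2 * c ≤ q s x y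

namespace Sys

variable {σ : Type} (S : Sys σ)

theorem cont_of {g : ℝ → ℝ} {L : ℝ} (h : ∀ x x', |g x - g x'| ≤ L * |x - x'|) : Continuous g := by
  have hL : 0 ≤ L := by simpa using (abs_nonneg _).trans (h 1 0)
  exact (LipschitzWith.of_dist_le_mul (K := ⟨L, hL⟩) h).continuous

theorem p_cont (s : σ) (y : ℝ) : Continuous (fun z => S.p s z y) :=
  cont_of (L := S.L) fun x x' => by simpa using S.p_lip s x y x' y

theorem q_cont (s : σ) (x : ℝ) : Continuous (fun z => S.q s x z) :=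
  cont_of (L := S.L) fun y y' => by simpa using S.q_lip s x y x y'

noncomputable def P (s : σ) (x x' y : ℝ) : ℝ := dd (fun z => S.p s z y) x x'

noncomputable def Q (s : σ) (x' y y' : ℝ) : ℝ := dd (fun z => S.q s x' z) y y'

theorem abs_P_le (s : σ) (x x' y : ℝ) : |S.P s x x' y| ≤ S.κ / 2 :=
  abs_dd_le (S.p_cont s y) (fun z => S.p_le s z y) _ _

theorem abs_Q_le (s : σ) (x y y' : ℝ) : |S.Q s x y y'| ≤ S.κ / 2 :=
  abs_dd_le (S.q_cont s x) (fun z => S.q_le s x z) _ _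

theorem f_sub (s : σ) (x y x' y' : ℝ) :
    S.f s x y - S.f s x' y' = S.P s x x' y * (x - x') + S.Q s x' y y' * (y - y') := by
  have h1 := dd_mul (fun z => S.dx s z y) (S.p_cont s y) x x'
  have h2 := dd_mul (fun z => S.dy s x' z) (S.q_cont s x') y y'
  unfold P Q
  linarith

theorem f_lip (s : σ) (x y x' y' : ℝ) :
    |S.f s x y - S.f s x' y'| ≤ S.κ / 2 * |x - x'| + S.κ / 2 * |y - y'| := by
  rw [f_sub]
  refine (abs_add_le _ _).trans ?_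
  rw [abs_mul, abs_mul]
  have := S.abs_P_le s x x' y
  have := S.abs_Q_le s x' y y'
  gcongr

theorem P_lip (s : σ) {x x' y u u' v δ : ℝ} (h1 : |x - u| ≤ δ) (h2 : |x' - u'| ≤ δ)
    (h3 : |y - v| ≤ δ) : |S.P s x x' y - S.P s u u' v| ≤ 2 * S.L * δ := by
  refine dd_sub_le (S.p_cont s y) (S.p_cont s v) fun t ht => (S.p_lip s _ _ _ _).trans ?_
  have := seg_le ht h1 h2
  have := S.L_nn
  nlinarith

theorem Q_lip (s : σ) {x y y' u v v' δ : ℝ} (h1 : |x - u| ≤ δ) (h2 : |y - v| ≤ δ)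
    (h3 : |y' - v'| ≤ δ) : |S.Q s x y y' - S.Q s u v v'| ≤ 2 * S.L * δ := by
  refine dd_sub_le (S.q_cont s x) (S.q_cont s u) fun t ht => (S.q_lip s _ _ _ _).trans ?_
  have := seg_le ht h2 h3
  have := S.L_nn
  nlinarith

def IsOrb (e : ℤ → σ) (x : ℤ → ℝ) : Prop := ∀ i, x i = S.f (e i) (x (i - 1)) (x (i + 1))

theorem exists_orb (e : ℤ → σ) : ∃ x, S.IsOrb e x := by
  have := S.κ_pos
  have := S.κ_lt
  refine exists_fp (fun i => S.f (e i)) (k1 := S.κ / 2) (k2 := S.κ / 2) (M := π) (by linarith)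
    (by linarith) (by linarith) (fun i x y => ?_) (fun i => S.f_lip _)
  rw [abs_of_nonneg (S.mem _ _ _).1]; exact (S.mem _ _ _).2

/-- The unique orbit along a two-sided itinerary. -/
noncomputable def X (e : ℤ → σ) : ℤ → ℝ := (S.exists_orb e).choose

theorem X_orb (e : ℤ → σ) : S.IsOrb e (S.X e) := (S.exists_orb e).choose_spec

theorem X_eq (e : ℤ → σ) (i : ℤ) : S.X e i = S.f (e i) (S.X e (i - 1)) (S.X e (i + 1)) :=
  S.X_orb e i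

theorem X_mem (e : ℤ → σ) (i : ℤ) : S.X e i ∈ Set.Icc 0 π := by
  rw [X_eq]; exact S.mem _ _ _

theorem X_good {e : ℤ → σ} {i : ℤ} (h : S.good (e i)) : S.X e i ∈ Set.Icc S.a (π - S.a) := by
  rw [X_eq]; exact S.good_mem _ _ _ h

/-- Agreement of itineraries on a window of radius `R`. -/
def Ag (e : ℤ → σ) (i : ℤ) (e' : ℤ → σ) (i' : ℤ) (R : ℕ) : Prop :=
  ∀ j : ℤ, -(R : ℤ) < j → j < R → e (i + j) = e' (i' + j)

theorem Ag.zero {e e' : ℤ → σ} {i i' : ℤ} {R : ℕ} (h : Ag e i e' i' (R + 1)) : e i = e' i' := by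
  simpa using h 0 (by omega) (by omega)

theorem Ag.left {e e' : ℤ → σ} {i i' : ℤ} {R : ℕ} (h : Ag e i e' i' (R + 1)) :
    Ag e (i - 1) e' (i' - 1) R := fun j h1 h2 => by
  have := h (j - 1) (by omega) (by omega)
  rwa [show i + (j - 1) = i - 1 + j by ring, show i' + (j - 1) = i' - 1 + j by ring] at this

theorem Ag.right {e e' : ℤ → σ} {i i' : ℤ} {R : ℕ} (h : Ag e i e' i' (R + 1)) :
    Ag e (i + 1) e' (i' + 1) R := fun j h1 h2 => by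
  have := h (j + 1) (by omega) (by omega)
  rwa [show i + (j + 1) = i + 1 + j by ring, show i' + (j + 1) = i' + 1 + j by ring] at this

theorem orb_loc {e e' : ℤ → σ} {x x' : ℤ → ℝ} (hx : S.IsOrb e x) (hx' : S.IsOrb e' x') (R : ℕ) :
    ∀ i i', Ag e i e' i' R → |x i - x' i'| ≤ π * S.κ ^ R := by
  induction R with
  | zero =>
    intro i i' _
    have h1 := S.mem (e i) (x (i - 1)) (x (i + 1))
    have h2 := S.mem (e' i') (x' (i' - 1)) (x' (i' + 1))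
    rw [← hx] at h1
    rw [← hx'] at h2
    rw [abs_le]; simp only [pow_zero, mul_one]
    constructor <;> linarith [h1.1, h1.2, h2.1, h2.2]
  | succ R ih =>
    intro i i' h
    rw [hx i, hx' i', h.zero]
    refine (S.f_lip _ _ _ _ _).trans ?_
    have h1 := ih _ _ h.left
    have h2 := ih _ _ h.right
    have := S.κ_pos
    rw [pow_succ]
    nlinarith

theorem X_loc {e e' : ℤ → σ} {i i' : ℤ} {R : ℕ} (h : Ag e i e' i' R) :
    |S.X e i - S.X e' i'| ≤ π * S.κ ^ R := S.orb_loc (S.X_orb e) (S.X_orb e') R i i' h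

theorem le_of_pow {a b C : ℝ} (h : ∀ R : ℕ, a ≤ b + C * S.κ ^ R) : a ≤ b := by
  have h1 : Tendsto (fun R : ℕ => b + C * S.κ ^ R) atTop (𝓝 (b + C * 0)) :=
    ((tendsto_pow_atTop_nhds_zero_of_lt_one S.κ_pos.le S.κ_lt).const_mul C).const_add b
  simpa using ge_of_tendsto' h1 h

theorem orb_unique {e e' : ℤ → σ} {x : ℤ → ℝ} (hx : S.IsOrb e x) {i i' : ℤ}
    (h : ∀ j, e (i + j) = e' (i' + j)) : x i = S.X e' i' := by
  have : |x i - S.X e' i'| ≤ 0 := S.le_of_pow (C := π) fun R => by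
    simpa using S.orb_loc hx (S.X_orb e') R i i' (fun j _ _ => h j)
  exact sub_eq_zero.1 (abs_nonpos_iff.1 this)

theorem X_shift {e e' : ℤ → σ} {i i' : ℤ} (h : ∀ j, e (i + j) = e' (i' + j)) :
    S.X e i = S.X e' i' := S.orb_unique (S.X_orb e) h

/-- One-sided Lipschitz dependence on the boundary value. -/
theorem X_fut {e e' : ℤ → σ} {i i' : ℤ} (h : ∀ j : ℤ, 0 ≤ j → e (i + j) = e' (i' + j)) :
    |S.X e i - S.X e' i'| ≤ S.κ * |S.X e (i - 1) - S.X e' (i' - 1)| := by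
  set δ := |S.X e (i - 1) - S.X e' (i' - 1)|
  have hδ : 0 ≤ δ := abs_nonneg _
  have hk := S.κ_pos
  have hk1 := S.κ_lt
  have key : ∀ R : ℕ, ∀ j : ℤ, 0 ≤ j → |S.X e (i + j) - S.X e' (i' + j)| ≤ S.κ * δ + π * S.κ ^ R := by
    intro R
    induction R with
    | zero =>
      intro j _
      have := S.X_loc (e := e) (e' := e') (i := i + j) (i' := i' + j) (R := 0) (fun j h1 h2 => by omega)
      nlinarith
    | succ R ih =>
      intro j hj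
      rw [S.X_eq e, S.X_eq e', h j hj]
      refine (S.f_lip _ _ _ _ _).trans ?_
      have h2 := ih (j + 1) (by omega)
      rw [← add_assoc, ← add_assoc] at h2
      have hp : 0 ≤ π * S.κ ^ R := by positivity
      have h1 : |S.X e (i + j - 1) - S.X e' (i' + j - 1)| ≤ δ + π * S.κ ^ R := by
        rcases hj.eq_or_lt with h0 | h0
        · subst h0; simp only [add_zero]; linarith
        · have := ih (j - 1) (by omega)
          rw [← add_sub_assoc, ← add_sub_assoc] at this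
          nlinarith
      rw [pow_succ]
      nlinarith [mul_nonneg hk.le hδ]
  exact S.le_of_pow (C := π) fun R => by simpa using key R 0 le_rfl

/-! The ratio cocycle. -/

noncomputable def PP (e e' : ℤ → σ) (i : ℤ) : ℝ :=
  S.P (e i) (S.X e (i - 1)) (S.X e' (i - 1)) (S.X e (i + 1))

noncomputable def QQ (e e' : ℤ → σ) (i : ℤ) : ℝ :=
  S.Q (e i) (S.X e' (i - 1)) (S.X e (i + 1)) (S.X e' (i + 1))

theorem frac_lip {k P Q r P' Q' r' : ℝ} (hk : 0 < k) (hk1 : k < 1) (hP : |P| ≤ k / 2)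
    (hP' : |P'| ≤ k / 2) (hQ' : |Q'| ≤ k / 2) (hr : |r| ≤ 1) (hr' : |r'| ≤ 1) :
    |Q / (1 - P * r) - Q' / (1 - P' * r')| ≤ 2 * |Q - Q'| + 2 * |P - P'| + k ^ 2 * |r - r'| := by
  have a1 : |P * r| ≤ 1 / 2 := by rw [abs_mul]; nlinarith [abs_nonneg P, abs_nonneg r]
  have a2 : |P' * r'| ≤ 1 / 2 := by rw [abs_mul]; nlinarith [abs_nonneg P', abs_nonneg r']
  have b1 : 1 / 2 ≤ 1 - P * r := by linarith [(abs_le.1 a1).2]
  have b2 : 1 / 2 ≤ 1 - P' * r' := by linarith [(abs_le.1 a2).2]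
  have e : Q / (1 - P * r) - Q' / (1 - P' * r') = (Q - Q') / (1 - P * r) +
      Q' * ((P - P') * r + P' * (r - r')) / ((1 - P * r) * (1 - P' * r')) := by
    field_simp; ring
  rw [e]
  refine (abs_add_le _ _).trans ?_
  have c1 : |(Q - Q') / (1 - P * r)| ≤ 2 * |Q - Q'| := by
    rw [abs_div, abs_of_pos (a := 1 - P * r) (by linarith), div_le_iff₀ (by linarith)]
    nlinarith [abs_nonneg (Q - Q')]
  have c2 : |(P - P') * r + P' * (r - r')| ≤ |P - P'| + k / 2 * |r - r'| := by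
    refine (abs_add_le _ _).trans ?_
    rw [abs_mul, abs_mul]
    nlinarith [abs_nonneg (P - P'), abs_nonneg (r - r'), abs_nonneg r]
  have c3 : |Q' * ((P - P') * r + P' * (r - r')) / ((1 - P * r) * (1 - P' * r'))| ≤
      2 * |P - P'| + k ^ 2 * |r - r'| := by
    have d1 : 1 / 4 ≤ (1 - P * r) * (1 - P' * r') := by nlinarith
    rw [abs_div, abs_of_pos (a := (1 - P * r) * _) (by linarith), div_le_iff₀ (by linarith), abs_mul]
    have d2 := mul_le_mul hQ' c2 (abs_nonneg _) (by linarith)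
    have d3 : 0 ≤ 2 * |P - P'| + k ^ 2 * |r - r'| := by positivity
    nlinarith [abs_nonneg (P - P'), abs_nonneg (r - r')]
  linarith

theorem frac_le {k P Q r : ℝ} (hk : 0 < k) (hk1 : k < 1) (hP : |P| ≤ k / 2)
    (hQ : |Q| ≤ k / 2) (hr : |r| ≤ 1) : |Q / (1 - P * r)| ≤ k := by
  have a1 : |P * r| ≤ 1 / 2 := by rw [abs_mul]; nlinarith [abs_nonneg P, abs_nonneg r]
  have b1 : 1 / 2 ≤ 1 - P * r := by linarith [(abs_le.1 a1).2]
  rw [abs_div, abs_of_pos (a := 1 - P * r) (by linarith), div_le_iff₀ (by linarith)]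
  nlinarith

theorem exists_rho (e e' : ℤ → σ) : ∃ r : ℤ → ℝ, ∀ i, |r i| ≤ S.κ ∧
    r i = S.QQ e e' i / (1 - S.PP e e' i * r (i - 1)) := by
  have hk := S.κ_pos
  have hk1 := S.κ_lt
  have hc : ∀ r : ℝ, |max (-1) (min r 1)| ≤ 1 := fun r => by
    rw [abs_le]; constructor <;> simp
  obtain ⟨r, hr⟩ := exists_fp (fun i r _ => S.QQ e e' i / (1 - S.PP e e' i * max (-1) (min r 1)))
    (k1 := S.κ ^ 2) (k2 := 0) (M := S.κ) (by positivity) le_rfl (by nlinarith)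
    (fun i x y => frac_le hk hk1 (S.abs_P_le _ _ _ _) (S.abs_Q_le _ _ _ _) (hc _))
    (fun i x y x' y' => by
      refine (frac_lip hk hk1 (S.abs_P_le _ _ _ _) (S.abs_P_le _ _ _ _) (S.abs_Q_le _ _ _ _)
        (hc _) (hc _)).trans ?_
      have : |max (-1) (min x 1) - max (-1) (min x' 1)| ≤ |x - x'| := by
        rw [max_comm, max_comm (-1)]
        refine (abs_max_sub_max_le_abs _ _ _).trans ?_
        simpa using abs_min_sub_min_le_max x 1 x' 1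
      simp only [QQ, sub_self, abs_zero, mul_zero, zero_add, zero_mul, add_zero]
      exact mul_le_mul_of_nonneg_left this (sq_nonneg _))
  have hb : ∀ i, |r i| ≤ S.κ := fun i => by
    rw [hr i]; exact frac_le hk hk1 (S.abs_P_le _ _ _ _) (S.abs_Q_le _ _ _ _) (hc _)
  refine ⟨r, fun i => ⟨hb i, ?_⟩⟩
  have := abs_le.1 (hb (i - 1))
  rw [hr i, min_eq_left (by linarith [this.2]), max_eq_right (by linarith [this.1])]

noncomputable def rho (e e' : ℤ → σ) : ℤ → ℝ := (S.exists_rho e e').choose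

theorem abs_rho_le (e e' : ℤ → σ) (i : ℤ) : |S.rho e e' i| ≤ S.κ :=
  ((S.exists_rho e e').choose_spec i).1

theorem rho_eq (e e' : ℤ → σ) (i : ℤ) :
    S.rho e e' i = S.QQ e e' i / (1 - S.PP e e' i * S.rho e e' (i - 1)) :=
  ((S.exists_rho e e').choose_spec i).2

theorem den_mem (e e' : ℤ → σ) (i : ℤ) :
    1 / 2 ≤ 1 - S.PP e e' i * S.rho e e' (i - 1) ∧ 1 - S.PP e e' i * S.rho e e' (i - 1) ≤ 2 := by
  have h1 : |S.PP e e' i| ≤ S.κ / 2 := S.abs_P_le _ _ _ _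
  have h2 := S.abs_rho_le e e' (i - 1)
  have := S.κ_lt
  have a1 : |S.PP e e' i * S.rho e e' (i - 1)| ≤ 1 / 2 := by
    rw [abs_mul]; nlinarith [abs_nonneg (S.PP e e' i), abs_nonneg (S.rho e e' (i - 1))]
  constructor <;> linarith [(abs_le.1 a1).1, (abs_le.1 a1).2]

theorem rho_step {e e' d d' : ℤ → σ} {i j : ℤ} {δ : ℝ} (h : e i = d j)
    (h1 : |S.X e (i - 1) - S.X d (j - 1)| ≤ δ) (h2 : |S.X e (i + 1) - S.X d (j + 1)| ≤ δ)
    (h3 : |S.X e' (i - 1) - S.X d' (j - 1)| ≤ δ) (h4 : |S.X e' (i + 1) - S.X d' (j + 1)| ≤ δ) :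
    |S.rho e e' i - S.rho d d' j| ≤
      8 * S.L * δ + S.κ ^ 2 * |S.rho e e' (i - 1) - S.rho d d' (j - 1)| := by
  rw [S.rho_eq e e' i, S.rho_eq d d' j]
  refine (frac_lip S.κ_pos S.κ_lt (S.abs_P_le _ _ _ _) (S.abs_P_le _ _ _ _) (S.abs_Q_le _ _ _ _)
    ((S.abs_rho_le _ _ _).trans S.κ_lt.le) ((S.abs_rho_le _ _ _).trans S.κ_lt.le)).trans ?_
  have a1 := S.P_lip (e i) h1 h3 h2
  have a2 := S.Q_lip (e i) h3 h2 h4
  unfold QQ
  rw [← h]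
  linarith

noncomputable def Cr : ℝ := 2 + 8 * S.L * π / (S.κ * (1 - S.κ))

theorem Cr_pos : 0 < S.Cr := by
  have := S.κ_pos
  have := sub_pos.2 S.κ_lt
  have := S.L_nn
  unfold Cr; positivity

theorem rho_loc {e e' d d' : ℤ → σ} (R : ℕ) : ∀ {i j : ℤ}, Ag e i d j R → Ag e' i d' j R →
    |S.rho e e' i - S.rho d d' j| ≤ S.Cr * S.κ ^ R := by
  have hk := S.κ_pos
  have hk1 := sub_pos.2 S.κ_lt
  have hL := S.L_nn
  induction R with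
  | zero =>
    intro i j _ _
    have h1 := abs_le.1 (S.abs_rho_le e e' i)
    have h2 := abs_le.1 (S.abs_rho_le d d' j)
    have : 0 ≤ 8 * S.L * π / (S.κ * (1 - S.κ)) := by positivity
    rw [pow_zero, mul_one, abs_le]; unfold Cr
    constructor <;> linarith [h1.1, h1.2, h2.1, h2.2]
  | succ R ih =>
    intro i j h h'
    refine (S.rho_step h.zero (S.X_loc h.left) (S.X_loc h.right) (S.X_loc h'.left)
      (S.X_loc h'.right)).trans ?_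
    have h1 := ih h.left h'.left
    have h2 : 8 * S.L * π ≤ S.Cr * (S.κ * (1 - S.κ)) := by
      unfold Cr
      rw [add_mul, div_mul_cancel₀ _ (by positivity)]
      have : 0 < S.κ * (1 - S.κ) := by positivity
      linarith
    have h3 : 0 < S.κ ^ R := by positivity
    have h4 := mul_le_mul_of_nonneg_left h1 (sq_nonneg S.κ)
    have h5 := mul_le_mul_of_nonneg_right h2 h3.le
    rw [pow_succ S.κ R]
    linarith

theorem rho_shift {e e' d d' : ℤ → σ} {i j : ℤ} (h : ∀ k, e (i + k) = d (j + k))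
    (h' : ∀ k, e' (i + k) = d' (j + k)) : S.rho e e' i = S.rho d d' j := by
  have : |S.rho e e' i - S.rho d d' j| ≤ 0 := S.le_of_pow (C := S.Cr) fun R => by
    simpa using S.rho_loc R (fun k _ _ => h k) (fun k _ _ => h' k)
  exact sub_eq_zero.1 (abs_nonpos_iff.1 this)

theorem rho_ratio {e e' : ℤ → σ} {i : ℤ} (h : ∀ j, j ≤ i → e j = e' j) :
    S.X e i - S.X e' i = S.rho e e' i * (S.X e (i + 1) - S.X e' (i + 1)) := by
  have hk := S.κ_pos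
  have hk1 := S.κ_lt
  have key : ∀ R : ℕ, ∀ j ≤ i, |S.X e j - S.X e' j - S.rho e e' j * (S.X e (j + 1) - S.X e' (j + 1))|
      ≤ 2 * π * S.κ ^ R := by
    intro R
    induction R with
    | zero =>
      intro j _
      have a1 := S.X_loc (e := e) (e' := e') (i := j) (i' := j) (R := 0) (fun j h1 h2 => by omega)
      have a2 := S.X_loc (e := e) (e' := e') (i := j + 1) (i' := j + 1) (R := 0)
        (fun j h1 h2 => by omega)
      have a3 := S.abs_rho_le e e' j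
      refine (abs_sub _ _).trans ?_
      rw [abs_mul]
      simp only [pow_zero, mul_one] at *
      nlinarith [abs_nonneg (S.rho e e' j), pi_pos]
    | succ R ih =>
      intro j hj
      have h1 := ih (j - 1) (by omega)
      rw [sub_add_cancel] at h1
      have h2 : S.X e j - S.X e' j = S.PP e e' j * (S.X e (j - 1) - S.X e' (j - 1)) +
          S.QQ e e' j * (S.X e (j + 1) - S.X e' (j + 1)) := by
        rw [S.X_eq e j, S.X_eq e' j, ← h j hj]; exact S.f_sub _ _ _ _ _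
      have h3 := S.den_mem e e' j
      have h4 : S.X e j - S.X e' j - S.rho e e' j * (S.X e (j + 1) - S.X e' (j + 1)) =
          S.PP e e' j / (1 - S.PP e e' j * S.rho e e' (j - 1)) *
            (S.X e (j - 1) - S.X e' (j - 1) - S.rho e e' (j - 1) * (S.X e j - S.X e' j)) := by
        have : 1 - S.PP e e' j * S.rho e e' (j - 1) ≠ 0 := by linarith [h3.1]
        rw [S.rho_eq e e' j]
        field_simp
        linear_combination h2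
      rw [h4, abs_mul, pow_succ]
      have h5 := frac_le hk hk1 (S.abs_P_le (e j) (S.X e (j - 1)) (S.X e' (j - 1)) (S.X e (j + 1)))
        (S.abs_P_le (e j) (S.X e (j - 1)) (S.X e' (j - 1)) (S.X e (j + 1)))
        ((S.abs_rho_le e e' (j - 1)).trans hk1.le)
      have := mul_le_mul h5 h1 (abs_nonneg _) hk.le
      unfold PP
      linarith
  have : |S.X e i - S.X e' i - S.rho e e' i * (S.X e (i + 1) - S.X e' (i + 1))| ≤ 0 :=
    S.le_of_pow (C := 2 * π) fun R => by simpa using key R i le_rfl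
  exact sub_eq_zero.1 (abs_nonpos_iff.1 this)

theorem le_rho {e e' : ℤ → σ} {i : ℤ} (h0 : S.good (e i)) (h1 : S.good (e (i + 1)))
    (h2 : S.good (e' (i + 1))) : S.c ≤ S.rho e e' i := by
  have a1 : 2 * S.c ≤ S.QQ e e' i :=
    le_dd (S.q_cont _ _) (fun z hz => S.good_q _ _ z h0 hz) (S.X_good h1) (S.X_good h2)
  have a2 := S.den_mem e e' i
  have := S.c_pos
  rw [rho_eq, le_div_iff₀ (by linarith [a2.1])]
  nlinarith [a2.2]

end Sys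

end Pool.Agent.Lib.MP_5d78b4_mp
end

-- part Pool.Agent.Lib.MP_5d78b4_mp.Dist
section

set_option autoImplicit false
open Filter Topology Real

namespace Pool.Agent.Lib.MP_5d78b4_mp

/-- Multiplicative closeness. -/
def Cl (ε x y : ℝ) : Prop := ∃ τ, |τ| ≤ ε ∧ x = exp τ * y

theorem Cl.refl (x : ℝ) : Cl 0 x x := ⟨0, by simp, by simp⟩

theorem Cl.mono {ε ε' x y : ℝ} (h : Cl ε x y) (hε : ε ≤ ε') : Cl ε' x y := by
  obtain ⟨τ, h1, h2⟩ := h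
  exact ⟨τ, h1.trans hε, h2⟩

theorem Cl.symm {ε x y : ℝ} (h : Cl ε x y) : Cl ε y x := by
  obtain ⟨τ, h1, rfl⟩ := h
  exact ⟨-τ, by simpa using h1, by rw [← mul_assoc, ← Real.exp_add]; simp⟩

theorem Cl.trans {ε ε' x y z : ℝ} (h : Cl ε x y) (h' : Cl ε' y z) : Cl (ε + ε') x z := by
  obtain ⟨τ, h1, rfl⟩ := h
  obtain ⟨τ', h1', rfl⟩ := h'
  exact ⟨τ + τ', (abs_add_le _ _).trans (add_le_add h1 h1'), by rw [Real.exp_add]; ring⟩

theorem Cl.mul {ε ε' x y x' y' : ℝ} (h : Cl ε x y) (h' : Cl ε' x' y') :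
    Cl (ε + ε') (x * x') (y * y') := by
  obtain ⟨τ, h1, rfl⟩ := h
  obtain ⟨τ', h1', rfl⟩ := h'
  exact ⟨τ + τ', (abs_add_le _ _).trans (add_le_add h1 h1'), by rw [Real.exp_add]; ring⟩

theorem Cl.inv {ε x y : ℝ} (h : Cl ε x y) : Cl ε x⁻¹ y⁻¹ := by
  obtain ⟨τ, h1, rfl⟩ := h
  exact ⟨-τ, by simpa using h1, by rw [mul_inv, Real.exp_neg]⟩

theorem Cl.neg {ε x y : ℝ} (h : Cl ε x y) : Cl ε (-x) (-y) := by
  obtain ⟨τ, h1, rfl⟩ := h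
  exact ⟨τ, h1, by ring⟩

theorem Cl.abs {ε x y : ℝ} (h : Cl ε x y) : Cl ε |x| |y| := by
  obtain ⟨τ, h1, rfl⟩ := h
  exact ⟨τ, h1, by rw [abs_mul, abs_of_pos (Real.exp_pos τ)]⟩

theorem Cl.of_sub {c x y δ : ℝ} (hc : 0 < c) (hx : c ≤ x) (hy : c ≤ y) (h : |x - y| ≤ δ) :
    Cl (δ / c) x y := by
  have hx0 : 0 < x := by linarith
  have hy0 : 0 < y := by linarith
  have key : ∀ u v : ℝ, c ≤ u → c ≤ v → |u - v| ≤ δ → log u - log v ≤ δ / c := by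
    intro u v hu hv huv
    have hu0 : 0 < u := by linarith
    have hv0 : 0 < v := by linarith
    rw [← Real.log_div hu0.ne' hv0.ne']
    refine (Real.log_le_sub_one_of_pos (by positivity)).trans ?_
    rw [div_sub_one hv0.ne']
    exact div_le_div₀ ((abs_nonneg _).trans huv) ((le_abs_self _).trans huv) hc hv
  refine ⟨log x - log y, abs_le.2 ⟨?_, key x y hx hy h⟩, ?_⟩
  · have := key y x hy hx (by rwa [abs_sub_comm])
    linarith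
  · rw [Real.exp_sub, Real.exp_log hx0, Real.exp_log hy0]; field_simp

theorem Cl.of_sub_abs {c x y δ : ℝ} (hc : 0 < c) (hx : c ≤ |x|) (hy : c ≤ |y|) (h : |x - y| ≤ δ)
    (hδ : δ ≤ c) : Cl (δ / c) x y := by
  have h1 := abs_le.1 h
  rcases le_abs.1 hx with hx | hx <;> rcases le_abs.1 hy with hy | hy
  · exact Cl.of_sub hc hx hy h
  · linarith [h1.2]
  · linarith [h1.1]
  · have := (Cl.of_sub hc hx hy (δ := δ) (by rw [abs_le]; constructor <;> linarith [h1.1, h1.2])).neg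
    simpa using this

theorem Cl.prod {m : ℕ} {ε x y : ℕ → ℝ} (h : ∀ j < m, Cl (ε j) (x j) (y j)) :
    Cl (∑ j ∈ Finset.range m, ε j) (∏ j ∈ Finset.range m, x j) (∏ j ∈ Finset.range m, y j) := by
  induction m with
  | zero => simpa using Cl.refl 1
  | succ m ih =>
    simp only [Finset.sum_range_succ, Finset.prod_range_succ]
    exact (ih fun j hj => h j (by omega)).mul (h m (by omega))

theorem Cl.log {ε x y : ℝ} (h : Cl ε x y) (hy : y ≠ 0) : |log x - log y| ≤ ε := by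
  obtain ⟨τ, h1, rfl⟩ := h
  rw [Real.log_mul (Real.exp_pos τ).ne' hy, Real.log_exp]
  simpa using h1

theorem Cl.le {ε x y : ℝ} (h : Cl ε x y) : |x| ≤ exp ε * |y| := by
  obtain ⟨τ, h1, rfl⟩ := h
  rw [abs_mul, abs_of_pos (Real.exp_pos τ)]
  have := (le_abs_self τ).trans h1
  gcongr

theorem Cl.sub_le {ε x y : ℝ} (h : Cl ε x y) (hε : ε ≤ 1) : |x - y| ≤ 2 * ε * |y| := by
  obtain ⟨τ, h1, rfl⟩ := h
  have : exp τ * y - y = (exp τ - 1) * y := by ring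
  rw [this, abs_mul]
  have := Real.abs_exp_sub_one_le (x := τ) (h1.trans hε)
  gcongr
  linarith

namespace Sys

variable {σ : Type} (S : Sys σ)

noncomputable def G (e e' : ℤ → σ) (n : ℤ) (m : ℕ) : ℝ :=
  ∏ j ∈ Finset.range m, S.rho e e' (n + j)

theorem G_add (e e' : ℤ → σ) (n : ℤ) (m m' : ℕ) :
    S.G e e' n (m + m') = S.G e e' n m * S.G e e' (n + m) m' := by
  unfold G
  rw [Finset.prod_range_add]
  simp only [Nat.cast_add, add_assoc]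

theorem X_ratio {e e' : ℤ → σ} {n : ℤ} {m : ℕ} (h : ∀ j, j < n + m → e j = e' j) :
    S.X e n - S.X e' n = S.G e e' n m * (S.X e (n + m) - S.X e' (n + m)) := by
  induction m with
  | zero => simp [G]
  | succ m ih =>
    rw [ih (fun j hj => h j (by push_cast; omega)),
      S.rho_ratio (i := n + m) (fun j hj => h j (by push_cast; omega))]
    unfold G
    rw [Finset.prod_range_succ]
    push_cast
    rw [add_assoc, mul_assoc]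

theorem abs_G_le (e e' : ℤ → σ) (n : ℤ) (m : ℕ) : |S.G e e' n m| ≤ S.κ ^ m := by
  induction m with
  | zero => simp [G]
  | succ m ih =>
    unfold G at *
    rw [Finset.prod_range_succ, abs_mul, pow_succ]
    exact mul_le_mul ih (S.abs_rho_le _ _ _) (abs_nonneg _) (by have := S.κ_pos; positivity)

/-- All steps from position `n` on are good. -/
def GoodF (e : ℤ → σ) (n : ℤ) : Prop := ∀ j, n ≤ j → S.good (e j)

theorem GoodF.mono {S : Sys σ} {e : ℤ → σ} {n n' : ℤ} (h : S.GoodF e n) (hn : n ≤ n') :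
    S.GoodF e n' := fun j hj => h j (hn.trans hj)

theorem GoodF.le_rho {S : Sys σ} {e e' : ℤ → σ} {n i : ℤ} (h : S.GoodF e n) (h' : S.GoodF e' n)
    (hi : n ≤ i) : S.c ≤ S.rho e e' i :=
  S.le_rho (h i hi) (h _ (by omega)) (h' _ (by omega))

theorem G_pos {e e' : ℤ → σ} {n : ℤ} (h : S.GoodF e n) (h' : S.GoodF e' n) (m : ℕ) :
    0 < S.G e e' n m :=
  Finset.prod_pos fun j _ => S.c_pos.trans_le (h.le_rho h' (by omega))

theorem sum_pow_le (m : ℕ) : ∑ j ∈ Finset.range m, S.κ ^ j ≤ 1 / (1 - S.κ) := by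
  have h1 := S.κ_pos
  have h2 := sub_pos.2 S.κ_lt
  rw [le_div_iff₀ h2]
  have := mul_neg_geom_sum S.κ m
  have h3 : 0 < S.κ ^ m := by positivity
  linarith

noncomputable def Cw : ℝ := 2 * S.Cr / (S.c * (1 - S.κ))

theorem Cw_pos : 0 < S.Cw := by
  have := S.Cr_pos
  have := S.c_pos
  have h2 := sub_pos.2 S.κ_lt
  unfold Cw; positivity

theorem G_win {e e' d d' : ℤ → σ} {n n' : ℤ} {m h : ℕ} (g1 : S.GoodF e n) (g2 : S.GoodF e' n)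
    (g3 : S.GoodF d n') (g4 : S.GoodF d' n')
    (h1 : ∀ j : ℤ, -(h : ℤ) ≤ j → j < m + h → e (n + j) = d (n' + j))
    (h2 : ∀ j : ℤ, -(h : ℤ) ≤ j → j < m + h → e' (n + j) = d' (n' + j)) :
    Cl (S.Cw * S.κ ^ h) (S.G e e' n m) (S.G d d' n' m) := by
  have hk := S.κ_pos
  have hk1 := sub_pos.2 S.κ_lt
  have hc := S.c_pos
  have hC := S.Cr_pos
  have key : ∀ j < m, Cl (S.Cr * S.κ ^ h / S.c * (S.κ ^ j + S.κ ^ (m - 1 - j)))
      (S.rho e e' (n + j)) (S.rho d d' (n' + j)) := by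
    intro j hj
    have a1 : Ag e (n + j) d (n' + j) (h + min j (m - 1 - j)) := fun k k1 k2 => by
      rw [add_assoc, add_assoc]; exact h1 _ (by omega) (by omega)
    have a2 : Ag e' (n + j) d' (n' + j) (h + min j (m - 1 - j)) := fun k k1 k2 => by
      rw [add_assoc, add_assoc]; exact h2 _ (by omega) (by omega)
    refine (Cl.of_sub hc (g1.le_rho g2 (by omega)) (g3.le_rho g4 (by omega))
      (S.rho_loc _ a1 a2)).mono ?_
    have : S.κ ^ min j (m - 1 - j) ≤ S.κ ^ j + S.κ ^ (m - 1 - j) := by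
      rcases min_choice j (m - 1 - j) with h0 | h0 <;> rw [h0]
      · have : 0 < S.κ ^ (m - 1 - j) := by positivity
        linarith
      · have : 0 < S.κ ^ j := by positivity
        linarith
    rw [pow_add, ← mul_assoc, mul_div_right_comm]
    gcongr
  refine (Cl.prod key).mono ?_
  rw [← Finset.mul_sum, Finset.sum_add_distrib, Finset.sum_range_reflect (fun j => S.κ ^ j) m]
  have := S.sum_pow_le m
  calc _ ≤ S.Cr * S.κ ^ h / S.c * (1 / (1 - S.κ) + 1 / (1 - S.κ)) := by gcongr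
    _ = _ := by unfold Cw; field_simp; ring

end Sys

/-- Divided difference of `-cos`. -/
noncomputable def Sn (x y : ℝ) : ℝ := dd sin x y

theorem cos_sub_eq (x y : ℝ) : cos x - cos y = -(Sn x y * (x - y)) := by
  have := dd_mul (f := fun z => -cos z) (g := sin) 
    (fun z => (hasDerivAt_cos z).neg.congr_deriv (by simp))
    continuous_sin x y
  unfold Sn; linarith

theorem abs_Sn_le (x y : ℝ) : |Sn x y| ≤ 1 := abs_dd_le continuous_sin Real.abs_sin_le_one x y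

theorem Sn_lip {x y x' y' δ : ℝ} (h1 : |x - x'| ≤ δ) (h2 : |y - y'| ≤ δ) : |Sn x y - Sn x' y'| ≤ δ :=
  dd_sub_le continuous_sin continuous_sin fun _ ht =>
    (Real.abs_sin_sub_sin_le _ _).trans (seg_le ht h1 h2)

end Pool.Agent.Lib.MP_5d78b4_mp
end

-- part Pool.Agent.Lib.MP_5d78b4_mp.Jet
section

set_option autoImplicit false
open Filter Topology

namespace Pool.Agent.Lib.MP_5d78b4_mp

/-- Limit data of a mixed second difference. -/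
structure JT where
  c : ℝ
  a1 : ℝ
  a2 : ℝ
  b1 : ℝ
  b2 : ℝ
  b3 : ℝ
  k : ℝ

namespace JT

def C (x : ℝ) : JT := ⟨x, 0, 0, 0, 0, 0, 0⟩

instance : Add JT := ⟨fun x y =>
  ⟨x.c + y.c, x.a1 + y.a1, x.a2 + y.a2, x.b1 + y.b1, x.b2 + y.b2, x.b3 + y.b3, x.k + y.k⟩⟩

instance : Mul JT := ⟨fun x y =>
  ⟨x.c * y.c, x.c * y.a1 + x.a1 * y.c, x.c * y.a2 + x.a2 * y.c, x.c * y.b1 + x.b1 * y.c,
    x.c * y.b2 + x.b2 * y.c, x.c * y.b3 + x.b3 * y.c,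
    x.c * y.k + x.k * y.c + x.a1 * y.a2 + x.a2 * y.a1⟩⟩

theorem add_def (x y : JT) : x + y =
  ⟨x.c + y.c, x.a1 + y.a1, x.a2 + y.a2, x.b1 + y.b1, x.b2 + y.b2, x.b3 + y.b3, x.k + y.k⟩ := rfl

theorem mul_def (x y : JT) : x * y =
  ⟨x.c * y.c, x.c * y.a1 + x.a1 * y.c, x.c * y.a2 + x.a2 * y.c, x.c * y.b1 + x.b1 * y.c,
    x.c * y.b2 + x.b2 * y.c, x.c * y.b3 + x.b3 * y.c,
    x.c * y.k + x.k * y.c + x.a1 * y.a2 + x.a2 * y.a1⟩ := rfl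

end JT

section
variable {ι : Type} (l : Filter ι) (u v Y1 Y2 Y3 : ι → ℝ)

def Lin (f : ι → ℝ) (b1 b2 b3 k : ℝ) : Prop :=
  ∃ B1 B2 B3 K : ι → ℝ, Tendsto B1 l (𝓝 b1) ∧ Tendsto B2 l (𝓝 b2) ∧ Tendsto B3 l (𝓝 b3) ∧
    Tendsto K l (𝓝 k) ∧ ∀ p, f p = B1 p * Y1 p + B2 p * Y2 p + B3 p * Y3 p + K p

structure Jet (z U S : ι → ℝ) (j : JT) : Prop where
  tz : Tendsto z l (𝓝 j.c)
  tU : Tendsto U l (𝓝 j.c)
  tS : Tendsto S l (𝓝 j.c)
  t1 : Tendsto (fun p => (U p - j.c) / u p) l (𝓝 j.a1)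
  t2 : Tendsto (fun p => (S p - j.c) / v p) l (𝓝 j.a2)
  lin : Lin l Y1 Y2 Y3 (fun p => (z p - U p - S p + j.c) / (u p * v p)) j.b1 j.b2 j.b3 j.k

variable {l u v Y1 Y2 Y3}

theorem Lin.y1 {f : ι → ℝ} (β : ℝ) (h : ∀ p, f p = β * Y1 p) : Lin l Y1 Y2 Y3 f β 0 0 0 :=
  ⟨_, _, _, _, tendsto_const_nhds, tendsto_const_nhds, tendsto_const_nhds, tendsto_const_nhds,
    fun p => by simp [h]⟩

theorem Lin.y2 {f : ι → ℝ} (h : ∀ p, f p = Y2 p) : Lin l Y1 Y2 Y3 f 0 1 0 0 :=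
  ⟨_, _, _, _, tendsto_const_nhds, tendsto_const_nhds, tendsto_const_nhds, tendsto_const_nhds,
    fun p => by simp [h]⟩

theorem Lin.y3 {f : ι → ℝ} (h : ∀ p, f p = Y3 p) : Lin l Y1 Y2 Y3 f 0 0 1 0 :=
  ⟨_, _, _, _, tendsto_const_nhds, tendsto_const_nhds, tendsto_const_nhds, tendsto_const_nhds,
    fun p => by simp [h]⟩

theorem Lin.known {f : ι → ℝ} {k : ℝ} (h : Tendsto f l (𝓝 k)) : Lin l Y1 Y2 Y3 f 0 0 0 k :=
  ⟨_, _, _, f, tendsto_const_nhds, tendsto_const_nhds, tendsto_const_nhds, h, fun p => by simp⟩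

theorem Jet.const (x : ℝ) : Jet l u v Y1 Y2 Y3 (fun _ => x) (fun _ => x) (fun _ => x) (JT.C x) := by
  refine ⟨tendsto_const_nhds, tendsto_const_nhds, tendsto_const_nhds, ?_, ?_, Lin.known ?_⟩ <;>
    simp [JT.C, tendsto_const_nhds]

theorem Jet.add {z U S z' U' S' : ι → ℝ} {j j' : JT} (h : Jet l u v Y1 Y2 Y3 z U S j)
    (h' : Jet l u v Y1 Y2 Y3 z' U' S' j') :
    Jet l u v Y1 Y2 Y3 (fun p => z p + z' p) (fun p => U p + U' p) (fun p => S p + S' p) (j + j') := by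
  obtain ⟨B1, B2, B3, K, x1, x2, x3, x4, e⟩ := h.lin
  obtain ⟨B1', B2', B3', K', y1, y2, y3, y4, e'⟩ := h'.lin
  refine ⟨h.tz.add h'.tz, h.tU.add h'.tU, h.tS.add h'.tS, (h.t1.add h'.t1).congr fun p => ?_,
    (h.t2.add h'.t2).congr fun p => ?_,
    ⟨_, _, _, _, x1.add y1, x2.add y2, x3.add y3, x4.add y4, fun p => ?_⟩⟩
  · simp only [JT.add_def]; ring
  · simp only [JT.add_def]; ring
  · simp only [JT.add_def] at *; linear_combination e p + e' p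

theorem Jet.mul {z U S z' U' S' : ι → ℝ} {j j' : JT} (h : Jet l u v Y1 Y2 Y3 z U S j)
    (h' : Jet l u v Y1 Y2 Y3 z' U' S' j') :
    Jet l u v Y1 Y2 Y3 (fun p => z p * z' p) (fun p => U p * U' p) (fun p => S p * S' p) (j * j') := by
  obtain ⟨B1, B2, B3, K, x1, x2, x3, x4, e⟩ := h.lin
  obtain ⟨B1', B2', B3', K', y1, y2, y3, y4, e'⟩ := h'.lin
  have t : Tendsto (fun p => U p + S p - j.c) l (𝓝 j.c) := by
    simpa using (h.tU.add h.tS).sub_const j.c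
  refine ⟨h.tz.mul h'.tz, h.tU.mul h'.tU, h.tS.mul h'.tS,
    ((h.tU.mul h'.t1).add (h.t1.mul_const j'.c)).congr fun p => ?_,
    ((h.tS.mul h'.t2).add (h.t2.mul_const j'.c)).congr fun p => ?_,
    ⟨_, _, _, _, (t.mul y1).add (x1.mul h'.tz), (t.mul y2).add (x2.mul h'.tz),
      (t.mul y3).add (x3.mul h'.tz),
      (((t.mul y4).add (x4.mul h'.tz)).add (h.t1.mul h'.t2)).add (h.t2.mul h'.t1), fun p => ?_⟩⟩
  · simp only [JT.mul_def]; ring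
  · simp only [JT.mul_def]; ring
  · simp only [JT.mul_def] at *; linear_combination z' p * e p + (U p + S p - j.c) * e' p

/-- First order jets are degenerate second order jets. -/
theorem Jet.deg {f : ι → ℝ} {c b1 b2 b3 k : ℝ} (h : Tendsto f l (𝓝 c))
    (hl : Lin l Y1 Y2 Y3 (fun p => (f p - c) / u p) b1 b2 b3 k) :
    Jet l u (fun _ => 1) Y1 Y2 Y3 f (fun _ => c) (fun _ => c) ⟨c, 0, 0, b1, b2, b3, k⟩ := by
  refine ⟨h, tendsto_const_nhds, tendsto_const_nhds, by simp [tendsto_const_nhds],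
    by simp [tendsto_const_nhds], ?_⟩
  simpa using hl

theorem Jet.eq_zero {z U S : ι → ℝ} {j : JT} (h : Jet l u v Y1 Y2 Y3 z U S j) (hc : j.c = 0)
    (h0 : ∀ᶠ p in l, z p = 0 ∧ U p = 0 ∧ S p = 0) :
    ∃ B1 B2 B3 K : ι → ℝ, Tendsto B1 l (𝓝 j.b1) ∧ Tendsto B2 l (𝓝 j.b2) ∧ Tendsto B3 l (𝓝 j.b3) ∧
      Tendsto K l (𝓝 j.k) ∧ ∀ᶠ p in l, B1 p * Y1 p + B2 p * Y2 p + B3 p * Y3 p + K p = 0 := by
  obtain ⟨B1, B2, B3, K, x1, x2, x3, x4, e⟩ := h.lin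
  refine ⟨B1, B2, B3, K, x1, x2, x3, x4, h0.mono fun p hp => ?_⟩
  rw [← e p]; simp [hp.1, hp.2.1, hp.2.2, hc]

theorem ineq_of {B1 B2 B3 K : ι → ℝ} {b1 b2 b3 k : ℝ} (x1 : Tendsto B1 l (𝓝 b1))
    (x2 : Tendsto B2 l (𝓝 b2)) (x3 : Tendsto B3 l (𝓝 b3)) (x4 : Tendsto K l (𝓝 k))
    (hb : |b1| + |b3| < |b2|) : ∃ g1 g3 : ℝ, 0 ≤ g1 ∧ 0 ≤ g3 ∧ g1 + g3 < 1 ∧ ∀ ε, 0 < ε →
      ∀ᶠ p in l, ∀ y1 y2 y3 : ℝ, B1 p * y1 + B2 p * y2 + B3 p * y3 + K p = 0 →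
        |y2| ≤ g1 * |y1| + g3 * |y3| + (|k / b2| + ε) := by
  have h2 : 0 < |b2| := lt_of_le_of_lt (by positivity) hb
  have h2' : b2 ≠ 0 := abs_pos.1 h2
  have h3 : |b1 / b2| + |b3 / b2| < 1 := by
    rw [abs_div, abs_div, ← add_div, div_lt_one h2]; exact hb
  set η := (1 - (|b1 / b2| + |b3 / b2|)) / 4 with hη
  have hη0 : 0 < η := by rw [hη]; linarith
  refine ⟨|b1 / b2| + η, |b3 / b2| + η, by positivity, by positivity, by linarith, fun ε hε => ?_⟩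
  filter_upwards [(x1.div x2 h2').abs.eventually (gt_mem_nhds (lt_add_of_pos_right _ hη0)),
    (x3.div x2 h2').abs.eventually (gt_mem_nhds (lt_add_of_pos_right _ hη0)),
    (x4.div x2 h2').abs.eventually (gt_mem_nhds (lt_add_of_pos_right _ hε)),
    x2.eventually_ne h2'] with p a1 a3 a4 a2 y1 y2 y3 e
  simp only [Pi.div_apply] at a1 a3 a4
  have : y2 = -(B1 p / B2 p * y1 + B3 p / B2 p * y3 + K p / B2 p) := by
    field_simp; linarith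
  rw [this, abs_neg]
  refine (abs_add_three _ _ _).trans ?_
  rw [abs_mul, abs_mul]
  gcongr

theorem lim_of {B1 B2 B3 K Y : ι → ℝ} {s1 s2 : ι → ι} {b1 b2 b3 k : ℝ} (x1 : Tendsto B1 l (𝓝 b1))
    (x2 : Tendsto B2 l (𝓝 b2)) (x3 : Tendsto B3 l (𝓝 b3)) (x4 : Tendsto K l (𝓝 k))
    (hb : |b1| + |b3| < |b2|) (t1 : Tendsto s1 l l) (t2 : Tendsto s2 l l)
    (e : ∀ᶠ p in l, B1 p * Y (s1 p) + B2 p * Y p + B3 p * Y (s2 p) + K p = 0)
    (hY : ∃ M, ∀ᶠ p in l, |Y p| ≤ M) :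
    ∃ y, k + (b1 + b2 + b3) * y = 0 ∧ Tendsto Y l (𝓝 y) := by
  have hs : b1 + b2 + b3 ≠ 0 := by
    intro h
    have : b2 = -(b1 + b3) := by linarith
    rw [this, abs_neg] at hb
    linarith [abs_add_le b1 b3]
  set y := -k / (b1 + b2 + b3) with hy
  have hy0 : k + (b1 + b2 + b3) * y = 0 := by rw [hy]; field_simp; ring
  refine ⟨y, hy0, ?_⟩
  have x5 := x4.add (((x1.add x2).add x3).mul_const y)
  rw [hy0] at x5
  obtain ⟨g1, g3, p1, p3, hg, h⟩ := ineq_of x1 x2 x3 x5 hb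
  obtain ⟨M, hM⟩ := hY
  have hγ : 0 < 1 - (g1 + g3) := by linarith
  have key : ∀ ε, 0 < ε → ∀ N : ℕ, ∀ᶠ p in l,
      |Y p - y| ≤ (g1 + g3) ^ N * (M + |y|) + ε / (1 - (g1 + g3)) := by
    intro ε hε N
    induction N with
    | zero =>
      filter_upwards [hM] with p hp
      have := abs_sub (Y p) y
      have : 0 < ε / (1 - (g1 + g3)) := by positivity
      simp only [pow_zero, one_mul]; linarith
    | succ N ih =>
      filter_upwards [h ε hε, e, t1.eventually ih, t2.eventually ih] with p a1 a2 a3 a4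
      have := a1 (Y (s1 p) - y) (Y p - y) (Y (s2 p) - y) (by linear_combination a2)
      have h1 := mul_le_mul_of_nonneg_left a3 p1
      have h2 := mul_le_mul_of_nonneg_left a4 p3
      have h3 : ε / (1 - (g1 + g3)) = (g1 + g3) * (ε / (1 - (g1 + g3))) + ε := by
        field_simp; ring
      simp only [zero_div, abs_zero, zero_add] at this
      rw [pow_succ]; linarith
  rw [Metric.tendsto_nhds]
  intro ε hε
  have ht := (tendsto_pow_atTop_nhds_zero_of_lt_one (by positivity : 0 ≤ g1 + g3) hg).mul_const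
    (M + |y|)
  obtain ⟨N, hN⟩ := (ht.eventually (gt_mem_nhds (show 0 * _ < ε / 2 by simpa))).exists
  filter_upwards [key (ε / 2 * (1 - (g1 + g3))) (by positivity) N] with p hp
  rw [mul_div_assoc, div_self hγ.ne'] at hp
  rw [Real.dist_eq]; linarith

end

/-- Shift along an antidiagonal. -/
def sh (k : ℤ) (p : ℤ × ℤ) : ℤ × ℤ := (p.1 + k, p.2 - k)

theorem ev_iff {P : ℤ × ℤ → Prop} :
    (∀ᶠ p in atTop, P p) ↔ ∃ L : ℕ, ∀ i j : ℤ, L ≤ i → L ≤ j → P (i, j) := by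
  rw [eventually_atTop]
  constructor
  · rintro ⟨a, h⟩
    exact ⟨(max a.1 a.2).toNat, fun i j hi hj => h _ ⟨by simp only; omega, by simp only; omega⟩⟩
  · rintro ⟨L, h⟩
    exact ⟨(L, L), fun p hp => h _ _ hp.1 hp.2⟩

theorem tendsto_sh (k : ℤ) : Tendsto (sh k) atTop atTop := by
  rw [tendsto_atTop]
  intro b
  rw [ev_iff]
  exact ⟨(max (b.1 - k) (b.2 + k)).toNat, fun i j hi hj =>
    ⟨by simp only [sh]; omega, by simp only [sh]; omega⟩⟩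

theorem tendsto_fst' : Tendsto (fun p : ℤ × ℤ => p.1) atTop atTop := by
  rw [← prod_atTop_atTop_eq]; exact tendsto_fst

theorem tendsto_snd' : Tendsto (fun p : ℤ × ℤ => p.2) atTop atTop := by
  rw [← prod_atTop_atTop_eq]; exact tendsto_snd

theorem apriori {Y : ℤ × ℤ → ℝ} {g1 g3 K : ℝ} (p1 : 0 ≤ g1) (p3 : 0 ≤ g3) (hg : g1 + g3 < 1)
    (h : ∀ᶠ p in atTop, |Y p| ≤ g1 * |Y (sh (-1) p)| + g3 * |Y (sh 1 p)| + K)
    (h1 : ∀ i, 1 ≤ i → ∃ C, ∀ j, 1 ≤ j → |Y (i, j)| ≤ C)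
    (h2 : ∀ j, 1 ≤ j → ∃ C, ∀ i, 1 ≤ i → g3 * |Y (i, j)| ≤ C) :
    ∃ M, ∀ᶠ p in atTop, |Y p| ≤ M := by
  obtain ⟨L, hL⟩ := ev_iff.1 h
  obtain ⟨C1, hC1⟩ := h1 (L + 1) (by omega)
  obtain ⟨C2, hC2⟩ := h2 (L + 1) (by omega)
  have c1 : 0 ≤ C1 := (abs_nonneg _).trans (hC1 1 le_rfl)
  have c2 : 0 ≤ C2 := (mul_nonneg p3 (abs_nonneg _)).trans (hC2 1 le_rfl)
  refine ⟨(g1 * C1 + C2 + K) / (1 - (g1 + g3)), ev_iff.2 ⟨L + 2, fun i j hi hj => ?_⟩⟩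
  obtain ⟨m, hm, hmax⟩ := Finset.exists_max_image (Finset.Icc (L + 2 : ℤ) (i + j - (L + 2)))
    (fun m => |Y (m, i + j - m)|) ⟨i, by rw [Finset.mem_Icc]; omega⟩
  rw [Finset.mem_Icc] at hm
  have a0 := hmax i (by rw [Finset.mem_Icc]; omega)
  rw [add_sub_cancel_left] at a0
  refine a0.trans ?_
  have a1 := hL m (i + j - m) (by omega) (by omega)
  have hM := abs_nonneg (Y (m, i + j - m))
  have a2 : |Y (sh (-1) (m, i + j - m))| ≤ |Y (m, i + j - m)| + C1 := by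
    rcases hm.1.eq_or_lt with h0 | h0
    · have := hC1 (i + j - m - -1) (by omega)
      rw [sh, show m + -1 = L + 1 by omega]; simp only; linarith
    · have := hmax (m + -1) (by rw [Finset.mem_Icc]; omega)
      rw [sh, show i + j - m - -1 = i + j - (m + -1) by ring]; simp only; linarith
  have a3 : g3 * |Y (sh 1 (m, i + j - m))| ≤ g3 * |Y (m, i + j - m)| + C2 := by
    rcases hm.2.eq_or_lt with h0 | h0
    · have := hC2 (m + 1) (by omega)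
      have := mul_nonneg p3 hM
      rw [sh, show i + j - m - 1 = L + 1 by omega]; simp only; linarith
    · have := mul_le_mul_of_nonneg_left (hmax (m + 1) (by rw [Finset.mem_Icc]; omega)) p3
      rw [sh, show i + j - m - 1 = i + j - (m + 1) by ring]; simp only; linarith
  rw [le_div_iff₀ (by linarith)]
  nlinarith [mul_le_mul_of_nonneg_left a2 p1]

/-! The polynomial relations, written over any carrier with addition and multiplication. -/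

section
variable {R : Type} [Add R] [Mul R] (C : ℝ → R)

def TG (a : R) : R := C 4 * a * a * a + C (-3) * a
def UG (a : R) : R := C 4 * a * a + C (-1)
def RG (V : ℝ) (p a q : R) : R :=
  p * p + q * q + TG C a * TG C a + C (-2) * TG C a * p * q + C (-1) + C (-V) * UG C a * UG C a
def R1G (p a q : R) : R := p + C (-1) * TG C a * q
def R2G (V : ℝ) (p a q : R) : R :=
  (C 12 * a * a + C (-3)) * (TG C a + C (-1) * p * q) + C (-V) * UG C a * (C 8 * a)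
def FG (V : ℝ) (p a q r' r : R) : R := R1G C p a q * r' * r + R2G C V p a q * r + R1G C q a p

end

section
variable {ι : Type} {l : Filter ι} {u v Y1 Y2 Y3 : ι → ℝ}
  {zp Up Sp za Ua Sa zq Uq Sq zr Ur Sr zs Us Ss : ι → ℝ} {jp ja jq jr js : JT}

theorem jet_R (V : ℝ) (hp : Jet l u v Y1 Y2 Y3 zp Up Sp jp) (ha : Jet l u v Y1 Y2 Y3 za Ua Sa ja)
    (hq : Jet l u v Y1 Y2 Y3 zq Uq Sq jq) :
    Jet l u v Y1 Y2 Y3 (fun x => RG (fun t => t) V (zp x) (za x) (zq x))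
      (fun x => RG (fun t => t) V (Up x) (Ua x) (Uq x))
      (fun x => RG (fun t => t) V (Sp x) (Sa x) (Sq x)) (RG JT.C V jp ja jq) := by
  unfold RG TG UG
  repeat' first | assumption | apply Jet.const | apply Jet.add | apply Jet.mul

theorem jet_F (V : ℝ) (hp : Jet l u v Y1 Y2 Y3 zp Up Sp jp) (ha : Jet l u v Y1 Y2 Y3 za Ua Sa ja)
    (hq : Jet l u v Y1 Y2 Y3 zq Uq Sq jq) (hr : Jet l u v Y1 Y2 Y3 zr Ur Sr jr)
    (hs : Jet l u v Y1 Y2 Y3 zs Us Ss js) :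
    Jet l u v Y1 Y2 Y3 (fun x => FG (fun t => t) V (zp x) (za x) (zq x) (zr x) (zs x))
      (fun x => FG (fun t => t) V (Up x) (Ua x) (Uq x) (Ur x) (Us x))
      (fun x => FG (fun t => t) V (Sp x) (Sa x) (Sq x) (Sr x) (Ss x)) (FG JT.C V jp ja jq jr js) := by
  unfold FG R1G R2G TG UG
  repeat' first | assumption | apply Jet.const | apply Jet.add | apply Jet.mul

end

end Pool.Agent.Lib.MP_5d78b4_mp
end

-- part Pool.Agent.Lib.MP_5d78b4_mp.FinAlg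
section

set_option autoImplicit false

namespace Pool.Agent.Lib.MP_5d78b4_mp

noncomputable def jA (V a s x : ℝ) : JT :=
  RG JT.C V ⟨a, x * s⁻¹, x * s, 1, 0, 0, 0⟩ ⟨a, x, x, 0, 1, 0, 0⟩ ⟨a, x * s, x * s⁻¹, 0, 0, 1, 0⟩

noncomputable def j1 (V a s x : ℝ) : JT :=
  FG JT.C V ⟨a, 0, 0, 0, 0, 0, x * s⁻¹⟩ ⟨a, 0, 0, 0, 0, 0, x⟩ ⟨a, 0, 0, 0, 0, 0, x * s⟩
    ⟨s, 0, 0, s⁻¹, 0, 0, 0⟩ ⟨s, 0, 0, 0, 1, 0, 0⟩

noncomputable def j2 (V a s x : ℝ) : JT :=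
  FG JT.C V ⟨a, 0, 0, 0, 0, 0, x * s⟩ ⟨a, 0, 0, 0, 0, 0, x⟩ ⟨a, 0, 0, 0, 0, 0, x * s⁻¹⟩
    ⟨s, 0, 0, s, 0, 0, 0⟩ ⟨s, 0, 0, 0, 1, 0, 0⟩

noncomputable def jC (V a s x A r1 r2 : ℝ) : JT :=
  FG JT.C V ⟨a, x * s⁻¹, x * s, 0, 0, 0, A⟩ ⟨a, x, x, 0, 0, 0, A⟩ ⟨a, x * s, x * s⁻¹, 0, 0, 0, A⟩
    ⟨s, r1 * s⁻¹, r2 * s, 1, 0, 0, 0⟩ ⟨s, r1, r2, 0, 1, 0, 0⟩

/-- Data at the fixed point. -/
structure Fix (V a s : ℝ) : Prop where
  ha : 1 / 2 < a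
  ha1 : a < 1
  hs : 0 < s
  hs1 : s < 1
  hR : RG (fun t => t) V a a a = 0
  hF : FG (fun t => t) V a a a s s = 0

variable {V a s x A r1 r2 r12 : ℝ}

theorem Fix.D_pos (h : Fix V a s) : 0 < a * (1 - a) * (2 * a + 1) ^ 2 := by
  have := h.ha
  have := sub_pos.2 h.ha1
  positivity

theorem Fix.one_lt (h : Fix V a s) : 1 < s⁻¹ := (one_lt_inv₀ h.hs).2 h.hs1

theorem Fix.R2 (h : Fix V a s) :
    R2G (fun t => t) V a a a = -(a * (1 - a) * (2 * a + 1) ^ 2) * (s + s⁻¹) := by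
  have hF := h.hF
  have hs := h.hs.ne'
  have e : s * s⁻¹ = 1 := mul_inv_cancel₀ hs
  unfold FG at hF
  generalize R2G (fun t => t) V a a a = R at *
  simp only [R1G, TG] at hF
  linear_combination s⁻¹ * hF - (R + a * (1 - a) * (2 * a + 1) ^ 2 * s) * e

theorem Fix.params (h : Fix V a s) : ∃ n, 0 < n ∧ n * (2 * a - 1) - 1 = 0 ∧
    V = (1 - a) ^ 2 * (4 * a * a + 2 * a - 1) * n * n ∧ s⁻¹ = (8 * a * a - 2 * a + 1) * n - s ∧
    s * s - (8 * a * a - 2 * a + 1) * n * s + 1 = 0 := by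
  have ha := h.ha
  have h0 : 0 < 2 * a - 1 := by linarith
  have hn : (2 * a - 1)⁻¹ * (2 * a - 1) - 1 = 0 := by rw [inv_mul_cancel₀ h0.ne', sub_self]
  refine ⟨(2 * a - 1)⁻¹, inv_pos.2 h0, hn, ?_⟩
  generalize (2 * a - 1)⁻¹ = n at hn
  have hR := h.hR
  have hF := h.hF
  simp only [RG, FG, R1G, R2G, TG, UG] at hR hF
  have h1 : V * (2 * a - 1) ^ 2 = (1 - a) ^ 2 * (4 * a * a + 2 * a - 1) := by
    have : (2 * a + 1) ^ 2 ≠ 0 := by positivity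
    apply mul_left_cancel₀ this
    linear_combination -hR
  have hV : V = (1 - a) ^ 2 * (4 * a * a + 2 * a - 1) * n * n := by
    linear_combination n * n * h1 - V * (n * (2 * a - 1) + 1) * hn
  have hq : s * s - (8 * a * a - 2 * a + 1) * n * s + 1 = 0 := by
    apply mul_left_cancel₀ h.D_pos.ne'
    rw [hV] at hF
    linear_combination hF - ((-9)*a*s + 8*a*n*s + (-3)*a^2*s + (-16)*a^2*n*s + 48*a^3*s + (-56)*a^3*n*s + 12*a^4*s +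
      64*a^4*n*s + (-48)*a^5*s + 64*a^5*n*s + (-64)*a^6*n*s) * hn
  refine ⟨hV, ?_, hq⟩
  have := h.hs.ne'
  field_simp
  linear_combination hq

theorem Fix.condA (h : Fix V a s) : (jA V a s x).c = 0 ∧
    |(jA V a s x).b1| + |(jA V a s x).b3| < |(jA V a s x).b2| := by
  have hR := h.hR
  have h2 := h.R2
  have hD := h.D_pos
  have hs := h.hs
  have e : 2 < s + s⁻¹ := by
    have e : s * s⁻¹ = 1 := mul_inv_cancel₀ hs.ne'
    nlinarith [h.one_lt, h.hs1]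
  have e1 : (jA V a s x).b1 = 2 * (a * (1 - a) * (2 * a + 1) ^ 2) := by
    simp only [jA, RG, TG, UG, JT.add_def, JT.mul_def, JT.C]; ring
  have e3 : (jA V a s x).b3 = 2 * (a * (1 - a) * (2 * a + 1) ^ 2) := by
    simp only [jA, RG, TG, UG, JT.add_def, JT.mul_def, JT.C]; ring
  have e2 : (jA V a s x).b2 = -(2 * (a * (1 - a) * (2 * a + 1) ^ 2) * (s + s⁻¹)) := by
    simp only [jA, RG, R2G, TG, UG, JT.add_def, JT.mul_def, JT.C] at h2 ⊢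
    linear_combination 2 * h2
  refine ⟨hR, ?_⟩
  rw [e1, e2, e3, abs_neg, abs_of_pos (by positivity), abs_of_pos (by positivity)]
  nlinarith

theorem Fix.condF (h : Fix V a s) {jp ja jq jr js : JT} {β : ℝ} (hβ : 0 < β) (hβ1 : β ≤ s⁻¹)
    (hp : jp.c = a ∧ jp.b1 = 0 ∧ jp.b2 = 0 ∧ jp.b3 = 0)
    (ha : ja.c = a ∧ ja.b1 = 0 ∧ ja.b2 = 0 ∧ ja.b3 = 0)
    (hq : jq.c = a ∧ jq.b1 = 0 ∧ jq.b2 = 0 ∧ jq.b3 = 0)
    (hr : jr.c = s ∧ jr.b1 = β ∧ jr.b2 = 0 ∧ jr.b3 = 0)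
    (hs : js.c = s ∧ js.b1 = 0 ∧ js.b2 = 1 ∧ js.b3 = 0) :
    (FG JT.C V jp ja jq jr js).c = 0 ∧
    |(FG JT.C V jp ja jq jr js).b1| + |(0 : ℝ)| < |(FG JT.C V jp ja jq jr js).b2| := by
  have hF := h.hF
  have h2 := h.R2
  have hD := h.D_pos
  have hs0 := h.hs
  have e : s * s⁻¹ = 1 := mul_inv_cancel₀ hs0.ne'
  have e1 : (FG JT.C V jp ja jq jr js).b1 = a * (1 - a) * (2 * a + 1) ^ 2 * (β * s) := by
    simp only [FG, R1G, R2G, TG, UG, JT.add_def, JT.mul_def, JT.C, hp, ha, hq, hr, hs]; ring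
  have e2 : (FG JT.C V jp ja jq jr js).b2 = -(a * (1 - a) * (2 * a + 1) ^ 2 * s⁻¹) := by
    simp only [FG, R1G, R2G, TG, UG, JT.add_def, JT.mul_def, JT.C, hp, ha, hq, hr, hs] at h2 ⊢
    linear_combination h2
  constructor
  · simp only [FG, R1G, R2G, TG, UG, JT.add_def, JT.mul_def, JT.C, hp, ha, hq, hr, hs] at hF ⊢
    exact hF
  rw [e1, e2, abs_zero, add_zero, abs_neg, abs_of_pos (by positivity), abs_of_pos (by positivity)]
  have : β * s < s⁻¹ := by nlinarith [h.one_lt]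
  gcongr

theorem Fix.final (h : Fix V a s) (hx : x ≠ 0)
    (EA : (jA V a s x).k + ((jA V a s x).b1 + (jA V a s x).b2 + (jA V a s x).b3) * A = 0)
    (E1 : (j1 V a s x).k + ((j1 V a s x).b1 + (j1 V a s x).b2 + 0) * r1 = 0)
    (E2 : (j2 V a s x).k + ((j2 V a s x).b1 + (j2 V a s x).b2 + 0) * r2 = 0)
    (EC : (jC V a s x A r1 r2).k +
      ((jC V a s x A r1 r2).b1 + (jC V a s x A r1 r2).b2 + 0) * r12 = 0) :
    s * r12 - r1 * r2 < 0 := by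
  obtain ⟨n, hn0, hn, hV, ht, hq⟩ := h.params
  have ha := h.ha
  have ha1 := sub_pos.2 h.ha1
  have hD := h.D_pos
  have h1s := h.one_lt
  have hs := h.hs
  have hs1 := h.hs1
  have hq0 : 0 < 8 * a * a - 6 * a + 3 := by nlinarith [sq_nonneg (8 * a - 3)]
  rw [ht] at h1s
  have n1 : 2 * (2 * a + 1) * n ≠ 0 := by positivity
  have n2 : (2 * a + 1) * ((8 * a * a - 2 * a + 1) * n - s - 1) ≠ 0 :=
    (mul_pos (by positivity) (by linarith)).ne'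
  have n3 : (2 * a + 1) * 8 * a * a * n * (1 - s) ≠ 0 := (mul_pos (by positivity) (by linarith)).ne'
  have hd : a * (a - 1) * (2 * a + 1) * (8 * a * a - 6 * a + 3) ≠ 0 :=
    mul_ne_zero (mul_ne_zero (mul_ne_zero (by positivity) (by linarith)) (by positivity)) hq0.ne'
  have p1 : 0 < 128 * s * s * x * x * (1 - a) ^ 2 * (4 * a * a + 2 * a - 1) := by
    have : 0 < x * x := mul_self_pos.2 hx
    have : 0 < 4 * a * a + 2 * a - 1 := by nlinarith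
    have : 128 * s * s * x * x * (1 - a) ^ 2 * (4 * a * a + 2 * a - 1) =
      128 * s * s * (x * x) * (1 - a) ^ 2 * (4 * a * a + 2 * a - 1) := by ring
    rw [this]; positivity
  have p2 : (s - ((8 * a * a - 2 * a + 1) * n - s)) * (8 * a * a - 6 * a + 3) * (4 * a * a - 1) < 0 :=
    mul_neg_of_neg_of_pos (mul_neg_of_neg_of_pos (by linarith) hq0) (by nlinarith)
  simp only [jA, j1, j2, jC, RG, FG, R1G, R2G, TG, UG, JT.add_def, JT.mul_def, JT.C] at EA E1 E2 EC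
  rw [ht, hV] at EA E1 E2 EC
  have hA : a * (a - 1) * (2 * a + 1) * (8 * a * a - 6 * a + 3) * A - x * x * (3 + (-21)*a + 36*a^2 + 28*a^3 + (-80)*a^4 + 64*a^5) = 0 := by
    apply mul_left_cancel₀ n1
    linear_combination EA + (22*x^2 + (-16)*n*x^2 + 22*a*A + (-12)*a*x^2 + (-16)*a*n*A + 38*a*n*x^2 + 18*a^2*A +
      (-288)*a^2*x^2 + 32*a^2*n*A + 228*a^2*n*x^2 + (-96)*a^3*A + (-32)*a^3*x^2 + 112*a^3*n*A +
      (-296)*a^3*n*x^2 + (-40)*a^4*A + 480*a^4*x^2 + (-128)*a^4*n*A + (-496)*a^4*n*x^2 + 96*a^5*A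
      + (-128)*a^5*n*A + 384*a^5*n*x^2 + 128*a^6*n*A + 256*a^6*n*x^2) * hn + (4*x^2 + (-12)*a*x^2 + 16*a^3*x^2) * hq
  have h1 : a * (a - 1) * (2 * a + 1) * (8 * a * a - 6 * a + 3) * r1 - x * (3 + (-6)*n*s + (-21)*a + 54*a*n*s + 36*a^2 + (-180)*a^2*n*s + 28*a^3 + 256*a^3*n*s +
      (-80)*a^4 + (-16)*a^4*n*s + 64*a^5 + (-672)*a^5*n*s + 896*a^6*n*s + (-512)*a^7*n*s) = 0 := by
    apply mul_left_cancel₀ n2
    linear_combination (8 * a * a - 6 * a + 3) * E1 + ((-3)*x + 30*s*x + (-24)*n*s*x + 27*a*r1 + 15*a*x + (-69)*a*s*x + (-24)*a*n*r1 + 105*a*n*s*x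
      + (-45)*a^2*r1 + 6*a^2*x + (-302)*a^2*s*x + 96*a^2*n*r1 + 164*a^2*n*s*x + (-90)*a^3*r1 +
      (-100)*a^3*x + 668*a^3*s*x + 8*a^3*n*r1 + (-976)*a^3*n*s*x + 276*a^4*r1 + 24*a^4*x +
      (-312)*a^4*s*x + (-400)*a^4*n*r1 + 1056*a^4*n*s*x + (-168)*a^5*r1 + 96*a^5*x +
      (-1472)*a^5*s*x + 640*a^5*n*r1 + 880*a^5*n*s*x + (-384)*a^6*r1 + (-128)*a^6*x + 1792*a^6*s*x
      + 64*a^6*n*r1 + (-2752)*a^6*n*s*x + 384*a^7*r1 + (-896)*a^7*n*r1 + 768*a^7*n*s*x +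
      512*a^8*n*r1 + 1024*a^8*n*s*x) * hn + (3*s*x + (-6)*n*x + 3*a*r1 + (-9)*a*x + (-15)*a*s*x + 33*a*n*x + 3*a^2*r1 + 18*a^2*x +
      26*a^2*s*x + (-36)*a^2*n*x + (-10)*a^3*r1 + 12*a^3*x + (-12)*a^3*s*x + (-224)*a^3*n*x +
      12*a^4*r1 + (-72)*a^4*x + (-24)*a^4*s*x + 640*a^4*n*x + 24*a^5*r1 + 96*a^5*x + 32*a^5*s*x +
      (-720)*a^5*n*x + (-32)*a^6*r1 + (-704)*a^6*n*x + 1536*a^7*n*x + (-1024)*a^8*n*x) * hq
  have h2 : a * (a - 1) * (2 * a + 1) * (8 * a * a - 6 * a + 3) * r2 - x * (1 + (-1)*s + (-9)*a + 9*a*s + 20*a^2 + (-20)*a^2*s + (-12)*a^3 + 12*a^3*s) = 0 := by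
    apply mul_left_cancel₀ n3
    linear_combination (8 * a * a - 6 * a + 3) * E2 + (21*s*x + (-21)*n*s*x + 24*a*r2 + 3*a*s*r2 + (-24)*a*s*x + (-24)*a*n*r2 + 84*a*n*s*x +
      (-48)*a^2*r2 + 3*a^2*s*r2 + (-412)*a^2*s*x + 96*a^2*n*r2 + 276*a^2*n*s*x + (-80)*a^3*r2 +
      (-10)*a^3*s*r2 + 816*a^3*s*x + 8*a^3*n*r2 + (-1336)*a^3*n*s*x + 264*a^4*r2 + 12*a^4*s*r2 +
      (-240)*a^4*s*x + (-400)*a^4*n*r2 + 1744*a^4*n*s*x + (-192)*a^5*r2 + 24*a^5*s*r2 +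
      (-1696)*a^5*s*x + 640*a^5*n*r2 + 96*a^5*n*s*x + (-352)*a^6*r2 + (-32)*a^6*s*r2 +
      1920*a^6*s*x + 64*a^6*n*r2 + (-3392)*a^6*n*s*x + 384*a^7*r2 + (-896)*a^7*n*r2 +
      2304*a^7*n*s*x + 512*a^8*n*r2) * hn + ((-3)*s*x + (-3)*n*x + (-3)*a*r2 + (-9)*a*x + 15*a*s*x + 12*a*n*x + (-3)*a^2*r2 + 18*a^2*x +
      (-26)*a^2*s*x + (-52)*a^2*n*x + 10*a^3*r2 + 12*a^3*x + 12*a^3*s*x + 120*a^3*n*x +
      (-12)*a^4*r2 + (-72)*a^4*x + 24*a^4*s*x + (-80)*a^4*n*x + (-24)*a^5*r2 + 96*a^5*x +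
      (-32)*a^5*s*x + (-224)*a^5*n*x + 32*a^6*r2 + 192*a^6*n*x) * hq
  have hZ : a * (1 - a) * (2 * a + 1) ^ 2 * ((s - ((8 * a * a - 2 * a + 1) * n - s)) *
      (8 * a * a - 6 * a + 3) * (4 * a * a - 1) * (s * r12 - r1 * r2) -
      128 * s * s * x * x * (1 - a) ^ 2 * (4 * a * a + 2 * a - 1)) =
      ((-96)*x^2 + 1280*s*x^2 + (-96)*n*x^2 + 1472*n*s*x^2 + 192*n^2*s*x^2 + (-32)*a*x^2 +
      2336*a*s*x^2 + (-1264)*a^2*x^2 + 2704*a^2*s*x^2 + (-608)*a^3*x^2 + 7072*a^3*s*x^2 +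
      4736*a^4*x^2 + 9984*a^4*s*x^2 + (-11136)*a^5*x^2 + (-5504)*a^5*s*x^2 + (-9472)*a^6*x^2 +
      39680*a^6*s*x^2 + 21504*a^7*x^2 + 30720*a^7*s*x^2 + (-14336)*a^8*x^2 + (-71680)*a^8*s*x^2 +
      57344*a^9*s*x^2) + ((-16) + 144*s + (-16)*n + 176*n*s + 32*n^2*s + (-32)*a + 224*a*s + 32*a^2 + 416*a^2*s +
      (-176)*a^3 + 336*a^3*s + (-528)*a^4 + 752*a^4*s + 928*a^5 + 2080*a^5*s + (-320)*a^6 +
      (-2240)*a^6*s + (-2432)*a^7 + 1152*a^7*s + 2560*a^8 + 7168*a^8*s + (-10240)*a^9*s) * A + (24*a^2*x + (-48)*a^2*s*x + 24*a^3*x + 96*a^3*s*x + (-80)*a^4*x + 304*a^4*s*x + 96*a^5*x +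
      (-672)*a^5*s*x + 192*a^6*x + 192*a^6*s*x + (-256)*a^7*x + 1664*a^7*s*x + (-1536)*a^8*s*x) * r1 + (13*x + (-141)*s*x + 16*n*x + (-176)*n*s*x + (-32)*n^2*s*x + 47*a*x + (-239)*a*s*x + 50*a^2*x
      + (-402)*a^2*s*x + 80*a^3*x + 384*a^4*x + (-256)*a^4*s*x + (-336)*a^5*x + (-2288)*a^5*s*x +
      (-224)*a^6*x + 3040*a^6*s*x + 1664*a^7*x + 3456*a^7*s*x + (-1536)*a^8*x + (-6656)*a^8*s*x +
      (-2048)*a^9*x + 8192*a^9*s*x + 8192*a^10*s*x) * r2 + (3*a + 3*a*s + 3*a^2 + 3*a^2*s + 2*a^3 + (-46)*a^3*s + 72*a^4 + (-72)*a^4*s + 32*a^5 +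
      96*a^5*s + (-144)*a^6 + (-16)*a^6*s + 288*a^7 + (-480)*a^7*s + 256*a^8 + (-512)*a^9 +
      512*a^9*s) * r1 * r2 := by
    linear_combination (8 * a * a - 6 * a + 3) * (4 * a * a - 1) * s * EC + (11*A + 16*x*r2 + 3*x*r1 + (-114)*x^2 + 144*s*A + (-171)*s*x*r2 + (-24)*s*x*r1 + 1280*s*x^2 +
      (-24)*n*A + 18*n*x^2 + 5*n*s*A + (-8)*n*s*x*r2 + 21*n*s*x*r1 + 210*n*s*x^2 + 24*n^2*s*A +
      (-18)*n^2*s*x^2 + 3*a*r1*r2 + (-68)*a*A + 41*a*x*r2 + (-6)*a*x*r1 + (-732)*a*x^2 +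
      (-27)*a*s*r12 + (-3)*a*s*r1*r2 + 224*a*s*A + (-161)*a*s*x*r2 + 30*a*s*x*r1 + 2336*a*s*x^2 +
      96*a*n*A + 9*a*n*x*r2 + 504*a*n*x^2 + 24*a*n*s*r12 + 154*a*n*s*A + (-169)*a*n*s*x*r2 +
      (-84)*a*n*s*x*r1 + 888*a*n*s*x^2 + (-144)*a*n^2*s*A + (-9)*a*n^2*s*x*r2 + (-468)*a*n^2*s*x^2
      + 3*a^2*r1*r2 + (-472)*a^2*A + 46*a^2*x*r2 + 20*a^2*x*r1 + 360*a^2*x^2 + 45*a^2*s*r12 +
      (-3)*a^2*s*r1*r2 + 416*a^2*s*A + 34*a^2*s*x*r2 + 452*a^2*s*x*r1 + 2704*a^2*s*x^2 +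
      296*a^2*n*A + (-36)*a^2*n*x*r2 + (-2040)*a^2*n*x^2 + (-96)*a^2*n*s*r12 + 248*a^2*n*s*A +
      (-388)*a^2*n*s*x*r2 + (-352)*a^2*n*s*x*r1 + (-912)*a^2*n*s*x^2 + 88*a^2*n^2*s*A +
      54*a^2*n^2*s*x*r2 + 2904*a^2*n^2*s*x^2 + 2*a^3*r1*r2 + 736*a^3*A + 80*a^3*x*r2 + 24*a^3*x*r1
      + 1872*a^3*x^2 + 198*a^3*s*r12 + (-2)*a^3*s*r1*r2 + 336*a^3*s*A + (-1104)*a^3*s*x*r2 +
      (-816)*a^3*s*x*r1 + 7072*a^3*s*x^2 + (-1552)*a^3*n*A + 156*a^3*n*x*r2 + (-288)*a^3*n*x^2 +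
      (-104)*a^3*n*s*r12 + (-1136)*a^3*n*s*A + 1236*a^3*n*s*x*r2 + 1616*a^3*n*s*x*r1 +
      4704*a^3*n*s*x^2 + 1376*a^3*n^2*s*A + (-300)*a^3*n^2*s*x*r2 + (-7824)*a^3*n^2*s*x^2 +
      72*a^4*r1*r2 + 912*a^4*A + 400*a^4*x*r2 + (-64)*a^4*x*r1 + (-7104)*a^4*x^2 +
      (-456)*a^4*s*r12 + (-72)*a^4*s*r1*r2 + 752*a^4*s*A + (-1136)*a^4*s*x*r2 + (-1120)*a^4*s*x*r1
      + 9984*a^4*s*x^2 + 544*a^4*n*A + (-144)*a^4*n*x*r2 + 8544*a^4*n*x^2 + 784*a^4*n*s*r12 +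
      4336*a^4*n*s*A + (-1152)*a^4*n*s*x*r2 + (-592)*a^4*n*s*x*r1 + 7968*a^4*n*s*x^2 +
      (-6016)*a^4*n^2*s*A + 744*a^4*n^2*s*x*r2 + 7200*a^4*n^2*s*x^2 + 32*a^5*r1*r2 + (-3968)*a^5*A
      + (-304)*a^5*x*r2 + 128*a^5*x*r1 + (-1920)*a^5*x^2 + (-192)*a^5*s*r12 + (-32)*a^5*s*r1*r2 +
      2080*a^5*s*A + 2384*a^5*s*x*r2 + 4256*a^5*s*x*r1 + (-5504)*a^5*s*x^2 + 4864*a^5*n*A +
      (-80)*a^5*n*x*r2 + (-11136)*a^5*n*x^2 + (-608)*a^5*n*s*r12 + (-96)*a^5*n*s*A +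
      (-4400)*a^5*n*s*x*r2 + (-5312)*a^5*n*s*x*r1 + (-27264)*a^5*n*s*x^2 + 8640*a^5*n^2*s*A +
      (-1456)*a^5*n^2*s*x*r2 + 30528*a^5*n^2*s*x^2 + (-144)*a^6*r1*r2 + 2176*a^6*A +
      (-416)*a^6*x*r2 + 11520*a^6*x^2 + 1488*a^6*s*r12 + 144*a^6*s*r1*r2 + (-2240)*a^6*s*A +
      (-416)*a^6*s*x*r2 + (-2496)*a^6*s*x*r1 + 39680*a^6*s*x^2 + (-8576)*a^6*n*A + 1600*a^6*n*x*r2
      + (-7296)*a^6*n*x^2 + (-1664)*a^6*n*s*r12 + (-17408)*a^6*n*s*A + 5184*a^6*n*s*x*r2 +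
      9344*a^6*n*s*x*r1 + 41472*a^6*n*s*x^2 + 13952*a^6*n^2*s*A + (-608)*a^6*n^2*s*x*r2 +
      (-83328)*a^6*n^2*s*x^2 + 288*a^7*r1*r2 + 4864*a^7*A + 1920*a^7*x*r2 + (-12288)*a^7*x^2 +
      (-1056)*a^7*s*r12 + (-288)*a^7*s*r1*r2 + 1152*a^7*s*A + (-2560)*a^7*s*x*r2 +
      (-5376)*a^7*s*x*r1 + 30720*a^7*s*x^2 + (-256)*a^7*n*A + (-2496)*a^7*n*x*r2 + 16896*a^7*n*x^2
      + 3456*a^7*n*s*r12 + 31232*a^7*n*s*A + (-64)*a^7*n*s*x*r2 + (-768)*a^7*n*s*x*r1 +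
      50688*a^7*n*s*x^2 + (-55808)*a^7*n^2*s*A + 6336*a^7*n^2*s*x*r2 + 57600*a^7*n^2*s*x^2 +
      256*a^8*r1*r2 + (-5120)*a^8*A + (-1536)*a^8*x*r2 + (-12288)*a^8*x^2 + (-1536)*a^8*s*r12 +
      (-256)*a^8*s*r1*r2 + 7168*a^8*s*A + 1024*a^8*s*x*r2 + 6144*a^8*s*x*r1 + (-71680)*a^8*s*x^2 +
      10752*a^8*n*A + 1280*a^8*n*x*r2 + 6144*a^8*n*x^2 + (-256)*a^8*n*s*r12 + (-2560)*a^8*n*s*A +
      (-2048)*a^8*n*s*x*r2 + (-10752)*a^8*n*s*x*r1 + (-104448)*a^8*n*s*x^2 + 57344*a^8*n^2*s*A +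
      (-19072)*a^8*n^2*s*x*r2 + 86016*a^8*n^2*s*x^2 + (-512)*a^9*r1*r2 + (-2048)*a^9*x*r2 +
      1536*a^9*s*r12 + 512*a^9*s*r1*r2 + (-10240)*a^9*s*A + 8192*a^9*s*x*r2 + 57344*a^9*s*x^2 +
      (-6144)*a^9*n*A + 3072*a^9*n*x*r2 + (-24576)*a^9*n*x^2 + (-3584)*a^9*n*s*r12 +
      (-49152)*a^9*n*s*A + (-10240)*a^9*n*s*x*r2 + 6144*a^9*n*s*x*r1 + 73728*a^9*n*s*x^2 +
      29696*a^9*n^2*s*A + 19456*a^9*n^2*s*x*r2 + (-98304)*a^9*n^2*s*x^2 + 8192*a^10*s*x*r2 +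
      (-4096)*a^10*n*x*r2 + 2048*a^10*n*s*r12 + 40960*a^10*n*s*A + 8192*a^10*n*s*x*r2 +
      98304*a^10*n*s*x^2 + (-98304)*a^10*n^2*s*A + (-98304)*a^10*n^2*s*x^2 + 16384*a^11*n*s*x*r2 +
      49152*a^11*n^2*s*A + (-32768)*a^11*n^2*s*x*r2 + 196608*a^11*n^2*s*x^2 +
      32768*a^12*n^2*s*x*r2) * hn + (27*A + 3*x*r2 + 3*x*r1 + (-18)*x^2 + 3*s*A + (-3)*s*x*r2 + 3*s*x*r1 + (-3)*s^2*x*r2 +
      (-3)*s^2*x*r1 + 18*s^2*x^2 + 3*n*A + 3*n*x*r1 + 9*n*s*x^2 + (-24)*n^2*A + 18*n^2*x^2 +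
      (-36)*a*A + (-6)*a*x*r2 + (-6)*a*x*r1 + (-700)*a*x^2 + 12*a*s*A + 24*a*s*x*r2 +
      (-24)*a*s*x*r1 + 15*a*s^2*x*r2 + 15*a*s^2*x*r1 + (-36)*a*s^2*x^2 + 6*a*n*A + 18*a*n*x*r2 +
      (-12)*a*n*x*r1 + 9*a*n*s*x*r2 + (-9)*a*n*s*x*r1 + (-36)*a*n*s*x^2 + 144*a*n^2*A +
      9*a*n^2*x*r2 + 468*a*n^2*x^2 + (-504)*a^2*A + (-4)*a^2*x*r2 + (-4)*a^2*x*r1 + 1624*a^2*x^2 +
      (-40)*a^2*s*A + (-32)*a^2*s*x*r2 + 32*a^2*s*x*r1 + (-72)*a^2*s*x^2 + (-14)*a^2*s^2*x*r2 +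
      (-14)*a^2*s^2*x*r1 + (-96)*a^2*s^2*x^2 + (-40)*a^2*n*A + (-72)*a^2*n*x*r2 + 32*a^2*n*x*r1 +
      (-216)*a^2*n*x^2 + (-36)*a^2*n*s*x*r2 + 36*a^2*n*s*x*r1 + 60*a^2*n*s*x^2 + 104*a^2*n^2*A +
      (-54)*a^2*n^2*x*r2 + (-3048)*a^2*n^2*x^2 + 912*a^3*A + 2480*a^3*x^2 + (-48)*a^3*s*A +
      (-96)*a^3*s*x*r2 + 96*a^3*s*x*r1 + 144*a^3*s*x^2 + (-48)*a^3*s^2*x*r2 + (-48)*a^3*s^2*x*r1 +
      288*a^3*s^2*x^2 + 128*a^3*n*A + 144*a^3*n*x*r2 + (-16)*a^3*n*x*r1 + 864*a^3*n*x^2 +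
      84*a^3*n*s*x*r2 + (-84)*a^3*n*s*x*r1 + 96*a^3*n*s*x^2 + (-2144)*a^3*n^2*A + 228*a^3*n^2*x*r2
      + 3792*a^3*n^2*x^2 + 1440*a^4*A + 16*a^4*x*r2 + 16*a^4*x*r1 + (-11840)*a^4*x^2 + 208*a^4*s*A
      + 272*a^4*s*x*r2 + (-272)*a^4*s*x*r1 + 96*a^4*s*x^2 + 128*a^4*s^2*x*r2 + 128*a^4*s^2*x*r1 +
      (-96)*a^4*s^2*x^2 + (-16)*a^4*n*A + 96*a^4*n*x*r2 + (-112)*a^4*n*x*r1 + (-2304)*a^4*n*x^2 +
      (-720)*a^4*n*s*x^2 + 3648*a^4*n^2*A + (-456)*a^4*n^2*x*r2 + 9120*a^4*n^2*x^2 + (-4896)*a^5*A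
      + 32*a^5*x*r2 + 32*a^5*x*r1 + 9216*a^5*x^2 + (-128)*a^5*s*A + (-128)*a^5*s*x*r2 +
      128*a^5*s*x*r1 + (-576)*a^5*s*x^2 + (-80)*a^5*s^2*x*r2 + (-80)*a^5*s^2*x*r1 +
      (-576)*a^5*s^2*x^2 + (-928)*a^5*n*A + (-1184)*a^5*n*x*r2 + 256*a^5*n*x*r1 + 1152*a^5*n*x^2 +
      (-464)*a^5*n*s*x*r2 + 464*a^5*n*s*x*r1 + 960*a^5*n*s*x^2 + 3776*a^5*n^2*A + 208*a^5*n^2*x*r2
      + (-28224)*a^5*n^2*x^2 + 2496*a^6*A + (-192)*a^6*x*r2 + (-192)*a^6*x*r1 + 20992*a^6*x^2 +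
      (-384)*a^6*s*A + (-384)*a^6*s*x*r2 + 384*a^6*s*x*r1 + 768*a^6*s*x^2 + (-96)*a^6*s^2*x*r2 +
      (-96)*a^6*s^2*x*r1 + 768*a^6*s^2*x^2 + 1536*a^6*n*A + 1792*a^6*n*x*r2 + (-256)*a^6*n*x*r1 +
      8064*a^6*n*x^2 + 832*a^6*n*s*x*r2 + (-832)*a^6*n*s*x*r1 + 576*a^6*n*s*x^2 +
      (-18304)*a^6*n^2*A + 1760*a^6*n^2*x*r2 + 14976*a^6*n^2*x^2 + 7296*a^7*A + 256*a^7*x*r2 +
      256*a^7*x*r1 + (-33792)*a^7*x^2 + 512*a^7*s*A + 512*a^7*s*x*r2 + (-512)*a^7*s*x*r1 +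
      128*a^7*s^2*x*r2 + 128*a^7*s^2*x*r1 + 256*a^7*n*A + 256*a^7*n*x*r2 + (-18432)*a^7*n*x^2 +
      (-320)*a^7*n*s*x*r2 + 320*a^7*n*s*x*r1 + (-3072)*a^7*n*s*x^2 + 16896*a^7*n^2*A +
      (-5696)*a^7*n^2*x*r2 + 31488*a^7*n^2*x^2 + (-7680)*a^8*A + 2048*a^8*x^2 + (-4096)*a^8*n*A +
      (-4096)*a^8*n*x*r2 + 18432*a^8*n*x^2 + (-1024)*a^8*n*s*x*r2 + 1024*a^8*n*s*x*r1 +
      3072*a^8*n*s*x^2 + 11264*a^8*n^2*A + 6272*a^8*n^2*x*r2 + (-27648)*a^8*n^2*x^2 + 4096*a^9*n*A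
      + 4096*a^9*n*x*r2 + 1024*a^9*n*s*x*r2 + (-1024)*a^9*n*s*x*r1 + (-27648)*a^9*n^2*A +
      512*a^9*n^2*x*r2 + (-36864)*a^9*n^2*x^2 + 12288*a^10*n^2*A + (-10240)*a^10*n^2*x*r2 +
      49152*a^10*n^2*x^2 + 8192*a^11*n^2*x*r2) * hq
  have hZ0 : ((-96)*x^2 + 1280*s*x^2 + (-96)*n*x^2 + 1472*n*s*x^2 + 192*n^2*s*x^2 + (-32)*a*x^2 +
      2336*a*s*x^2 + (-1264)*a^2*x^2 + 2704*a^2*s*x^2 + (-608)*a^3*x^2 + 7072*a^3*s*x^2 +
      4736*a^4*x^2 + 9984*a^4*s*x^2 + (-11136)*a^5*x^2 + (-5504)*a^5*s*x^2 + (-9472)*a^6*x^2 +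
      39680*a^6*s*x^2 + 21504*a^7*x^2 + 30720*a^7*s*x^2 + (-14336)*a^8*x^2 + (-71680)*a^8*s*x^2 +
      57344*a^9*s*x^2) + ((-16) + 144*s + (-16)*n + 176*n*s + 32*n^2*s + (-32)*a + 224*a*s + 32*a^2 + 416*a^2*s +
      (-176)*a^3 + 336*a^3*s + (-528)*a^4 + 752*a^4*s + 928*a^5 + 2080*a^5*s + (-320)*a^6 +
      (-2240)*a^6*s + (-2432)*a^7 + 1152*a^7*s + 2560*a^8 + 7168*a^8*s + (-10240)*a^9*s) * A + (24*a^2*x + (-48)*a^2*s*x + 24*a^3*x + 96*a^3*s*x + (-80)*a^4*x + 304*a^4*s*x + 96*a^5*x +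
      (-672)*a^5*s*x + 192*a^6*x + 192*a^6*s*x + (-256)*a^7*x + 1664*a^7*s*x + (-1536)*a^8*s*x) * r1 + (13*x + (-141)*s*x + 16*n*x + (-176)*n*s*x + (-32)*n^2*s*x + 47*a*x + (-239)*a*s*x + 50*a^2*x
      + (-402)*a^2*s*x + 80*a^3*x + 384*a^4*x + (-256)*a^4*s*x + (-336)*a^5*x + (-2288)*a^5*s*x +
      (-224)*a^6*x + 3040*a^6*s*x + 1664*a^7*x + 3456*a^7*s*x + (-1536)*a^8*x + (-6656)*a^8*s*x +
      (-2048)*a^9*x + 8192*a^9*s*x + 8192*a^10*s*x) * r2 + (3*a + 3*a*s + 3*a^2 + 3*a^2*s + 2*a^3 + (-46)*a^3*s + 72*a^4 + (-72)*a^4*s + 32*a^5 +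
      96*a^5*s + (-144)*a^6 + (-16)*a^6*s + 288*a^7 + (-480)*a^7*s + 256*a^8 + (-512)*a^9 +
      512*a^9*s) * r1 * r2 = 0 := by
    apply mul_left_cancel₀ (pow_ne_zero 2 hd)
    linear_combination a * (a - 1) * (2 * a + 1) * (8 * a * a - 6 * a + 3) * ((-16) + 144*s + (-16)*n + 176*n*s + 32*n^2*s + (-32)*a + 224*a*s + 32*a^2 + 416*a^2*s +
      (-176)*a^3 + 336*a^3*s + (-528)*a^4 + 752*a^4*s + 928*a^5 + 2080*a^5*s + (-320)*a^6 +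
      (-2240)*a^6*s + (-2432)*a^7 + 1152*a^7*s + 2560*a^8 + 7168*a^8*s + (-10240)*a^9*s) * hA +
      (a * (a - 1) * (2 * a + 1) * (8 * a * a - 6 * a + 3) * (24*a^2*x + (-48)*a^2*s*x + 24*a^3*x + 96*a^3*s*x + (-80)*a^4*x + 304*a^4*s*x + 96*a^5*x +
      (-672)*a^5*s*x + 192*a^6*x + 192*a^6*s*x + (-256)*a^7*x + 1664*a^7*s*x + (-1536)*a^8*s*x) + (3*a + 3*a*s + 3*a^2 + 3*a^2*s + 2*a^3 + (-46)*a^3*s + 72*a^4 + (-72)*a^4*s + 32*a^5 +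
      96*a^5*s + (-144)*a^6 + (-16)*a^6*s + 288*a^7 + (-480)*a^7*s + 256*a^8 + (-512)*a^9 +
      512*a^9*s) * (a * (a - 1) * (2 * a + 1) * (8 * a * a - 6 * a + 3) * r2)) * h1 +
      (a * (a - 1) * (2 * a + 1) * (8 * a * a - 6 * a + 3) * (13*x + (-141)*s*x + 16*n*x + (-176)*n*s*x + (-32)*n^2*s*x + 47*a*x + (-239)*a*s*x + 50*a^2*x
      + (-402)*a^2*s*x + 80*a^3*x + 384*a^4*x + (-256)*a^4*s*x + (-336)*a^5*x + (-2288)*a^5*s*x +
      (-224)*a^6*x + 3040*a^6*s*x + 1664*a^7*x + 3456*a^7*s*x + (-1536)*a^8*x + (-6656)*a^8*s*x +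
      (-2048)*a^9*x + 8192*a^9*s*x + 8192*a^10*s*x) + (3*a + 3*a*s + 3*a^2 + 3*a^2*s + 2*a^3 + (-46)*a^3*s + 72*a^4 + (-72)*a^4*s + 32*a^5 +
      96*a^5*s + (-144)*a^6 + (-16)*a^6*s + 288*a^7 + (-480)*a^7*s + 256*a^8 + (-512)*a^9 +
      512*a^9*s) * (x * (3 + (-6)*n*s + (-21)*a + 54*a*n*s + 36*a^2 + (-180)*a^2*n*s + 28*a^3 + 256*a^3*n*s +
      (-80)*a^4 + (-16)*a^4*n*s + 64*a^5 + (-672)*a^5*n*s + 896*a^6*n*s + (-512)*a^7*n*s))) * h2 +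
      ((-546)*a*x^2 + 834*a*s*x^2 + (-78)*a*n*x^2 + 642*a*n*s*x^2 + 78*a*n^2*s*x^2 + 5262*a^2*x^2 +
      (-16110)*a^2*s*x^2 + 462*a^2*n*x^2 + (-7506)*a^2*n*s*x^2 + (-618)*a^2*n^2*s*x^2 +
      (-8386)*a^3*x^2 + 6682*a^3*s*x^2 + 782*a^3*n*x^2 + 20078*a^3*n*s*x^2 + 766*a^3*n^2*s*x^2 +
      (-2374)*a^4*x^2 + 61070*a^4*s*x^2 + (-5310)*a^4*n*x^2 + (-40718)*a^4*n*s*x^2 +
      3178*a^4*n^2*s*x^2 + 41572*a^5*x^2 + (-217308)*a^5*s*x^2 + (-1680)*a^5*n*x^2 +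
      11808*a^5*n*s*x^2 + (-15196)*a^5*n^2*s*x^2 + (-100104)*a^6*x^2 + 45472*a^6*s*x^2 +
      66224*a^6*n*x^2 + 134144*a^6*n*s*x^2 + (-27104)*a^6*n^2*s*x^2 + 189056*a^7*x^2 +
      531392*a^7*s*x^2 + (-171184)*a^7*n*x^2 + (-577968)*a^7*n*s*x^2 + 317072*a^7*n^2*s*x^2 +
      (-96320)*a^8*x^2 + (-1226880)*a^8*s*x^2 + (-52544)*a^8*n*x^2 + 1252224*a^8*n*s*x^2 +
      (-819616)*a^8*n^2*s*x^2 + (-659200)*a^9*x^2 + 135680*a^9*s*x^2 + 1214976*a^9*n*x^2 +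
      (-1305984)*a^9*n*s*x^2 + 49408*a^9*n^2*s*x^2 + 1964800*a^10*x^2 + 3641088*a^10*s*x^2 +
      (-2429440)*a^10*n*x^2 + (-2144000)*a^10*n*s*x^2 + 5279744*a^10*n^2*s*x^2 +
      (-1484800)*a^11*x^2 + (-6500352)*a^11*s*x^2 + (-273408)*a^11*n*x^2 + 10524160*a^11*n*s*x^2 +
      (-14305280)*a^11*n^2*s*x^2 + (-2921984)*a^12*x^2 + (-1289728)*a^12*s*x^2 +
      9662976*a^12*n*x^2 + (-15766016)*a^12*n*s*x^2 + 9225728*a^12*n^2*s*x^2 + 8047616*a^13*x^2 +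
      21281792*a^13*s*x^2 + (-15065088)*a^13*n*x^2 + (-2013184)*a^13*n*s*x^2 +
      36578304*a^13*n^2*s*x^2 + (-6096896)*a^14*x^2 + (-28717056)*a^14*s*x^2 +
      (-1732608)*a^14*n*x^2 + 45568000*a^14*n*s*x^2 + (-105701376)*a^14*n^2*s*x^2 +
      (-3858432)*a^15*x^2 + 696320*a^15*s*x^2 + 34869248*a^15*n*x^2 + (-72716288)*a^15*n*s*x^2 +
      82186240*a^15*n^2*s*x^2 + 11141120*a^16*x^2 + 41844736*a^16*s*x^2 + (-40828928)*a^16*n*x^2 +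
      29917184*a^16*n*s*x^2 + 124428288*a^16*n^2*s*x^2 + (-8781824)*a^17*x^2 +
      (-50724864)*a^17*s*x^2 + (-1245184)*a^17*n*x^2 + 61931520*a^17*n*s*x^2 +
      (-359366656)*a^17*n^2*s*x^2 + 2621440*a^18*x^2 + 24641536*a^18*s*x^2 + 43253760*a^18*n*x^2 +
      (-109314048)*a^18*n*s*x^2 + 280887296*a^18*n^2*s*x^2 + (-4194304)*a^19*s*x^2 +
      (-39845888)*a^19*n*x^2 + 75497472*a^19*n*s*x^2 + 136314880*a^19*n^2*s*x^2 +
      12582912*a^20*n*x^2 + (-20971520)*a^20*n*s*x^2 + (-438304768)*a^20*n^2*s*x^2 +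
      343932928*a^21*n^2*s*x^2 + (-100663296)*a^22*n^2*s*x^2) * hn + ((-432)*a*x^2 + (-528)*a*n*x^2 + 18*a*n*s*x^2 + (-78)*a*n^2*x^2 + 3648*a^2*x^2 +
      5280*a^2*n*x^2 + (-306)*a^2*n*s*x^2 + 618*a^2*n^2*x^2 + (-6312)*a^3*x^2 + (-15184)*a^3*n*x^2
      + 1758*a^3*n*s*x^2 + (-142)*a^3*n^2*x^2 + (-2728)*a^4*x^2 + 13088*a^4*n*x^2 +
      (-2190)*a^4*n*s*x^2 + (-6874)*a^4*n^2*x^2 + 18968*a^5*x^2 + 19680*a^5*n*x^2 +
      (-17184)*a^5*n*s*x^2 + 8940*a^5*n^2*x^2 + (-23288)*a^6*x^2 + (-85280)*a^6*n*x^2 +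
      71680*a^6*n*s*x^2 + 69584*a^6*n^2*x^2 + 43872*a^7*x^2 + 234976*a^7*n*x^2 +
      (-40720)*a^7*n*s*x^2 + (-303632)*a^7*n^2*x^2 + (-249152)*a^8*x^2 + (-617600)*a^8*n*x^2 +
      (-358912)*a^8*n*s*x^2 + 289824*a^8*n^2*x^2 + 468352*a^9*x^2 + 850816*a^9*n*x^2 +
      928000*a^9*n*s*x^2 + 1320064*a^9*n^2*x^2 + 220672*a^10*x^2 + 812800*a^10*n*x^2 +
      (-132096)*a^10*n*s*x^2 + (-4859392)*a^10*n^2*x^2 + (-2309632)*a^11*x^2 +
      (-5687808)*a^11*n*x^2 + (-3102720)*a^11*n*s*x^2 + 4585472*a^11*n^2*x^2 + 3415040*a^12*x^2 +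
      9710592*a^12*n*x^2 + 5061120*a^12*n*s*x^2 + 10209792*a^12*n^2*x^2 + 430080*a^13*x^2 +
      (-1173504)*a^13*n*x^2 + 552960*a^13*n*s*x^2 + (-34391040)*a^13*n^2*x^2 + (-6989824)*a^14*x^2
      + (-23924736)*a^14*n*x^2 + (-10985472)*a^14*n*s*x^2 + 28397568*a^14*n^2*x^2 +
      8192000*a^15*x^2 + 43204608*a^15*n*x^2 + 11939840*a^15*n*s*x^2 + 38334464*a^15*n^2*x^2 +
      (-2162688)*a^16*x^2 + (-21970944)*a^16*n*x^2 + 1196032*a^16*n*s*x^2 +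
      (-110567424)*a^16*n^2*x^2 + (-2621440)*a^17*x^2 + (-32309248)*a^17*n*x^2 +
      (-12713984)*a^17*n*s*x^2 + 80412672*a^17*n^2*x^2 + 1572864*a^18*x^2 + 63438848*a^18*n*x^2 +
      10747904*a^18*n*s*x^2 + 45744128*a^18*n^2*x^2 + (-45088768)*a^19*n*x^2 +
      (-3145728)*a^19*n*s*x^2 + (-126353408)*a^19*n^2*x^2 + 12582912*a^20*n*x^2 +
      92274688*a^20*n^2*x^2 + (-25165824)*a^21*n^2*x^2) * hq
  have hZ1 := sub_eq_zero.1 ((mul_eq_zero.1 (hZ.trans hZ0)).resolve_left hD.ne')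
  exact neg_of_mul_pos_right (hZ1 ▸ p1) p2.le

end Pool.Agent.Lib.MP_5d78b4_mp
end
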