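import Pool.Agent.Lib.MP_5d78b4_mp.Geom
import Pool.Agent.Lib.MP_5d78b4_mp.FinAlg

-- part Pool.Agent.Lib.MP_5d78b4_mp.Steer
section

set_option autoImplicit false
open Filter Topology Real

namespace Pool.Agent.Lib.MP_5d78b4_mp

theorem disc_ivt {g : ℕ → ℝ} {t ε : ℝ} (hε : 0 ≤ ε) (h0 : t ≤ g 0) {K : ℕ} (hK : g K ≤ t)
    (h : ∀ k < K, g k - g (k + 1) ≤ ε) : ∃ k ≤ K, |g k - t| ≤ ε := by
  induction K with
  | zero => exact ⟨0, le_rfl, by rw [abs_le]; constructor <;> linarith⟩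
  | succ K ih =>
    rcases le_total (g K) t with h1 | h1
    · obtain ⟨k, hk, e⟩ := ih h1 fun k hk => h k (by omega)
      exact ⟨k, by omega, e⟩
    · have := h K (by omega)
      exact ⟨K, by omega, by rw [abs_le]; constructor <;> linarith⟩

theorem steer_abs {α : Type} (l : List α → ℝ) (a0 : α) {B : ℝ} (hB : 0 ≤ B)
    (child : ∀ w a, l w ≤ B + l (w ++ [a]))
    (small : ∀ t, ∃ n, ∀ w : List α, n ≤ w.length → l w ≤ t)
    (na : ∀ ε, 0 < ε → ∃ (X Y : List α) (δ : ℝ), 0 < δ ∧ ∀ w w',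
      δ ≤ l (w ++ X ++ w') - l (w ++ Y ++ w') ∧ l (w ++ X ++ w') - l (w ++ Y ++ w') ≤ ε)
    (ε : ℝ) (hε : 0 < ε) (m : ℕ) : ∃ T0 : ℝ, ∀ (w : List α) (t : ℝ), T0 ≤ t → ∃ v : List α,
      |l w - l (w ++ v ++ List.replicate m a0) - t| ≤ ε := by
  have ch : ∀ v w : List α, l w ≤ v.length * B + l (w ++ v) := by
    intro v
    induction v with
    | nil => intro w; simp
    | cons a v ih =>
      intro w
      have h1 := child w a
      have h2 := ih (w ++ [a])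
      rw [List.append_assoc, List.singleton_append] at h2
      rw [List.length_cons]; push_cast; linarith
  obtain ⟨X, Y, δ, hδ, h⟩ := na ε hε
  obtain ⟨K, hK⟩ := exists_nat_ge (B / δ)
  rw [div_le_iff₀ hδ] at hK
  refine ⟨((List.replicate K Y).flatten ++ List.replicate m a0).length * B, fun w t ht => ?_⟩
  obtain ⟨n, hn1, hn2⟩ : ∃ n, t ≤ l w - l (w ++ (List.replicate K Y).flatten ++
      List.replicate (n + m) a0) ∧ l w - l (w ++ (List.replicate K Y).flatten ++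
      List.replicate (n + m) a0) ≤ t + B := by
    classical
    have hex : ∃ n, t ≤ l w - l (w ++ (List.replicate K Y).flatten ++ List.replicate (n + m) a0) := by
      obtain ⟨n, hn⟩ := small (l w - t)
      have := hn (w ++ (List.replicate K Y).flatten ++ List.replicate (n + m) a0) (by simp; omega)
      exact ⟨n, by linarith⟩
    refine ⟨Nat.find hex, Nat.find_spec hex, ?_⟩
    rcases Nat.eq_zero_or_eq_succ_pred (Nat.find hex) with h0 | h0
    · have := ch ((List.replicate K Y).flatten ++ List.replicate m a0) w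
      rw [h0, zero_add, List.append_assoc]; linarith
    · have h1 := Nat.find_min hex (m := (Nat.find hex).pred) (by omega)
      have h2 := child (w ++ (List.replicate K Y).flatten ++
        List.replicate ((Nat.find hex).pred + m) a0) a0
      rw [List.append_assoc _ _ [a0], ← List.replicate_succ'] at h2
      rw [h0, Nat.succ_add]
      linarith [not_le.1 h1]
  set g : ℕ → ℝ := fun k => l w - l (w ++ ((List.replicate k X).flatten ++
    (List.replicate (K - k) Y).flatten ++ List.replicate n a0) ++ List.replicate m a0) with hg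
  have g0 : g 0 = l w - l (w ++ (List.replicate K Y).flatten ++ List.replicate (n + m) a0) := by
    simp [hg]
  have gs : ∀ k < K, δ ≤ g k - g (k + 1) ∧ g k - g (k + 1) ≤ ε := by
    intro k hk
    have := h (w ++ (List.replicate k X).flatten) ((List.replicate (K - (k + 1)) Y).flatten ++
      List.replicate n a0 ++ List.replicate m a0)
    simp only [hg, show K - k = K - (k + 1) + 1 by omega, List.replicate_succ' (n := k),
      List.replicate_succ (n := K - (k + 1)), List.flatten_cons, List.flatten_append,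
      List.flatten_nil, List.append_assoc, List.append_nil] at this ⊢
    constructor <;> linarith [this.1, this.2]
  have gK : ∀ k ≤ K, g k ≤ g 0 - k * δ := by
    intro k
    induction k with
    | zero => simp
    | succ k ih =>
      intro hk
      have := ih (by omega)
      have := (gs k (by omega)).1
      push_cast; linarith
  obtain ⟨k, -, hk⟩ := disc_ivt (g := g) (t := t) hε.le (by linarith) (K := K)
    (by linarith [gK K le_rfl]) fun k hk => (gs k hk).2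
  exact ⟨_, hk⟩

variable {V : ℝ}

def cb (β : ℤ → Fin 3) : ℤ → Step := fun i => .inl (hd (β i))

def wd (β : ℤ → Fin 3) (a : ℤ) (T : ℕ) : List (Fin 3) := (List.range T).map fun j : ℕ => β (a + j)

theorem fw_wd {β : ℤ → Fin 3} (h : ∀ i, β i ≠ 2) (a : ℤ) (T : ℕ) :
    fw (wd β a T) = (List.range T).map fun j : ℕ => hd (β (a + j)) := by
  have : ∀ x : Fin 3, x ≠ 2 → fe x = [hd x] := by decide
  induction T with
  | zero => rfl
  | succ T ih =>
    unfold wd at *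
    rw [List.range_succ, List.map_append, List.map_append, fw_append, ih]
    simp [fw, this _ (h _)]

theorem length_fw_wd {β : ℤ → Fin 3} (h : ∀ i, β i ≠ 2) (a : ℤ) (T : ℕ) :
    (fw (wd β a T)).length = T := by simp [fw_wd h]

theorem cE_wd {β : ℤ → Fin 3} (h : ∀ i, β i ≠ 2) (a : ℤ) {T : ℕ} (u : List Edge) (η : Stream' Edge)
    {j : ℤ} (h0 : 0 ≤ j) (h1 : j < T) :
    cE 0 (u ++ₛ (fw (wd β a T) ++ₛ η)) (u.length + j) = cb β (a + j) := by
  rw [cE_right (y' := 0) h0]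
  simp only [cE, ch, if_pos h0, Stream'.get_map, cb]
  rw [Stream'.get_append_left _ _ _ (by rw [length_fw_wd h]; omega)]
  simp [fw_wd h, h0]

theorem good_cb (hV : 0 < V) (β : ℤ → Fin 3) (n : ℤ) : (sys hV).GoodF (cb β) n :=
  fun _ _ => ⟨_, rfl⟩

noncomputable def LG (hV : 0 < V) (β : ℤ → Fin 3) (n : ℤ) (m : ℕ) : ℝ :=
  log ((sys hV).G (cb β) (cb β) n m)

theorem swap (hV : 0 < V) {β β' : ℤ → Fin 3} (h : ∀ i, β i ≠ 2) (h' : ∀ i, β' i ≠ 2) {N : ℕ}
    (hN : ∀ j : ℤ, j < 0 ∨ N ≤ j → β j = β' j) (L : ℕ) (u u' : List Edge) :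
    |log (sE hV (u ++ fw (wd β (-(2 * L)) (N + 4 * L)) ++ u')) -
      log (sE hV (u ++ fw (wd β' (-(2 * L)) (N + 4 * L)) ++ u')) -
      (LG hV β (-L) (N + 2 * L) - LG hV β' (-L) (N + 2 * L))| ≤
      (4 * Kf hV + 2 * π / c2 hV) * (sys hV).κ ^ L := by
  set S := sys hV
  set B := fw (wd β (-(2 * L)) (N + 4 * L)) with hB
  set B' := fw (wd β' (-(2 * L)) (N + 4 * L)) with hB'
  have lB : B.length = N + 4 * L := length_fw_wd h _ _
  have lB' : B'.length = N + 4 * L := length_fw_wd h' _ _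
  have agr : ∀ (η : Stream' Edge) (j : ℤ), j < u.length + 2 * L ∨ u.length + 2 * L + N ≤ j →
      cE 0 (u ++ B ++ u' ++ₛ η) j = cE 0 (u ++ B' ++ u' ++ₛ η) j := by
    intro η j hj
    simp only [Stream'.append_append_stream]
    rcases lt_or_ge j u.length with h1 | h1
    · exact cE_left h1
    rcases lt_or_ge j (u.length + (N + 4 * L : ℕ)) with h2 | h2
    · obtain ⟨i, rfl⟩ : ∃ i, j = u.length + i := ⟨j - u.length, by ring⟩
      rw [cE_wd h _ _ _ (by omega) (by omega), cE_wd h' _ _ _ (by omega) (by omega), cb, cb,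
        hN _ (by omega)]
    · obtain ⟨i, rfl⟩ : ∃ i, j = u.length + (N + 4 * L : ℕ) + i :=
        ⟨j - u.length - (N + 4 * L : ℕ), by ring⟩
      have := cE_fut (u := u ++ B) (u' := u ++ B') (η := u' ++ₛ η) (j := i) (by omega)
      simpa only [Stream'.append_append_stream, List.length_append, lB, lB', Nat.cast_add] using this
  have mid : ∀ {γ : ℤ → Fin 3}, (∀ i, γ i ≠ 2) →
      Cl (Kf hV * S.κ ^ L) (S.G (cE 0 (u ++ fw (wd γ (-(2 * L)) (N + 4 * L)) ++ u' ++ₛ fS ω0))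
        (cE 0 (u ++ fw (wd γ (-(2 * L)) (N + 4 * L)) ++ u' ++ₛ fS ω1)) ((u.length + L : ℕ) : ℤ)
        (N + 2 * L)) (S.G (cb γ) (cb γ) (-L) (N + 2 * L)) := by
    intro γ hγ
    have e : ∀ (η : Stream' Edge) (j : ℤ), -(L : ℤ) ≤ j → j < ((N + 2 * L : ℕ) : ℤ) + L →
        cE 0 (u ++ fw (wd γ (-(2 * L)) (N + 4 * L)) ++ u' ++ₛ η) (((u.length + L : ℕ) : ℤ) + j) =
          cb γ (-L + j) := by
      intro η j h1 h2
      simp only [Stream'.append_append_stream, Nat.cast_add, add_assoc]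
      rw [cE_wd hγ _ _ _ (by omega) (by omega)]
      congr 1; ring
    refine (S.G_win ((good_cE hV 0 _).mono (by omega)) ((good_cE hV 0 _).mono (by omega))
      (good_cb hV _ _) (good_cb hV _ _) (e _) (e _)).mono ?_
    have := S.κ_pos
    have := Cw_le_Kf hV
    gcongr
  have a1 := FF_past hV (n := u.length + L) (h := L) (fun j hj => agr (fS ω0) j (by omega))
    (fun j hj => agr (fS ω1) j (by omega))
  have a2 := mid h
  have a3 := (mid h').symm
  have a4 : Cl (Kf hV * S.κ ^ L) _ _ := (S.G_win (n := ((u.length + L + (N + 2 * L) : ℕ) : ℤ))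
    (n' := ((u.length + L + (N + 2 * L) : ℕ) : ℤ)) (m := L + u'.length) (h := L)
    ((good_cE hV 0 _).mono (by omega)) ((good_cE hV 0 _).mono (by omega))
    ((good_cE hV 0 _).mono (by omega)) ((good_cE hV 0 _).mono (by omega))
    (fun j hj _ => agr (fS ω0) _ (by omega)) (fun j hj _ => agr (fS ω1) _ (by omega))).mono (by
      have := S.κ_pos
      have := Cw_le_Kf hV
      gcongr)
  have a5 : Cl (2 * π * S.κ ^ L / c2 hV) (-DD hV (u ++ B ++ u') (fS ω0) (fS ω1))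
      (-DD hV (u ++ B' ++ u') (fS ω0) (fS ω1)) := by
    refine Cl.of_sub (c2_pos hV) (c2_le_neg_DD hV _) (c2_le_neg_DD hV _) ?_
    have key : ∀ η, |S.X (cE 0 (u ++ B ++ u' ++ₛ η)) (u ++ B ++ u').length -
        S.X (cE 0 (u ++ B' ++ u' ++ₛ η)) (u ++ B' ++ u').length| ≤ π * S.κ ^ L := fun η =>
      S.X_loc fun j h1 _ => by
        simp only [List.length_append, lB, lB']
        exact agr η _ (by omega)
    have h1 := abs_le.1 (key (fS ω0))
    have h2 := abs_le.1 (key (fS ω1))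
    unfold DD
    rw [abs_le]
    constructor <;> linarith [h1.1, h1.2, h2.1, h2.2]
  have g1 := S.G_pos (good_cb hV β (-L)) (good_cb hV β (-L)) (N + 2 * L)
  have g2 := S.G_pos (good_cb hV β' (-L)) (good_cb hV β' (-L)) (N + 2 * L)
  have s1 := sE_pos hV (u ++ B ++ u')
  have s2 := sE_pos hV (u ++ B' ++ u')
  have k : Cl ((4 * Kf hV + 2 * π / c2 hV) * S.κ ^ L)
      (sE hV (u ++ B ++ u') * S.G (cb β') (cb β') (-L) (N + 2 * L))
      (sE hV (u ++ B' ++ u') * S.G (cb β) (cb β) (-L) (N + 2 * L)) := by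
    have e : u.length + (N + 4 * L) + u'.length = u.length + L + (N + 2 * L) + (L + u'.length) := by
      ring
    have := (((a1.mul a2).mul a3).mul a4).mul a5
    simp only [sE, PiE_sub, List.length_append, lB, lB', e, FF_add _ _ _ (_ + _)]
    convert this using 1 <;> ring
  have := k.log (mul_pos s2 g1).ne'
  rw [Real.log_mul s1.ne' g2.ne', Real.log_mul s2.ne' g1.ne'] at this
  unfold LG
  convert this using 2
  ring

/-- Non-arithmeticity in terms of homoclinic orbits. -/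
def NA (hV : 0 < V) : Prop :=
  ∀ ε : ℝ, 0 < ε → ∃ (N : ℕ) (δ : ℝ) (β1 β1' β2 β2' : ℤ → Fin 3), 0 < δ ∧
    (∀ i, β1 i ≠ 2) ∧ (∀ i, β1' i ≠ 2) ∧ (∀ i, β2 i ≠ 2) ∧ (∀ i, β2' i ≠ 2) ∧
    (∀ j : ℤ, j < 0 ∨ N ≤ j → β1 j = β1' j) ∧ (∀ j : ℤ, j < 0 ∨ N ≤ j → β2 j = β2' j) ∧
    ∀ L : ℕ, δ ≤ LG hV β1 (-L) (N + 2 * L) - LG hV β1' (-L) (N + 2 * L) +
        (LG hV β2 (-L) (N + 2 * L) - LG hV β2' (-L) (N + 2 * L)) ∧
      LG hV β1 (-L) (N + 2 * L) - LG hV β1' (-L) (N + 2 * L) +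
        (LG hV β2 (-L) (N + 2 * L) - LG hV β2' (-L) (N + 2 * L)) ≤ ε

theorem na_words (hV : 0 < V) (h : NA hV) (ε : ℝ) (hε : 0 < ε) :
    ∃ (X Y : List (Fin 3)) (δ : ℝ), 0 < δ ∧ ∀ w w',
      δ ≤ log (sE hV (fw (w ++ X ++ w'))) - log (sE hV (fw (w ++ Y ++ w'))) ∧
        log (sE hV (fw (w ++ X ++ w'))) - log (sE hV (fw (w ++ Y ++ w'))) ≤ ε := by
  obtain ⟨N, δ, β1, β1', β2, β2', hδ, h1, h1', h2, h2', a1, a2, hL⟩ := h (ε / 2) (half_pos hε)
  have ht := tendsto_pow_atTop_nhds_zero_of_lt_one (sys hV).κ_pos.le (sys hV).κ_lt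
  obtain ⟨L, hL1⟩ := ((ht.const_mul (4 * Kf hV + 2 * π / c2 hV)).eventually
    (gt_mem_nhds (show _ * 0 < δ / 4 by simpa))).exists
  refine ⟨wd β1 (-(2 * L)) (N + 4 * L) ++ wd β2 (-(2 * L)) (N + 4 * L),
    wd β1' (-(2 * L)) (N + 4 * L) ++ wd β2' (-(2 * L)) (N + 4 * L), δ / 2, half_pos hδ,
    fun w w' => ?_⟩
  have s1 := abs_le.1 (swap hV h1 h1' a1 L (fw w) (fw (wd β2 (-(2 * L)) (N + 4 * L)) ++ fw w'))
  have s2 := abs_le.1 (swap hV h2 h2' a2 L (fw w ++ fw (wd β1' (-(2 * L)) (N + 4 * L))) (fw w'))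
  simp only [fw_append, List.append_assoc] at s1 s2 ⊢
  have := hL L
  constructor <;> linarith [s1.1, s1.2, s2.1, s2.2, this.1, this.2]

theorem scl_eq {lam : ℝ} (hl : 0 < lam) (w : List (Fin 3)) :
    scl (piR hl true) ω0 ω1 w = sE (hVl hl) (fw w) := by
  simp [scl, piR, rt, sE, fS_append]

theorem piR_sub {lam : ℝ} (hl : 0 < lam) (w : List (Fin 3)) (ω ω' : Stream' (Fin 3)) :
    piR hl true (w ++ₛ ω) - piR hl true (w ++ₛ ω') =
      PiE (hVl hl) (fw w ++ₛ fS ω) - PiE (hVl hl) (fw w ++ₛ fS ω') := by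
  simp [piR, rt, fS_append]

theorem coding {lam : ℝ} (hl : 0 < lam) (h : NA (hVl hl)) : ∃ C, Coding (piR hl true) ω0 ω1 0 C ∧
    ∀ ω ω', |piR hl false ω - piR hl false ω'| ≤ C * |piR hl true ω - piR hl true ω'| := by
  set hV := hVl hl
  have s0 := sE_pos hV []
  have hCt : 0 < Ct hV := by have := c2_pos hV; unfold Ct; positivity
  obtain ⟨C1, hC1⟩ : ∃ C1, ∀ a : Fin 3, Ct hV * sE hV [] / sE hV (fw [a]) ≤ C1 :=
    ⟨_, fun a => Finset.single_le_sum (f := fun a : Fin 3 => Ct hV * sE hV [] / sE hV (fw [a]))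
      (fun a _ => by have := sE_pos hV (fw [a]); positivity) (Finset.mem_univ a)⟩
  obtain ⟨C, c1, c2, c3, c4, c5⟩ : ∃ C, 1 ≤ C ∧ C1 ≤ C ∧ Ct hV ≤ C ∧ Ct hV * 4 / sE hV [] ≤ C ∧
      Ct hV * sE hV [.ab] / sE hV [] ≤ C :=
    ⟨max (max (max 1 C1) (Ct hV)) (max (Ct hV * 4 / sE hV []) (Ct hV * sE hV [.ab] / sE hV [])),
      by simp, by simp, by simp, by simp, by simp⟩
  have child : ∀ (w : List (Fin 3)) (a : Fin 3), sE hV (fw w) ≤ C * sE hV (fw (w ++ [a])) := by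
    intro w a
    have t := transferE hV [] (fw w) ([a] ++ₛ ω0) ([a] ++ₛ ω1)
    rw [fS_append, fS_append, ← Stream'.append_append_stream, ← Stream'.append_append_stream,
      ← Stream'.append_append_stream, ← Stream'.append_append_stream, ← fw_append,
      List.nil_append] at t
    change |sE hV _| * _ ≤ _ * |sE hV _| * _ at t
    have p1 := sE_pos hV (fw [a])
    have p2 := sE_pos hV (fw (w ++ [a]))
    rw [abs_of_pos p1, abs_of_pos p2] at t
    have := (div_le_iff₀ p1).1 ((hC1 a).trans c2)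
    refine le_of_mul_le_mul_left (t.trans ?_) p1
    nlinarith
  have small : ∀ ε : ℝ, 0 < ε → ∃ n : ℕ, ∀ w : List (Fin 3), n ≤ w.length → sE hV (fw w) ≤ ε := by
    intro ε hε
    have ht := (tendsto_pow_atTop_nhds_zero_of_lt_one (sys hV).κ_pos.le (sys hV).κ_lt).const_mul
      (2 * π)
    obtain ⟨n, hn⟩ := eventually_atTop.1 (ht.eventually (gt_mem_nhds (by simpa using hε)))
    exact ⟨n, fun w hw => (sE_le hV _).trans (hn _ (hw.trans (fw_length w))).le⟩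
  refine ⟨C, ⟨c1, ?_, ?_, ?_, ?_, ?_, ?_, ?_⟩, ?_⟩
  · intro w; rw [scl_eq]; exact sE_pos _ _
  · intro w ω ω'
    rw [scl_eq, piR_sub]
    have t := transferE hV (fw w) [] ω ω'
    have p2 := sE_pos hV (fw w)
    have b : |PiE hV ([] ++ₛ fS ω) - PiE hV ([] ++ₛ fS ω')| ≤ 4 := by
      unfold PiE
      rw [abs_le]
      constructor <;> nlinarith [Real.cos_le_one ((sys hV).X (ch 0 (([] ++ₛ fS ω).map .inl)) 0),
        Real.neg_one_le_cos ((sys hV).X (ch 0 (([] ++ₛ fS ω).map .inl)) 0),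
        Real.cos_le_one ((sys hV).X (ch 0 (([] ++ₛ fS ω').map .inl)) 0),
        Real.neg_one_le_cos ((sys hV).X (ch 0 (([] ++ₛ fS ω').map .inl)) 0)]
    have := (div_le_iff₀ s0).1 c4
    refine le_of_mul_le_mul_right (t.trans ?_) s0
    calc _ ≤ Ct hV * 4 * sE hV (fw w) := by gcongr
      _ ≤ C * sE hV [] * sE hV (fw w) := by gcongr
      _ = _ := by ring
  · intro w a; rw [scl_eq, scl_eq]; exact child w a
  · simpa only [scl_eq] using small
  · intro w w' ω ω'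
    rw [scl_eq, scl_eq, piR_sub, piR_sub]
    have := sE_pos hV (fw w)
    refine (transferE hV _ _ _ _).trans ?_
    gcongr
  · intro ε hε
    obtain ⟨m, hm⟩ := closeE hV hε
    refine ⟨m + m, fun w ω ω' => ?_⟩
    simp only [scl_eq, piR_sub, fw_append]
    exact hm _ _ _ _ (by simp [fw_replicate])
  · simp only [scl_eq]
    refine steer_abs (fun w => log (sE hV (fw w))) 0 (B := log C) (Real.log_nonneg c1)
      (fun w a => ?_) (fun t => ?_) (na_words hV h)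
    · rw [← Real.log_mul (by linarith) (sE_pos hV _).ne']
      exact Real.log_le_log (sE_pos hV _) (child w a)
    · obtain ⟨n, hn⟩ := small (exp t) (Real.exp_pos t)
      exact ⟨n, fun w hw => (Real.log_le_iff_le_exp (sE_pos hV _)).2 (hn w hw)⟩
  · intro ω ω'
    have t := transferE hV [.ab] [] ω ω'
    have e1 : piR hl false ω - piR hl false ω' =
      PiE hV ([.ab] ++ₛ fS ω) - PiE hV ([.ab] ++ₛ fS ω') := by simp [piR, rt]
    have e2 : piR hl true ω - piR hl true ω' =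
      PiE hV ([] ++ₛ fS ω) - PiE hV ([] ++ₛ fS ω') := by simp [piR, rt]
    rw [e1, e2]
    have := (div_le_iff₀ s0).1 c5
    refine le_of_mul_le_mul_right (t.trans ?_) s0
    have := abs_nonneg (PiE hV ([] ++ₛ fS ω) - PiE hV ([] ++ₛ fS ω'))
    nlinarith

end Pool.Agent.Lib.MP_5d78b4_mp
end

-- part Pool.Agent.Lib.MP_5d78b4_mp.Hom
section

set_option autoImplicit false
open Filter Topology Real

namespace Pool.Agent.Lib.MP_5d78b4_mp

namespace Sys

variable {σ : Type} (S : Sys σ)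

theorem rho_past {e e' : ℤ → σ} {a : ℤ} {A : ℝ} (h : ∀ j, j < a → e j = e' j)
    (hD : ∀ k : ℕ, |S.X e (a - k) - S.X e' (a - k)| ≤ A * S.κ ^ k) (k : ℕ) :
    |S.rho e e (a - 1 - k) - S.rho e' e' (a - 1 - k)| ≤ S.Cr * A * S.κ ^ k := by
  have hk := S.κ_pos
  have hk1 := sub_pos.2 S.κ_lt
  have hL := S.L_nn
  have hA : 0 ≤ A := by simpa using (abs_nonneg _).trans (hD 0)
  have h2 : 8 * S.L ≤ S.Cr * (1 - S.κ) := by
    have h3 : 8 * S.L * π / (S.κ * (1 - S.κ)) * (1 - S.κ) = 8 * S.L * (π / S.κ) := by field_simp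
    have h4 : 1 ≤ π / S.κ := by rw [le_div_iff₀ hk]; linarith [Real.pi_gt_three]
    unfold Cr
    rw [add_mul, h3]; nlinarith
  have key : ∀ R k : ℕ, |S.rho e e (a - 1 - k) - S.rho e' e' (a - 1 - k)| ≤
      S.Cr * A * S.κ ^ k + 2 * S.κ ^ R := by
    intro R
    induction R with
    | zero =>
      intro k
      have h1 := abs_le.1 (S.abs_rho_le e e (a - 1 - k))
      have h2 := abs_le.1 (S.abs_rho_le e' e' (a - 1 - k))
      have : 0 ≤ S.Cr * A * S.κ ^ k := by have := S.Cr_pos; positivity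
      rw [pow_zero, abs_le]
      constructor <;> linarith [h1.1, h1.2, h2.1, h2.2]
    | succ R ih =>
      intro k
      have d1 := hD k
      have d2 := hD (k + 2)
      have p : 0 ≤ A * S.κ ^ k := by positivity
      have d3 : |S.X e (a - 1 - k - 1) - S.X e' (a - 1 - k - 1)| ≤ A * S.κ ^ k := by
        rw [show a - 1 - k - 1 = a - (k + 2 : ℕ) by push_cast; ring]
        refine d2.trans ?_
        rw [pow_add, ← mul_assoc]
        exact mul_le_of_le_one_right p (pow_le_one₀ hk.le S.κ_lt.le)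
      rw [show a - k = a - 1 - k + 1 by ring] at d1
      refine (S.rho_step (h _ (by omega)) d3 d1 d3 d1).trans ?_
      have i1 := ih (k + 1)
      rw [show a - 1 - (k + 1 : ℕ) = a - 1 - k - 1 by push_cast; ring] at i1
      have i2 := mul_le_mul_of_nonneg_left i1 (sq_nonneg S.κ)
      have i3 := mul_le_mul_of_nonneg_right h2 p
      have q1 : 0 < S.κ ^ R := by positivity
      have q2 : 0 ≤ S.Cr * (A * S.κ ^ k) * S.κ := by have := S.Cr_pos; positivity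
      have q3 : S.κ ^ 2 ≤ 1 := pow_le_one₀ hk.le S.κ_lt.le
      rw [pow_succ S.κ k] at i2
      rw [pow_succ S.κ R]
      nlinarith [mul_le_mul_of_nonneg_left q3 q2, mul_pos q1 (mul_pos hk hk1)]
  exact S.le_of_pow (C := 2) fun R => key R k

theorem rho_fut {e e' : ℤ → σ} {a : ℤ} {A : ℝ} (h : ∀ j, a < j → e j = e' j)
    (hD : ∀ k : ℕ, |S.X e (a + k) - S.X e' (a + k)| ≤ A * S.κ ^ k)
    (h0 : |S.rho e e a - S.rho e' e' a| ≤ A) (k : ℕ) :
    |S.rho e e (a + k) - S.rho e' e' (a + k)| ≤ S.Cr * A * S.κ ^ k := by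
  have hk := S.κ_pos
  have hk1 := sub_pos.2 S.κ_lt
  have hL := S.L_nn
  have hA : 0 ≤ A := (abs_nonneg _).trans h0
  have h2 : 8 * S.L ≤ S.Cr * (S.κ * (1 - S.κ)) := by
    unfold Cr
    rw [add_mul, div_mul_cancel₀ _ (by positivity)]
    have : 0 < S.κ * (1 - S.κ) := by positivity
    nlinarith [Real.pi_gt_three]
  induction k with
  | zero =>
    have : 0 ≤ 8 * S.L * π / (S.κ * (1 - S.κ)) := by positivity
    simp only [Nat.cast_zero, add_zero, pow_zero, mul_one]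
    unfold Cr; nlinarith
  | succ k ih =>
    have d1 := hD k
    have d2 := hD (k + 2)
    have p : 0 ≤ A * S.κ ^ k := by positivity
    have d3 : |S.X e (a + (k + 1 : ℕ) + 1) - S.X e' (a + (k + 1 : ℕ) + 1)| ≤ A * S.κ ^ k := by
      rw [show a + (k + 1 : ℕ) + 1 = a + (k + 2 : ℕ) by push_cast; ring]
      refine d2.trans ?_
      rw [pow_add, ← mul_assoc]
      exact mul_le_of_le_one_right p (pow_le_one₀ hk.le S.κ_lt.le)
    rw [show a + k = a + (k + 1 : ℕ) - 1 by push_cast; ring] at d1 ih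
    refine (S.rho_step (h _ (by push_cast; omega)) d1 d3 d1 d3).trans ?_
    have i2 := mul_le_mul_of_nonneg_left ih (sq_nonneg S.κ)
    have i3 := mul_le_mul_of_nonneg_right h2 p
    rw [pow_succ S.κ k]
    linarith

end Sys

variable {V : ℝ}

theorem sf_symm (hV : 0 < V) {e : Edge} (he : src e = true) (x y : ℝ) :
    sf V (.inl e) x y = sf V (.inl e) y x := by
  simp only [sf, he, fl]
  refine Phi_eq hV (adm e) ?_
  have h := Phi_sol hV (adm e) (π - y) x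
  refine ⟨h.1, ?_⟩
  have h2 := h.2
  simp only [Gf, Lam_pi_sub] at h2 ⊢
  linarith

theorem X_rev (hV : 0 < V) (β β' : ℤ → Fin 3) (c : ℤ) (h : ∀ j, β' j = β (c - j)) (i : ℤ) :
    (sys hV).X (cb β) (c - i) = (sys hV).X (cb β') i := by
  have ho : (sys hV).IsOrb (cb β') (fun j => (sys hV).X (cb β) (c - j)) := by
    intro j
    have h1 : ∀ x : Fin 3, src (hd x) = true := by decide
    simp only
    rw [(sys hV).X_eq, show c - (j - 1) = c - j + 1 by ring, show c - (j + 1) = c - j - 1 by ring,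
      cb, cb, h]
    exact sf_symm hV (h1 _) _ _
  exact (sys hV).orb_unique ho (i := i) (i' := i) fun _ => rfl

def bO : ℤ → Fin 3 := fun _ => 0
def bP (k : ℤ) : ℤ → Fin 3 := fun i => if i = k then 1 else 0
def bZ (n : ℤ) : ℤ → Fin 3 := fun i => if i = 0 ∨ i = n then 1 else 0

noncomputable def θs (hV : 0 < V) : ℝ := (sys hV).X (cb bO) 0
noncomputable def σs (hV : 0 < V) : ℝ := (sys hV).rho (cb bO) (cb bO) 0

theorem X_O (hV : 0 < V) (i : ℤ) : (sys hV).X (cb bO) i = θs hV := (sys hV).X_shift fun _ => rfl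

theorem rho_O (hV : 0 < V) (i : ℤ) : (sys hV).rho (cb bO) (cb bO) i = σs hV :=
  (sys hV).rho_shift (fun _ => rfl) fun _ => rfl

theorem c_le_rho (hV : 0 < V) (β : ℤ → Fin 3) (i : ℤ) : (sys hV).c ≤ (sys hV).rho (cb β) (cb β) i :=
  (good_cb hV β i).le_rho (good_cb hV β i) le_rfl

theorem σs_pos (hV : 0 < V) : 0 < σs hV := (sys hV).c_pos.trans_le (c_le_rho hV _ _)

theorem σs_le (hV : 0 < V) : σs hV ≤ (sys hV).κ := (le_abs_self _).trans ((sys hV).abs_rho_le _ _ _)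

theorem σs_lt (hV : 0 < V) : σs hV < 1 := (σs_le hV).trans_lt (sys hV).κ_lt

theorem G_O (hV : 0 < V) (n : ℤ) (m : ℕ) : (sys hV).G (cb bO) (cb bO) n m = σs hV ^ m := by
  simp [Sys.G, rho_O]

noncomputable def C0 (hV : 0 < V) : ℝ := exp ((sys hV).Cw) * π

theorem C0_pos (hV : 0 < V) : 0 < C0 hV := by unfold C0; positivity

theorem D_past (hV : 0 < V) {β β' : ℤ → Fin 3} {a : ℤ} {m : ℕ} (h : ∀ j, j < a + m → β j = β' j)
    (h0 : ∀ j, a ≤ j → j < a + m → β j = 0) (k : ℕ) :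
    |(sys hV).X (cb β) (a - k) - (sys hV).X (cb β') (a - k)| ≤
      C0 hV * σs hV ^ m * (sys hV).κ ^ k := by
  set S := sys hV
  have h1 := S.X_ratio (e := cb β) (e' := cb β') (n := a - k) (m := k + m)
    (fun j hj => by simp only [cb]; rw [h j (by push_cast at hj; omega)])
  have h2 := (S.G_win (n := a) (n' := a) (m := m) (h := 0) (good_cb hV β a) (good_cb hV β' a)
    (good_cb hV bO a) (good_cb hV bO a)
    (fun j a1 a2 => by simp only [cb, bO]; rw [h0 _ (by omega) (by omega)])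
    (fun j a1 a2 => by
      simp only [cb, bO]; rw [← h _ (by omega), h0 _ (by omega) (by omega)])).le
  rw [G_O, pow_zero, mul_one, abs_of_pos (pow_pos (σs_pos hV) m)] at h2
  have h3 := S.abs_G_le (cb β) (cb β') (a - k) k
  have h4 := S.X_loc (e := cb β) (e' := cb β') (i := a - k + (k + m : ℕ)) (i' := a - k + (k + m : ℕ))
    (R := 0) (fun j h1 h2 => by omega)
  rw [pow_zero, mul_one] at h4
  rw [h1, S.G_add, sub_add_cancel, abs_mul, abs_mul]
  have := S.κ_pos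
  have := σs_pos hV
  calc _ ≤ S.κ ^ k * (exp S.Cw * σs hV ^ m) * π := by gcongr
    _ = _ := by unfold C0; ring

theorem R_past (hV : 0 < V) {β β' : ℤ → Fin 3} {a : ℤ} {m : ℕ} (h : ∀ j, j < a + m → β j = β' j)
    (h0 : ∀ j, a ≤ j → j < a + m → β j = 0) (k : ℕ) :
    |(sys hV).rho (cb β) (cb β) (a - 1 - k) - (sys hV).rho (cb β') (cb β') (a - 1 - k)| ≤
      (sys hV).Cr * (C0 hV * σs hV ^ m) * (sys hV).κ ^ k :=
  (sys hV).rho_past (fun j hj => by simp only [cb]; rw [h j (by omega)]) (D_past hV h h0) k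

noncomputable def xU (hV : 0 < V) (i : ℤ) : ℝ := (sys hV).X (cb (bP 0)) i
noncomputable def xZ (hV : 0 < V) (n i : ℤ) : ℝ := (sys hV).X (cb (bZ n)) i
noncomputable def ρU (hV : 0 < V) (i : ℤ) : ℝ := (sys hV).rho (cb (bP 0)) (cb (bP 0)) i
noncomputable def ρZ (hV : 0 < V) (n i : ℤ) : ℝ := (sys hV).rho (cb (bZ n)) (cb (bZ n)) i

theorem xU_neg (hV : 0 < V) (i : ℤ) : xU hV (-i) = xU hV i := by
  have := X_rev hV (bP 0) (bP 0) 0 (fun j => by simp [bP]) i
  rwa [zero_sub] at this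

theorem xZ_rev (hV : 0 < V) (n i : ℤ) : xZ hV n (n - i) = xZ hV n i :=
  X_rev hV (bZ n) (bZ n) n (fun j => by simp only [bZ]; congr 1; apply propext; omega) i

theorem cb_bP (n i k : ℤ) : cb (bP n) (i + k) = cb (bP 0) (i - n + k) := by
  simp only [cb, bP]; congr 3; apply propext; omega

theorem X_P (hV : 0 < V) (n i : ℤ) : (sys hV).X (cb (bP n)) i = xU hV (i - n) :=
  (sys hV).X_shift (cb_bP n i)

theorem rho_P (hV : 0 < V) (n i : ℤ) : (sys hV).rho (cb (bP n)) (cb (bP n)) i = ρU hV (i - n) :=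
  (sys hV).rho_shift (cb_bP n i) (cb_bP n i)

theorem F1 (hV : 0 < V) {a : ℤ} (ha : 1 ≤ a) (m k : ℕ) :
    |xZ hV (a + m) (a - k) - xU hV (a - k)| ≤ C0 hV * σs hV ^ m * (sys hV).κ ^ k :=
  D_past hV (fun j hj => by simp only [bZ, bP]; congr 1; apply propext; omega)
    (fun j h1 h2 => if_neg (by omega)) k

theorem F2 (hV : 0 < V) (m k : ℕ) :
    |xU hV (m + k) - θs hV| ≤ C0 hV * σs hV ^ m * (sys hV).κ ^ k := by
  have := D_past hV (β := bP 0) (β' := bO) (a := -m) (m := m) (fun j hj => if_neg (by omega))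
    (fun j h1 h2 => if_neg (by omega)) k
  rwa [X_O, show -(m : ℤ) - k = -(m + k) by ring, ← xU, xU_neg] at this

theorem F3 (hV : 0 < V) {a : ℤ} (ha : 1 ≤ a) (m k : ℕ) :
    |xZ hV (a + m) (m + k) - xU hV (k - a)| ≤ C0 hV * σs hV ^ m * (sys hV).κ ^ k := by
  have := F1 hV ha m k
  rwa [← xZ_rev, ← xU_neg, show a + m - (a - k) = m + k by ring, neg_sub] at this

theorem F4 (hV : 0 < V) {a : ℤ} (ha : 1 ≤ a) (m k : ℕ) :
    |ρZ hV (a + m) (a - 1 - k) - ρU hV (a - 1 - k)| ≤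
      (sys hV).Cr * (C0 hV * σs hV ^ m) * (sys hV).κ ^ k :=
  R_past hV (fun j hj => by simp only [bZ, bP]; congr 1; apply propext; omega)
    (fun j h1 h2 => if_neg (by omega)) k

theorem F5 (hV : 0 < V) (m k : ℕ) :
    |ρU hV (-m - 1 - k) - σs hV| ≤ (sys hV).Cr * (C0 hV * σs hV ^ m) * (sys hV).κ ^ k := by
  have := R_past hV (β := bP 0) (β' := bO) (a := -m) (m := m) (fun j hj => if_neg (by omega))
    (fun j h1 h2 => if_neg (by omega)) k
  rwa [rho_O] at this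

/-! The polynomial relations along orbits. -/

theorem R_of_mv (hV : 0 < V) {a p q : ℝ} (ha : a ^ 2 ≤ 1) (hp : p ^ 2 ≤ 1) (h : Mv V .one a (-p) q) :
    RG (fun t => t) V p a q = 0 := by
  have h1 := h.1
  have h2 := ww_sq hV ha hp
  simp only [f3, f2, g2, f1, g1, ww_neg] at h1
  simp only [RG, TG, UG]
  generalize ww V a p = w at *
  linear_combination (q - (4 * a ^ 3 - 3 * a) * p + (4 * a ^ 2 - 1) * w) * h1 +
    (4 * a ^ 2 - 1) ^ 2 * h2

theorem R_sf (hV : 0 < V) (x y : ℝ) :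
    RG (fun t => t) V (cos x) (cos ((sys hV).f (.inl .one) x y)) (cos y) = 0 := by
  have := mv_of_sol hV (Phi_sol hV (adm .one) (π - x) y)
  rw [cos_pi_sub] at this
  exact R_of_mv hV (Real.cos_sq_le_one _) (Real.cos_sq_le_one _) this

theorem hasDerivAt_RG {P A Q : ℝ → ℝ} {P' A' Q' x : ℝ} (hP : HasDerivAt P P' x)
    (hA : HasDerivAt A A' x) (hQ : HasDerivAt Q Q' x) :
    HasDerivAt (fun t => RG (fun t => t) V (P t) (A t) (Q t))
      (2 * (R1G (fun t => t) (P x) (A x) (Q x) * P' + R2G (fun t => t) V (P x) (A x) (Q x) * A' +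
        R1G (fun t => t) (Q x) (A x) (P x) * Q')) x := by
  have hT : HasDerivAt (fun t => TG (fun t => t) (A t)) ((12 * A x * A x - 3) * A') x :=
    ((((hA.const_mul 4).mul hA).mul hA).add (hA.const_mul (-3))).congr_deriv (by
      simp only [Pi.mul_apply]; ring)
  have hU : HasDerivAt (fun t => UG (fun t => t) (A t)) (8 * A x * A') x :=
    (((hA.const_mul 4).mul hA).add_const (-1)).congr_deriv (by ring)
  refine (((((((hP.mul hP).add (hQ.mul hQ)).add (hT.mul hT)).add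
    (((hT.const_mul (-2)).mul hP).mul hQ)).add_const (-1)).add
    ((hU.const_mul (-V)).mul hU))).congr_deriv ?_
  simp only [R1G, R2G, Pi.mul_apply]; ring

/-- The ratio in the coordinates `a = cos θ`. -/
noncomputable def rr (hV : 0 < V) (β : ℤ → Fin 3) (i : ℤ) : ℝ :=
  (sys hV).rho (cb β) (cb β) i * sin ((sys hV).X (cb β) i) / sin ((sys hV).X (cb β) (i + 1))

theorem le_sin_X (hV : 0 < V) (β : ℤ → Fin 3) (i : ℤ) : sin (c0 V) ≤ sin ((sys hV).X (cb β) i) :=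
  sin_c0_le ((sys hV).X_good (good_cb hV β i i le_rfl))

theorem R_orb (hV : 0 < V) {β : ℤ → Fin 3} {i : ℤ} (h : β i = 0) :
    RG (fun t => t) V (cos ((sys hV).X (cb β) (i - 1))) (cos ((sys hV).X (cb β) i))
      (cos ((sys hV).X (cb β) (i + 1))) = 0 := by
  rw [(sys hV).X_eq (cb β) i, cb, h]
  exact R_sf hV _ _

theorem F_orb (hV : 0 < V) {β : ℤ → Fin 3} {i : ℤ} (h : β i = 0) :
    FG (fun t => t) V (cos ((sys hV).X (cb β) (i - 1))) (cos ((sys hV).X (cb β) i))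
      (cos ((sys hV).X (cb β) (i + 1))) (rr hV β (i - 1)) (rr hV β i) = 0 := by
  set S := sys hV
  set x := S.X (cb β) (i - 1) with hx
  set y := S.X (cb β) (i + 1) with hy
  have he : cb β i = .inl .one := by rw [cb, h]; rfl
  have ht : S.f (.inl .one) x y = S.X (cb β) i := by rw [S.X_eq (cb β) i, he]
  have d1 := (hasDerivAt_RG (V := V) (hasDerivAt_cos x) (S.dx (.inl .one) x y).cos
    (hasDerivAt_const x (cos y))).unique
    ((hasDerivAt_const x (0 : ℝ)).congr_of_eventuallyEq (Eventually.of_forall fun t => R_sf hV t y))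
  have d2 := (hasDerivAt_RG (V := V) (hasDerivAt_const y (cos x)) (S.dy (.inl .one) x y).cos
    (hasDerivAt_cos y)).unique
    ((hasDerivAt_const y (0 : ℝ)).congr_of_eventuallyEq (Eventually.of_forall fun t => R_sf hV x t))
  rw [ht] at d1 d2
  have r := S.rho_eq (cb β) (cb β) i
  have r0 := (S.den_mem (cb β) (cb β) i).1
  simp only [Sys.PP, Sys.QQ, Sys.P, Sys.Q, dd_self, he, ← hx, ← hy] at r r0
  rw [eq_div_iff (by linarith)] at r
  have s1 := ((sin_c0_pos hV).trans_le (le_sin_X hV β i)).ne'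
  have s2 := ((sin_c0_pos hV).trans_le (le_sin_X hV β (i + 1))).ne'
  unfold FG rr
  rw [sub_add_cancel, ← hx, ← hy]
  rw [← hy] at s2
  generalize R1G (fun t => t) (cos x) (cos (S.X (cb β) i)) (cos y) = R1 at *
  generalize R1G (fun t => t) (cos y) (cos (S.X (cb β) i)) (cos x) = R3 at *
  generalize R2G (fun t => t) V (cos x) (cos (S.X (cb β) i)) (cos y) = R2 at *
  field_simp
  linear_combination (-(S.rho (cb β) (cb β) (i - 1) * S.rho (cb β) (cb β) i) / 2) * d1 - d2 / 2 +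
    R2 * sin (S.X (cb β) i) * r

theorem rr_O (hV : 0 < V) (i : ℤ) : rr hV bO i = σs hV := by
  have s1 := ((sin_c0_pos hV).trans_le (le_sin_X hV bO 0)).ne'
  unfold rr
  rw [X_O] at s1
  rw [X_O, X_O, rho_O, mul_div_assoc, div_self s1, mul_one]

theorem fix (hV : 0 < V) : Fix V (cos (θs hV)) (σs hV) := by
  have hm : θs hV ∈ Set.Icc (c0 V) (π - c0 V) := (sys hV).X_good (good_cb hV bO 0 0 le_rfl)
  have h0 := c0_pos (V := V)
  have hp := pi_pos
  refine ⟨?_, ?_, σs_pos hV, σs_lt hV, ?_, ?_⟩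
  · have hs := (X_sol hV (e := cb bO) (i := 0) (s := .one) rfl)
    simp only [X_O, src, fl, jj, cc] at hs
    have h2 := hs.2
    simp only [Gf, Lam_pi_sub] at h2
    have h3 : θs hV < π / 3 := by
      by_contra hc
      push Not at hc
      have hs0 : 0 < sin (θs hV) := (sin_c0_pos hV).trans_le (sin_c0_le hm)
      have hw := W_pos hV (θs hV) (θs hV)
      rcases lt_or_ge 0 (cos (θs hV)) with h4 | h4
      · have : 0 < Lam V (θs hV) (θs hV) := Real.arctan_pos.2 (by positivity)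
        linarith
      · have h5 : -(θs hV - π / 2) ≤ Lam V (θs hV) (θs hV) := by
          have h6 : π / 2 ≤ θs hV := by
            by_contra h6
            have := Real.cos_pos_of_mem_Ioo (x := θs hV) ⟨by linarith, by linarith⟩
            linarith
          have h7 := Lam_lip hV (θs hV) (θs hV) (π / 2)
          have h8 : Lam V (θs hV) (π / 2) = 0 := by simp [Lam]
          rw [h8, sub_zero, abs_of_nonneg (a := θs hV - π / 2) (by linarith)] at h7
          nlinarith [(abs_le.1 h7).1, kap_lt_one hV]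
        linarith
    rw [← Real.cos_pi_div_three]
    exact Real.cos_lt_cos_of_nonneg_of_le_pi (by linarith [hm.1]) (by linarith) h3
  · rw [← Real.cos_zero]
    exact Real.cos_lt_cos_of_nonneg_of_le_pi le_rfl (by linarith [hm.2]) (by linarith [hm.1])
  · simpa only [X_O] using R_orb hV (β := bO) (i := 0) rfl
  · simpa only [X_O, rr_O] using F_orb hV (β := bO) (i := 0) rfl

theorem xU_zero_ne (hV : 0 < V) : xU hV 0 ≠ θs hV := by
  intro h
  have h1 := (sys hV).rho_ratio (e := cb (bP 0)) (e' := cb bO) (i := 0 - 1)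
    (fun j hj => by simp only [cb, bP, bO]; rw [if_neg (by omega)])
  have m1 := mv_of_sol hV (X_sol hV (e := cb bO) (i := 0) (s := .one) rfl)
  have m2 := mv_of_sol hV (X_sol hV (e := cb (bP 0)) (i := 0) (s := .two) rfl)
  unfold xU at h
  rw [sub_add_cancel, h, X_O, X_O, sub_self, mul_zero, sub_eq_zero] at h1
  rw [h1, h] at m2
  simp only [X_O] at m1
  exact not_one_two hV (Real.cos_sq_le_one _) (Real.cos_sq_le_one _) (Real.cos_sq_le_one _) m1 m2

theorem tendsto_toNat : Tendsto Int.toNat atTop atTop :=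
  tendsto_atTop.2 fun b => (eventually_ge_atTop (b : ℤ)).mono fun i hi => by omega

theorem tendsto_xU (hV : 0 < V) : Tendsto (xU hV) atTop (𝓝 (θs hV)) := by
  have h : Tendsto (fun m : ℕ => xU hV m) atTop (𝓝 (θs hV)) := by
    rw [tendsto_iff_dist_tendsto_zero]
    refine squeeze_zero (fun _ => dist_nonneg) (fun m => by simpa [Real.dist_eq] using F2 hV m 0) ?_
    simpa using (tendsto_pow_atTop_nhds_zero_of_lt_one (σs_pos hV).le (σs_lt hV)).const_mul (C0 hV)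
  refine (h.comp tendsto_toNat).congr' ((eventually_ge_atTop 0).mono fun i hi => ?_)
  simp [Int.toNat_of_nonneg hi]

theorem exists_alpha (hV : 0 < V) : ∃ α, α ≠ 0 ∧
    Tendsto (fun i : ℤ => (cos (xU hV i) - cos (θs hV)) / σs hV ^ i) atTop (𝓝 α) := by
  set S := sys hV
  have hσ := σs_pos hV
  have gp : ∀ j : ℕ, 0 < S.G (cb (bP 0)) (cb bO) (-j) j := fun j =>
    S.G_pos (good_cb hV _ _) (good_cb hV _ _) j
  have hc : CauchySeq (fun j : ℕ => log (S.G (cb (bP 0)) (cb bO) (-j) j / σs hV ^ j)) := by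
    refine cauchySeq_of_le_geometric S.κ S.Cw S.κ_lt fun j => ?_
    have h1 := S.G_win (n := -(j + 1 : ℕ)) (n' := 0) (m := 1) (h := j) (good_cb hV (bP 0) _)
      (good_cb hV bO _) (good_cb hV bO _) (good_cb hV bO _)
      (fun k a1 a2 => by simp only [cb, bP, bO]; rw [if_neg (by push_cast at *; omega)])
      (fun k _ _ => rfl)
    have h2 := (h1.mul (Cl.refl (S.G (cb (bP 0)) (cb bO) (-j) j / σs hV ^ (j + 1)))).symm
    rw [G_O] at h2
    have h3 := S.G_add (cb (bP 0)) (cb bO) (-(j + 1 : ℕ)) 1 j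
    rw [show (-((j + 1 : ℕ) : ℤ) + (1 : ℕ)) = -j by push_cast; ring, add_comm 1 j] at h3
    rw [← mul_div_assoc, ← mul_div_assoc, ← h3, add_zero] at h2
    have := h2.log (div_pos (gp (j + 1)) (by positivity)).ne'
    rw [Real.dist_eq]
    convert this using 4
    field_simp
    ring
  obtain ⟨ℓ, hℓ⟩ := cauchySeq_tendsto_of_complete hc
  have h1 : Tendsto (fun j : ℕ => S.G (cb (bP 0)) (cb bO) (-j) j / σs hV ^ j) atTop (𝓝 (exp ℓ)) :=
    hℓ.rexp.congr fun j => Real.exp_log (div_pos (gp j) (by positivity))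
  have h2 : Tendsto (fun j : ℕ => Sn (xU hV j) (θs hV)) atTop (𝓝 (sin (θs hV))) := by
    rw [tendsto_iff_dist_tendsto_zero]
    refine squeeze_zero (fun _ => dist_nonneg) (fun m => ?_)
      (tendsto_iff_dist_tendsto_zero.1 ((tendsto_xU hV).comp tendsto_natCast_atTop_atTop))
    rw [← dd_self sin]
    exact Sn_lip le_rfl (by simpa using dist_nonneg)
  have s1 := ((sin_c0_pos hV).trans_le (le_sin_X hV bO 0)).ne'
  refine ⟨-(sin (θs hV) * (exp ℓ * (xU hV 0 - θs hV))), neg_ne_zero.2 (mul_ne_zero s1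
    (mul_ne_zero (Real.exp_pos ℓ).ne' (sub_ne_zero.2 (xU_zero_ne hV)))), ?_⟩
  refine (((h2.mul (h1.mul_const (xU hV 0 - θs hV))).neg).comp tendsto_toNat).congr'
    ((eventually_ge_atTop 0).mono fun i hi => ?_)
  obtain ⟨j, rfl⟩ := Int.eq_ofNat_of_zero_le hi
  have h3 := S.X_ratio (e := cb (bP 0)) (e' := cb bO) (n := -j) (m := j)
    (fun k hk => by simp only [cb, bP, bO]; rw [if_neg (by omega)])
  rw [neg_add_cancel, X_O, X_O, ← xU, ← xU, xU_neg] at h3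
  simp only [Function.comp, Int.toNat_natCast, zpow_natCast]
  rw [cos_sub_eq, h3]; ring

end Pool.Agent.Lib.MP_5d78b4_mp
end

-- part Pool.Agent.Lib.MP_5d78b4_mp.Bulk
section

set_option autoImplicit false
open Filter Topology Real

namespace Pool.Agent.Lib.MP_5d78b4_mp

noncomputable def Y12 (σ : ℝ) (fZ : ℤ → ℤ → ℝ) (fU : ℤ → ℝ) (c : ℝ) (p : ℤ × ℤ) : ℝ :=
  (fZ (p.1 + p.2) p.1 - fU p.1 - fU (-p.2) + c) / (σ ^ p.1 * σ ^ p.2)

theorem lim_fst {σ c α α' : ℝ} (hσ : 0 < σ) {f : ℤ → ℝ} (k : ℤ)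
    (h : Tendsto (fun i => (f i - c) / σ ^ i) atTop (𝓝 α)) (e : α' = α * σ ^ k) :
    Tendsto (fun p : ℤ × ℤ => (f (p.1 + k) - c) / σ ^ p.1) atTop (𝓝 α') := by
  rw [e]
  refine (((h.comp tendsto_fst').comp (tendsto_sh k)).mul_const (σ ^ k)).congr fun p => ?_
  simp only [Function.comp, sh, zpow_add₀ hσ.ne']
  field_simp

theorem lim_snd {σ c α α' : ℝ} (hσ : 0 < σ) {f : ℤ → ℝ} (k : ℤ)
    (h : Tendsto (fun i => (f (-i) - c) / σ ^ i) atTop (𝓝 α)) (e : α' = α * σ ^ (-k)) :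
    Tendsto (fun p : ℤ × ℤ => (f (-p.2 + k) - c) / σ ^ p.2) atTop (𝓝 α') := by
  rw [e]
  refine (((h.comp tendsto_snd').comp (tendsto_sh k)).mul_const (σ ^ (-k))).congr fun p => ?_
  simp only [Function.comp, sh, zpow_sub₀ hσ.ne', zpow_neg, show -(p.2 - k) = -p.2 + k by ring]
  field_simp

theorem jet_base {σ c a1 a2 a1' a2' b1 b2 b3 kk : ℝ} (hσ : 0 < σ) {fZ : ℤ → ℤ → ℝ} {fU : ℤ → ℝ}
    {Y1 Y2 Y3 : ℤ × ℤ → ℝ} (tz : Tendsto (fun p : ℤ × ℤ => fZ (p.1 + p.2) p.1) atTop (𝓝 c))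
    (tU : Tendsto fU atTop (𝓝 c)) (tS : Tendsto (fun j => fU (-j)) atTop (𝓝 c))
    (t1 : Tendsto (fun i => (fU i - c) / σ ^ i) atTop (𝓝 a1))
    (t2 : Tendsto (fun i => (fU (-i) - c) / σ ^ i) atTop (𝓝 a2)) (k : ℤ)
    (e1 : a1' = a1 * σ ^ k) (e2 : a2' = a2 * σ ^ (-k))
    (hl : Lin atTop Y1 Y2 Y3 (fun p => Y12 σ fZ fU c (sh k p)) b1 b2 b3 kk) :
    Jet atTop (fun p : ℤ × ℤ => σ ^ p.1) (fun p => σ ^ p.2) Y1 Y2 Y3
      (fun p => fZ (p.1 + p.2) (p.1 + k)) (fun p => fU (p.1 + k)) (fun p => fU (-p.2 + k))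
      ⟨c, a1', a2', b1, b2, b3, kk⟩ := by
  refine ⟨(tz.comp (tendsto_sh k)).congr fun p => ?_, (tU.comp tendsto_fst').comp (tendsto_sh k),
    ((tS.comp tendsto_snd').comp (tendsto_sh k)).congr fun p => ?_, lim_fst hσ k t1 e1,
    lim_snd hσ k t2 e2, ?_⟩
  · simp [sh]
  · simp only [Function.comp, sh, show -(p.2 - k) = -p.2 + k by ring]
  · convert hl using 2 with p
    simp only [Y12, sh, show -(p.2 - k) = -p.2 + k by ring, show p.1 + k + (p.2 - k) = p.1 + p.2 by ring,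
      ← zpow_add₀ hσ.ne']

theorem solve1 {u v z U S Y : ℤ × ℤ → ℝ} {j : JT}
    (h : Jet atTop u v (fun p => Y (sh (-1) p)) Y (fun _ => 0) z U S j)
    (hc : j.c = 0 ∧ |j.b1| + |(0 : ℝ)| < |j.b2|) (h0 : ∀ᶠ p in atTop, z p = 0 ∧ U p = 0 ∧ S p = 0)
    (h1 : ∀ i, 1 ≤ i → ∃ C, ∀ j, 1 ≤ j → |Y (i, j)| ≤ C) :
    ∃ y, j.k + (j.b1 + j.b2 + 0) * y = 0 ∧ Tendsto Y atTop (𝓝 y) := by
  obtain ⟨B1, B2, B3, K, x1, x2, -, x4, e⟩ := h.eq_zero hc.1 h0
  obtain ⟨g1, g3, p1, p3, hg, hh⟩ := ineq_of x1 x2 (tendsto_const_nhds (x := (0 : ℝ))) x4 hc.2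
  refine lim_of x1 x2 (tendsto_const_nhds (x := (0 : ℝ))) x4 hc.2 (tendsto_sh (-1)) (tendsto_sh 1)
    (e.mono fun p hp => by linarith) (apriori (g3 := 0) (K := |j.k / j.b2| + 1) p1 le_rfl
      (by linarith) ?_ h1 (fun _ _ => ⟨0, fun _ _ => by simp⟩))
  filter_upwards [hh 1 one_pos, e] with p a1 a2
  simpa using a1 (Y (sh (-1) p)) (Y p) 0 (by linarith)

theorem solve2 {u v z U S Y : ℤ × ℤ → ℝ} {j : JT}
    (h : Jet atTop u v (fun p => Y (sh (-1) p)) Y (fun p => Y (sh 1 p)) z U S j)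
    (hc : j.c = 0 ∧ |j.b1| + |j.b3| < |j.b2|) (h0 : ∀ᶠ p in atTop, z p = 0 ∧ U p = 0 ∧ S p = 0)
    (h1 : ∀ i, 1 ≤ i → ∃ C, ∀ j, 1 ≤ j → |Y (i, j)| ≤ C)
    (h2 : ∀ j, 1 ≤ j → ∃ C, ∀ i, 1 ≤ i → |Y (i, j)| ≤ C) :
    ∃ y, j.k + (j.b1 + j.b2 + j.b3) * y = 0 ∧ Tendsto Y atTop (𝓝 y) := by
  obtain ⟨B1, B2, B3, K, x1, x2, x3, x4, e⟩ := h.eq_zero hc.1 h0
  obtain ⟨g1, g3, p1, p3, hg, hh⟩ := ineq_of x1 x2 x3 x4 hc.2
  refine lim_of x1 x2 x3 x4 hc.2 (tendsto_sh (-1)) (tendsto_sh 1) e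
    (apriori (K := |j.k / j.b2| + 1) p1 p3 hg ?_ h1 fun j hj => ?_)
  · filter_upwards [hh 1 one_pos, e] with p a1 a2
    exact a1 _ _ _ a2
  · obtain ⟨C, hC⟩ := h2 j hj
    exact ⟨g3 * C, fun i hi => mul_le_mul_of_nonneg_left (hC i hi) p3⟩

theorem ratio_lip {ρ ρ' s s' t t' m M : ℝ} (hm : 0 < m) (hM : 1 ≤ M) (h : |ρ'| ≤ M)
    (h1 : |s| ≤ 1) (h2 : |s'| ≤ 1) (h3 : m ≤ t) (h4 : m ≤ t') (h5 : t' ≤ 1) :
    |ρ * s / t - ρ' * s' / t'| ≤ M * (|ρ - ρ'| + |s - s'| + |t - t'|) / m ^ 2 := by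
  have t0 : 0 < t := by linarith
  have t0' : 0 < t' := by linarith
  have e : ρ * s / t - ρ' * s' / t' =
      ((ρ - ρ') * s * t' + ρ' * (s - s') * t' + ρ' * s' * -(t - t')) / (t * t') := by
    field_simp; ring
  rw [e, abs_div, abs_of_pos (mul_pos t0 t0')]
  refine div_le_div₀ (by positivity) ((abs_add_three _ _ _).trans ?_) (by positivity) (by nlinarith)
  simp only [abs_mul, abs_neg, abs_of_pos t0']
  have a1 : |ρ - ρ'| * |s| * t' ≤ |ρ - ρ'| * 1 * 1 := by gcongr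
  have a2 : |ρ'| * |s - s'| * t' ≤ M * |s - s'| * 1 := by gcongr
  have a3 : |ρ'| * |s'| * |t - t'| ≤ M * 1 * |t - t'| := by gcongr
  nlinarith [abs_nonneg (ρ - ρ')]

variable {V : ℝ}

theorem rr_lip (hV : 0 < V) {β β' : ℤ → Fin 3} {i i' : ℤ} {δ : ℝ}
    (h1 : |(sys hV).rho (cb β) (cb β) i - (sys hV).rho (cb β') (cb β') i'| ≤ δ)
    (h2 : |(sys hV).X (cb β) i - (sys hV).X (cb β') i'| ≤ δ)
    (h3 : |(sys hV).X (cb β) (i + 1) - (sys hV).X (cb β') (i' + 1)| ≤ δ) :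
    |rr hV β i - rr hV β' i'| ≤ 3 / sin (c0 V) ^ 2 * δ := by
  refine (ratio_lip (sin_c0_pos hV) le_rfl (((sys hV).abs_rho_le _ _ _).trans (sys hV).κ_lt.le)
    (Real.abs_sin_le_one _) (Real.abs_sin_le_one _) (le_sin_X hV _ _) (le_sin_X hV _ _)
    (Real.sin_le_one _)).trans ?_
  have a2 := (Real.abs_sin_sub_sin_le _ _).trans h2
  have a3 := (Real.abs_sin_sub_sin_le _ _).trans h3
  have := sin_c0_pos hV
  rw [div_mul_eq_mul_div]
  exact div_le_div_of_nonneg_right (by linarith) (by positivity)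

theorem rho_lip (hV : 0 < V) {β β' : ℤ → Fin 3} {i i' : ℤ} {δ : ℝ}
    (h1 : |rr hV β i - rr hV β' i'| ≤ δ)
    (h2 : |(sys hV).X (cb β) i - (sys hV).X (cb β') i'| ≤ δ)
    (h3 : |(sys hV).X (cb β) (i + 1) - (sys hV).X (cb β') (i' + 1)| ≤ δ) :
    |(sys hV).rho (cb β) (cb β) i - (sys hV).rho (cb β') (cb β') i'| ≤ 3 / sin (c0 V) ^ 3 * δ := by
  have hm := sin_c0_pos hV
  have e : ∀ (β : ℤ → Fin 3) (i : ℤ), (sys hV).rho (cb β) (cb β) i =
      rr hV β i * sin ((sys hV).X (cb β) (i + 1)) / sin ((sys hV).X (cb β) i) := fun β i => by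
    have s1 := (hm.trans_le (le_sin_X hV β i)).ne'
    have s2 := (hm.trans_le (le_sin_X hV β (i + 1))).ne'
    unfold rr; field_simp
  have b : |rr hV β' i'| ≤ 1 / sin (c0 V) := by
    unfold rr
    rw [abs_div, abs_mul, abs_of_pos (hm.trans_le (le_sin_X hV β' (i' + 1)))]
    exact div_le_div₀ zero_le_one (mul_le_one₀ (((sys hV).abs_rho_le _ _ _).trans (sys hV).κ_lt.le)
      (abs_nonneg _) (Real.abs_sin_le_one _)) hm (le_sin_X hV _ _)
  rw [e, e β']
  refine (ratio_lip hm (one_le_one_div hm (Real.sin_le_one _)) b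
    (Real.abs_sin_le_one _) (Real.abs_sin_le_one _) (le_sin_X hV _ _) (le_sin_X hV _ _)
    (Real.sin_le_one _)).trans ?_
  have a2 := (Real.abs_sin_sub_sin_le _ _).trans h2
  have a3 := (Real.abs_sin_sub_sin_le _ _).trans h3
  calc _ ≤ 1 / sin (c0 V) * (δ + δ + δ) / sin (c0 V) ^ 2 := by gcongr
    _ = _ := by field_simp; ring

theorem F1z (hV : 0 < V) {i j : ℤ} (hi : 1 ≤ i) (hj : 0 ≤ j) :
    |xZ hV (i + j) i - xU hV i| ≤ C0 hV * σs hV ^ j := by
  obtain ⟨m, rfl⟩ := Int.eq_ofNat_of_zero_le hj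
  simpa using F1 hV hi m 0

theorem F2z (hV : 0 < V) {j : ℤ} (hj : 0 ≤ j) : |xU hV j - θs hV| ≤ C0 hV * σs hV ^ j := by
  obtain ⟨m, rfl⟩ := Int.eq_ofNat_of_zero_le hj
  simpa using F2 hV m 0

theorem F3z (hV : 0 < V) {i j : ℤ} (hi : 0 ≤ i) (hj : 1 ≤ j) :
    |xZ hV (i + j) i - xU hV (-j)| ≤ C0 hV * σs hV ^ i := by
  obtain ⟨m, rfl⟩ := Int.eq_ofNat_of_zero_le hi
  simpa [add_comm] using F3 hV hj m 0

theorem F4z (hV : 0 < V) {i j : ℤ} (hi : 0 ≤ i) (hj : 1 ≤ j) :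
    |ρZ hV (i + j) i - ρU hV i| ≤ (sys hV).Cr * C0 hV * σs hV ^ (j - 1) := by
  obtain ⟨m, rfl⟩ : ∃ m : ℕ, j = m + 1 := ⟨(j - 1).toNat, by omega⟩
  simpa [add_comm, add_assoc, add_left_comm, mul_assoc] using F4 hV (a := i + 1) (by omega) m 0

theorem F5z (hV : 0 < V) {j : ℤ} (hj : 1 ≤ j) :
    |ρU hV (-j) - σs hV| ≤ (sys hV).Cr * C0 hV * σs hV ^ (j - 1) := by
  obtain ⟨m, rfl⟩ : ∃ m : ℕ, j = m + 1 := ⟨(j - 1).toNat, by omega⟩
  have := F5 hV m 0
  rw [show -(m : ℤ) - 1 - (0 : ℕ) = -(m + 1) by simp; ring] at this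
  simpa [mul_assoc] using this

theorem aux_le (hV : 0 < V) (j : ℤ) : C0 hV * σs hV ^ j ≤ (sys hV).Cr * C0 hV * σs hV ^ (j - 1) ∧
    C0 hV * σs hV ^ (j - 1) ≤ (sys hV).Cr * C0 hV * σs hV ^ (j - 1) := by
  have h1 : 1 ≤ (sys hV).Cr := by
    have := (sys hV).κ_pos
    have := sub_pos.2 (sys hV).κ_lt
    have := (sys hV).L_nn
    have : 0 ≤ 8 * (sys hV).L * π / ((sys hV).κ * (1 - (sys hV).κ)) := by positivity
    unfold Sys.Cr; linarith
  have h2 : σs hV ^ j ≤ σs hV ^ (j - 1) :=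
    zpow_le_zpow_right_of_le_one₀ (σs_pos hV) (σs_lt hV).le (by omega)
  have h3 := mul_pos (C0_pos hV) (zpow_pos (σs_pos hV) (j - 1))
  have h4 := mul_le_mul_of_nonneg_left h2 (C0_pos hV).le
  constructor <;> nlinarith

noncomputable def K1 (hV : 0 < V) : ℝ := 3 / sin (c0 V) ^ 2 * ((sys hV).Cr * C0 hV) / σs hV

theorem rZU (hV : 0 < V) {i j : ℤ} (hi : 1 ≤ i) (hj : 1 ≤ j) :
    |rr hV (bZ (i + j)) i - rr hV (bP 0) i| ≤ K1 hV * σs hV ^ j := by
  have h3 := F1z hV (i := i + 1) (j := j - 1) (by omega) (by omega)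
  rw [show i + 1 + (j - 1) = i + j by ring] at h3
  refine (rr_lip hV (F4z hV (by omega) hj) ((F1z hV hi (by omega)).trans (aux_le hV j).1)
    (h3.trans (aux_le hV j).2)).trans (le_of_eq ?_)
  rw [zpow_sub_one₀ (σs_pos hV).ne', K1]; ring

theorem rSO (hV : 0 < V) {j : ℤ} (hj : 1 ≤ j) :
    |rr hV (bP 0) (-j) - σs hV| ≤ K1 hV * σs hV ^ j := by
  have h2 := F2z hV (j := j) (by omega)
  have h3 := F2z hV (j := j - 1) (by omega)
  rw [← xU_neg] at h2 h3
  rw [show -(j - 1) = -j + 1 by ring, ← X_O hV (0 + 1)] at h3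
  have h4 := rr_lip hV (β' := bO) (i' := 0) (F5z hV hj) (h2.trans (aux_le hV j).1)
    (h3.trans (aux_le hV j).2)
  rw [rr_O] at h4
  refine h4.trans (le_of_eq ?_)
  rw [zpow_sub_one₀ (σs_pos hV).ne', K1]; ring

theorem tendsto_σz (hV : 0 < V) (C : ℝ) : Tendsto (fun i : ℤ => C * σs hV ^ i) atTop (𝓝 0) := by
  have := ((tendsto_pow_atTop_nhds_zero_of_lt_one (σs_pos hV).le (σs_lt hV)).comp
    tendsto_toNat).const_mul C
  rw [mul_zero] at this
  refine this.congr' ((eventually_ge_atTop 0).mono fun i hi => ?_)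
  obtain ⟨m, rfl⟩ := Int.eq_ofNat_of_zero_le hi
  simp

theorem tendsto_near {ι : Type} {l : Filter ι} {f g b : ι → ℝ} {c : ℝ} (hg : Tendsto g l (𝓝 c))
    (hb : Tendsto b l (𝓝 0)) (h : ∀ᶠ p in l, |f p - g p| ≤ b p) : Tendsto f l (𝓝 c) := by
  have : Tendsto (fun p => f p - g p) l (𝓝 0) := squeeze_zero_norm' h hb
  simpa using this.add hg

theorem tendsto_rU (hV : 0 < V) : Tendsto (rr hV (bP 0)) atTop (𝓝 (σs hV)) := by
  have h1 : Tendsto (ρU hV) atTop (𝓝 (σs hV)) := by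
    have := ((tendsto_pow_atTop_nhds_zero_of_lt_one (sys hV).κ_pos.le (sys hV).κ_lt).comp
      tendsto_toNat).const_mul (sys hV).Cr
    rw [mul_zero] at this
    refine tendsto_near tendsto_const_nhds this ((eventually_ge_atTop 0).mono fun i hi => ?_)
    have : Sys.Ag (cb (bP 0)) i (cb bO) 0 i.toNat := fun j h1 h2 => by
      simp only [cb, bP, bO]; rw [if_neg (by omega)]
    exact (sys hV).rho_loc _ this this
  have s1 : sin (θs hV) ≠ 0 := ((sin_c0_pos hV).trans_le (le_sin_X hV bO 0)).ne'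
  have h2 := (continuous_sin.tendsto _).comp (tendsto_xU hV)
  have := (h1.mul h2).div (h2.comp (tendsto_atTop_add_const_right _ 1 tendsto_id)) s1
  rwa [mul_div_assoc, div_self s1, mul_one] at this

theorem Fix.cond1 {V a s x : ℝ} (h : Fix V a s) :
    (j1 V a s x).c = 0 ∧ |(j1 V a s x).b1| + |(0 : ℝ)| < |(j1 V a s x).b2| := by
  unfold j1
  exact h.condF (β := s⁻¹) (inv_pos.2 h.hs) le_rfl ⟨rfl, rfl, rfl, rfl⟩ ⟨rfl, rfl, rfl, rfl⟩
    ⟨rfl, rfl, rfl, rfl⟩ ⟨rfl, rfl, rfl, rfl⟩ ⟨rfl, rfl, rfl, rfl⟩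

theorem Fix.cond2 {V a s x : ℝ} (h : Fix V a s) :
    (j2 V a s x).c = 0 ∧ |(j2 V a s x).b1| + |(0 : ℝ)| < |(j2 V a s x).b2| := by
  unfold j2
  exact h.condF (β := s) h.hs (h.hs1.trans h.one_lt).le ⟨rfl, rfl, rfl, rfl⟩ ⟨rfl, rfl, rfl, rfl⟩
    ⟨rfl, rfl, rfl, rfl⟩ ⟨rfl, rfl, rfl, rfl⟩ ⟨rfl, rfl, rfl, rfl⟩

theorem Fix.condC {V a s x A r1 r2 : ℝ} (h : Fix V a s) : (jC V a s x A r1 r2).c = 0 ∧
    |(jC V a s x A r1 r2).b1| + |(0 : ℝ)| < |(jC V a s x A r1 r2).b2| := by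
  unfold jC
  exact h.condF (β := 1) one_pos h.one_lt.le ⟨rfl, rfl, rfl, rfl⟩ ⟨rfl, rfl, rfl, rfl⟩
    ⟨rfl, rfl, rfl, rfl⟩ ⟨rfl, rfl, rfl, rfl⟩ ⟨rfl, rfl, rfl, rfl⟩

theorem tU (hV : 0 < V) : Tendsto (fun i => cos (xU hV i)) atTop (𝓝 (cos (θs hV))) :=
  (continuous_cos.tendsto _).comp (tendsto_xU hV)

theorem tS (hV : 0 < V) : Tendsto (fun i => cos (xU hV (-i))) atTop (𝓝 (cos (θs hV))) := by
  simpa only [xU_neg] using tU hV

theorem tz (hV : 0 < V) :
    Tendsto (fun p : ℤ × ℤ => cos (xZ hV (p.1 + p.2) p.1)) atTop (𝓝 (cos (θs hV))) :=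
  tendsto_near ((tU hV).comp tendsto_fst') ((tendsto_σz hV (C0 hV)).comp tendsto_snd')
    (ev_iff.2 ⟨1, fun i j hi hj => (Real.abs_cos_sub_cos_le _ _).trans
      (F1z hV (by omega) (by omega))⟩)

theorem rS (hV : 0 < V) : Tendsto (fun i => rr hV (bP 0) (-i)) atTop (𝓝 (σs hV)) :=
  tendsto_near tendsto_const_nhds (tendsto_σz hV (K1 hV))
    ((eventually_ge_atTop 1).mono fun _ hi => rSO hV hi)

theorem rz (hV : 0 < V) : Tendsto (fun p : ℤ × ℤ => rr hV (bZ (p.1 + p.2)) p.1) atTop (𝓝 (σs hV)) :=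
  tendsto_near ((tendsto_rU hV).comp tendsto_fst') ((tendsto_σz hV (K1 hV)).comp tendsto_snd')
    (ev_iff.2 ⟨1, fun i j hi hj => rZU hV (by omega) (by omega)⟩)

theorem z1 {i j : ℤ} (hi : (1 : ℕ) ≤ i) (hj : (1 : ℕ) ≤ j) :
    bZ (i + j) i = 0 ∧ bP 0 i = 0 ∧ bP 0 (-j) = 0 :=
  ⟨if_neg (by omega), if_neg (by omega), if_neg (by omega)⟩

theorem diag : Tendsto (fun i : ℤ => (i, i)) atTop atTop := by
  rw [← prod_atTop_atTop_eq]; exact tendsto_id.prodMk tendsto_id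

section
variable (hV : 0 < V) {α : ℝ}
  (t1 : Tendsto (fun i : ℤ => (cos (xU hV i) - cos (θs hV)) / σs hV ^ i) atTop (𝓝 α))
include t1

theorem t2 : Tendsto (fun i : ℤ => (cos (xU hV (-i)) - cos (θs hV)) / σs hV ^ i) atTop (𝓝 α) := by
  simpa only [xU_neg] using t1

theorem jb {a1' a2' b1 b2 b3 kk : ℝ} {Y1 Y2 Y3 : ℤ × ℤ → ℝ} (k : ℤ)
    (e1 : a1' = α * σs hV ^ k) (e2 : a2' = α * σs hV ^ (-k))
    (hl : Lin atTop Y1 Y2 Y3 (fun p => Y12 (σs hV) (fun n i => cos (xZ hV n i))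
      (fun i => cos (xU hV i)) (cos (θs hV)) (sh k p)) b1 b2 b3 kk) :
    Jet atTop (fun p : ℤ × ℤ => σs hV ^ p.1) (fun p => σs hV ^ p.2) Y1 Y2 Y3
      (fun p => cos (xZ hV (p.1 + p.2) (p.1 + k))) (fun p => cos (xU hV (p.1 + k)))
      (fun p => cos (xU hV (-p.2 + k))) ⟨cos (θs hV), a1', a2', b1, b2, b3, kk⟩ :=
  jet_base (fZ := fun n i => cos (xZ hV n i)) (σs_pos hV) (tz hV) (tU hV) (tS hV) t1 (t2 hV t1) k
    e1 e2 hl

theorem jetA : ∃ A, (jA V (cos (θs hV)) (σs hV) α).k + ((jA V (cos (θs hV)) (σs hV) α).b1 +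
    (jA V (cos (θs hV)) (σs hV) α).b2 + (jA V (cos (θs hV)) (σs hV) α).b3) * A = 0 ∧
    Tendsto (Y12 (σs hV) (fun n i => cos (xZ hV n i)) (fun i => cos (xU hV i)) (cos (θs hV)))
      atTop (𝓝 A) := by
  have hσ := σs_pos hV
  refine solve2 (jet_R V
      (jb hV t1 (-1) (by simp) (by simp) (Lin.y1 1 fun p => by simp))
      (jb hV t1 0 (by simp) (by simp) (Lin.y2 fun p => by simp [sh]))
      (jb hV t1 1 (by simp) (by simp) (Lin.y3 fun p => rfl)))
    (fix hV).condA (ev_iff.2 ⟨1, fun i j hi hj => ?_⟩)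
    (fun i hi => ⟨2 * C0 hV / σs hV ^ i, fun j hj => ?_⟩)
    (fun j hj => ⟨2 * C0 hV / σs hV ^ j, fun i hi => ?_⟩)
  · simpa only [sub_eq_add_neg, add_zero, xZ, xU] using
      And.intro (R_orb hV (z1 hi hj).1) (And.intro (R_orb hV (z1 hi hj).2.1)
        (R_orb hV (z1 hi hj).2.2))
  · have a1 := abs_le.1 ((Real.abs_cos_sub_cos_le _ _).trans (F1z hV hi (j := j) (by omega)))
    have a2 := abs_le.1 ((Real.abs_cos_sub_cos_le _ _).trans (F2z hV (j := j) (by omega)))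
    have p1 := zpow_pos hσ i
    have p2 := zpow_pos hσ j
    simp only [Y12, xU_neg]
    rw [abs_div, abs_of_pos (mul_pos p1 p2), div_le_iff₀ (mul_pos p1 p2), ← mul_assoc,
      div_mul_cancel₀ _ p1.ne', abs_le]
    constructor <;> linarith [a1.1, a1.2, a2.1, a2.2]
  · have a1 := abs_le.1 ((Real.abs_cos_sub_cos_le _ _).trans (F3z hV (i := i) (by omega) hj))
    have a2 := abs_le.1 ((Real.abs_cos_sub_cos_le _ _).trans (F2z hV (j := i) (by omega)))
    have p1 := zpow_pos hσ i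
    have p2 := zpow_pos hσ j
    simp only [Y12]
    rw [abs_div, abs_of_pos (mul_pos p1 p2), div_le_iff₀ (mul_pos p1 p2), mul_comm (σs hV ^ i),
      ← mul_assoc, div_mul_cancel₀ _ p2.ne', abs_le]
    constructor <;> linarith [a1.1, a1.2, a2.1, a2.2]

theorem jet1 : ∃ r1, (j1 V (cos (θs hV)) (σs hV) α).k + ((j1 V (cos (θs hV)) (σs hV) α).b1 +
    (j1 V (cos (θs hV)) (σs hV) α).b2 + 0) * r1 = 0 ∧
    Tendsto (fun p : ℤ × ℤ => (rr hV (bP 0) p.1 - σs hV) / σs hV ^ p.1) atTop (𝓝 r1) := by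
  have hσ := σs_pos hV
  refine solve1 (jet_F V
      (Jet.deg (((tU hV).comp tendsto_fst').comp (tendsto_sh (-1)))
        (Lin.known (lim_fst (f := fun i => cos (xU hV i)) hσ (-1) t1 (by simp))))
      (Jet.deg (((tU hV).comp tendsto_fst').comp (tendsto_sh 0))
        (Lin.known (lim_fst (f := fun i => cos (xU hV i)) hσ 0 t1 (by simp))))
      (Jet.deg (((tU hV).comp tendsto_fst').comp (tendsto_sh 1))
        (Lin.known (lim_fst (f := fun i => cos (xU hV i)) hσ 1 t1 (by simp))))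
      (Jet.deg (((tendsto_rU hV).comp tendsto_fst').comp (tendsto_sh (-1)))
        (Lin.y1 (σs hV)⁻¹ fun p => ?_))
      (Jet.deg ((tendsto_rU hV).comp tendsto_fst') (Lin.y2 fun p => rfl)))
    (fix hV).cond1 (ev_iff.2 ⟨1, fun i j hi hj => ⟨?_, (fix hV).hF, (fix hV).hF⟩⟩)
    (fun i _ => ⟨|(rr hV (bP 0) i - σs hV) / σs hV ^ i|, fun j _ => le_rfl⟩)
  · simp only [Function.comp, sh, zpow_add₀ hσ.ne', zpow_neg_one]; field_simp
  · simpa only [sub_eq_add_neg, add_zero, Function.comp, sh, xU] using F_orb hV (z1 hi hj).2.1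

theorem jet2 : ∃ r2, (j2 V (cos (θs hV)) (σs hV) α).k + ((j2 V (cos (θs hV)) (σs hV) α).b1 +
    (j2 V (cos (θs hV)) (σs hV) α).b2 + 0) * r2 = 0 ∧
    Tendsto (fun p : ℤ × ℤ => (rr hV (bP 0) (-p.2) - σs hV) / σs hV ^ p.2) atTop (𝓝 r2) := by
  have hσ := σs_pos hV
  refine solve1 (jet_F V
      (Jet.deg (f := fun p : ℤ × ℤ => cos (xU hV (-p.2 + -1)))
        ((((tS hV).comp tendsto_snd').comp (tendsto_sh (-1))).congr fun p => by simp [sh, add_comm])
        (Lin.known (lim_snd (f := fun i => cos (xU hV i)) hσ (-1) (t2 hV t1) (by simp))))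
      (Jet.deg (f := fun p : ℤ × ℤ => cos (xU hV (-p.2 + 0)))
        ((((tS hV).comp tendsto_snd').comp (tendsto_sh 0)).congr fun p => by simp [sh])
        (Lin.known (lim_snd (f := fun i => cos (xU hV i)) hσ 0 (t2 hV t1) (by simp))))
      (Jet.deg (f := fun p : ℤ × ℤ => cos (xU hV (-p.2 + 1)))
        ((((tS hV).comp tendsto_snd').comp (tendsto_sh 1)).congr fun p => by
          simp [sh, sub_eq_add_neg, add_comm])
        (Lin.known (lim_snd (f := fun i => cos (xU hV i)) hσ 1 (t2 hV t1) (by simp))))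
      (Jet.deg (((rS hV).comp tendsto_snd').comp (tendsto_sh (-1))) (Lin.y1 (σs hV) fun p => ?_))
      (Jet.deg ((rS hV).comp tendsto_snd') (Lin.y2 fun p => rfl)))
    (fix hV).cond2 (ev_iff.2 ⟨1, fun i j hi hj => ⟨?_, (fix hV).hF, (fix hV).hF⟩⟩)
    (fun i _ => ⟨K1 hV, fun j hj => ?_⟩)
  · simp only [Function.comp, sh, zpow_sub₀ hσ.ne', zpow_neg_one]; field_simp
  · have := F_orb hV (z1 hi hj).2.2
    simp only [Function.comp, sh, add_zero, show -(j - -1) = -j - 1 by ring]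
    exact this
  · have p2 := zpow_pos hσ j
    simp only
    rw [abs_div, abs_of_pos p2, div_le_iff₀ p2]
    exact rSO hV hj

theorem jetC {A r1 r2 : ℝ}
    (tA : Tendsto (Y12 (σs hV) (fun n i => cos (xZ hV n i)) (fun i => cos (xU hV i)) (cos (θs hV)))
      atTop (𝓝 A))
    (t1r : Tendsto (fun i : ℤ => (rr hV (bP 0) i - σs hV) / σs hV ^ i) atTop (𝓝 r1))
    (t2r : Tendsto (fun i : ℤ => (rr hV (bP 0) (-i) - σs hV) / σs hV ^ i) atTop (𝓝 r2)) :
    ∃ r12, (jC V (cos (θs hV)) (σs hV) α A r1 r2).k + ((jC V (cos (θs hV)) (σs hV) α A r1 r2).b1 +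
    (jC V (cos (θs hV)) (σs hV) α A r1 r2).b2 + 0) * r12 = 0 ∧
    Tendsto (Y12 (σs hV) (fun n => rr hV (bZ n)) (rr hV (bP 0)) (σs hV)) atTop (𝓝 r12) := by
  have hσ := σs_pos hV
  refine solve1 (jet_F V
      (jb hV t1 (-1) (by simp) (by simp) (Lin.known (tA.comp (tendsto_sh _))))
      (jb hV t1 0 (by simp) (by simp) (Lin.known (tA.comp (tendsto_sh _))))
      (jb hV t1 1 (by simp) (by simp) (Lin.known (tA.comp (tendsto_sh _))))
      (jet_base (fZ := fun n => rr hV (bZ n)) hσ (rz hV) (tendsto_rU hV) (rS hV) t1r t2r (-1)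
        (by simp) (by simp) (Lin.y1 1 fun p => by simp))
      (jet_base (fZ := fun n => rr hV (bZ n)) hσ (rz hV) (tendsto_rU hV) (rS hV) t1r t2r 0
        (by simp) (by simp) (Lin.y2 fun p => by simp [sh])))
    (fix hV).condC (ev_iff.2 ⟨1, fun i j hi hj => ?_⟩)
    (fun i hi => ⟨2 * K1 hV / σs hV ^ i, fun j hj => ?_⟩)
  · simpa only [sub_eq_add_neg, add_zero, xZ, xU] using
      And.intro (F_orb hV (z1 hi hj).1) (And.intro (F_orb hV (z1 hi hj).2.1)
        (F_orb hV (z1 hi hj).2.2))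
  · have a1 := abs_le.1 (rZU hV hi hj)
    have a2 := abs_le.1 (rSO hV hj)
    have p1 := zpow_pos hσ i
    have p2 := zpow_pos hσ j
    simp only [Y12]
    rw [abs_div, abs_of_pos (mul_pos p1 p2), div_le_iff₀ (mul_pos p1 p2), ← mul_assoc,
      div_mul_cancel₀ _ p1.ne', abs_le]
    constructor <;> linarith [a1.1, a1.2, a2.1, a2.2]

end

theorem lim_diag {c : ℝ} (f : ℤ → ℝ) :
    (Tendsto (fun p : ℤ × ℤ => f p.1) atTop (𝓝 c) → Tendsto f atTop (𝓝 c)) ∧
    (Tendsto (fun p : ℤ × ℤ => f p.2) atTop (𝓝 c) → Tendsto f atTop (𝓝 c)) :=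
  ⟨fun h => h.comp diag, fun h => h.comp diag⟩

theorem jets (hV : 0 < V) : ∃ r1 r2 r12, σs hV * r12 - r1 * r2 < 0 ∧
    Tendsto (fun i : ℤ => (rr hV (bP 0) i - σs hV) / σs hV ^ i) atTop (𝓝 r1) ∧
    Tendsto (fun i : ℤ => (rr hV (bP 0) (-i) - σs hV) / σs hV ^ i) atTop (𝓝 r2) ∧
    Tendsto (Y12 (σs hV) (fun n => rr hV (bZ n)) (rr hV (bP 0)) (σs hV)) atTop (𝓝 r12) := by
  obtain ⟨α, hα, t1⟩ := exists_alpha hV
  obtain ⟨A, EA, tA⟩ := jetA hV t1
  obtain ⟨r1, E1, t1r⟩ := jet1 hV t1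
  obtain ⟨r2, E2, t2r⟩ := jet2 hV t1
  have a1 := (lim_diag (fun i : ℤ => (rr hV (bP 0) i - σs hV) / σs hV ^ i)).1 t1r
  have a2 := (lim_diag (fun i : ℤ => (rr hV (bP 0) (-i) - σs hV) / σs hV ^ i)).2 t2r
  obtain ⟨r12, EC, tC⟩ := jetC hV t1 tA a1 a2
  exact ⟨r1, r2, r12, (fix hV).final hα EA E1 E2 EC, a1, a2, tC⟩

end Pool.Agent.Lib.MP_5d78b4_mp
end
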