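import Pool.Agent.Lib.MP_5d78b4_mp.AbsCnt
import Pool.Agent.Lib.MP_5d78b4_mp.FinAlg

-- part Pool.Agent.Lib.MP_5d78b4_mp.Phi
section

set_option autoImplicit false
open Filter Topology Real

namespace Pool.Agent.Lib.MP_5d78b4_mp

variable {V j c : ℝ}

/-- Admissible edge parameters. -/
def Adm (j c : ℝ) : Prop := (j = 2 ∧ c = π / 2) ∨ (j = 3 ∧ (c = π / 3 ∨ c = 2 * π / 3))

noncomputable def Gf (V j c x y t : ℝ) : ℝ := j * (t - c) - Lam V t x + Lam V t y

noncomputable def Gd (V j x y t : ℝ) : ℝ := j - LamT V t x + LamT V t y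

def Sol (V j c x y t : ℝ) : Prop := t ∈ Set.Icc 0 π ∧ Gf V j c x y t = 0

theorem Adm.c_pos (h : Adm j c) : 0 < c ∧ c < π := by
  have := pi_pos
  rcases h with ⟨-, rfl⟩ | ⟨-, rfl | rfl⟩ <;> constructor <;> linarith

theorem Adm.two_le (h : Adm j c) : 2 ≤ j ∧ j ≤ 3 := by
  rcases h with ⟨rfl, -⟩ | ⟨rfl, -⟩ <;> norm_num

theorem Adm.jc (h : Adm j c) : π ≤ j * c ∧ π ≤ j * (π - c) := by
  have := pi_pos
  rcases h with ⟨rfl, rfl⟩ | ⟨rfl, rfl | rfl⟩ <;> constructor <;> linarith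

theorem hasDerivAt_Gf (hV : 0 < V) (x y t : ℝ) :
    HasDerivAt (fun t => Gf V j c x y t) (Gd V j x y t) t := by
  have h1 := ((((hasDerivAt_id t).sub_const c).const_mul j).sub (hasDerivAt_Lam_t hV t x)).add
    (hasDerivAt_Lam_t hV t y)
  refine h1.congr_deriv ?_
  simp [Gd]

theorem Gd_aux (hV : 0 < V) {t u δ : ℝ} (hu : u ≤ |sin t|) (h0 : 0 ≤ δ) (h1 : δ ≤ 2 / √V) :
    V * u / (V + sin t ^ 2) * δ ≤ 1 := by
  have hs := Real.sqrt_pos.2 hV
  have h2 := Real.sq_sqrt hV.le
  have hp : 0 < V + sin t ^ 2 := by positivity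
  rcases le_total u 0 with h | h
  · have : V * u / (V + sin t ^ 2) ≤ 0 :=
      div_nonpos_of_nonpos_of_nonneg (by nlinarith) hp.le
    nlinarith
  have h3 : V * u / (V + sin t ^ 2) * δ ≤ V * |sin t| / (V + sin t ^ 2) * (2 / √V) := by gcongr
  refine h3.trans ?_
  rw [div_mul_div_comm, div_le_one (by positivity), ← sq_abs (sin t)]
  set s := √V
  rw [← h2]
  nlinarith [mul_nonneg hs.le (sq_nonneg (s - |sin t|))]

theorem cos_le_sin_of {t : ℝ} (h1 : π / 3 ≤ t) (h2 : t ≤ π) : cos t ≤ |sin t| := by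
  have h3 : cos t ≤ 1 / 2 := by
    rw [← Real.cos_pi_div_three]
    exact Real.cos_le_cos_of_nonneg_of_le_pi (by positivity) h2 h1
  have h4 := Real.sin_sq_add_cos_sq t
  rcases le_total (cos t) 0 with h | h
  · exact h.trans (abs_nonneg _)
  refine (abs_le_abs ?_ ?_ : |cos t| ≤ |(|sin t|)|).trans' (le_abs_self _) |>.trans (by simp)
  all_goals
    refine le_of_sq_le_sq ?_ (abs_nonneg _) |>.trans' ?_ (b := cos t) <;>
      first | linarith | (rw [sq_abs]; nlinarith)

theorem GdA (hV : 0 < V) (h : Adm j c) {x y t : ℝ} (hxy : cos y ≤ cos x) (h1 : c ≤ t) (h2 : t ≤ π) :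
    2 ≤ Gd V j x y t := by
  have e : Gd V j x y t = j - V * cos t / (V + sin t ^ 2) * (cos x / W V t x - cos y / W V t y) := by
    unfold Gd LamT; ring
  have a1 := cosW_mono hV t hxy
  have a2 := abs_le.1 (abs_cosW_le hV t x)
  have a3 := abs_le.1 (abs_cosW_le hV t y)
  have a4 : cos x / W V t x - cos y / W V t y ≤ 2 / √V := by
    have : 2 / √V = 1 / √V + 1 / √V := by ring
    linarith [a2.2, a3.1]
  rw [e]
  have hp := pi_pos
  rcases h with ⟨rfl, rfl⟩ | ⟨rfl, h⟩
  · have : cos t ≤ 0 := Real.cos_nonpos_of_pi_div_two_le_of_le h1 (by linarith)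
    have : V * cos t / (V + sin t ^ 2) ≤ 0 :=
      div_nonpos_of_nonpos_of_nonneg (by nlinarith) (by positivity)
    nlinarith
  · have : π / 3 ≤ t := by rcases h with rfl | rfl <;> linarith
    have := Gd_aux hV (cos_le_sin_of this h2) (sub_nonneg.2 a1) a4
    linarith

theorem GdB (hV : 0 < V) (h : Adm j c) {x y t : ℝ} (hxy : cos x ≤ cos y) (h1 : 0 ≤ t) (h2 : t ≤ c) :
    2 ≤ Gd V j x y t := by
  have h' : Adm j (π - c) := by
    rcases h with ⟨rfl, rfl⟩ | ⟨rfl, rfl | rfl⟩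
    · left; constructor <;> ring
    · right; refine ⟨rfl, Or.inr ?_⟩; ring
    · right; refine ⟨rfl, Or.inl ?_⟩; ring
  have := GdA hV h' hxy (t := π - t) (by linarith) (by linarith)
  refine this.trans_eq ?_
  simp only [Gd, LamT, W, sin_pi_sub, cos_pi_sub]
  ring

theorem grow_of (hV : 0 < V) {x y t t' : ℝ} (ht : t ≤ t')
    (h : ∀ s ∈ Set.Icc t t', 2 ≤ Gd V j x y s) :
    2 * (t' - t) ≤ Gf V j c x y t' - Gf V j c x y t := by
  refine (convex_Icc t t').mul_sub_le_image_sub_of_le_deriv (f := fun t => Gf V j c x y t)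
    (fun s _ => (hasDerivAt_Gf hV x y s).continuousAt.continuousWithinAt)
    (fun s _ => (hasDerivAt_Gf hV x y s).differentiableAt.differentiableWithinAt)
    (fun s hs => ?_) t ⟨le_rfl, ht⟩ t' ⟨ht, le_rfl⟩ ht
  rw [(hasDerivAt_Gf hV x y s).deriv]
  exact h s (interior_subset hs)

theorem Sol.regA (hV : 0 < V) (h : Adm j c) {x y t : ℝ} (hs : Sol V j c x y t) (ht : c < t) :
    cos y ≤ cos x := by
  by_contra hc
  have := Lam_mono hV (Real.sin_nonneg_of_mem_Icc hs.1) (le_of_lt (not_le.1 hc))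
  have h2 := hs.2
  have := h.two_le.1
  unfold Gf at h2
  nlinarith

theorem Sol.regB (hV : 0 < V) (h : Adm j c) {x y t : ℝ} (hs : Sol V j c x y t) (ht : t < c) :
    cos x ≤ cos y := by
  by_contra hc
  have := Lam_mono hV (Real.sin_nonneg_of_mem_Icc hs.1) (le_of_lt (not_le.1 hc))
  have h2 := hs.2
  have := h.two_le.1
  unfold Gf at h2
  nlinarith

theorem Sol.two_le_Gd (hV : 0 < V) (h : Adm j c) {x y t : ℝ} (hs : Sol V j c x y t) :
    2 ≤ Gd V j x y t := by
  rcases lt_trichotomy t c with h1 | h1 | h1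
  · exact GdB hV h (hs.regB hV h h1) hs.1.1 h1.le
  · rcases le_total (cos x) (cos y) with h2 | h2
    · exact GdB hV h h2 hs.1.1 h1.le
    · exact GdA hV h h2 h1.ge hs.1.2
  · exact GdA hV h (hs.regA hV h h1) h1.le hs.1.2

theorem Gf_lip (hV : 0 < V) (x y x' y' t : ℝ) :
    |Gf V j c x y t - Gf V j c x' y' t| ≤ kap V * (|x - x'| + |y - y'|) := by
  have h1 := abs_le.1 (Lam_lip hV t x x')
  have h2 := abs_le.1 (Lam_lip hV t y y')
  unfold Gf
  rw [abs_le]
  constructor <;> nlinarith [h1.1, h1.2, h2.1, h2.2]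

theorem Sol.lip_aux (hV : 0 < V) (h : Adm j c) {x y t x' y' t' : ℝ} (hs : Sol V j c x y t)
    (hs' : Sol V j c x' y' t') (htt : t' ≤ t) :
    2 * (t - t') ≤ kap V * (|x - x'| + |y - y'|) := by
  have e := hs.2
  have e' := hs'.2
  have hm := fun s => abs_le.1 (Gf_lip (j := j) (c := c) hV x y x' y' s)
  have hm0 : 0 ≤ kap V * (|x - x'| + |y - y'|) := by have := kap_pos hV; positivity
  rcases le_or_gt t c with h1 | h1 <;> rcases lt_or_ge t' c with h2 | h2
  · have := grow_of (j := j) (c := c) hV htt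
      (fun s hs1 => GdB hV h (hs'.regB hV h h2) (hs'.1.1.trans hs1.1) (hs1.2.trans h1))
    linarith [(hm t).1]
  · have : t = t' := by linarith
    rw [this]; linarith
  · have a1 := grow_of (j := j) (c := c) hV h1.le
      (fun s hs1 => GdA hV h (hs.regA hV h h1) hs1.1 (hs1.2.trans hs.1.2))
    have a2 := grow_of (j := j) (c := c) hV h2.le
      (fun s hs1 => GdB hV h (hs'.regB hV h h2) (hs'.1.1.trans hs1.1) hs1.2)
    linarith [(hm c).1]
  · have := grow_of (j := j) (c := c) hV htt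
      (fun s hs1 => GdA hV h (hs.regA hV h h1) (h2.trans hs1.1) (hs1.2.trans hs.1.2))
    linarith [(hm t').1]

theorem Sol.lip (hV : 0 < V) (h : Adm j c) {x y t x' y' t' : ℝ} (hs : Sol V j c x y t)
    (hs' : Sol V j c x' y' t') : |t - t'| ≤ kap V / 2 * (|x - x'| + |y - y'|) := by
  rcases le_total t' t with h1 | h1
  · have := hs.lip_aux hV h hs' h1
    rw [abs_of_nonneg (by linarith)]; linarith
  · have := hs'.lip_aux hV h hs h1
    rw [abs_sub_comm x', abs_sub_comm y'] at this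
    rw [abs_of_nonpos (by linarith)]; linarith

theorem exists_sol (hV : 0 < V) (h : Adm j c) (x y : ℝ) : ∃ t, Sol V j c x y t := by
  have hc : ContinuousOn (fun t => Gf V j c x y t) (Set.Icc 0 π) :=
    fun s _ => (hasDerivAt_Gf hV x y s).continuousAt.continuousWithinAt
  have h1 := intermediate_value_Icc pi_pos.le hc
  have h2 := h.jc
  have hp := pi_pos
  have : (0 : ℝ) ∈ Set.Icc (Gf V j c x y 0) (Gf V j c x y π) := by
    simp only [Gf, Lam, sin_zero, sin_pi, zero_mul, zero_div, arctan_zero]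
    constructor <;> nlinarith [h2.1, h2.2]
  obtain ⟨t, ht, e⟩ := h1 this
  exact ⟨t, ht, e⟩

open Classical in
noncomputable def Phi (V j c x y : ℝ) : ℝ :=
  if h : ∃ t, Sol V j c x y t then h.choose else 0

theorem Phi_sol (hV : 0 < V) (h : Adm j c) (x y : ℝ) : Sol V j c x y (Phi V j c x y) := by
  have := exists_sol hV h x y
  unfold Phi
  rw [dif_pos this]
  exact this.choose_spec

theorem Phi_eq (hV : 0 < V) (h : Adm j c) {x y t : ℝ} (hs : Sol V j c x y t) : Phi V j c x y = t := by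
  have := (Phi_sol hV h x y).lip hV h hs
  simpa [sub_eq_zero] using this

theorem Phi_lip (hV : 0 < V) (h : Adm j c) (x y x' y' : ℝ) :
    |Phi V j c x y - Phi V j c x' y'| ≤ kap V / 2 * (|x - x'| + |y - y'|) :=
  (Phi_sol hV h x y).lip hV h (Phi_sol hV h x' y')

noncomputable def PhiX (V j c x y : ℝ) : ℝ :=
  LamX V (Phi V j c x y) x / Gd V j x y (Phi V j c x y)

noncomputable def PhiY (V j c x y : ℝ) : ℝ :=
  -LamX V (Phi V j c x y) y / Gd V j x y (Phi V j c x y)

theorem hasDerivAt_Phi_x (hV : 0 < V) (h : Adm j c) (x y : ℝ) :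
    HasDerivAt (fun x => Phi V j c x y) (PhiX V j c x y) x := by
  have hL := differentiable_Lam hV
  have h1 : Differentiable ℝ (fun p : ℝ × ℝ => Lam V p.1 y) :=
    hL.comp (f := fun p : ℝ × ℝ => (p.1, y)) (by fun_prop)
  have h2 : Differentiable ℝ (fun p : ℝ × ℝ => Gf V j c p.2 y p.1) := by
    unfold Gf
    exact (Differentiable.sub (by fun_prop) hL).add h1
  have h3 := (Phi_sol hV h x y).two_le_Gd hV h
  have := implicit_deriv (G := fun p : ℝ × ℝ => Gf V j c p.2 y p.1) (θ := fun x => Phi V j c x y)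
    (x₀ := x) (K := kap V / 2) (b := -LamX V (Phi V j c x y) x) (h2 _) (hasDerivAt_Gf hV x y _)
    (((hasDerivAt_Lam_x hV (Phi V j c x y) x).const_sub (j * (Phi V j c x y - c))).add_const
      (Lam V (Phi V j c x y) y)) (by linarith)
    (fun x' => by simpa using Phi_lip hV h x' y x y) (fun x' => (Phi_sol hV h x' y).2)
  simpa [PhiX] using this

theorem hasDerivAt_Phi_y (hV : 0 < V) (h : Adm j c) (x y : ℝ) :
    HasDerivAt (fun y => Phi V j c x y) (PhiY V j c x y) y := by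
  have hL := differentiable_Lam hV
  have h1 : Differentiable ℝ (fun p : ℝ × ℝ => Lam V p.1 x) :=
    hL.comp (f := fun p : ℝ × ℝ => (p.1, x)) (by fun_prop)
  have h2 : Differentiable ℝ (fun p : ℝ × ℝ => Gf V j c x p.2 p.1) := by
    unfold Gf
    exact (Differentiable.sub (by fun_prop) h1).add hL
  have h3 := (Phi_sol hV h x y).two_le_Gd hV h
  exact implicit_deriv (G := fun p : ℝ × ℝ => Gf V j c x p.2 p.1) (θ := fun y => Phi V j c x y)
    (x₀ := y) (K := kap V / 2) (b := LamX V (Phi V j c x y) y) (h2 _) (hasDerivAt_Gf hV x y _)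
    ((hasDerivAt_Lam_x hV (Phi V j c x y) y).const_add
      (j * (Phi V j c x y - c) - Lam V (Phi V j c x y) x)) (by linarith)
    (fun y' => by simpa using Phi_lip hV h x y' x y) (fun y' => (Phi_sol hV h x y').2)

theorem abs_PhiX_le (hV : 0 < V) (h : Adm j c) (x y : ℝ) : |PhiX V j c x y| ≤ kap V / 2 := by
  have h3 := (Phi_sol hV h x y).two_le_Gd hV h
  unfold PhiX
  rw [abs_div, abs_of_pos (a := Gd _ _ _ _ _) (by linarith)]
  exact div_le_div₀ (kap_pos hV).le (abs_LamX_le hV _ _) two_pos h3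

theorem abs_PhiY_le (hV : 0 < V) (h : Adm j c) (x y : ℝ) : |PhiY V j c x y| ≤ kap V / 2 := by
  have h3 := (Phi_sol hV h x y).two_le_Gd hV h
  unfold PhiY
  rw [abs_div, abs_neg, abs_of_pos (a := Gd _ _ _ _ _) (by linarith)]
  exact div_le_div₀ (kap_pos hV).le (abs_LamX_le hV _ _) two_pos h3

/-- Distance of edge values from `0` and `π`. -/
noncomputable def c0 (V : ℝ) : ℝ := (π - 2 * arctan (1 / √V)) / 3

theorem c0_pos : 0 < c0 V := by
  have := Real.arctan_lt_pi_div_two (1 / √V)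
  unfold c0; linarith

theorem Sol.mem (hV : 0 < V) (h : Adm j c) {x y t : ℝ} (hs : Sol V j c x y t) :
    t ∈ Set.Icc (c0 V) (π - c0 V) := by
  have h1 := abs_le.1 (abs_Lam_le hV t x)
  have h2 := abs_le.1 (abs_Lam_le hV t y)
  have h3 := hs.2
  have h4 := h.jc
  have h5 := h.two_le
  have h6 := hs.1
  unfold Gf at h3
  unfold c0
  constructor <;> nlinarith [h1.1, h1.2, h2.1, h2.2, h4.1, h4.2, h5.1, h5.2, h6.1, h6.2]

theorem sin_c0_le {t : ℝ} (h : t ∈ Set.Icc (c0 V) (π - c0 V)) : sin (c0 V) ≤ sin t := by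
  have h0 := c0_pos (V := V)
  have hp := pi_pos
  rcases le_total t (π / 2) with h1 | h1
  · exact Real.sin_le_sin_of_le_of_le_pi_div_two (by linarith) h1 h.1
  · rw [← Real.sin_pi_sub t]
    exact Real.sin_le_sin_of_le_of_le_pi_div_two (by linarith) (by linarith) (by linarith [h.2])

theorem sin_c0_pos (hV : 0 < V) : 0 < sin (c0 V) := by
  have h0 := c0_pos (V := V)
  have hp := pi_pos
  have : 0 < arctan (1 / √V) := Real.arctan_pos.2 (by positivity)
  refine Real.sin_pos_of_pos_of_lt_pi h0 ?_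
  unfold c0; linarith

theorem abs_LamT_le (hV : 0 < V) (t x : ℝ) : |LamT V t x| ≤ 1 / √V := by
  unfold LamT
  rw [abs_mul]
  refine (mul_le_of_le_one_left (abs_nonneg _) ?_).trans (abs_cosW_le hV t x)
  rw [abs_div, abs_mul, abs_of_pos hV, abs_of_pos (a := V + _) (by positivity),
    div_le_one (by positivity)]
  nlinarith [Real.abs_cos_le_one t, sq_nonneg (sin t)]

/-- Lower bound for the derivative in the second variable. -/
noncomputable def c1 (V : ℝ) : ℝ := sin (c0 V) ^ 2 / √(V + 1) / (3 + 2 / √V)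

theorem c1_pos (hV : 0 < V) : 0 < c1 V := by
  have := sin_c0_pos hV
  unfold c1; positivity

theorem PhiY_nonneg (hV : 0 < V) (h : Adm j c) (x : ℝ) {y : ℝ} (hy : y ∈ Set.Icc 0 π) :
    0 ≤ PhiY V j c x y := by
  have h3 := (Phi_sol hV h x y).two_le_Gd hV h
  have h1 := Real.sin_nonneg_of_mem_Icc (Phi_sol hV h x y).1
  have h2 := Real.sin_nonneg_of_mem_Icc hy
  have := W_pos hV (Phi V j c x y) y
  unfold PhiY LamX
  rw [neg_div (W _ _ _), neg_neg]
  positivity

theorem c1_le_PhiY (hV : 0 < V) (h : Adm j c) (x : ℝ) {y : ℝ}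
    (hy : y ∈ Set.Icc (c0 V) (π - c0 V)) : c1 V ≤ PhiY V j c x y := by
  have h3 := (Phi_sol hV h x y).two_le_Gd hV h
  have h1 := sin_c0_le ((Phi_sol hV h x y).mem hV h)
  have h2 := sin_c0_le hy
  have h0 := sin_c0_pos hV
  have hw := W_pos hV (Phi V j c x y) y
  have h4 : Gd V j x y (Phi V j c x y) ≤ 3 + 2 / √V := by
    have a1 := abs_le.1 (abs_LamT_le hV (Phi V j c x y) x)
    have a2 := abs_le.1 (abs_LamT_le hV (Phi V j c x y) y)
    have : 2 / √V = 1 / √V + 1 / √V := by ring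
    unfold Gd
    linarith [a1.1, a2.2, h.two_le.2]
  unfold PhiY LamX c1
  rw [neg_div (W _ _ _), neg_neg]
  have h5 : sin (c0 V) ^ 2 ≤ sin (Phi V j c x y) * sin y := by nlinarith
  refine div_le_div₀ (div_nonneg (by nlinarith) hw.le) ?_ (by linarith) h4
  exact div_le_div₀ (by nlinarith) h5 hw (W_le _ _)

theorem BL_Phi (hV : 0 < V) (h : Adm j c) : BL (Phi V j c) :=
  ⟨⟨π, fun x y => by
      have := (Phi_sol hV h x y).1
      rw [abs_of_nonneg this.1]; exact this.2⟩,
    kap V / 2, by have := kap_pos hV; positivity, Phi_lip hV h⟩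

theorem BL_aux (hV : 0 < V) {t s k : ℝ → ℝ → ℝ} {z : ℝ → ℝ → ℝ} (ht : BL t) (hs : BL s) (hk : BL k)
    (e1 : ∀ x y, s x y = sin (z x y)) (e2 : ∀ x y, k x y = cos (z x y)) :
    BL (fun x y => LamX V (t x y) (z x y)) ∧ BL (fun x y => LamT V (t x y) (z x y)) := by
  have hW : BL (fun x y => (W V (t x y) (z x y))⁻¹) := by
    refine BL.inv (c := √V) ?_ (Real.sqrt_pos.2 hV) (fun x y => sqrt_le_W _ _)
    have := ((BL.const V).add ((ht.sin.mul hs).mul (ht.sin.mul hs))).sqrt hV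
      (fun x y => by nlinarith [mul_self_nonneg (sin (t x y) * s x y)])
    simpa only [W, sq, e1] using this
  constructor
  · have := (ht.sin.mul hs).neg.mul hW
    simpa only [LamX, div_eq_mul_inv, e1] using this
  · have h1 := ((BL.const V).add (ht.sin.mul ht.sin)).inv hV
      (fun x y => by nlinarith [mul_self_nonneg (sin (t x y))])
    have := (((BL.const V).mul ht.cos).mul h1).mul (hk.mul hW)
    simpa only [LamT, div_eq_mul_inv, e2, sq] using this

theorem BL_PhiXY (hV : 0 < V) (h : Adm j c) : BL (PhiX V j c) ∧ BL (PhiY V j c) := by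
  have h1 := BL_aux hV (z := fun x _ => x) (BL_Phi hV h) BL.sin_fst BL.cos_fst
    (fun _ _ => rfl) (fun _ _ => rfl)
  have h2 := BL_aux hV (z := fun _ y => y) (BL_Phi hV h) BL.sin_fst.swap BL.cos_fst.swap
    (fun _ _ => rfl) (fun _ _ => rfl)
  have h3 : BL (fun x y => (Gd V j x y (Phi V j c x y))⁻¹) := by
    refine BL.inv (c := 2) ?_ two_pos (fun x y => (Phi_sol hV h x y).two_le_Gd hV h)
    have := ((BL.const j).add h1.2.neg).add h2.2
    simpa only [Gd, sub_eq_add_neg] using this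
  constructor
  · have := h1.1.mul h3
    simp only [← div_eq_mul_inv] at this
    exact this
  · have := h2.1.neg.mul h3
    simp only [← div_eq_mul_inv] at this
    exact this

end Pool.Agent.Lib.MP_5d78b4_mp
end

-- part Pool.Agent.Lib.MP_5d78b4_mp.Fib
section

set_option autoImplicit false
open Filter Topology Real

namespace Pool.Agent.Lib.MP_5d78b4_mp

abbrev Step : Type := Edge ⊕ ℝ

noncomputable def jj : Edge → ℝ
  | .one => 3
  | .two => 3
  | _ => 2

noncomputable def cc : Edge → ℝ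
  | .one => π / 3
  | .two => 2 * π / 3
  | _ => π / 2

theorem adm (e : Edge) : Adm (jj e) (cc e) := by
  cases e <;> simp [Adm, jj, cc]

noncomputable def fl : Bool → ℝ → ℝ
  | true, x => π - x
  | false, x => x

theorem cos_fl (t : Bool) (x : ℝ) : cos (fl t x) = bb t (cos x) := by
  cases t <;> simp [fl, bb]

theorem fl_sub (t : Bool) (x y : ℝ) : |fl t x - fl t y| = |x - y| := by
  cases t <;> simp [fl, abs_sub_comm]

theorem abs_bb (t : Bool) (x : ℝ) : |bb t x| = |x| := by cases t <;> simp [bb]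

noncomputable def sf (V : ℝ) : Step → ℝ → ℝ → ℝ
  | .inl e, x, y => Phi V (jj e) (cc e) (fl (src e) x) y
  | .inr z, _, _ => max 0 (min z π)

noncomputable def sp (V : ℝ) : Step → ℝ → ℝ → ℝ
  | .inl e, x, y => bb (src e) (PhiX V (jj e) (cc e) (fl (src e) x) y)
  | .inr _, _, _ => 0

noncomputable def sq' (V : ℝ) : Step → ℝ → ℝ → ℝ
  | .inl e, x, y => PhiY V (jj e) (cc e) (fl (src e) x) y
  | .inr _, _, _ => 0

variable {V : ℝ}

theorem exists_L (hV : 0 < V) : ∃ L, 0 ≤ L ∧ ∀ s x y x' y',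
    |sp V s x y - sp V s x' y'| ≤ L * (|x - x'| + |y - y'|) ∧
    |sq' V s x y - sq' V s x' y'| ≤ L * (|x - x'| + |y - y'|) := by
  choose L1 h1 h1' using fun e => (BL_PhiXY hV (adm e)).1.2
  choose L2 h2 h2' using fun e => (BL_PhiXY hV (adm e)).2.2
  have h0 : 0 ≤ ∑ e, (L1 e + L2 e) := Finset.sum_nonneg fun e _ => add_nonneg (h1 e) (h2 e)
  refine ⟨∑ e, (L1 e + L2 e), h0, fun s x y x' y' => ?_⟩
  cases s with
  | inr z => simp only [sp, sq', sub_self, abs_zero]; constructor <;> positivity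
  | inl e =>
    have h3 : L1 e + L2 e ≤ ∑ e, (L1 e + L2 e) :=
      Finset.single_le_sum (f := fun e => L1 e + L2 e) (fun e _ => add_nonneg (h1 e) (h2 e))
        (Finset.mem_univ e)
    have a1 := h1' e (fl (src e) x) y (fl (src e) x') y'
    have a2 := h2' e (fl (src e) x) y (fl (src e) x') y'
    rw [fl_sub] at a1 a2
    have h4 : 0 ≤ |x - x'| + |y - y'| := by positivity
    have := h1 e
    have := h2 e
    constructor
    · have : sp V (.inl e) x y - sp V (.inl e) x' y' = bb (src e)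
          (PhiX V (jj e) (cc e) (fl (src e) x) y - PhiX V (jj e) (cc e) (fl (src e) x') y') := by
        simp only [sp]; cases src e <;> simp only [bb]; ring
      rw [this, abs_bb]
      nlinarith
    · simp only [sq']; nlinarith

/-- The Fibonacci chain system. -/
noncomputable def sys (hV : 0 < V) : Sys Step where
  f := sf V
  p := sp V
  q := sq' V
  κ := kap V
  L := (exists_L hV).choose
  good s := ∃ e, s = .inl e
  a := c0 V
  c := c1 V / 2
  κ_pos := kap_pos hV
  κ_lt := kap_lt_one hV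
  L_nn := (exists_L hV).choose_spec.1
  c_pos := by have := c1_pos hV; positivity
  mem s x y := by
    cases s with
    | inl e => exact (Phi_sol hV (adm e) _ _).1
    | inr z => simp [sf, pi_pos.le]
  dx s x y := by
    cases s with
    | inr z => exact hasDerivAt_const _ _
    | inl e =>
      have h := hasDerivAt_Phi_x hV (adm e) (fl (src e) x) y
      simp only [sf, sp]
      generalize src e = t at h ⊢
      cases t with
      | false => exact h
      | true => exact (h.comp x ((hasDerivAt_id x).const_sub π)).congr_deriv (by simp [bb, fl])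
  dy s x y := by
    cases s with
    | inr z => exact hasDerivAt_const _ _
    | inl e => exact hasDerivAt_Phi_y hV (adm e) _ y
  p_le s x y := by
    cases s with
    | inr z => have := kap_pos hV; simp only [sp, abs_zero]; positivity
    | inl e => simp only [sp, abs_bb]; exact abs_PhiX_le hV (adm e) _ _
  q_le s x y := by
    cases s with
    | inr z => have := kap_pos hV; simp only [sq', abs_zero]; positivity
    | inl e => exact abs_PhiY_le hV (adm e) _ _
  p_lip s x y x' y' := ((exists_L hV).choose_spec.2 s x y x' y').1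
  q_lip s x y x' y' := ((exists_L hV).choose_spec.2 s x y x' y').2
  good_mem s x y h := by
    obtain ⟨e, rfl⟩ := h
    exact (Phi_sol hV (adm e) _ _).mem hV (adm e)
  good_q s x y h hy := by
    obtain ⟨e, rfl⟩ := h
    have := c1_le_PhiY hV (adm e) (fl (src e) x) hy
    simp only [sq']; linarith

theorem ww_cos (t x : ℝ) : ww V (cos t) (cos x) = W V t x := by
  unfold ww W
  rw [mul_pow, Real.sin_sq, Real.sin_sq]

theorem rot {t r β f g : ℝ} (h1 : sin t * f = r * sin β) (h2 : g = r * cos β) :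
    sin t * (cos t * f - g) = r * sin (β - t) ∧
      (1 - cos t ^ 2) * f + cos t * g = r * cos (β - t) := by
  rw [sin_sub, cos_sub, ← Real.sin_sq]
  constructor
  · linear_combination cos t * h1 - sin t * h2
  · linear_combination sin t * h1 + cos t * h2

theorem mv_of_sol (hV : 0 < V) {e : Edge} {x y t : ℝ} (h : Sol V (jj e) (cc e) x y t) :
    Mv V e (cos t) (cos x) (cos y) := by
  have hs : 0 < sin t := (sin_c0_pos hV).trans_le (sin_c0_le (h.mem hV (adm e)))
  obtain ⟨a1, a2⟩ := sin_Lam hV t x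
  obtain ⟨b1, b2⟩ := sin_Lam hV t y
  rw [← ww_cos] at a2 b2
  have r1 := rot a1.symm a2.symm
  have r2 := rot r1.1 r1.2
  have r3 := rot r2.1 r2.2
  change sin t * f2 V (cos t) (cos x) = _ ∧ g2 V (cos t) (cos x) = _ at r2
  change sin t * f3 V (cos t) (cos x) = _ ∧ g3 V (cos t) (cos x) = _ at r3
  have hG := h.2
  have l1 := abs_le.1 (abs_Lam_le hV t x)
  have l2 := abs_le.1 (abs_Lam_le hV t y)
  have l3 := Real.arctan_lt_pi_div_two (1 / √V)
  have hp := pi_pos
  have two : jj e = 2 → cc e = π / 2 → f2 V (cos t) (cos x) = -cos y ∧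
      g2 V (cos t) (cos x) = -ww V (cos t) (cos y) := by
    intro e1 e2
    have : Lam V t x - t - t = Lam V t y - π := by
      unfold Gf at hG; rw [e1, e2] at hG; linarith
    rw [this, sin_sub_pi, cos_sub_pi] at r2
    refine ⟨mul_left_cancel₀ hs.ne' ?_, ?_⟩ <;> linarith [r2.1, r2.2]
  cases e with
  | ba => exact two rfl rfl
  | ab => exact two rfl rfl
  | one =>
    have : Lam V t x - t - t - t = Lam V t y - π := by
      simp only [Gf, jj, cc] at hG; linarith
    rw [this, sin_sub_pi, cos_sub_pi] at r3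
    refine ⟨mul_left_cancel₀ hs.ne' (by linarith [r3.1]), by linarith [r3.2], ?_⟩
    have := Real.cos_lt_cos_of_nonneg_of_le_pi (x := t) (y := π - π / 3) h.1.1 (by linarith)
      (by linarith [l1.2, l2.1])
    rw [cos_pi_sub, cos_pi_div_three] at this
    linarith
  | two =>
    have : Lam V t x - t - t - t = Lam V t y - 2 * π := by
      simp only [Gf, jj, cc] at hG; linarith
    rw [this, sin_sub_two_pi, cos_sub_two_pi] at r3
    refine ⟨mul_left_cancel₀ hs.ne' (by linarith [r3.1]), by linarith [r3.2], ?_⟩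
    have := Real.cos_lt_cos_of_nonneg_of_le_pi (x := π / 3) (y := t) (by linarith) h.1.2
      (by linarith [l1.1, l2.2])
    rwa [cos_pi_div_three] at this

theorem X_sol (hV : 0 < V) {e : ℤ → Step} {i : ℤ} {s : Edge} (h : e i = .inl s) :
    Sol V (jj s) (cc s) (fl (src s) ((sys hV).X e (i - 1))) ((sys hV).X e (i + 1))
      ((sys hV).X e i) := by
  rw [(sys hV).X_eq e i, h]
  exact Phi_sol hV (adm s) _ _

theorem X_const (hV : 0 < V) {e : ℤ → Step} {i : ℤ} {z : ℝ} (h : e i = .inr z)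
    (hz : z ∈ Set.Icc 0 π) : (sys hV).X e i = z := by
  rw [(sys hV).X_eq e i, h]
  change max 0 (min z π) = z
  rw [min_eq_left hz.2, max_eq_right hz.1]

/-- The itinerary `e` reads `η` from position `i` on. -/
def Rd (e : ℤ → Step) (i : ℤ) (η : Stream' Step) : Prop := ∀ j : ℕ, e (i + j) = η.get j

theorem Rd.cons {e : ℤ → Step} {i : ℤ} {s : Step} {η : Stream' Step} (h : Rd e i (Stream'.cons s η)) :
    e i = s ∧ Rd e (i + 1) η :=
  ⟨by simpa using h 0, fun j => by
    have := h (j + 1)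
    push_cast at this
    rw [add_assoc, add_comm 1, this]; rfl⟩

theorem chain_run (hV : 0 < V) {e : ℤ → Step} {η : Stream' Step} {u : List Edge} :
    ∀ {i : ℤ} {t : Bool}, Rd e i (u.map .inl ++ₛ η) → Val u t →
      Run V u t (cos ((sys hV).X e i)) (bb t (cos ((sys hV).X e (i - 1))))
        (cos ((sys hV).X e (i + u.length))) := by
  have hb : ∀ t x, bb t (cos x) ^ 2 ≤ 1 := fun t x => by
    rw [← cos_fl]; exact Real.cos_sq_le_one _
  induction u with
  | nil => intro i t _ _; exact ⟨Real.cos_sq_le_one _, hb _ _, by simp⟩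
  | cons s u ih =>
    intro i t h hv
    obtain ⟨h1, h2⟩ := Rd.cons h
    obtain ⟨rfl, hv⟩ := hv
    refine ⟨Real.cos_sq_le_one _, hb _ _, rfl, cos ((sys hV).X e (i + 1)), ?_, ?_⟩
    · rw [← cos_fl]; exact mv_of_sol hV (X_sol hV h1)
    · have := ih h2 hv
      rw [add_sub_cancel_right] at this
      simpa [add_assoc, add_comm (1 : ℤ)] using this

/-- One-sided chain with boundary value `y`. -/
def ch (y : ℝ) (η : Stream' Step) : ℤ → Step := fun i => if 0 ≤ i then η.get i.toNat else .inr y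

theorem rd_ch (y : ℝ) (η : Stream' Step) : Rd (ch y η) 0 η := fun j => by simp [ch]

theorem ch_left {y : ℝ} {u : List Step} {η η' : Stream' Step} {i : ℤ} (h : i < u.length) :
    ch y (u ++ₛ η) i = ch y (u ++ₛ η') i := by
  unfold ch
  split_ifs with h0
  · have : i.toNat < u.length := by omega
    rw [Stream'.get_append_left _ _ _ this, Stream'.get_append_left _ _ _ this]
  · rfl

theorem ch_right {y y' : ℝ} {u : List Step} {η : Stream' Step} {j : ℤ} (h : 0 ≤ j) :
    ch y (u ++ₛ η) (u.length + j) = ch y' η j := by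
  unfold ch
  rw [if_pos (by omega), if_pos h, show ((u.length : ℤ) + j).toNat = u.length + j.toNat by omega,
    Stream'.get_append_right]

theorem X_ch_neg (hV : 0 < V) {y : ℝ} (hy : y ∈ Set.Icc 0 π) (η : Stream' Step) :
    (sys hV).X (ch y η) (0 - 1) = y := X_const hV (by simp [ch]) hy

theorem good_ch (hV : 0 < V) (y : ℝ) (η : Stream' Edge) :
    (sys hV).GoodF (ch y (η.map .inl)) 0 := fun j hj => ⟨η.get j.toNat, by simp [ch, hj]⟩

/-! Letters. -/

def fe : Fin 3 → List Edge := ![[.one], [.two], [.ba, .ab]]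

def hd : Fin 3 → Edge := ![.one, .two, .ba]

def fS (ω : Stream' (Fin 3)) : Stream' Edge :=
  Stream'.corec (fun p : Bool × Stream' (Fin 3) => if p.1 then Edge.ab else hd p.2.head)
    (fun p => if p.1 then (false, p.2.tail) else if p.2.head = 2 then (true, p.2)
      else (false, p.2.tail)) (false, ω)

theorem fS_cons (a : Fin 3) (ω : Stream' (Fin 3)) : fS (Stream'.cons a ω) = fe a ++ₛ fS ω := by
  unfold fS
  rw [Stream'.corec_eq]
  fin_cases a
  · rfl
  · rfl
  · rw [Stream'.corec_eq]; rfl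

def fw (w : List (Fin 3)) : List Edge := w.flatMap fe

theorem fS_append (w : List (Fin 3)) (ω : Stream' (Fin 3)) : fS (w ++ₛ ω) = fw w ++ₛ fS ω := by
  induction w with
  | nil => rfl
  | cons a w ih =>
    rw [Stream'.cons_append_stream, fS_cons, ih, fw, fw, List.flatMap_cons,
      Stream'.append_append_stream]

theorem fw_append (w w' : List (Fin 3)) : fw (w ++ w') = fw w ++ fw w' := List.flatMap_append

theorem fw_length (w : List (Fin 3)) : w.length ≤ (fw w).length := by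
  induction w with
  | nil => simp
  | cons a w ih =>
    have : 1 ≤ (fe a).length := by fin_cases a <;> simp [fe]
    simp only [fw, List.flatMap_cons, List.length_append, List.length_cons] at *
    omega

theorem fw_replicate (m : ℕ) : fw (List.replicate m 0) = List.replicate m .one := by
  induction m with
  | zero => rfl
  | succ m ih => rw [List.replicate_succ, List.replicate_succ, ← ih]; rfl

theorem fS_head (ω : Stream' (Fin 3)) : (fS ω).head = hd ω.head := rfl

theorem val_take (n : ℕ) : ∀ ω, Val ((fS ω).take n) true := by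
  induction n using Nat.strong_induction_on with
  | _ n ih =>
    intro ω
    rw [← ω.eta, fS_cons]
    generalize ω.head = a
    match n with
    | 0 => trivial
    | 1 => fin_cases a <;> exact ⟨rfl, trivial⟩
    | n + 2 =>
      fin_cases a
      · exact ⟨rfl, ih (n + 1) (by omega) _⟩
      · exact ⟨rfl, ih (n + 1) (by omega) _⟩
      · exact ⟨rfl, rfl, ih n (by omega) _⟩

def rt : Bool → Stream' (Fin 3) → Stream' Edge
  | true, ω => fS ω
  | false, ω => Stream'.cons .ab (fS ω)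

theorem val_ext {u : List Edge} : ∀ {t : Bool}, Val u t → ∃ ω η, rt t ω = u ++ₛ η := by
  induction u with
  | nil => intro t _; exact ⟨Stream'.const 0, _, rfl⟩
  | cons e u ih =>
    rintro t ⟨rfl, h⟩
    obtain ⟨ω, η, h⟩ := ih h
    cases e with
    | one => exact ⟨Stream'.cons 0 ω, η, by
        rw [Stream'.cons_append_stream, ← h]; exact fS_cons 0 ω⟩
    | two => exact ⟨Stream'.cons 1 ω, η, by
        rw [Stream'.cons_append_stream, ← h]; exact fS_cons 1 ω⟩
    | ba => exact ⟨Stream'.cons 2 ω, η, by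
        rw [Stream'.cons_append_stream, ← h]; exact fS_cons 2 ω⟩
    | ab => exact ⟨ω, η, by rw [Stream'.cons_append_stream, ← h]; rfl⟩

theorem runS_ch (hV : 0 < V) {y : ℝ} (hy : y ∈ Set.Icc 0 π) (ω : Stream' (Fin 3)) :
    RunS V (fS ω) true (cos ((sys hV).X (ch y ((fS ω).map .inl)) 0)) (-cos y) := by
  intro n
  have h := rd_ch y ((fS ω).map .inl)
  nth_rewrite 2 [← Stream'.append_take_drop n (fS ω)] at h
  rw [Stream'.map_append_stream] at h
  have := chain_run hV h (val_take n ω)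
  rw [X_ch_neg hV hy] at this
  exact ⟨_, this⟩

end Pool.Agent.Lib.MP_5d78b4_mp
end

-- part Pool.Agent.Lib.MP_5d78b4_mp.Cover
section

set_option autoImplicit false
open Filter Topology Real

namespace Pool.Agent.Lib.MP_5d78b4_mp

variable {lam : ℝ}

theorem hVl (hl : 0 < lam) : 0 < (lam / 2) ^ 2 := by positivity

/-- The coding map on edge streams. -/
noncomputable def PiE {V : ℝ} (hV : 0 < V) (η : Stream' Edge) : ℝ :=
  2 * cos ((sys hV).X (ch 0 (η.map .inl)) 0)

def off (lam : ℝ) : Bool → ℝ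
  | true => lam
  | false => 0

noncomputable def piR (hl : 0 < lam) (t : Bool) (ω : Stream' (Fin 3)) : ℝ :=
  off lam t + PiE (hVl hl) (rt t ω)

theorem st_root (hl : 0 < lam) (t : Bool) (a : ℝ) :
    St ((lam / 2) ^ 2) (xs lam (off lam t + 2 * a)) t 0 1 (bb t 1) a (bb t 1) := by
  have hs : 0 < lam / 2 := by positivity
  cases t
  · refine ⟨?_, ?_, ?_⟩ <;> simp only [xs, off, bb, f1, ww_one hs, zero_add] <;> ring
  · refine ⟨?_, ?_, ?_⟩ <;> simp only [xs, off, bb, f1, ww_neg, ww_one hs, zero_add] <;> ring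

theorem bb_one_sq (t : Bool) : bb t 1 ^ 2 = 1 := by cases t <;> simp [bb]

theorem root_run (hl : 0 < lam) {t : Bool} {u : List Edge} (hv : Val u t) (η : Stream' Step) :
    Run ((lam / 2) ^ 2) u t (cos ((sys (hVl hl)).X (ch 0 (u.map .inl ++ₛ η)) 0)) (bb t 1)
      (cos ((sys (hVl hl)).X (ch 0 (u.map .inl ++ₛ η)) u.length)) := by
  have := chain_run (hVl hl) (rd_ch 0 (u.map .inl ++ₛ η)) hv
  rwa [X_ch_neg (hVl hl) ⟨le_rfl, pi_pos.le⟩, cos_zero, zero_add] at this

theorem root_trace (hl : 0 < lam) {t : Bool} {u : List Edge} {a z : ℝ}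
    (h : Run ((lam / 2) ^ 2) u t a (bb t 1) z) :
    xs lam (off lam t + 2 * a) (pos t + lev u) = sg u 1 (bb t 1) * z := by
  have := run_trace (x := xs lam (off lam t + 2 * a)) (fun k => rfl) (by norm_num) (bb_one_sq t)
    (st_root hl t a) h
  rwa [zero_add] at this

theorem piR_freq (hl : 0 < lam) (ω : Stream' (Fin 3)) :
    ∃ᶠ k in atTop, |xs lam (piR hl true ω) k| ≤ 1 := by
  rw [frequently_atTop]
  intro n
  refine ⟨pos true + lev ((fS ω).take n), ?_, ?_⟩
  · have := (length_le_lev ((fS ω).take n)).1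
    rw [Stream'.length_take] at this
    omega
  have h := root_trace hl (root_run hl (val_take n ω) (((fS ω).drop n).map .inl))
  rw [← Stream'.map_append_stream, Stream'.append_take_drop] at h
  have h1 : |sg ((fS ω).take n) 1 (bb true 1)| = 1 := by
    have := sg_sq ((fS ω).take n) (ε := 1) (by norm_num) (bb_one_sq true)
    rcases sq_eq_one_iff.1 this with h | h <;> simp [h]
  unfold piR PiE rt
  rw [h, abs_mul, h1, one_mul]
  exact Real.abs_cos_le_one _

noncomputable def aF (hl : 0 < lam) (t : Bool) (c : ℝ) (u : List Edge) : ℝ :=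
  cos ((sys (hVl hl)).X
    (ch 0 (u.map .inl ++ₛ Stream'.const (.inr (arccos (sg u 1 (bb t 1) * c))))) 0)

theorem aF_spec (hl : 0 < lam) {t : Bool} {c : ℝ} (hc : |c| ≤ 1) {u : List Edge} (hv : Val u t) :
    (∃ z, Run ((lam / 2) ^ 2) u t (aF hl t c u) (bb t 1) z) ∧
      xs lam (off lam t + 2 * aF hl t c u) (pos t + lev u) = c := by
  have h := root_run hl hv (Stream'.const (.inr (arccos (sg u 1 (bb t 1) * c))))
  refine ⟨⟨_, h⟩, ?_⟩
  have h2 := sg_sq u (ε := 1) (by norm_num) (bb_one_sq t)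
  have h3 : |sg u 1 (bb t 1) * c| ≤ 1 := by
    rw [← sq_le_one_iff_abs_le_one, mul_pow, h2, one_mul, sq_le_one_iff_abs_le_one]; exact hc
  unfold aF
  rw [root_trace hl h, X_const (hVl hl) (z := arccos (sg u 1 (bb t 1) * c)) _
    ⟨Real.arccos_nonneg _, Real.arccos_le_pi _⟩, Real.cos_arccos (abs_le.1 h3).1 (abs_le.1 h3).2]
  · linear_combination c * h2
  · have := ch_right (y := 0) (y' := 0) (u := u.map .inl)
      (η := Stream'.const (.inr (arccos (sg u 1 (bb t 1) * c)))) (j := 0) le_rfl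
    simpa [ch] using this

theorem cover_fin (hl : 0 < lam) {E : ℝ} {n : ℕ} (hE : |xs lam E (n + 3)| ≤ 1) :
    ∃ t u, Val u t ∧ pos t + lev u = n + 3 ∧ E = off lam t + 2 * aF hl t (xs lam E (n + 3)) u := by
  classical
  set c := xs lam E (n + 3) with hc
  obtain ⟨s, hs, hv⟩ := exists_pathsB (n + 1)
  obtain ⟨s', hs', hv'⟩ := exists_pathsB n
  have hv2 : ∀ u ∈ s', Val (.ab :: u) false ∧ lev (.ab :: u) = n + 2 := fun u hu =>
    ⟨⟨rfl, (hv' u hu).1⟩, by simp only [lev, inc, (hv' u hu).2]; omega⟩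
  have := mem_of_roots (lam := lam) (c := c) (E := E) (k := n + 2)
    (s := s.image (fun u => off lam true + 2 * aF hl true c u) ∪
      s'.image (fun u => off lam false + 2 * aF hl false c (.ab :: u))) ?_ ?_ rfl
  · simp only [Finset.mem_union, Finset.mem_image] at this
    rcases this with ⟨u, hu, h⟩ | ⟨u, hu, h⟩
    · exact ⟨true, u, (hv u hu).1, by rw [(hv u hu).2, pos]; omega, h.symm⟩
    · exact ⟨false, _, (hv2 u hu).1, by rw [(hv2 u hu).2, pos]; omega, h.symm⟩
  · rw [Finset.card_union_of_disjoint, Finset.card_image_of_injOn, Finset.card_image_of_injOn,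
      hs, hs', Nat.fib_add_two (n := n + 1), add_comm]
    · intro u hu u' hu' h
      obtain ⟨z, r⟩ := (aF_spec hl hE (hv2 u hu).1).1
      obtain ⟨z', r'⟩ := (aF_spec hl hE (hv2 u' hu').1).1
      have e : aF hl false c (.ab :: u) = aF hl false c (.ab :: u') := by
        simp only at h; linarith
      rw [e] at r
      simpa using run_inj (hVl hl) r r' (by rw [(hv2 u hu).2, (hv2 u' hu').2])
    · intro u hu u' hu' h
      obtain ⟨z, r⟩ := (aF_spec hl hE (hv u hu).1).1
      obtain ⟨z', r'⟩ := (aF_spec hl hE (hv u' hu').1).1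
      have e : aF hl true c u = aF hl true c u' := by
        simp only at h; linarith
      rw [e] at r
      exact run_inj (hVl hl) r r' (by rw [(hv u hu).2, (hv u' hu').2])
    · simp only [Finset.disjoint_left, Finset.mem_image]
      rintro x ⟨u, hu, rfl⟩ ⟨u', hu', h⟩
      obtain ⟨z, r⟩ := (aF_spec hl hE (hv u hu).1).1
      obtain ⟨z', r'⟩ := (aF_spec hl hE (hv2 u' hu').1).1
      have e : aF hl false c (.ab :: u') = aF hl true c u + lam / 2 := by
        simp only [off] at h; linarith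
      rw [e] at r'
      exact run_root (by positivity) r' r (by rw [(hv u hu).2, (hv2 u' hu').2])
  · simp only [Finset.mem_union, Finset.mem_image]
    rintro y (⟨u, hu, rfl⟩ | ⟨u, hu, rfl⟩)
    · have := (aF_spec hl hE (hv u hu).1).2
      rwa [(hv u hu).2, pos, show 2 + (n + 1) = n + 2 + 1 by omega] at this
    · have := (aF_spec hl hE (hv2 u hu).1).2
      rwa [(hv2 u hu).2, pos, show 1 + (n + 2) = n + 2 + 1 by omega] at this

theorem cover (hl : 0 < lam) {E : ℝ} (hE : ∀ k, |xs lam E (k + 1)| ≤ 1 ∨ |xs lam E (k + 2)| ≤ 1) :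
    E ∈ closure (Set.range (piR hl true) ∪ Set.range (piR hl false)) := by
  set S := sys (hVl hl)
  rw [Metric.mem_closure_iff]
  intro ε hε
  have ht := (tendsto_pow_atTop_nhds_zero_of_lt_one S.κ_pos.le S.κ_lt).const_mul (2 * π)
  rw [mul_zero] at ht
  obtain ⟨N, hN⟩ := eventually_atTop.1 (ht.eventually (gt_mem_nhds hε))
  obtain ⟨n, hn, h⟩ : ∃ n, 2 * N ≤ n ∧ |xs lam E (n + 3)| ≤ 1 := by
    rcases hE (2 * N + 2) with h | h
    · exact ⟨2 * N, le_rfl, h⟩
    · exact ⟨2 * N + 1, by omega, h⟩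
  obtain ⟨t, u, hv, hp, e⟩ := cover_fin hl h
  obtain ⟨ω, η, hω⟩ := val_ext hv
  refine ⟨piR hl t ω, by cases t <;> simp, ?_⟩
  have hu : N ≤ u.length := by
    have := (length_le_lev u).2
    have : pos t ≤ 2 := by cases t <;> simp [pos]
    omega
  refine lt_of_le_of_lt ?_ (hN _ hu)
  rw [e, Real.dist_eq]
  unfold piR PiE aF
  rw [hω, Stream'.map_append_stream, add_sub_add_left_eq_sub, ← mul_sub, abs_mul, abs_two, mul_assoc]
  refine mul_le_mul_of_nonneg_left ((Real.abs_cos_sub_cos_le _ _).trans ?_) zero_le_two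
  exact S.X_loc fun j _ h2 => ch_left (by simpa using h2)

end Pool.Agent.Lib.MP_5d78b4_mp
end

-- part Pool.Agent.Lib.MP_5d78b4_mp.Sep
section

set_option autoImplicit false
open Filter Topology Real

namespace Pool.Agent.Lib.MP_5d78b4_mp

variable {V : ℝ}

def cE (y : ℝ) (η : Stream' Edge) : ℤ → Step := ch y (η.map .inl)

theorem cE_left {y : ℝ} {u : List Edge} {η η' : Stream' Edge} {i : ℤ} (h : i < u.length) :
    cE y (u ++ₛ η) i = cE y (u ++ₛ η') i := by
  unfold cE
  rw [Stream'.map_append_stream, Stream'.map_append_stream]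
  exact ch_left (by simpa using h)

theorem cE_right {y y' : ℝ} {u : List Edge} {η : Stream' Edge} {j : ℤ} (h : 0 ≤ j) :
    cE y (u ++ₛ η) (u.length + j) = cE y' η j := by
  unfold cE
  rw [Stream'.map_append_stream]
  simpa using ch_right (y := y) (y' := y') (u := u.map .inl) (η := η.map .inl) h

theorem cE_fut {u u' : List Edge} {η : Stream' Edge} {j : ℤ} (h : 0 ≤ j) :
    cE 0 (u ++ₛ η) (u.length + j) = cE 0 (u' ++ₛ η) (u'.length + j) := by
  rw [cE_right (y' := 0) h, cE_right (y' := 0) h]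

theorem good_cE (hV : 0 < V) (y : ℝ) (η : Stream' Edge) : (sys hV).GoodF (cE y η) 0 :=
  good_ch hV y η

noncomputable def Th (hV : 0 < V) (y : ℝ) (ω : Stream' (Fin 3)) : ℝ := (sys hV).X (cE y (fS ω)) 0

theorem Th_ne (hV : 0 < V) {y : ℝ} (hy : y ∈ Set.Icc 0 π) {ω ω' : Stream' (Fin 3)}
    (h : ω.head ≠ ω'.head) : Th hV y ω ≠ Th hV y ω' := by
  intro he
  have h1 := runS_ch hV hy ω
  have h2 := runS_ch hV hy ω'
  unfold Th cE at he
  rw [he] at h1
  have := runS_head hV h1 h2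
  rw [fS_head, fS_head] at this
  revert h this
  generalize ω.head = a
  generalize ω'.head = b
  revert a b
  decide

theorem Th_lip (hV : 0 < V) {y y' : ℝ} (hy : y ∈ Set.Icc 0 π) (hy' : y' ∈ Set.Icc 0 π)
    (ω : Stream' (Fin 3)) : |Th hV y ω - Th hV y' ω| ≤ |y - y'| := by
  have := (sys hV).X_fut (e := cE y (fS ω)) (e' := cE y' (fS ω)) (i := 0) (i' := 0)
    (fun j hj => by simp [cE, ch, hj])
  unfold cE at this
  rw [X_ch_neg hV hy, X_ch_neg hV hy'] at this
  exact this.trans (mul_le_of_le_one_left (abs_nonneg _) (sys hV).κ_lt.le)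

theorem Th_loc (hV : 0 < V) (y : ℝ) {ω ω' : Stream' (Fin 3)} {R : ℕ}
    (h : ∀ j < R, ω.get j = ω'.get j) : |Th hV y ω - Th hV y ω'| ≤ π * (sys hV).κ ^ R := by
  have e : ω.take R = ω'.take R := by
    apply List.ext_getElem (by simp)
    intro i h1 h2
    simp only [Stream'.take_get]
    exact h i (by simpa using h1)
  unfold Th
  rw [← ω.append_take_drop R, ← ω'.append_take_drop R, e, fS_append, fS_append]
  refine (sys hV).X_loc fun j _ h2 => cE_left ?_
  have := fw_length (ω'.take R)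
  rw [Stream'.length_take] at this
  omega

theorem Th_cont (hV : 0 < V) :
    Continuous (fun p : Set.Icc (0 : ℝ) π × (ℕ → Fin 3) => Th hV p.1 p.2) := by
  rw [continuous_iff_continuousAt]
  intro p
  rw [ContinuousAt, Metric.tendsto_nhds]
  intro ε hε
  have ht := (tendsto_pow_atTop_nhds_zero_of_lt_one (sys hV).κ_pos.le (sys hV).κ_lt).const_mul π
  rw [mul_zero] at ht
  obtain ⟨R, hR⟩ := (ht.eventually (gt_mem_nhds (half_pos hε))).exists
  have h1 : ∀ᶠ q : Set.Icc (0 : ℝ) π × (ℕ → Fin 3) in 𝓝 p, |(q.1 : ℝ) - p.1| < ε / 2 := by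
    have : Continuous (fun q : Set.Icc (0 : ℝ) π × (ℕ → Fin 3) => |(q.1 : ℝ) - p.1|) := by fun_prop
    exact this.continuousAt.eventually_lt continuousAt_const (by simpa using hε)
  have h2 : ∀ᶠ q : Set.Icc (0 : ℝ) π × (ℕ → Fin 3) in 𝓝 p, ∀ j ∈ Finset.range R, q.2 j = p.2 j := by
    rw [eventually_all_finset]
    intro j _
    have : Continuous (fun q : Set.Icc (0 : ℝ) π × (ℕ → Fin 3) => q.2 j) := by fun_prop
    exact this.continuousAt.eventually (p := fun a => a = p.2 j) (by simp [nhds_discrete])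
  filter_upwards [h1, h2] with q a1 a2
  have b1 := Th_lip hV q.1.2 p.1.2 q.2
  have b2 := Th_loc hV p.1 (ω := q.2) (ω' := p.2) (R := R) fun j hj => a2 j (by simpa using hj)
  rw [Real.dist_eq]
  have := abs_sub_le (Th hV q.1 q.2) (Th hV p.1 q.2) (Th hV p.1 p.2)
  linarith

theorem exists_sep (hV : 0 < V) : ∃ c, 0 < c ∧ ∀ y ∈ Set.Icc (0 : ℝ) π, ∀ ω ω' : Stream' (Fin 3),
    ω.head ≠ ω'.head → 2 * c ≤ |Th hV y ω - Th hV y ω'| := by
  have hc : Continuous (fun p : Set.Icc (0 : ℝ) π × (ℕ → Fin 3) × (ℕ → Fin 3) =>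
      |Th hV p.1 p.2.1 - Th hV p.1 p.2.2|) :=
    (((Th_cont hV).comp (f := fun p : Set.Icc (0 : ℝ) π × (ℕ → Fin 3) × (ℕ → Fin 3) => (p.1, p.2.1))
      (by fun_prop)).sub ((Th_cont hV).comp
      (f := fun p : Set.Icc (0 : ℝ) π × (ℕ → Fin 3) × (ℕ → Fin 3) => (p.1, p.2.2)) (by fun_prop))).abs
  have hK : IsCompact {p : Set.Icc (0 : ℝ) π × (ℕ → Fin 3) × (ℕ → Fin 3) | p.2.1 0 ≠ p.2.2 0} := by
    refine IsClosed.isCompact ?_
    have : Continuous (fun p : Set.Icc (0 : ℝ) π × (ℕ → Fin 3) × (ℕ → Fin 3) => (p.2.1 0, p.2.2 0)) := by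
      fun_prop
    exact (isClosed_discrete {q : Fin 3 × Fin 3 | q.1 ≠ q.2}).preimage this
  obtain ⟨c, h0, h⟩ := hK.exists_forall_le' hc.continuousOn (a := 0)
    (fun p hp => abs_pos.2 (sub_ne_zero.2 (Th_ne hV p.1.2 hp)))
  exact ⟨c / 2, by positivity, fun y hy ω ω' hω => by
    have := h (⟨y, hy⟩, ω, ω') hω
    linarith⟩

def ω0 : Stream' (Fin 3) := Stream'.const 0

def ω1 : Stream' (Fin 3) := Stream'.const 1

theorem ω01 : ω0.head ≠ ω1.head := by decide

theorem Th_lt (hV : 0 < V) {y : ℝ} (hy : y ∈ Set.Icc 0 π) : Th hV y ω0 < Th hV y ω1 := by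
  have hp := pi_pos
  have hm : π / 2 ∈ Set.Icc 0 π := ⟨by linarith, by linarith⟩
  have h0 : ∀ t, Lam V t (fl true (π / 2)) = 0 := fun t => by simp [Lam, fl]
  have l3 := Real.arctan_lt_pi_div_two (1 / √V)
  have h1 : Th hV (π / 2) ω0 < π / 2 := by
    have := (X_sol hV (e := cE (π / 2) (fS ω0)) (i := 0) (s := .one) rfl).2
    unfold cE at this
    rw [X_ch_neg hV hm] at this
    simp only [Gf, jj, cc, src, h0] at this
    have l := abs_le.1 (abs_Lam_le hV ((sys hV).X (ch (π / 2) ((fS ω0).map .inl)) 0)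
      ((sys hV).X (ch (π / 2) ((fS ω0).map .inl)) (0 + 1)))
    unfold Th cE
    linarith [l.1]
  have h2 : π / 2 < Th hV (π / 2) ω1 := by
    have := (X_sol hV (e := cE (π / 2) (fS ω1)) (i := 0) (s := .two) rfl).2
    unfold cE at this
    rw [X_ch_neg hV hm] at this
    simp only [Gf, jj, cc, src, h0] at this
    have l := abs_le.1 (abs_Lam_le hV ((sys hV).X (ch (π / 2) ((fS ω1).map .inl)) 0)
      ((sys hV).X (ch (π / 2) ((fS ω1).map .inl)) (0 + 1)))
    unfold Th cE
    linarith [l.2]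
  by_contra hc
  have hcont : ContinuousOn (fun y => Th hV y ω1 - Th hV y ω0) (Set.Icc 0 π) := by
    have : ∀ ω, ContinuousOn (fun y => Th hV y ω) (Set.Icc 0 π) := fun ω =>
      (LipschitzOnWith.of_dist_le_mul (K := 1) fun a ha b hb => by
        simpa [Real.dist_eq] using Th_lip hV ha hb ω).continuousOn
    exact (this _).sub (this _)
  obtain ⟨z, hz, e⟩ := isPreconnected_Icc.intermediate_value hy hm hcont
    (show (0 : ℝ) ∈ Set.Icc _ _ from ⟨by linarith [not_lt.1 hc], by linarith⟩)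
  exact Th_ne hV hz ω01 (by simp only at e; linarith)

/-- Difference of two orbits at the end of the common word. -/
noncomputable def DD (hV : 0 < V) (u : List Edge) (η η' : Stream' Edge) : ℝ :=
  (sys hV).X (cE 0 (u ++ₛ η)) u.length - (sys hV).X (cE 0 (u ++ₛ η')) u.length

theorem DD_near (hV : 0 < V) (u : List Edge) (ω ω' : Stream' (Fin 3)) : ∃ y ∈ Set.Icc (0 : ℝ) π,
    |DD hV u (fS ω) (fS ω') - (Th hV y ω - Th hV y ω')| ≤
      (sys hV).κ * |DD hV u (fS ω) (fS ω')| := by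
  set S := sys hV
  have hy := S.X_mem (cE 0 (u ++ₛ fS ω)) (u.length - 1)
  refine ⟨_, hy, ?_⟩
  set y := S.X (cE 0 (u ++ₛ fS ω)) (u.length - 1) with hy'
  have h1 := S.X_fut (e := cE 0 (u ++ₛ fS ω)) (e' := cE y (fS ω)) (i := u.length) (i' := 0)
    (fun j hj => by rw [zero_add]; exact cE_right hj)
  have h2 := S.X_fut (e := cE 0 (u ++ₛ fS ω')) (e' := cE y (fS ω')) (i := u.length) (i' := 0)
    (fun j hj => by rw [zero_add]; exact cE_right hj)
  have h3 := S.rho_ratio (e := cE 0 (u ++ₛ fS ω)) (e' := cE 0 (u ++ₛ fS ω')) (i := u.length - 1)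
    (fun j hj => cE_left (by omega))
  have e1 : ∀ η, S.X (cE y η) (0 - 1) = y := fun η => X_ch_neg hV hy _
  rw [e1, ← hy', sub_self, abs_zero, mul_zero, abs_nonpos_iff, sub_eq_zero] at h1
  rw [e1, abs_sub_comm _ y, hy', h3, abs_mul, sub_add_cancel] at h2
  have h4 := S.abs_rho_le (cE 0 (u ++ₛ fS ω)) (cE 0 (u ++ₛ fS ω')) (u.length - 1)
  unfold DD Th
  rw [← h1, sub_sub_sub_cancel_left, abs_sub_comm]
  refine h2.trans (mul_le_mul_of_nonneg_left ?_ S.κ_pos.le)
  exact mul_le_of_le_one_left (abs_nonneg _) (h4.trans S.κ_lt.le)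

noncomputable def c2 (hV : 0 < V) : ℝ := (exists_sep hV).choose

theorem c2_pos (hV : 0 < V) : 0 < c2 hV := (exists_sep hV).choose_spec.1

theorem c2_le_DD (hV : 0 < V) (u : List Edge) {ω ω' : Stream' (Fin 3)} (h : ω.head ≠ ω'.head) :
    c2 hV ≤ |DD hV u (fS ω) (fS ω')| := by
  obtain ⟨y, hy, h1⟩ := DD_near hV u ω ω'
  have h2 : 2 * c2 hV ≤ _ := (exists_sep hV).choose_spec.2 y hy ω ω' h
  have h3 := abs_sub_abs_le_abs_sub (Th hV y ω - Th hV y ω') (DD hV u (fS ω) (fS ω'))
  rw [abs_sub_comm (Th hV y ω - Th hV y ω')] at h3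
  have := mul_le_of_le_one_left (abs_nonneg (DD hV u (fS ω) (fS ω'))) (sys hV).κ_lt.le
  linarith

theorem c2_le_neg_DD (hV : 0 < V) (u : List Edge) : c2 hV ≤ -DD hV u (fS ω0) (fS ω1) := by
  obtain ⟨y, hy, h1⟩ := DD_near hV u ω0 ω1
  have h2 := c2_le_DD hV u ω01
  have h3 := Th_lt hV hy
  rcases le_total 0 (DD hV u (fS ω0) (fS ω1)) with h | h
  · rw [abs_of_nonneg h] at h1
    have := (abs_le.1 h1).2
    have := mul_le_of_le_one_left h (sys hV).κ_lt.le
    linarith
  · rwa [abs_of_nonpos h] at h2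

theorem abs_DD_le (hV : 0 < V) (u : List Edge) (η η' : Stream' Edge) : |DD hV u η η'| ≤ π := by
  have := (sys hV).X_loc (e := cE 0 (u ++ₛ η)) (e' := cE 0 (u ++ₛ η')) (i := u.length)
    (i' := u.length) (R := 0) (fun j h1 h2 => by omega)
  simpa [DD] using this

theorem DD_loc (hV : 0 < V) (u u' v : List Edge) (η η' : Stream' Edge) {h : ℕ} (hh : h ≤ v.length) :
    |DD hV (u ++ v) η η' - DD hV (u' ++ v) η η'| ≤ 2 * π * (sys hV).κ ^ h := by
  have key : ∀ η, |(sys hV).X (cE 0 ((u ++ v) ++ₛ η)) (u ++ v).length -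
      (sys hV).X (cE 0 ((u' ++ v) ++ₛ η)) (u' ++ v).length| ≤ π * (sys hV).κ ^ h := fun η =>
    (sys hV).X_loc fun j h1 _ => by
      simp only [Stream'.append_append_stream, List.length_append, Nat.cast_add, add_assoc]
      exact cE_fut (by omega)
  have h1 := abs_le.1 (key η)
  have h2 := abs_le.1 (key η')
  unfold DD
  rw [abs_le]
  constructor <;> linarith [h1.1, h1.2, h2.1, h2.2]

end Pool.Agent.Lib.MP_5d78b4_mp
end

-- part Pool.Agent.Lib.MP_5d78b4_mp.Geom
section

set_option autoImplicit false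
open Filter Topology Real

namespace Pool.Agent.Lib.MP_5d78b4_mp

variable {V : ℝ}

noncomputable def FF (hV : 0 < V) (e e' : ℤ → Step) (n : ℕ) : ℝ :=
  2 * Sn ((sys hV).X e 0) ((sys hV).X e' 0) * (sys hV).G e e' 0 n

theorem le_Sn (hV : 0 < V) {e e' : ℤ → Step} (g : (sys hV).GoodF e 0) (g' : (sys hV).GoodF e' 0) :
    sin (c0 V) ≤ Sn ((sys hV).X e 0) ((sys hV).X e' 0) :=
  le_dd continuous_sin (fun _ hz => sin_c0_le hz) ((sys hV).X_good (g 0 le_rfl))
    ((sys hV).X_good (g' 0 le_rfl))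

theorem FF_pos (hV : 0 < V) (η η' : Stream' Edge) (n : ℕ) : 0 < FF hV (cE 0 η) (cE 0 η') n := by
  have h1 := (sin_c0_pos hV).trans_le (le_Sn hV (good_cE hV 0 η) (good_cE hV 0 η'))
  have h2 := (sys hV).G_pos (good_cE hV 0 η) (good_cE hV 0 η') n
  unfold FF; positivity

theorem FF_add (hV : 0 < V) (e e' : ℤ → Step) (n m : ℕ) :
    FF hV e e' (n + m) = FF hV e e' n * (sys hV).G e e' n m := by
  unfold FF; rw [Sys.G_add, zero_add]; ring

theorem PiE_sub (hV : 0 < V) (u : List Edge) (η η' : Stream' Edge) :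
    PiE hV (u ++ₛ η) - PiE hV (u ++ₛ η') =
      FF hV (cE 0 (u ++ₛ η)) (cE 0 (u ++ₛ η')) u.length * -DD hV u η η' := by
  have h := (sys hV).X_ratio (e := cE 0 (u ++ₛ η)) (e' := cE 0 (u ++ₛ η')) (n := 0) (m := u.length)
    (fun j hj => cE_left (by omega))
  have h2 := cos_sub_eq ((sys hV).X (cE 0 (u ++ₛ η)) 0) ((sys hV).X (cE 0 (u ++ₛ η')) 0)
  rw [h, zero_add] at h2
  unfold PiE FF DD
  unfold cE at *
  linear_combination 2 * h2

noncomputable def Kf (hV : 0 < V) : ℝ := (sys hV).Cw + π / sin (c0 V)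

theorem Cw_le_Kf (hV : 0 < V) : (sys hV).Cw ≤ Kf hV := by
  have := sin_c0_pos hV
  have : 0 < π / sin (c0 V) := by positivity
  unfold Kf; linarith

theorem FF_past (hV : 0 < V) {η1 η2 η3 η4 : Stream' Edge} {n h : ℕ}
    (h1 : ∀ j : ℤ, j < n + h → cE 0 η1 j = cE 0 η3 j)
    (h2 : ∀ j : ℤ, j < n + h → cE 0 η2 j = cE 0 η4 j) :
    Cl (Kf hV * (sys hV).κ ^ h) (FF hV (cE 0 η1) (cE 0 η2) n) (FF hV (cE 0 η3) (cE 0 η4) n) := by
  have a1 := (sys hV).G_win (m := n) (h := h) (good_cE hV 0 η1) (good_cE hV 0 η2) (good_cE hV 0 η3)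
    (good_cE hV 0 η4) (fun j _ hj => h1 _ (by omega)) (fun j _ hj => h2 _ (by omega))
  have a2 := Cl.of_sub (sin_c0_pos hV) (le_Sn hV (good_cE hV 0 η1) (good_cE hV 0 η2))
    (le_Sn hV (good_cE hV 0 η3) (good_cE hV 0 η4))
    (Sn_lip ((sys hV).X_loc (R := h) fun j _ hj => h1 _ (by omega))
      ((sys hV).X_loc (R := h) fun j _ hj => h2 _ (by omega)))
  refine (((Cl.refl 2).mul a2).mul a1).mono (le_of_eq ?_)
  unfold Kf; ring

theorem G_fut (hV : 0 < V) (u u' : List Edge) (η η' : Stream' Edge) (h m : ℕ) :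
    Cl (Kf hV * (sys hV).κ ^ h)
      ((sys hV).G (cE 0 (u ++ₛ η)) (cE 0 (u ++ₛ η')) ((u.length + h : ℕ) : ℤ) m)
      ((sys hV).G (cE 0 (u' ++ₛ η)) (cE 0 (u' ++ₛ η')) ((u'.length + h : ℕ) : ℤ) m) := by
  refine ((sys hV).G_win (m := m) (h := h) ((good_cE hV 0 _).mono (by omega))
    ((good_cE hV 0 _).mono (by omega)) ((good_cE hV 0 _).mono (by omega))
    ((good_cE hV 0 _).mono (by omega)) (fun j hj _ => ?_) (fun j hj _ => ?_)).mono ?_
  · simp only [Nat.cast_add, add_assoc]; exact cE_fut (by omega)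
  · simp only [Nat.cast_add, add_assoc]; exact cE_fut (by omega)
  · have := (sys hV).κ_pos
    have := Cw_le_Kf hV
    gcongr

theorem FF_key (hV : 0 < V) (u u' W : List Edge) (η η' η0 η1 : Stream' Edge) {h : ℕ} (M : ℕ)
    (hW : W.length = h + h) :
    Cl (4 * (Kf hV * (sys hV).κ ^ h))
      (FF hV (cE 0 (u ++ₛ (W ++ₛ η))) (cE 0 (u ++ₛ (W ++ₛ η'))) (u.length + h + (h + M)) *
        FF hV (cE 0 (u' ++ₛ (W ++ₛ η0))) (cE 0 (u' ++ₛ (W ++ₛ η1))) (u'.length + h + h))
      (FF hV (cE 0 (u' ++ₛ (W ++ₛ η))) (cE 0 (u' ++ₛ (W ++ₛ η'))) (u'.length + h + (h + M)) *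
        FF hV (cE 0 (u ++ₛ (W ++ₛ η0))) (cE 0 (u ++ₛ (W ++ₛ η1))) (u.length + h + h)) := by
  have p : ∀ (v : List Edge) (a b : Stream' Edge) (j : ℤ), j < ((v.length + h : ℕ) : ℤ) + h →
      cE 0 (v ++ₛ (W ++ₛ a)) j = cE 0 (v ++ₛ (W ++ₛ b)) j := fun v a b j hj => by
    rw [← Stream'.append_append_stream, ← Stream'.append_append_stream]
    exact cE_left (by rw [List.length_append, hW]; omega)
  have a1 := FF_past hV (p u η η0) (p u η' η1)
  have a2 := G_fut hV u u' (W ++ₛ η) (W ++ₛ η') h (h + M)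
  have a3 := FF_past hV (p u' η0 η) (p u' η1 η')
  have a4 := G_fut hV u' u (W ++ₛ η0) (W ++ₛ η1) h h
  simp only [FF_add _ _ _ (_ + h)]
  have := (a1.mul a2).mul (a3.mul a4)
  convert this using 1 <;> ring

/-- Scale of an edge word. -/
noncomputable def sE (hV : 0 < V) (u : List Edge) : ℝ :=
  PiE hV (u ++ₛ fS ω0) - PiE hV (u ++ₛ fS ω1)

theorem sE_pos (hV : 0 < V) (u : List Edge) : 0 < sE hV u := by
  unfold sE
  rw [PiE_sub]
  exact mul_pos (FF_pos hV _ _ _) ((c2_pos hV).trans_le (c2_le_neg_DD hV u))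

theorem sE_le (hV : 0 < V) (u : List Edge) : sE hV u ≤ 2 * π * (sys hV).κ ^ u.length := by
  unfold sE PiE
  rw [← mul_sub, mul_assoc]
  refine mul_le_mul_of_nonneg_left ((le_abs_self _).trans
    ((Real.abs_cos_sub_cos_le _ _).trans ?_)) zero_le_two
  exact (sys hV).X_loc (e := cE 0 _) (e' := cE 0 _) fun j _ h2 => cE_left (by simpa using h2)

theorem split_stream {ω ω' : Stream' (Fin 3)} (h : ω ≠ ω') : ∃ (p : List (Fin 3))
    (a b : Stream' (Fin 3)), ω = p ++ₛ a ∧ ω' = p ++ₛ b ∧ a.head ≠ b.head := by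
  classical
  have hex : ∃ n, ω.get n ≠ ω'.get n := by
    by_contra hc
    push Not at hc
    exact h (Stream'.ext hc)
  have e : ω.take (Nat.find hex) = ω'.take (Nat.find hex) := by
    apply List.ext_getElem (by simp)
    intro i h1 h2
    simp only [Stream'.take_get]
    exact not_not.1 (Nat.find_min hex (by simpa using h1))
  refine ⟨ω.take (Nat.find hex), ω.drop (Nat.find hex), ω'.drop (Nat.find hex),
    (ω.append_take_drop _).symm, by rw [e, ω'.append_take_drop], ?_⟩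
  simpa using Nat.find_spec hex

noncomputable def Ct (hV : 0 < V) : ℝ := exp (4 * Kf hV) * (π / c2 hV) ^ 2

theorem transferE (hV : 0 < V) (u u' : List Edge) (ω ω' : Stream' (Fin 3)) :
    |PiE hV (u ++ₛ fS ω) - PiE hV (u ++ₛ fS ω')| * sE hV u' ≤
      Ct hV * |PiE hV (u' ++ₛ fS ω) - PiE hV (u' ++ₛ fS ω')| * sE hV u := by
  by_cases h : ω = ω'
  · subst h; simp
  obtain ⟨p, a, b, rfl, rfl, hab⟩ := split_stream h
  have k := (FF_key hV u u' [] (fw p ++ₛ fS a) (fw p ++ₛ fS b) (fS ω0) (fS ω1) (h := 0)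
    (fw p).length rfl).le
  simp only [Stream'.nil_append_stream, add_zero, zero_add, pow_zero, mul_one] at k
  simp only [fS_append, ← Stream'.append_append_stream] at k ⊢
  unfold sE Ct
  simp only [PiE_sub, List.length_append, abs_mul, abs_neg] at k ⊢
  have d1 := abs_DD_le hV (u ++ fw p) (fS a) (fS b)
  have d2 := (neg_le_abs _).trans (abs_DD_le hV u' (fS ω0) (fS ω1))
  have d3 := c2_le_DD hV (u' ++ fw p) hab
  have d4 := c2_le_neg_DD hV u
  have d5 := c2_le_neg_DD hV u'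
  have hc := c2_pos hV
  rw [abs_of_pos (FF_pos hV (u' ++ₛ fS ω0) _ _), abs_of_pos (FF_pos hV (u ++ₛ fS ω0) _ _)] at k
  have f1 := FF_pos hV (u' ++ₛ fS ω0) (u' ++ₛ fS ω1) u'.length
  have f2 := FF_pos hV (u ++ₛ fS ω0) (u ++ₛ fS ω1) u.length
  generalize FF hV (cE 0 (u' ++ₛ fS ω0)) _ _ = F2 at *
  generalize FF hV (cE 0 (u ++ₛ fS ω0)) _ _ = F4 at *
  have f3 := abs_nonneg (FF hV (cE 0 (u ++ fw p ++ₛ fS a)) (cE 0 (u ++ fw p ++ₛ fS b))
    (u.length + (fw p).length))
  have f4 := abs_nonneg (FF hV (cE 0 (u' ++ fw p ++ₛ fS a)) (cE 0 (u' ++ fw p ++ₛ fS b))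
    (u'.length + (fw p).length))
  generalize |FF hV (cE 0 (u ++ fw p ++ₛ fS a)) _ _| = F1 at *
  generalize |FF hV (cE 0 (u' ++ fw p ++ₛ fS a)) _ _| = F3 at *
  have hp := pi_pos
  have d6 := hc.trans_le d5
  calc _ ≤ F1 * π * (F2 * π) := by gcongr
    _ = F1 * F2 * π ^ 2 := by ring
    _ ≤ exp (4 * Kf hV) * (F3 * F4) * π ^ 2 := by gcongr
    _ = exp (4 * Kf hV) * (π / c2 hV) ^ 2 * (F3 * c2 hV) * (F4 * c2 hV) := by field_simp
    _ ≤ _ := by gcongr

theorem closeE (hV : 0 < V) {ε : ℝ} (hε : 0 < ε) : ∃ h : ℕ, ∀ (u W : List Edge)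
    (ω ω' : Stream' (Fin 3)), W.length = h + h →
    |(PiE hV ((u ++ W) ++ₛ fS ω) - PiE hV ((u ++ W) ++ₛ fS ω')) / sE hV (u ++ W) -
      (PiE hV (W ++ₛ fS ω) - PiE hV (W ++ₛ fS ω')) / sE hV W| ≤
      ε * (|PiE hV (W ++ₛ fS ω) - PiE hV (W ++ₛ fS ω')| / sE hV W) := by
  have hc := c2_pos hV
  have ht := tendsto_pow_atTop_nhds_zero_of_lt_one (sys hV).κ_pos.le (sys hV).κ_lt
  have t1 := (ht.const_mul (2 * π)).eventually (gt_mem_nhds (show 2 * π * 0 < c2 hV by simpa))
  have t2 := (ht.const_mul (4 * Kf hV + 4 * π / c2 hV)).eventually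
    (gt_mem_nhds (show _ * 0 < min 1 (ε / 2) by simp; positivity))
  obtain ⟨h, h1, h2⟩ := (t1.and t2).exists
  refine ⟨h, fun u W ω ω' hW => ?_⟩
  by_cases hω : ω = ω'
  · subst hω; simp
  obtain ⟨p, a, b, rfl, rfl, hab⟩ := split_stream hω
  have k := FF_key hV u [] W (fw p ++ₛ fS a) (fw p ++ₛ fS b) (fS ω0) (fS ω1) (fw p).length hW
  have k1 := Cl.of_sub_abs hc (c2_le_DD hV (u ++ (W ++ fw p)) hab) (c2_le_DD hV ([] ++ (W ++ fw p)) hab)
    (DD_loc hV u [] (W ++ fw p) (fS a) (fS b) (h := h) (by simp; omega)) h1.le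
  have k2 := Cl.of_sub_abs hc (c2_le_DD hV (u ++ W) ω01) (c2_le_DD hV ([] ++ W) ω01)
    (DD_loc hV u [] W (fS ω0) (fS ω1) (h := h) (by omega)) h1.le
  have s2 := sE_pos hV W
  rw [← abs_of_pos s2, ← abs_div, abs_of_pos s2]
  have f1 := FF_pos hV (u ++ W ++ₛ fS ω0) (u ++ W ++ₛ fS ω1) (u.length + W.length)
  have f2 := FF_pos hV (W ++ₛ fS ω0) (W ++ₛ fS ω1) W.length
  have d1 := hc.trans_le (c2_le_neg_DD hV (u ++ W))
  have d2 := hc.trans_le (c2_le_neg_DD hV W)
  have k3 := ((k.mul k1).mul k2.inv).mul (Cl.refl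
    (FF hV (cE 0 (u ++ W ++ₛ fS ω0)) (cE 0 (u ++ W ++ₛ fS ω1)) (u.length + W.length) *
      FF hV (cE 0 (W ++ₛ fS ω0)) (cE 0 (W ++ₛ fS ω1)) W.length)⁻¹)
  have k4 := k3.mono (ε' := (4 * Kf hV + 4 * π / c2 hV) * (sys hV).κ ^ h) (le_of_eq (by ring))
  have k5 := k4.sub_le (h2.le.trans (min_le_left _ _))
  have h3 : 2 * ((4 * Kf hV + 4 * π / c2 hV) * (sys hV).κ ^ h) ≤ ε := by
    linarith [h2.le.trans (min_le_right _ _)]
  refine le_trans (le_of_eq ?_) (k5.trans (le_trans
    (mul_le_mul_of_nonneg_right h3 (abs_nonneg _)) (le_of_eq ?_)))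
  all_goals
    simp only [fS_append, ← Stream'.append_append_stream, sE, PiE_sub, List.length_append,
      List.nil_append, List.append_assoc, List.length_nil, zero_add, hW, add_assoc] at *
    congr 2 <;> field_simp

end Pool.Agent.Lib.MP_5d78b4_mp
end
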