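import Mathlib

-- part Pool.Agent.Lib.MP_5d78b4_mp.SumBanach
section

/-!
Spectrum of a sum of commuting elements, and invertibility of self-adjoint operators.
-/

set_option autoImplicit false

namespace Pool.Agent.Lib.MP_5d78b4_mp.Sum

/-- The spectrum of a sum of commuting elements of a complex Banach algebra lies in the sum of the
spectra. -/
theorem exists_of_mem_spectrum_sum {B : Type*} [NormedRing B] [NormedAlgebra ℂ B] [CompleteSpace B]
    {ι : Type*} [Fintype ι] (a : ι → B) (hc : ∀ i j, a i * a j = a j * a i) {z : ℂ}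
    (hz : z ∈ spectrum ℂ (∑ i, a i)) : ∃ w : ι → ℂ, (∀ i, w i ∈ spectrum ℂ (a i)) ∧ z = ∑ i, w i := by
  let S : Subalgebra ℂ B := Subalgebra.centralizer ℂ (Set.range a).centralizer
  have hS : ∀ x, x ∈ S ↔ x ∈ (Set.range a).centralizer.centralizer := fun x => Iff.rfl
  have hcomm : ∀ x ∈ S, ∀ y ∈ S, x * y = y * x := fun x hx y hy =>
    Set.centralizer_centralizer_comm_of_comm (by
      rintro _ ⟨i, rfl⟩ _ ⟨j, rfl⟩
      exact hc i j) x hx y hy
  have hcl : IsClosed (S : Set B) := by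
    have : (S : Set B) = ⋂ g ∈ (Set.range a).centralizer, {x | g * x = x * g} := by
      ext x
      simp only [SetLike.mem_coe, S, Subalgebra.mem_centralizer_iff, Set.mem_iInter,
        Set.mem_ofPred_eq]
    rw [this]
    exact isClosed_biInter fun g _ => isClosed_eq (by fun_prop) (by fun_prop)
  have : CompleteSpace S := hcl.completeSpace_coe
  let _ : NormedCommRing S :=
    { (inferInstance : NormedRing S) with
      mul_comm := fun x y => Subtype.ext (hcomm x x.2 y y.2) }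
  have hunit : ∀ x : S, IsUnit (x : B) → IsUnit x := by
    intro x hx
    obtain ⟨u, hu⟩ := hx
    have hmem : (↑u⁻¹ : B) ∈ S := by
      rw [Subalgebra.mem_centralizer_iff]
      intro g hg
      have h1 : g * u = u * g := by
        rw [hu]
        exact (Subalgebra.mem_centralizer_iff ℂ).1 x.2 g hg
      exact (Commute.units_inv_right (show Commute g u from h1)).eq
    refine ⟨⟨x, ⟨_, hmem⟩, Subtype.ext ?_, Subtype.ext ?_⟩, rfl⟩
    · simp [← hu]
    · simp [← hu]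
  have hspec : ∀ x : S, spectrum ℂ x = spectrum ℂ (x : B) := by
    intro x
    ext w
    rw [spectrum.mem_iff, spectrum.mem_iff, not_iff_not]
    exact ⟨fun h => h.map S.val, fun h => hunit _ h⟩
  let a' : ι → S := fun i => ⟨a i, Set.subset_centralizer_centralizer ⟨i, rfl⟩⟩
  have h1 : z ∈ spectrum ℂ (∑ i, a' i) := by
    rw [hspec]
    simpa [a'] using hz
  obtain ⟨f, hf⟩ := WeakDual.CharacterSpace.mem_spectrum_iff_exists.1 h1
  refine ⟨fun i => f (a' i), fun i => ?_, by rw [← hf, map_sum]⟩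
  have := WeakDual.CharacterSpace.mem_spectrum_iff_exists.2 ⟨f, (rfl : f (a' i) = f (a' i))⟩
  rwa [hspec] at this

variable {H : Type*} [NormedAddCommGroup H] [InnerProductSpace ℂ H] [CompleteSpace H]

theorem isUnit_of_bddBelow {T : H →L[ℂ] H} (hT : IsSelfAdjoint T) {c : ℝ} (hc : 0 < c)
    (h : ∀ u, c * ‖u‖ ≤ ‖T u‖) : IsUnit T := by
  rw [← isUnit_mul_self_iff]
  refine ContinuousLinearMap.isUnit_of_forall_le_norm_inner_map _ (c := ⟨c ^ 2, by positivity⟩)
    (by change (0 : ℝ) < c ^ 2; positivity) fun x => ?_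
  have h1 : inner ℂ ((T * T) x) x = inner ℂ (T x) (T x) := hT.isSymmetric (T x) x
  rw [h1, inner_self_eq_norm_sq_to_K, norm_pow, RCLike.norm_ofReal, abs_norm]
  change ‖x‖ ^ 2 * c ^ 2 ≤ _
  rw [← mul_pow, mul_comm]
  exact pow_le_pow_left₀ (by positivity) (h x) 2

omit [CompleteSpace H] in
theorem bddBelow_of_isUnit {T : H →L[ℂ] H} (hT : IsUnit T) :
    ∃ c : ℝ, 0 < c ∧ ∀ u, c * ‖u‖ ≤ ‖T u‖ := by
  obtain ⟨U, rfl⟩ := hT
  refine ⟨(‖(↑U⁻¹ : H →L[ℂ] H)‖ + 1)⁻¹, by positivity, fun u => ?_⟩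
  have h1 : u = (↑U⁻¹ : H →L[ℂ] H) ((U : H →L[ℂ] H) u) := by
    have h0 : (↑U⁻¹ * ↑U : H →L[ℂ] H) u = u := by
      rw [U.inv_mul]
      rfl
    exact h0.symm
  rw [inv_mul_le_iff₀ (by positivity)]
  calc ‖u‖ = ‖(↑U⁻¹ : H →L[ℂ] H) ((U : H →L[ℂ] H) u)‖ := by rw [← h1]
    _ ≤ ‖(↑U⁻¹ : H →L[ℂ] H)‖ * ‖(U : H →L[ℂ] H) u‖ := ContinuousLinearMap.le_opNorm _ _
    _ ≤ _ := by gcongr; linarith

/-- For a self-adjoint operator and real `E`, membership in the spectrum means that `E - T` is not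
bounded below. -/
theorem mem_spectrum_iff {T : H →L[ℂ] H} (hT : IsSelfAdjoint T) (E : ℝ) :
    (E : ℂ) ∈ spectrum ℂ T ↔ ∀ c : ℝ, 0 < c → ∃ u, ‖(E : ℂ) • u - T u‖ < c * ‖u‖ := by
  have happ : ∀ u, (algebraMap ℂ (H →L[ℂ] H) E - T) u = (E : ℂ) • u - T u := fun u => by
    simp [Algebra.algebraMap_eq_smul_one]
  rw [spectrum.mem_iff]
  constructor
  · intro h c hc
    by_contra! hcon
    refine h (isUnit_of_bddBelow ?_ hc fun u => by rw [happ]; exact hcon u)
    refine IsSelfAdjoint.sub ?_ hT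
    exact IsSelfAdjoint.algebraMap _ (by simp [isSelfAdjoint_iff])
  · intro h hu
    obtain ⟨c, hc, hb⟩ := bddBelow_of_isUnit hu
    obtain ⟨u, hu⟩ := h c hc
    rw [← happ] at hu
    exact absurd (hb u) (not_le.2 hu)

end Pool.Agent.Lib.MP_5d78b4_mp.Sum
end

-- part Pool.Agent.Lib.MP_5d78b4_mp.SumOp
section

/-!
Discrete Schroedinger type operators on square summable families.
-/

set_option autoImplicit false

open ComplexConjugate

namespace Pool.Agent.Lib.MP_5d78b4_mp.Sum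

/-- Square summable complex families. -/
abbrev L (ι : Type) : Type := lp (fun _ : ι => ℂ) 2

variable {ι : Type}

theorem hasSum_sq (u : L ι) : HasSum (fun n => ‖u n‖ ^ 2) (‖u‖ ^ 2) := by
  have := lp.hasSum_norm (p := 2) (by simp) u
  simpa using this

theorem memℓp_of_summable {f : ι → ℂ} (h : Summable fun n => ‖f n‖ ^ 2) :
    Memℓp (E := fun _ : ι => ℂ) f 2 :=
  memℓp_gen (by simpa using h)

theorem norm_eq_of_hasSum {u : L ι} {s : ℝ} (hs : 0 ≤ s)
    (h : HasSum (fun n => ‖u n‖ ^ 2) (s ^ 2)) : ‖u‖ = s :=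
  (pow_left_inj₀ (norm_nonneg _) hs two_ne_zero).1 ((hasSum_sq u).unique h)

theorem exists_wshift (e : ι ≃ ι) (f : ι → ℂ) {M : ℝ} (hM : 0 ≤ M) (hf : ∀ n, ‖f n‖ ≤ M) :
    ∃ W : L ι →L[ℂ] L ι, ∀ u n, W u n = f n * u (e n) := by
  have h1 : ∀ u : L ι, HasSum (fun n => M ^ 2 * ‖u (e n)‖ ^ 2) (M ^ 2 * ‖u‖ ^ 2) := fun u =>
    (e.hasSum_iff.2 (hasSum_sq u)).mul_left _
  have h2 : ∀ (u : L ι) n, ‖f n * u (e n)‖ ^ 2 ≤ M ^ 2 * ‖u (e n)‖ ^ 2 := fun u n => by
    rw [norm_mul, mul_pow]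
    gcongr
    exact hf n
  have h3 : ∀ u : L ι, Memℓp (E := fun _ : ι => ℂ) (fun n => f n * u (e n)) 2 := fun u =>
    memℓp_of_summable ((h1 u).summable.of_nonneg_of_le (fun _ => by positivity) (h2 u))
  let W : L ι →ₗ[ℂ] L ι :=
    { toFun := fun u => ⟨fun n => f n * u (e n), h3 u⟩
      map_add' := fun u v => lp.ext (funext fun n => by
        change f n * (u + v) (e n) = f n * u (e n) + f n * v (e n)
        rw [lp.coeFn_add, Pi.add_apply, mul_add])
      map_smul' := fun c u => lp.ext (funext fun n => by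
        change f n * (c • u) (e n) = c • (f n * u (e n))
        rw [lp.coeFn_smul, Pi.smul_apply, smul_eq_mul, smul_eq_mul]
        ring) }
  refine ⟨W.mkContinuous M fun u => ?_, fun u n => rfl⟩
  have h4 : ‖W u‖ ^ 2 ≤ (M * ‖u‖) ^ 2 := by
    rw [mul_pow]
    exact hasSum_le (h2 u) (hasSum_sq (W u)) (h1 u)
  exact le_of_sq_le_sq h4 (by positivity)

/-- The defining property of the operator attached to a bijection and a real potential. -/
def IsOp (e : ι ≃ ι) (V : ι → ℝ) (T : L ι →L[ℂ] L ι) : Prop :=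
  ∀ (u : L ι) (n : ι), T u n = u (e n) + u (e.symm n) + (V n : ℂ) * u n

theorem exists_op (e : ι ≃ ι) (V : ι → ℝ) {M : ℝ} (hM : 0 ≤ M) (hV : ∀ n, |V n| ≤ M) :
    ∃ T : L ι →L[ℂ] L ι, IsOp e V T ∧ IsSelfAdjoint T := by
  obtain ⟨S, hS⟩ := exists_wshift e (fun _ => 1) zero_le_one (by simp)
  obtain ⟨S', hS'⟩ := exists_wshift e.symm (fun _ => 1) zero_le_one (by simp)
  obtain ⟨D, hD⟩ := exists_wshift (Equiv.refl ι) (fun n => (V n : ℂ)) hM (by simpa using hV)
  refine ⟨S + S' + D, fun u n => ?_, ?_⟩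
  · change (S u + S' u + D u) n = _
    rw [lp.coeFn_add, lp.coeFn_add, Pi.add_apply, Pi.add_apply, hS, hS', hD]
    simp
  · rw [ContinuousLinearMap.isSelfAdjoint_iff_isSymmetric]
    intro u v
    have h1 : ∀ u v : L ι, inner ℂ (S u) v = inner ℂ u (S' v) := fun u v => by
      rw [lp.inner_eq_tsum, lp.inner_eq_tsum, ← e.tsum_eq (fun n => inner ℂ (u n) (S' v n))]
      simp [hS, hS']
    have h2 : inner ℂ (S' u) v = inner ℂ u (S v) := by
      rw [← inner_conj_symm, ← h1, inner_conj_symm]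
    have h3 : inner ℂ (D u) v = inner ℂ u (D v) := by
      rw [lp.inner_eq_tsum, lp.inner_eq_tsum]
      refine tsum_congr fun n => ?_
      simp only [hD, Equiv.refl_apply, RCLike.inner_apply, map_mul, Complex.conj_ofReal]
      ring
    change inner ℂ (S u + S' u + D u) v = inner ℂ u (S v + S' v + D v)
    rw [inner_add_left, inner_add_left, inner_add_right, inner_add_right, h1, h2, h3]
    ring

theorem ext_of_apply {T T' : L ι →L[ℂ] L ι} (h : ∀ u n, T u n = T' u n) : T = T' :=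
  ContinuousLinearMap.ext fun u => lp.ext (funext (h u))

theorem hasSum_pi_prod : ∀ (d : ℕ) (f : Fin d → ℤ → ℝ) (s : Fin d → ℝ), (∀ i k, 0 ≤ f i k) →
    (∀ i, HasSum (f i) (s i)) → HasSum (fun n : Fin d → ℤ => ∏ i, f i (n i)) (∏ i, s i)
  | 0, f, s, _, _ => by
    simp
  | d + 1, f, s, h0, h => by
    have ih := hasSum_pi_prod d (fun i => f i.succ) (fun i => s i.succ) (fun i => h0 _)
      (fun i => h _)
    have h1 := (h 0).mul ih ((h 0).summable.mul_of_nonneg ih.summable (h0 0)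
      (fun n => Finset.prod_nonneg fun i _ => h0 _ _))
    rw [← (Fin.consEquiv fun _ : Fin (d + 1) => ℤ).hasSum_iff, Fin.prod_univ_succ]
    refine h1.congr_fun fun x => ?_
    simp [Fin.prod_univ_succ, Fin.consEquiv]

theorem exists_prodVec {d : ℕ} (u : Fin d → L ℤ) :
    ∃ w : L (Fin d → ℤ), (∀ n, w n = ∏ i, u i (n i)) ∧ ‖w‖ = ∏ i, ‖u i‖ := by
  have h := hasSum_pi_prod d (fun i k => ‖u i k‖ ^ 2) (fun i => ‖u i‖ ^ 2)
    (fun _ _ => by positivity) (fun i => hasSum_sq (u i))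
  simp only [Finset.prod_pow, ← norm_prod] at h
  refine ⟨⟨fun n => ∏ i, u i (n i), memℓp_of_summable h.summable⟩, fun n => rfl, ?_⟩
  exact norm_eq_of_hasSum (Finset.prod_nonneg fun _ _ => norm_nonneg _) h

/-- Fibrewise lower bound. -/
theorem fibre_bound {κ : Type} (φ : κ × ℤ ≃ ι) (u w : L ι) {c : ℝ}
    (h : ∀ (x : κ) (a b : L ℤ), (∀ k, a k = u (φ (x, k))) → (∀ k, b k = w (φ (x, k))) →
      c * ‖a‖ ≤ ‖b‖) (hc : 0 ≤ c) : c * ‖u‖ ≤ ‖w‖ := by
  have hfib : ∀ (v : L ι), ∃ a : κ → L ℤ, (∀ x k, a x k = v (φ (x, k))) ∧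
      HasSum (fun x => ‖a x‖ ^ 2) (‖v‖ ^ 2) := by
    intro v
    have h1 : HasSum (fun p : κ × ℤ => ‖v (φ p)‖ ^ 2) (‖v‖ ^ 2) := φ.hasSum_iff.2 (hasSum_sq v)
    let a : κ → L ℤ := fun x =>
      ⟨fun k => v (φ (x, k)), memℓp_of_summable (h1.summable.prod_factor x)⟩
    exact ⟨a, fun _ _ => rfl, h1.prod_fiberwise fun x => hasSum_sq (a x)⟩
  obtain ⟨a, ha, ha'⟩ := hfib u
  obtain ⟨b, hb, hb'⟩ := hfib w
  have h2 : (c * ‖u‖) ^ 2 ≤ ‖w‖ ^ 2 := by
    rw [mul_pow]
    refine hasSum_le (fun x => ?_) (ha'.mul_left (c ^ 2)) hb'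
    rw [← mul_pow]
    exact pow_le_pow_left₀ (by positivity) (h x _ _ (ha x) (hb x)) 2
  exact le_of_sq_le_sq h2 (norm_nonneg _)

end Pool.Agent.Lib.MP_5d78b4_mp.Sum
end
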