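import Pool.Agent.Lib.MP_5d78b4_mp.AbsCnt
import Pool.Agent.Lib.MP_5d78b4_mp.SutoComb
import Pool.Agent.Lib.MP_5d78b4_mp.SumOp

-- part Pool.Agent.Lib.MP_5d78b4_mp.Suto
section

/-!
The theorem of Suto: spectrum of the Fibonacci Hamiltonian and the trace map.
-/

set_option autoImplicit false

open Filter Topology

namespace Pool.Agent.Lib.MP_5d78b4_mp

namespace Suto

/-- Energy minus potential. -/
noncomputable def cr (lam E : ℝ) (n : ℤ) : ℝ := E - lam * v n

/-- Energy minus potential, as a complex number. -/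
noncomputable def cc (lam E : ℝ) (n : ℤ) : ℂ := (cr lam E n : ℂ)

lemma cc_congr (lam E : ℝ) {a b : ℤ} (h : v a = v b) : cc lam E a = cc lam E b := by
  unfold cc cr
  rw [h]

lemma cc_bound (lam E : ℝ) (n : ℤ) : ‖cc lam E n‖ ≤ |E| + |lam| * 2 := by
  unfold cc cr
  rw [Complex.norm_real, Real.norm_eq_abs]
  refine (abs_sub _ _).trans ?_
  rw [abs_mul]
  gcongr
  exact v_abs n

lemma per_right (lam E : ℝ) (j i : ℕ) (h : (i : ℤ) + 2 < F (j + 2)) :
    cc lam E (1 + (Nat.fib (j + 1) : ℕ) + i) = cc lam E (1 + i) := by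
  apply cc_congr
  rw [← v_per (j := j) (m := 1 + i) (reg_of_lt _ _ (by omega) (by omega))
    (reg_of_lt _ _ (by omega) (by omega))]
  congr 1
  unfold F
  ring

lemma M_rec (lam E : ℝ) (k : ℕ) : P (cc lam E) 1 (Nat.fib (k + 4)) =
    P (cc lam E) 1 (Nat.fib (k + 2)) * P (cc lam E) 1 (Nat.fib (k + 3)) := by
  have e : Nat.fib (k + 4) = Nat.fib (k + 3) + Nat.fib (k + 2) := by
    rw [show k + 4 = (k + 2) + 2 from rfl, Nat.fib_add_two, add_comm]
  rw [e, P_add]
  congr 1
  refine P_congr _ _ _ _ fun i hi => per_right lam E (k + 2) i ?_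
  have h1 := F_add (k + 2)
  have h2 := F_two_le k
  have h3 : (i : ℤ) < F (k + 2) := by unfold F; exact_mod_cast hi
  rw [show k + 2 + 1 = k + 3 from rfl] at h1
  omega

lemma trace_one (lam E : ℝ) (k : ℕ) :
    (P (cc lam E) 1 (Nat.fib (k + 2))).trace = 2 * (xs lam E (k + 2) : ℂ) := by
  have c1 : cc lam E 1 = E - lam := by simp [cc, cr, v_one]
  have c2 : cc lam E 2 = E := by simp [cc, cr, v_two]
  have p1 : P (cc lam E) 1 (Nat.fib 2) = !![(E : ℂ) - lam, -1; 1, 0] := by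
    simp [P, T, c1]
  have p2 : P (cc lam E) 1 (Nat.fib 3) = !![(E : ℂ), -1; 1, 0] * !![(E : ℂ) - lam, -1; 1, 0] := by
    rw [← p1, show Nat.fib 3 = Nat.fib 2 + 1 from rfl, P]
    simp [T, show (1 : ℤ) + 1 = 2 from rfl, c2]
  induction k using Nat.strong_induction_on with
  | _ k ih =>
    match k, ih with
    | 0, _ => rw [p1]; simp [xs]; ring
    | 1, _ => rw [p2]; simp [xs]; ring
    | 2, _ =>
      rw [show 2 + 2 = 0 + 4 from rfl, M_rec, p1, p2]
      simp [xs]
      ring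
    | k + 3, ih =>
      rw [show k + 3 + 2 = (k + 1) + 4 from rfl, M_rec, show k + 1 + 3 = k + 4 from rfl, M_rec,
        show k + 1 + 2 = k + 3 from rfl, trace_rec _ _ (det_P _ _ _), ← M_rec,
        ih (k + 2) (by omega), ih (k + 1) (by omega), ih k (by omega),
        show xs lam E (k + 1 + 4) = 2 * xs lam E (k + 2 + 2) * xs lam E (k + 1 + 2) -
          xs lam E (k + 2) from rfl]
      push_cast
      ring

lemma trace_reg (lam E : ℝ) (k : ℕ) (a : ℤ) (h : Reg (k + 3) a) :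
    (P (cc lam E) a (Nat.fib (k + 4))).trace = 2 * (xs lam E (k + 4) : ℂ) := by
  rw [← trace_one lam E (k + 2)]
  have hW : ∀ b, Near (k + 3) b →
      P (cc lam E) (b + 1) (Nat.fib (k + 4)) = P (cc lam E) 1 (Nat.fib (k + 4)) := by
    intro b hb
    refine P_congr _ _ _ _ fun i hi => cc_congr _ _ ?_
    have h1 := F_add (k + 3)
    have h2 := F_two_le k
    have h3 : (i : ℤ) < F (k + 3 + 1) := by unfold F; exact_mod_cast hi
    rw [add_assoc]
    exact v_after _ _ hb _ (by omega) (by omega)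
  obtain ⟨b, hb, hn⟩ := exists_near_lt (k + 3) a
  have key : ∀ r : ℕ, Reg (k + 3) (b + r + 1) →
      (P (cc lam E) (b + r + 1) (Nat.fib (k + 4))).trace =
        (P (cc lam E) 1 (Nat.fib (k + 4))).trace := by
    intro r
    induction r with
    | zero => intro _; rw [Nat.cast_zero, add_zero, hW b hn]
    | succ r ih =>
      intro hr
      rw [show b + ((r + 1 : ℕ) : ℤ) = b + r + 1 by push_cast; ring] at hr ⊢
      by_cases q : Reg (k + 3) (b + r + 1)
      · rw [trace_shift _ _ _ (cc_congr _ _ (v_per q hr)), ih q]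
      · rw [hW _ (near_of_not_reg _ _ q)]
  have e : a = b + ((a - b - 1).toNat : ℤ) + 1 := by omega
  rw [e] at h ⊢
  exact key _ h

lemma growth (lam E : ℝ) (k : ℕ) (h1 : 1 < |xs lam E (k + 1)|) (h2 : 1 < |xs lam E (k + 2)|) :
    ∃ j : ℕ, 2 ≤ |xs lam E (j + 4)| ∧ 2 ≤ |xs lam E (j + 5)| := by
  classical
  have hex : ∃ k, 1 < |xs lam E (k + 1)| ∧ 1 < |xs lam E (k + 2)| := ⟨k, h1, h2⟩
  clear h1 h2 k
  obtain ⟨h1, h2⟩ := Nat.find_spec hex
  have h0 : |xs lam E (Nat.find hex)| ≤ 1 := by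
    rcases Nat.eq_zero_or_pos (Nat.find hex) with q | q
    · rw [q]; simp [xs]
    · obtain ⟨i, hi⟩ : ∃ i, Nat.find hex = i + 1 := ⟨Nat.find hex - 1, by omega⟩
      have := Nat.find_min hex (show i < Nat.find hex by omega)
      rw [hi] at h1 ⊢
      by_contra q'
      exact this ⟨not_le.1 q', h1⟩
  generalize Nat.find hex = k at h0 h1 h2
  set m := min |xs lam E (k + 1)| |xs lam E (k + 2)| with hm
  have m1 : 1 < m := lt_min h1 h2
  have key : ∀ i : ℕ, m ≤ |xs lam E (k + i + 1)| ∧ m ^ (i + 1) ≤ |xs lam E (k + i + 2)| ∧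
      |xs lam E (k + i)| ≤ |xs lam E (k + i + 1)| * |xs lam E (k + i + 2)| := by
    intro i
    induction i with
    | zero =>
      refine ⟨min_le_left _ _, by rw [zero_add, pow_one]; exact min_le_right _ _, ?_⟩
      rw [add_zero]
      nlinarith
    | succ i ih =>
      obtain ⟨a, b, c⟩ := ih
      have mp : m ≤ m ^ (i + 1) := le_self_pow₀ m1.le (by omega)
      have d : |xs lam E (k + i + 1)| * |xs lam E (k + i + 2)| ≤ |xs lam E (k + i + 3)| := by
        have := abs_sub_abs_le_abs_sub (2 * xs lam E (k + i + 2) * xs lam E (k + i + 1))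
          (xs lam E (k + i))
        rw [abs_mul, abs_mul, abs_two] at this
        rw [xs]
        linarith
      rw [show k + (i + 1) + 1 = k + i + 2 from rfl, show k + (i + 1) + 2 = k + i + 3 from rfl,
        show k + (i + 1) = k + i + 1 from rfl]
      generalize |xs lam E (k + i + 1)| = x at *
      generalize |xs lam E (k + i + 2)| = y at *
      generalize |xs lam E (k + i + 3)| = z at *
      refine ⟨by linarith, ?_, ?_⟩
      · calc _ = m * m ^ (i + 1) := by ring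
          _ ≤ x * y := by gcongr; linarith
          _ ≤ z := d
      · have y1 : 1 ≤ y := by linarith
        have : x ≤ z := by nlinarith
        nlinarith
  obtain ⟨i, hi⟩ := pow_unbounded_of_one_lt 2 m1
  refine ⟨k + i, ?_, ?_⟩
  · exact (hi.le.trans (pow_le_pow_right₀ m1.le (by omega))).trans (key (i + 2)).2.1
  · exact (hi.le.trans (pow_le_pow_right₀ m1.le (by omega))).trans (key (i + 3)).2.1

lemma local_level (lam E : ℝ) (k : ℕ) (hk : 2 ≤ |xs lam E (k + 4)|) : ∃ C : ℝ, 0 ≤ C ∧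
    ∀ (u : ℤ → ℂ) (n : ℤ) (g : ℝ), (∀ m : ℤ, n - F (k + 4) < m → m ≤ n → Reg (k + 3) m) →
      (∀ i : ℤ, n - F (k + 4) ≤ i → i ≤ n + F (k + 4) → ‖res (cc lam E) u i‖ ≤ g) →
      ∃ τ : ℂ, 4 ≤ ‖τ‖ ∧ ‖u (n + F (k + 4)) + u (n - F (k + 4)) - τ * u n‖ ≤ C * g := by
  obtain ⟨m, hm⟩ : ∃ m, Nat.fib (k + 4) = m + 1 :=
    ⟨Nat.fib (k + 4) - 1, by have := Nat.fib_pos.2 (show 0 < k + 4 by omega); omega⟩
  have hF : F (k + 4) = m + 1 := by unfold F; rw [hm]; rfl
  obtain ⟨C, hC, H⟩ := local_id (|E| + |lam| * 2) (by positivity) m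
  refine ⟨C, hC, fun u n g hr hg => ⟨2 * (xs lam E (k + 4) : ℂ), ?_, ?_⟩⟩
  · rw [norm_mul, Complex.norm_real, Real.norm_eq_abs, Complex.norm_two]
    linarith
  · rw [← trace_reg lam E k (n - m) (hr _ (by omega) (by omega)), hm, hF]
    refine H _ (cc_bound lam E) n (fun i hi => cc_congr _ _ ?_) u g
      fun i a b => hg i (by omega) (by omega)
    rw [← v_per (hr (n - m + i) (by omega) (by omega)) (hr _ (by omega) (by omega))]
    congr 1
    rw [show k + 3 + 1 = k + 4 from rfl, hF]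
    ring

lemma sub_apply (lam E : ℝ) (T : H2 →L[ℂ] H2)
    (hT : ∀ (u : H2) (n : ℤ), (T u) n = u (n + 1) + u (n - 1)
      + ((lam * ((⌊((n : ℝ) + 1) * ((Real.sqrt 5 - 1) / 2)⌋
        - ⌊(n : ℝ) * ((Real.sqrt 5 - 1) / 2)⌋ : ℤ) : ℝ) : ℝ) : ℂ) * u n) (u : H2) (n : ℤ) :
    (algebraMap ℂ (H2 →L[ℂ] H2) (E : ℂ) - T) u n = -res (cc lam E) u n := by
  rw [_root_.sub_apply, ContinuousLinearMap.algebraMap_apply, lp.coeFn_sub,
    Pi.sub_apply, hT, lp.coeFn_smul]
  simp only [res, cc, cr, v, fl, al, Pi.smul_apply, smul_eq_mul]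
  push_cast
  ring

end Suto

open Suto

/-- Gordon direction of the theorem of Suto. -/
theorem suto_of_freq (lam : ℝ) (hlam : 0 < lam) (E : ℝ)
    (h : ∃ᶠ k in atTop, |xs lam E k| ≤ 1) : E ∈ spec1 lam := by
  obtain ⟨T, hT⟩ := exists_op (fun n => ((lam * ((⌊((n : ℝ) + 1) * ((Real.sqrt 5 - 1) / 2)⌋
      - ⌊(n : ℝ) * ((Real.sqrt 5 - 1) / 2)⌋ : ℤ) : ℝ) : ℝ) : ℂ)) (lam * 2) fun n => by
    rw [Complex.norm_real, Real.norm_eq_abs, abs_mul, abs_of_pos hlam]
    have := v_abs n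
    unfold v fl al at this
    push_cast at this ⊢
    gcongr
  refine ⟨T, hT, ?_⟩
  rw [spectrum.mem_iff, ContinuousLinearMap.isUnit_iff_bijective]
  rintro ⟨-, hs⟩
  have hz : ∀ u : H2, (∀ n, 1 ≤ n → res (cc lam E) u n = 0) → u 1 = 0 ∧ u 0 = 0 := by
    intro u hu
    have : ∀ ε : ℝ, 0 < ε → ‖u 1‖ ≤ 0 + ε ∧ ‖u 0‖ ≤ 0 + ε := by
      intro ε hε
      obtain ⟨N, hN⟩ := small u (ε / 3) (by positivity)
      obtain ⟨k, hk1, hk2⟩ := (h.and_eventually (eventually_ge_atTop (N.natAbs + 5))).exists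
      obtain ⟨j, rfl⟩ : ∃ j, k = j + 4 := ⟨k - 4, by omega⟩
      have q1 : j + 4 ≤ Nat.fib (j + 4) := Nat.le_fib_self (by omega)
      obtain ⟨a, b⟩ := gordon _ (by positivity) _ (cc_bound lam E) (Nat.fib (j + 4))
        (fun i hi => per_right lam E (j + 3) i (by
          have h1 := F_add (j + 3)
          have h2 := F_two_le j
          have h3 : (i : ℤ) < F (j + 3 + 1) := by unfold F; exact_mod_cast hi
          omega))
        (by
          rw [trace_one lam E (j + 2), norm_mul, Complex.norm_real, Real.norm_eq_abs,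
            Complex.norm_two]
          linarith) u hu
      generalize Nat.fib (j + 4) = q at q1 a b
      have a1 := hN (q + 1) (by rw [abs_of_nonneg (by omega)]; omega)
      have a2 := hN (q + q + 1) (by rw [abs_of_nonneg (by omega)]; omega)
      have a3 := hN q (by rw [abs_of_nonneg (by omega)]; omega)
      have a4 := hN (q + q) (by rw [abs_of_nonneg (by omega)]; omega)
      constructor <;> linarith
    exact ⟨norm_le_zero_iff.1 (le_of_forall_pos_le_add fun ε hε => (this ε hε).1),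
      norm_le_zero_iff.1 (le_of_forall_pos_le_add fun ε hε => (this ε hε).2)⟩
  obtain ⟨u, hu⟩ := hs (lp.single 2 0 (-1))
  obtain ⟨w, hw⟩ := hs (lp.single 2 (-1) (-1))
  have ru : ∀ n, res (cc lam E) u n = if n = 0 then 1 else 0 := by
    intro n
    have := Suto.sub_apply lam E T hT u n
    rw [hu, lp.single_apply, Pi.single_apply] at this
    split_ifs at this ⊢ <;> linear_combination this
  have rw' : ∀ n, res (cc lam E) w n = if n = -1 then 1 else 0 := by
    intro n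
    have := Suto.sub_apply lam E T hT w n
    rw [hw, lp.single_apply, Pi.single_apply] at this
    split_ifs at this ⊢ <;> linear_combination this
  obtain ⟨u1, u0⟩ := hz u fun n hn => by rw [ru, if_neg (by omega)]
  obtain ⟨w1, w0⟩ := hz w fun n hn => by rw [rw', if_neg (by omega)]
  have W := wronski (cc lam E) u w (fun n hn => by rw [ru, if_neg (by omega)])
    fun n hn => by rw [rw', if_neg (by omega)]
  have a1 := ru 0
  have a2 := rw' 0
  have a3 := rw' (-1)
  unfold res at a1 a2 a3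
  rw [show (0 : ℤ) + 1 = 1 from rfl, show (0 : ℤ) - 1 = -1 from rfl] at a1 a2
  rw [show (-1 : ℤ) + 1 = 0 from rfl, show (-1 : ℤ) - 1 = -2 from rfl, if_pos rfl] at a3
  rw [if_pos rfl, u1, u0] at a1
  rw [if_neg (by omega), w1, w0] at a2
  have b1 : u (-1) = 1 := by linear_combination a1
  have b2 : w (-1) = 0 := by linear_combination a2
  have b3 : w (-2) = 1 := by rw [w0, b2] at a3; linear_combination a3
  rw [b1, b2, b3] at W
  norm_num at W

/-- Escape direction of the theorem of Suto. -/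
theorem suto_of_mem (lam : ℝ) (hlam : 0 < lam) (E : ℝ) (h : E ∈ spec1 lam) (k : ℕ) :
    |xs lam E (k + 1)| ≤ 1 ∨ |xs lam E (k + 2)| ≤ 1 := by
  by_contra hc
  push Not at hc
  obtain ⟨j, h1, h2⟩ := growth lam E k hc.1 hc.2
  obtain ⟨T, hT, hE⟩ := h
  obtain ⟨C1, p1, H1⟩ := local_level lam E j h1
  obtain ⟨C2, p2, H2⟩ := local_level lam E (j + 1) h2
  have hA := Suto.sub_apply lam E T hT
  refine spectrum.mem_iff.1 hE (isUnit_of_bound (cr lam E) _ hA
    (|C1 + C2| * (2 * (Nat.fib (j + 5) : ℕ) + 1)) (by positivity) fun u => ?_)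
  refine bound_of_local u _ (F (j + 4)) (F (j + 5)) _ _ fun n g hg => ?_
  have hg0 : 0 ≤ g := (norm_nonneg _).trans (hg n (by omega) (by omega))
  have e : ((Nat.fib (j + 5) : ℕ) : ℤ) = F (j + 5) := rfl
  have e2 : F (j + 5) = F (j + 3) + F (j + 4) := F_add (j + 3)
  have e3 := F_nonneg (j + 3)
  simp only [hA, norm_neg, e] at hg
  rcases good_level (j + 3) n with q | q
  · obtain ⟨τ, a, b⟩ := H1 u n g q fun i x y => hg i (by omega) (by omega)
    exact ⟨_, τ, Or.inl rfl, a, b.trans (by nlinarith)⟩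
  · obtain ⟨τ, a, b⟩ := H2 u n g q hg
    exact ⟨_, τ, Or.inr rfl, a, b.trans (by nlinarith)⟩

end Pool.Agent.Lib.MP_5d78b4_mp
end

-- part Pool.Agent.Lib.MP_5d78b4_mp.Sum
section

/-!
The spectrum of the separable operator is the Minkowski sum of the one-dimensional spectra.
-/

set_option autoImplicit false

namespace Pool.Agent.Lib.MP_5d78b4_mp

namespace Sum

theorem general (V : ℤ → ℝ) {M : ℝ} (hM : 0 ≤ M) (hV : ∀ n, |V n| ≤ M) (d : ℕ) :
    {E : ℝ | ∃ T : L (Fin d → ℤ) →L[ℂ] L (Fin d → ℤ),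
        (∀ (u : L (Fin d → ℤ)) (n : Fin d → ℤ), (T u) n = ∑ i : Fin d,
          (u (n + (Pi.single i (1 : ℤ) : Fin d → ℤ)) + u (n - (Pi.single i (1 : ℤ) : Fin d → ℤ))
            + (V (n i) : ℂ) * u n)) ∧ (E : ℂ) ∈ spectrum ℂ T} =
      sumSet {E : ℝ | ∃ T : L ℤ →L[ℂ] L ℤ,
        (∀ (u : L ℤ) (n : ℤ), (T u) n = u (n + 1) + u (n - 1) + (V n : ℂ) * u n) ∧
          (E : ℂ) ∈ spectrum ℂ T} d := by
  classical
  obtain ⟨H, hH', hHs⟩ := exists_op (Equiv.addRight (1 : ℤ)) V hM hV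
  have hH : ∀ (u : L ℤ) (n : ℤ), H u n = u (n + 1) + u (n - 1) + (V n : ℂ) * u n := fun u n => by
    rw [hH' u n, sub_eq_add_neg]
    rfl
  have hex := fun i : Fin d => exists_op (Equiv.addRight (Pi.single i (1 : ℤ) : Fin d → ℤ))
    (fun n => V (n i)) hM (fun n => hV _)
  choose A hA' hAs using hex
  have hA : ∀ (i : Fin d) (u : L (Fin d → ℤ)) (n : Fin d → ℤ), A i u n =
      u (n + (Pi.single i (1 : ℤ) : Fin d → ℤ)) + u (n - (Pi.single i (1 : ℤ) : Fin d → ℤ))
        + (V (n i) : ℂ) * u n := fun i u n => by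
    rw [hA' i u n, sub_eq_add_neg]
    rfl
  have hT : ∀ (u : L (Fin d → ℤ)) (n : Fin d → ℤ), (∑ i, A i) u n = ∑ i, A i u n := fun u n => by
    rw [_root_.sum_apply, lp.coeFn_sum, Finset.sum_apply]
  have hTs : IsSelfAdjoint (∑ i, A i) := isSelfAdjoint_sum _ fun i _ => hAs i
  have hcomm : ∀ i j, A i * A j = A j * A i := by
    intro i j
    rcases eq_or_ne i j with rfl | hij
    · rfl
    refine ext_of_apply fun u n => ?_
    change A i (A j u) n = A j (A i u) n
    simp only [hA, Pi.add_apply, Pi.sub_apply, Pi.single_eq_of_ne hij, Pi.single_eq_of_ne hij.symm,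
      add_zero, sub_zero]
    rw [add_right_comm n, add_sub_right_comm n (Pi.single i 1), ← add_sub_right_comm n
      (Pi.single j 1), sub_right_comm n]
    ring
  have hone : {E : ℝ | ∃ T : L ℤ →L[ℂ] L ℤ,
      (∀ (u : L ℤ) (n : ℤ), (T u) n = u (n + 1) + u (n - 1) + (V n : ℂ) * u n) ∧
        (E : ℂ) ∈ spectrum ℂ T} = {E : ℝ | (E : ℂ) ∈ spectrum ℂ H} := by
    ext E
    refine ⟨fun ⟨T, h1, h2⟩ => ?_, fun h => ⟨H, hH, h⟩⟩
    have : T = H := ext_of_apply fun u n => by rw [h1, hH]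
    rwa [this] at h2
  have hd : {E : ℝ | ∃ T : L (Fin d → ℤ) →L[ℂ] L (Fin d → ℤ),
      (∀ (u : L (Fin d → ℤ)) (n : Fin d → ℤ), (T u) n = ∑ i : Fin d,
        (u (n + (Pi.single i (1 : ℤ) : Fin d → ℤ)) + u (n - (Pi.single i (1 : ℤ) : Fin d → ℤ))
          + (V (n i) : ℂ) * u n)) ∧ (E : ℂ) ∈ spectrum ℂ T} =
      {E : ℝ | (E : ℂ) ∈ spectrum ℂ (∑ i, A i)} := by
    ext E
    refine ⟨fun ⟨T, h1, h2⟩ => ?_, fun h => ⟨_, fun u n => by simp only [hT, hA], h⟩⟩
    have : T = ∑ i, A i := ext_of_apply fun u n => by simp only [h1, hT, hA]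
    rwa [this] at h2
  rw [hone, hd]
  ext E
  constructor
  · intro hE
    obtain ⟨w, hw, hsum⟩ := exists_of_mem_spectrum_sum A hcomm hE
    have hre : ∀ i, w i = ((w i).re : ℂ) := fun i => (hAs i).mem_spectrum_eq_re (hw i)
    refine ⟨fun i => (w i).re, fun i => ?_, ?_⟩
    · have h1 := hw i
      rw [hre i, mem_spectrum_iff (hAs i)] at h1
      refine (mem_spectrum_iff hHs _).2 fun c hc => ?_
      by_contra! hcon
      obtain ⟨u, hu⟩ := h1 c hc
      refine absurd hu (not_lt.2 ?_)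
      let φ : ({j // j ≠ i} → ℤ) × ℤ ≃ (Fin d → ℤ) :=
        (Equiv.prodComm _ _).trans (Equiv.funSplitAt i ℤ).symm
      have hφ1 : ∀ x k, φ (x, k) i = k := fun x k => by simp [φ]
      have hφ2 : ∀ x k l, φ (x, k + l) = φ (x, k) + Pi.single i l := fun x k l => by
        funext j
        by_cases hj : j = i
        · subst hj
          simp [φ]
        · simp [φ, hj]
      have hφ3 : ∀ x k, φ (x, k - 1) = φ (x, k) - Pi.single i 1 := fun x k => by
        rw [sub_eq_add_neg, hφ2, Pi.single_neg, sub_eq_add_neg]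
      refine fibre_bound φ u _ (fun x a b ha hb => ?_) hc.le
      have : b = ((w i).re : ℂ) • a - H a := lp.ext (funext fun k => by
        rw [hb, lp.coeFn_sub, lp.coeFn_sub, Pi.sub_apply, Pi.sub_apply, lp.coeFn_smul,
          lp.coeFn_smul, Pi.smul_apply, Pi.smul_apply, hA, hH, ha, ha, ha, hφ1, hφ2, hφ3])
      rw [this]
      exact hcon a
    · have := congrArg Complex.re hsum
      simpa using this
  · rintro ⟨F, hF, rfl⟩
    refine (mem_spectrum_iff hTs _).2 fun c hc => ?_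
    have hc' : 0 < c / (d + 1) := by positivity
    choose u hu using fun i => (mem_spectrum_iff hHs _).1 (hF i) _ hc'
    have hu0 : ∀ i, 0 < ‖u i‖ := fun i =>
      (mul_pos_iff_of_pos_left hc').1 ((norm_nonneg _).trans_lt (hu i))
    obtain ⟨w, hw, hwn⟩ := exists_prodVec u
    choose y hy hyn using fun i => exists_prodVec (Function.update u i ((F i : ℂ) • u i - H (u i)))
    have hw0 : 0 < ‖w‖ := hwn ▸ Finset.prod_pos fun i _ => hu0 i
    have hsplit : ∀ (i : Fin d) (n : Fin d → ℤ) (l : ℤ), w (n + Pi.single i l) =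
        u i (n i + l) * ∏ j ∈ Finset.univ.erase i, u j (n j) := fun i n l => by
      rw [hw, ← Finset.mul_prod_erase _ _ (Finset.mem_univ i)]
      congr 1
      · simp
      · exact Finset.prod_congr rfl fun j hj => by
          simp [Pi.single_eq_of_ne (Finset.ne_of_mem_erase hj)]
    have hkey : ((∑ i, F i : ℝ) : ℂ) • w - (∑ i, A i) w = ∑ i, y i := lp.ext (funext fun n => by
      rw [lp.coeFn_sub, Pi.sub_apply, lp.coeFn_smul, Pi.smul_apply, hT, lp.coeFn_sum,
        Finset.sum_apply, smul_eq_mul, Complex.ofReal_sum, Finset.sum_mul,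
        ← Finset.sum_sub_distrib]
      refine Finset.sum_congr rfl fun i _ => ?_
      have h0 := hsplit i n 0
      rw [Pi.single_zero, add_zero, add_zero] at h0
      have h1 : y i n = ((F i : ℂ) • u i - H (u i)) (n i) *
          ∏ j ∈ Finset.univ.erase i, u j (n j) := by
        rw [hy, ← Finset.mul_prod_erase _ _ (Finset.mem_univ i), Function.update_self]
        congr 1
        exact Finset.prod_congr rfl fun j hj => by
          rw [Function.update_of_ne (Finset.ne_of_mem_erase hj)]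
      rw [hA, sub_eq_add_neg n, ← Pi.single_neg, hsplit, hsplit, h0, h1,
        lp.coeFn_sub, Pi.sub_apply, lp.coeFn_smul, Pi.smul_apply, hH, smul_eq_mul,
        ← sub_eq_add_neg]
      ring)
    refine ⟨w, ?_⟩
    rw [hkey]
    have hy' : ∀ i, ‖y i‖ ≤ c / (d + 1) * ‖w‖ := fun i => by
      have h1 : ‖y i‖ = ‖(F i : ℂ) • u i - H (u i)‖ * ∏ j ∈ Finset.univ.erase i, ‖u j‖ := by
        rw [hyn, ← Finset.mul_prod_erase _ _ (Finset.mem_univ i), Function.update_self]
        congr 1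
        exact Finset.prod_congr rfl fun j hj => by
          rw [Function.update_of_ne (Finset.ne_of_mem_erase hj)]
      rw [h1, hwn, ← Finset.mul_prod_erase _ (fun j => ‖u j‖) (Finset.mem_univ i), ← mul_assoc]
      exact mul_le_mul_of_nonneg_right (hu i).le (Finset.prod_nonneg fun _ _ => norm_nonneg _)
    calc ‖∑ i, y i‖ ≤ ∑ _i : Fin d, c / (d + 1) * ‖w‖ := norm_sum_le_of_le _ fun i _ => hy' i
      _ = d * (c / (d + 1)) * ‖w‖ := by simp [mul_assoc]
      _ < c * ‖w‖ := by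
        refine mul_lt_mul_of_pos_right ?_ hw0
        rw [← mul_div_assoc, div_lt_iff₀ (by positivity)]
        linarith

theorem abs_floor_sub_le (n : ℤ) :
    |((⌊((n : ℝ) + 1) * ((Real.sqrt 5 - 1) / 2)⌋ - ⌊(n : ℝ) * ((Real.sqrt 5 - 1) / 2)⌋ : ℤ) : ℝ)|
      ≤ 3 := by
  have h1 : Real.sqrt 5 ≤ 3 := Real.sqrt_le_iff.2 ⟨by norm_num, by norm_num⟩
  have h2 : 0 ≤ Real.sqrt 5 := Real.sqrt_nonneg 5
  have a1 := Int.floor_le (((n : ℝ) + 1) * ((Real.sqrt 5 - 1) / 2))
  have a2 := Int.lt_floor_add_one (((n : ℝ) + 1) * ((Real.sqrt 5 - 1) / 2))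
  have a3 := Int.floor_le ((n : ℝ) * ((Real.sqrt 5 - 1) / 2))
  have a4 := Int.lt_floor_add_one ((n : ℝ) * ((Real.sqrt 5 - 1) / 2))
  rw [add_mul, one_mul] at a1 a2 ⊢
  push_cast
  rw [abs_le]
  constructor <;> linarith

end Sum

/-- JOB 2: the spectrum of the separable operator is the Minkowski sum. -/
theorem specd_eq (lam : ℝ) (d : ℕ) (hd : 1 ≤ d) : specd lam d = sumSet (spec1 lam) d := by
  have _ := hd
  exact Sum.general (fun n : ℤ => lam * ((⌊((n : ℝ) + 1) * ((Real.sqrt 5 - 1) / 2)⌋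
    - ⌊(n : ℝ) * ((Real.sqrt 5 - 1) / 2)⌋ : ℤ) : ℝ)) (M := |lam| * 3) (by positivity)
    (fun n => by
      rw [abs_mul]
      exact mul_le_mul_of_nonneg_left (Sum.abs_floor_sub_le n) (abs_nonneg _)) d

end Pool.Agent.Lib.MP_5d78b4_mp
end
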