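import Pool.Agent.Lib.MP_5d78b4_mp.Bulk
import Pool.Agent.Lib.MP_5d78b4_mp.Abs
import Pool.Agent.Lib.MP_5d78b4_mp.Sum

-- part Pool.Agent.Lib.MP_5d78b4_mp.NonArith
section

set_option autoImplicit false
open Filter Topology Real

namespace Pool.Agent.Lib.MP_5d78b4_mp

variable {V : ℝ}

theorem rr_pos (hV : 0 < V) (β : ℤ → Fin 3) (i : ℤ) : 0 < rr hV β i := by
  have s1 := (sin_c0_pos hV).trans_le (le_sin_X hV β i)
  have s2 := (sin_c0_pos hV).trans_le (le_sin_X hV β (i + 1))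
  have s3 := (sys hV).c_pos.trans_le (c_le_rho hV β i)
  unfold rr; positivity

theorem log_rho (hV : 0 < V) (β : ℤ → Fin 3) (i : ℤ) : log ((sys hV).rho (cb β) (cb β) i) =
    log (rr hV β i) + log (sin ((sys hV).X (cb β) (i + 1))) - log (sin ((sys hV).X (cb β) i)) := by
  have s1 := (sin_c0_pos hV).trans_le (le_sin_X hV β i)
  have s2 := (sin_c0_pos hV).trans_le (le_sin_X hV β (i + 1))
  have s3 := (sys hV).c_pos.trans_le (c_le_rho hV β i)
  unfold rr
  rw [Real.log_div (by positivity) s2.ne', Real.log_mul s3.ne' s1.ne']; ring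

theorem log_lip {c x y δ : ℝ} (hc : 0 < c) (hx : c ≤ x) (hy : c ≤ y) (h : |x - y| ≤ δ) :
    |log x - log y| ≤ δ / c := (Cl.of_sub hc hx hy h).log (by linarith)

theorem bulk (hV : 0 < V) : ∃ (c K : ℝ) (l : ℕ), 0 < c ∧ 0 ≤ K ∧ ∀ i j : ℤ, l ≤ i → l ≤ j →
    (-(6 * c * σs hV ^ (i + j)) ≤ log (rr hV (bZ (i + j)) i) - log (rr hV (bP 0) i) -
        log (rr hV (bP 0) (-j)) + log (σs hV) ∧
      log (rr hV (bZ (i + j)) i) - log (rr hV (bP 0) i) - log (rr hV (bP 0) (-j)) + log (σs hV) ≤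
        -(c * σs hV ^ (i + j))) ∧
      |rr hV (bZ (i + j)) i - rr hV (bP 0) (-j)| ≤ K * σs hV ^ i ∧
      |rr hV (bP 0) i - σs hV| ≤ K * σs hV ^ i := by
  obtain ⟨r1, r2, r12, hneg, a1, a2, a3⟩ := jets hV
  have hσ := σs_pos hV
  have b1 := a1.comp tendsto_fst'
  have b2 := a2.comp tendsto_snd'
  have hW := ((a3.const_mul (σs hV)).sub (b1.mul b2)).div
    (((rS hV).comp tendsto_snd').mul ((tendsto_rU hV).comp tendsto_fst')) (by positivity)
  have hy := (((tendsto_σz hV 1).comp tendsto_fst').mul ((tendsto_σz hV 1).comp tendsto_snd')).mul hW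
  obtain ⟨c, hc, hc'⟩ : ∃ c, 0 < c ∧ (σs hV * r12 - r1 * r2) / (σs hV * σs hV) = -(2 * c) :=
    ⟨-((σs hV * r12 - r1 * r2) / (σs hV * σs hV)) / 2,
      half_pos (neg_pos.2 (div_neg_of_neg_of_pos hneg (by positivity))), by ring⟩
  rw [hc'] at hW hy
  obtain ⟨l, hl⟩ := ev_iff.1
    ((hW.eventually (gt_mem_nhds (show -(2 * c) < -c by linarith))).and
      ((hW.eventually (lt_mem_nhds (show -(3 * c) < -(2 * c) by linarith))).and
      ((hy.eventually (lt_mem_nhds (show -1 / 2 < 0 * 0 * -(2 * c) by norm_num))).and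
      ((a3.abs.eventually (gt_mem_nhds (lt_add_one _))).and
      (b1.abs.eventually (gt_mem_nhds (lt_add_one _)))))))
  refine ⟨c, |r12| + 1 + (|r1| + 1), l, hc, by positivity, fun i j hi hj => ?_⟩
  obtain ⟨w1, w2, w3, w4, w5⟩ := hl i j hi hj
  simp only [Function.comp, Pi.div_apply, Y12, one_mul] at w1 w2 w3 w4 w5
  have p1 := rr_pos hV (bZ (i + j)) i
  have p2 := rr_pos hV (bP 0) i
  have p3 := rr_pos hV (bP 0) (-j)
  have q1 := zpow_pos hσ i
  have q2 := zpow_pos hσ j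
  have q3 : σs hV ^ j ≤ 1 := zpow_le_one₀ hσ (σs_lt hV).le (by omega)
  rw [zpow_add₀ hσ.ne']
  generalize rr hV (bZ (i + j)) i = z at *
  generalize rr hV (bP 0) i = U at *
  generalize rr hV (bP 0) (-j) = S at *
  generalize σs hV ^ i = u at *
  generalize σs hV ^ j = v at *
  generalize σs hV = σ at *
  set W := (σ * ((z - U - S + σ) / (u * v)) - (U - σ) / u * ((S - σ) / v)) / (S * U) with hW'
  have e1 : log z - log U - log S + log σ = log (1 + u * v * W) := by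
    have : 1 + u * v * W = z * σ / (S * U) := by rw [hW']; field_simp; ring
    rw [this, Real.log_div (by positivity) (by positivity), Real.log_mul p1.ne' hσ.ne',
      Real.log_mul p3.ne' p2.ne']
    ring
  have huv := mul_pos q1 q2
  have y0 : u * v * W < 0 := mul_neg_of_pos_of_neg huv (by linarith)
  rw [abs_div, abs_of_pos huv, div_lt_iff₀ huv] at w4
  rw [abs_div, abs_of_pos q1, div_lt_iff₀ q1] at w5
  refine ⟨⟨?_, ?_⟩, ?_, ?_⟩
  · rw [e1]
    have h1 := Real.one_sub_inv_le_log_of_pos (show 0 < 1 + u * v * W by linarith)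
    have h2 : (1 + u * v * W)⁻¹ ≤ 1 - 2 * (u * v * W) := by
      rw [inv_le_iff_one_le_mul₀ (by linarith)]; nlinarith
    nlinarith
  · rw [e1]
    have h1 := Real.log_le_sub_one_of_pos (show 0 < 1 + u * v * W by linarith)
    nlinarith
  · have h1 := abs_add_le (z - U - S + σ) (U - σ)
    rw [show z - U - S + σ + (U - σ) = z - S by ring] at h1
    have : (|r12| + 1) * (u * v) ≤ (|r12| + 1) * (u * 1) := by gcongr
    linarith
  · have : 0 ≤ (|r12| + 1) * u := by positivity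
    linarith

theorem sum_tail (hV : 0 < V) {f : ℕ → ℝ} {A : ℝ} (h : ∀ k, |f k| ≤ A * (sys hV).κ ^ k) (M : ℕ) :
    |∑ k ∈ Finset.range M, f k| ≤ A / (1 - (sys hV).κ) := by
  have hA : 0 ≤ A := by simpa using (abs_nonneg _).trans (h 0)
  refine (Finset.abs_sum_le_sum_abs _ _).trans ((Finset.sum_le_sum fun k _ => h k).trans ?_)
  rw [← Finset.mul_sum, div_eq_mul_one_div]
  exact mul_le_mul_of_nonneg_left ((sys hV).sum_pow_le M) hA

noncomputable def mm (hV : 0 < V) (n i : ℤ) : ℝ :=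
  log (ρZ hV n i) - log (ρU hV i) - log (ρU hV (i - n)) + log (σs hV)

noncomputable def ls (hV : 0 < V) (n i : ℤ) : ℝ :=
  log (sin (xZ hV n i)) - log (sin (xU hV i)) - log (sin (xU hV (i - n))) + log (sin (θs hV))

theorem LG_eq (hV : 0 < V) (β : ℤ → Fin 3) (a : ℤ) (m : ℕ) :
    LG hV β a m = ∑ j ∈ Finset.range m, log ((sys hV).rho (cb β) (cb β) (a + j)) := by
  unfold LG Sys.G
  exact Real.log_prod fun j _ => ((sys hV).c_pos.trans_le (c_le_rho hV β _)).ne'

theorem left_tail (hV : 0 < V) {a : ℤ} (ha : 1 ≤ a) (m k : ℕ) :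
    |mm hV (a + m) (a - 1 - k)| ≤
      2 * (sys hV).Cr * C0 hV / (sys hV).c * σs hV ^ m * (sys hV).κ ^ k := by
  have h1 := abs_le.1 (log_lip (sys hV).c_pos (c_le_rho hV _ _) (c_le_rho hV _ _) (F4 hV ha m k))
  have h2 := abs_le.1 (log_lip (sys hV).c_pos (c_le_rho hV _ _) (c_le_rho hV bO 0) (F5 hV m k))
  unfold mm
  rw [show a - 1 - k - (a + m) = -m - 1 - k by ring, abs_le]
  unfold ρZ ρU σs at *
  constructor <;> ring_nf at * <;> linarith [h1.1, h1.2, h2.1, h2.2]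

theorem right_tail (hV : 0 < V) {a : ℤ} (ha : 1 ≤ a) {K : ℝ} (hK : 0 ≤ K) (m : ℕ)
    (h1 : |rr hV (bZ (m + a)) m - rr hV (bP 0) (-a)| ≤ K * σs hV ^ m)
    (h2 : |rr hV (bP 0) m - σs hV| ≤ K * σs hV ^ m) (k : ℕ) :
    |mm hV (a + m) (m + 1 + k)| ≤ 2 * (sys hV).Cr * (3 / sin (c0 V) ^ 3 * (K + C0 hV) + C0 hV) /
      (sys hV).c * σs hV ^ m * (sys hV).κ ^ k := by
  have hσ := pow_pos (σs_pos hV) m
  have hC := C0_pos hV
  have hs := sin_c0_pos hV
  have hκ := (sys hV).κ_pos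
  have hκ1 := (sys hV).κ_lt
  set A := (3 / sin (c0 V) ^ 3 * (K + C0 hV) + C0 hV) * σs hV ^ m with hA
  have hA0 : 0 ≤ 3 / sin (c0 V) ^ 3 * (K + C0 hV) * σs hV ^ m := by positivity
  have u1 : ∀ k : ℕ, C0 hV * σs hV ^ m * (sys hV).κ ^ k ≤ A * (sys hV).κ ^ k := fun k =>
    mul_le_mul_of_nonneg_right (by rw [hA]; linarith) (by positivity)
  have u2 : ∀ k : ℕ, C0 hV * σs hV ^ m * (sys hV).κ ^ k ≤ (K + C0 hV) * σs hV ^ m := fun k => by
    have := mul_le_of_le_one_right (mul_pos hC hσ).le (pow_le_one₀ hκ.le hκ1.le (n := k))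
    nlinarith
  have u3 : K * σs hV ^ m ≤ (K + C0 hV) * σs hV ^ m := by nlinarith
  have u4 : 3 / sin (c0 V) ^ 3 * ((K + C0 hV) * σs hV ^ m) ≤ A := by
    have := mul_pos hC hσ
    rw [hA]; linarith
  have a1 := (sys hV).rho_fut (e := cb (bZ (a + m))) (e' := cb (bP (a + m))) (a := m) (A := A)
    (fun j hj => by simp only [cb, bZ, bP]; congr 3; apply propext; omega)
    (fun k => by
      rw [X_P, show (m : ℤ) + k - (a + m) = k - a by ring]
      exact (F3 hV ha m k).trans (u1 k))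
    (by
      rw [rho_P, show (m : ℤ) - (a + m) = -a by ring]
      refine (rho_lip hV (δ := (K + C0 hV) * σs hV ^ m) ?_ ?_ ?_).trans u4
      · rw [add_comm a]; exact h1.trans u3
      · simpa [xZ, xU] using (F3 hV ha m 0).trans (u2 0)
      · have := (F3 hV ha m 1).trans (u2 1)
        rwa [show ((1 : ℕ) : ℤ) - a = -a + 1 by push_cast; ring] at this) (k + 1)
  have a2 := (sys hV).rho_fut (e := cb (bP 0)) (e' := cb bO) (a := m) (A := A)
    (fun j hj => by simp only [cb, bO, bP]; rw [if_neg (by omega)])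
    (fun k => by rw [X_O]; exact (F2 hV m k).trans (u1 k))
    (by
      refine (rho_lip hV (δ := (K + C0 hV) * σs hV ^ m) ?_ ?_ ?_).trans u4
      · rw [rr_O]; exact h2.trans u3
      · simpa [xU, X_O] using (F2 hV m 0).trans (u2 0)
      · rw [X_O]; exact (F2 hV m 1).trans (u2 1)) (k + 1)
  have u5 : (sys hV).Cr * A * (sys hV).κ ^ (k + 1) ≤ (sys hV).Cr * A * (sys hV).κ ^ k :=
    mul_le_mul_of_nonneg_left (pow_le_pow_of_le_one hκ.le hκ1.le (by omega))
      (by have := (sys hV).Cr_pos; positivity)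
  have b1 := abs_le.1 (log_lip (sys hV).c_pos (c_le_rho hV _ _) (c_le_rho hV _ _) (a1.trans u5))
  have b2 := abs_le.1 (log_lip (sys hV).c_pos (c_le_rho hV _ _) (c_le_rho hV _ _) (a2.trans u5))
  rw [rho_P] at b1
  rw [rho_O] at b2
  unfold mm
  rw [show (m : ℤ) + 1 + k = m + (k + 1 : ℕ) by push_cast; ring, abs_le]
  have e : 2 * (sys hV).Cr * (3 / sin (c0 V) ^ 3 * (K + C0 hV) + C0 hV) / (sys hV).c * σs hV ^ m *
      (sys hV).κ ^ k = 2 * ((sys hV).Cr * A * (sys hV).κ ^ k / (sys hV).c) := by rw [hA]; ring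
  rw [e]
  unfold ρZ ρU at *
  constructor <;> linarith [b1.1, b1.2, b2.1, b2.2]

theorem ls_le (hV : 0 < V) {a : ℤ} (ha : 1 ≤ a) (m : ℕ) :
    |ls hV (a + m) a| ≤ 2 * C0 hV / sin (c0 V) * σs hV ^ m ∧
      |ls hV (a + m) (m + 1)| ≤ 2 * C0 hV / sin (c0 V) * σs hV ^ m := by
  have hs := sin_c0_pos hV
  have key : ∀ {β β' : ℤ → Fin 3} {i i' : ℤ} {k : ℕ},
      |(sys hV).X (cb β) i - (sys hV).X (cb β') i'| ≤ C0 hV * σs hV ^ m * (sys hV).κ ^ k →
      |log (sin ((sys hV).X (cb β) i)) - log (sin ((sys hV).X (cb β') i'))| ≤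
        C0 hV / sin (c0 V) * σs hV ^ m := fun h => by
    refine (log_lip hs (le_sin_X hV _ _) (le_sin_X hV _ _)
      ((Real.abs_sin_sub_sin_le _ _).trans (h.trans (mul_le_of_le_one_right
        (mul_pos (C0_pos hV) (pow_pos (σs_pos hV) m)).le
        (pow_le_one₀ (sys hV).κ_pos.le (sys hV).κ_lt.le))))).trans (le_of_eq (by ring))
  have h1 := abs_le.1 (key (F1 hV ha m 0))
  have h2 := abs_le.1 (key (F2 hV m 0))
  have h3 := abs_le.1 (key (F3 hV ha m 1))
  have h4 := abs_le.1 (key (F2 hV m 1))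
  unfold ls
  rw [show a - (a + m) = -m by ring, xU_neg, show (m : ℤ) + 1 - (a + m) = 1 - a by ring, mul_div_assoc,
    mul_assoc, abs_le, abs_le]
  simp only [Nat.cast_zero, sub_zero, add_zero, Nat.cast_one] at h1 h2 h3 h4
  unfold xZ xU θs
  refine ⟨⟨?_, ?_⟩, ?_, ?_⟩ <;> linarith [h1.1, h1.2, h2.1, h2.2, h3.1, h3.2, h4.1, h4.2]

theorem na (hV : 0 < V) : NA hV := by
  intro ε hε
  obtain ⟨c, K, l, hc, hK, hb⟩ := bulk hV
  have hσ := σs_pos hV
  obtain ⟨B, hB⟩ : ∃ B, B = 2 * (sys hV).Cr * C0 hV / (sys hV).c / (1 - (sys hV).κ) +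
    2 * (sys hV).Cr * (3 / sin (c0 V) ^ 3 * (K + C0 hV) + C0 hV) / (sys hV).c / (1 - (sys hV).κ) +
    2 * (2 * C0 hV / sin (c0 V)) := ⟨_, rfl⟩
  have t1 : Tendsto (fun w : ℕ => (w : ℝ) * (c * σs hV ^ (l + 1))) atTop atTop :=
    tendsto_natCast_atTop_atTop.atTop_mul_const (by positivity)
  have t2 := (((tendsto_self_mul_const_pow_of_lt_one hσ.le (σs_lt hV)).const_mul
    (6 * c * σs hV ^ (l + 1))).add
    ((tendsto_pow_atTop_nhds_zero_of_lt_one hσ.le (σs_lt hV)).const_mul B)).mul_const (σs hV ^ l)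
  obtain ⟨w, w1, w2, w3⟩ := ((eventually_ge_atTop 1).and ((t1.eventually_ge_atTop (B + 1)).and
    (t2.eventually (gt_mem_nhds (show _ < ε by simpa))))).exists
  refine ⟨l + 1 + w + (l + 1), σs hV ^ (l + w), bP 0, bZ ((l + 1 : ℕ) + (l + w : ℕ)),
    bP ((l + 1 : ℕ) + (l + w : ℕ)), bO, by positivity, fun i => ?_, fun i => ?_, fun i => ?_,
    fun i => by simp [bO], fun j hj => ?_, fun j hj => if_neg (by omega), fun L => ?_⟩
  · unfold bP; split_ifs <;> simp
  · unfold bZ; split_ifs <;> simp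
  · unfold bP; split_ifs <;> simp
  · simp only [bZ, bP]; congr 1; apply propext; omega
  set n : ℤ := (l + 1 : ℕ) + (l + w : ℕ) with hn
  have e : LG hV (bP 0) (-L) (l + 1 + w + (l + 1) + 2 * L) -
      LG hV (bZ n) (-L) (l + 1 + w + (l + 1) + 2 * L) +
      (LG hV (bP n) (-L) (l + 1 + w + (l + 1) + 2 * L) -
        LG hV bO (-L) (l + 1 + w + (l + 1) + 2 * L)) =
      -∑ j ∈ Finset.range (L + (l + 1) + w + (l + 1 + L)), mm hV n (-L + j) := by
    rw [show L + (l + 1) + w + (l + 1 + L) = l + 1 + w + (l + 1) + 2 * L by ring]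
    simp only [LG_eq, rho_P, rho_O, mm, Finset.sum_add_distrib, Finset.sum_sub_distrib, sub_zero, ρZ]
    ring
  rw [e, Finset.sum_range_add, Finset.sum_range_add]
  have s1 : |∑ j ∈ Finset.range (L + (l + 1)), mm hV n (-L + j)| ≤
      2 * (sys hV).Cr * C0 hV / (sys hV).c * σs hV ^ (l + w) / (1 - (sys hV).κ) := by
    rw [← Finset.sum_range_reflect]
    refine le_trans (le_of_eq ?_) (sum_tail hV
      (left_tail hV (a := (l + 1 : ℕ)) (by omega) (l + w)) (L + (l + 1)))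
    congr 1
    refine Finset.sum_congr rfl fun j hj => ?_
    rw [Finset.mem_range] at hj
    congr 1; omega
  have s2 : |∑ j ∈ Finset.range (l + 1 + L), mm hV n (-L + (L + (l + 1) + w + j : ℕ))| ≤
      2 * (sys hV).Cr * (3 / sin (c0 V) ^ 3 * (K + C0 hV) + C0 hV) / (sys hV).c * σs hV ^ (l + w) /
        (1 - (sys hV).κ) := by
    have h := (hb (l + w : ℕ) (l + 1 : ℕ) (by omega) (by omega)).2
    rw [zpow_natCast] at h
    refine le_trans (le_of_eq ?_) (sum_tail hV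
      (right_tail hV (a := (l + 1 : ℕ)) (by omega) hK (l + w) h.1 h.2) (l + 1 + L))
    congr 1
    refine Finset.sum_congr rfl fun j _ => ?_
    congr 1; omega
  have s3 : ∀ j ∈ Finset.range w,
      -(6 * c * σs hV ^ (l + 1 + (l + w))) + (ls hV n ((l + 1 : ℕ) + (j + 1 : ℕ)) -
        ls hV n ((l + 1 : ℕ) + j)) ≤ mm hV n (-L + (L + (l + 1) + j : ℕ)) ∧
      mm hV n (-L + (L + (l + 1) + j : ℕ)) ≤ -(c * σs hV ^ (l + 1 + (l + w))) +
        (ls hV n ((l + 1 : ℕ) + (j + 1 : ℕ)) - ls hV n ((l + 1 : ℕ) + j)) := by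
    intro j hj
    rw [Finset.mem_range] at hj
    obtain ⟨i, hi⟩ : ∃ i : ℤ, i = (l + 1 : ℕ) + j := ⟨_, rfl⟩
    have h := (hb i (n - i) (by omega) (by omega)).1
    rw [add_sub_cancel, neg_sub, show n = ((l + 1 + (l + w) : ℕ) : ℤ) by omega, zpow_natCast,
      show ((l + 1 + (l + w) : ℕ) : ℤ) = n by omega] at h
    rw [show -(L : ℤ) + (L + (l + 1) + j : ℕ) = i by omega,
      show ((l + 1 : ℕ) : ℤ) + (j + 1 : ℕ) = i + 1 by omega, ← hi]
    have g1 := log_rho hV (bZ n) i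
    have g2 := log_rho hV (bP 0) i
    have g3 := log_rho hV (bP 0) (i - n)
    unfold mm ls ρZ ρU xZ xU
    rw [show i + 1 - n = i - n + 1 by ring]
    constructor <;> linarith [h.1, h.2]
  have s4 := Finset.sum_le_sum fun j hj => (s3 j hj).1
  have s5 := Finset.sum_le_sum fun j hj => (s3 j hj).2
  rw [Finset.sum_add_distrib, Finset.sum_range_sub (fun j : ℕ => ls hV n ((l + 1 : ℕ) + j)),
    Finset.sum_const, Finset.card_range, nsmul_eq_mul] at s4 s5
  have s6 := ls_le hV (a := (l + 1 : ℕ)) (by omega) (l + w)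
  rw [← hn, show ((l + w : ℕ) : ℤ) + 1 = (l + 1 : ℕ) + w by omega] at s6
  simp only [Nat.cast_zero, add_zero] at s4 s5
  have q1 := abs_le.1 s1
  have q2 := abs_le.1 s2
  have q3 := abs_le.1 s6.1
  have q4 := abs_le.1 s6.2
  have p1 := pow_pos hσ (l + w)
  have p2 := mul_le_mul_of_nonneg_right w2 p1.le
  have e1 : B * σs hV ^ (l + w) = 2 * (sys hV).Cr * C0 hV / (sys hV).c * σs hV ^ (l + w) /
      (1 - (sys hV).κ) + 2 * (sys hV).Cr * (3 / sin (c0 V) ^ 3 * (K + C0 hV) + C0 hV) / (sys hV).c *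
      σs hV ^ (l + w) / (1 - (sys hV).κ) + 2 * (2 * C0 hV / sin (c0 V) * σs hV ^ (l + w)) := by
    rw [hB]; ring
  have e2 : (6 * c * σs hV ^ (l + 1) * (w * σs hV ^ w) + B * σs hV ^ w) * σs hV ^ l =
      w * (6 * c * σs hV ^ (l + 1 + (l + w))) + B * σs hV ^ (l + w) := by ring
  have e3 : w * (c * σs hV ^ (l + 1)) * σs hV ^ (l + w) = w * (c * σs hV ^ (l + 1 + (l + w))) := by
    ring
  constructor <;> linarith [q1.1, q1.2, q2.1, q2.2, q3.1, q3.2, q4.1, q4.2]

end Pool.Agent.Lib.MP_5d78b4_mp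
end

-- part Pool.Agent.Lib.MP_5d78b4_mp.Main
section

set_option autoImplicit false
open Filter Topology

namespace Pool.Agent.Lib.MP_5d78b4_mp

theorem xs_cont (lam : ℝ) (k : ℕ) : Continuous fun E => xs lam E k := by
  simpa only [xp_eval] using (xp lam k).continuous

theorem spec1_closed {lam : ℝ} (hl : 0 < lam) : IsClosed (spec1 lam) := by
  have : spec1 lam = ⋂ k, {E | |xs lam E (k + 1)| ≤ 1} ∪ {E | |xs lam E (k + 2)| ≤ 1} := by
    ext E
    simp only [Set.mem_iInter, Set.mem_union, Set.mem_setOf_eq]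
    refine ⟨suto_of_mem lam hl E, fun h => suto_of_freq lam hl E (frequently_atTop.2 fun n => ?_)⟩
    rcases h n with h | h
    · exact ⟨_, by omega, h⟩
    · exact ⟨_, by omega, h⟩
  rw [this]
  exact isClosed_iInter fun k => (isClosed_le (xs_cont lam _).abs continuous_const).union
    (isClosed_le (xs_cont lam _).abs continuous_const)

theorem main_formula {lam : ℝ} (hl : 0 < lam) {d : ℕ} (hd : 1 ≤ d) :
    DimFormula (spec1 lam) (specd lam d) d := by
  obtain ⟨C, hC, hL⟩ := coding hl (na (hVl hl))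
  rw [specd_eq lam d hd]
  refine abs_main _ _ _ _ C hC (piR hl false) hL _ (spec1_closed hl) ?_
    (fun E hE => cover hl (suto_of_mem lam hl E hE)) d hd
  rintro _ ⟨ω, rfl⟩
  exact suto_of_freq lam hl _ (piR_freq hl ω)

end Pool.Agent.Lib.MP_5d78b4_mp
end
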